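import Pool.Agent.Helper10.HS.Brk

/-!
# Project HS, piece Adp: adapted coordinates, the types of the pairs `(f, g)`

`chi l t` is the value of the character of the line `l`, `ad l t` are the coordinates in which the
second component is `chi l t`.

`ramF_ad`: `comm p n` is additive in both arguments up to the Frobenius, `c.val ^ p ^ n = c.val` in
`F` (`ZMod.pow_card`-like, `frobenius`), so `comm p n f (c f + g) = comm p n f g` and
`comm p n g f = -comm p n f g`; so `ramF (ad l t) n m = ± ramF t n m` (for `none`: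
`ramF (g, f, -h) n m = -ramF (f, g, h) n m`). Hence `lastBreak_ad`.

`isMin_iff`: if `b = sw B < sw A = a`, `(A, B) = ad l t`, then all other lines are combinations
`x A + y B` with `x ≠ 0` (in `𝔽_p`), so have pole order `a` (`sw_add_of_lt`, `sw_val_nsmul`); e.g. for
`l = some c`: `c' f + g = (c' - c) f + (c f + g)` and `f = A`.

`eqT_chi`: leading coefficients at `a = sw f = sw g`: `c f_a + g_a ≠ 0` since `f_a ≠ -c⁻¹ g_a`
(`c = 0`: `g_a ≠ 0`).

`indep_iff`: `Indep t` iff all `chi l t ≠ 0` (every nonzero `ψ` is a nonzero multiple of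
`(1, 0)` or of `(c, 1)`). If `t` is independent, take `l` with the smallest `sw (chi l t)`; if some
`sw (chi l t) ≠ sw (chi l' t)` then `IsMin l t` by the ultrametric property (if two different lines
`l`, `l'` had pole order `≤ b` then all lines would); if all are equal to `a` then `EqT t`.
-/

namespace Pool.Agent.Helper10.HS

variable {p : ℕ} [Fact p.Prime] {F : Type} [Field F] [CharP F p]

/-- the value of the character of the line -/
noncomputable def chi (l : Line p) (t : Tor p F) : Par p F :=
  match l with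
  | none => t.1
  | some c => c.val • t.1 + t.2.1

/-- adapted coordinates -/
noncomputable def adFun (l : Line p) (t : Tor p F) : Tor p F :=
  match l with
  | none => (t.2.1, t.1, -t.2.2)
  | some c => (t.1, c.val • t.1 + t.2.1, t.2.2)

/-- the inverse -/
noncomputable def adInv (l : Line p) (t : Tor p F) : Tor p F :=
  match l with
  | none => (t.2.1, t.1, -t.2.2)
  | some c => (t.1, t.2.1 - c.val • t.1, t.2.2)

/-- adapted coordinates, as a bijection -/
noncomputable def ad (l : Line p) : Tor p F ≃ Tor p F where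
  toFun := adFun l
  invFun := adInv l
  left_inv := by
    rintro ⟨f, g, h⟩
    cases l with
    | none => exact Prod.ext rfl (Prod.ext rfl (neg_neg h))
    | some c => exact Prod.ext rfl (Prod.ext (add_sub_cancel_left (c.val • f) g) rfl)
  right_inv := by
    rintro ⟨f, g, h⟩
    cases l with
    | none => exact Prod.ext rfl (Prod.ext rfl (neg_neg h))
    | some c => exact Prod.ext rfl (Prod.ext (add_sub_cancel (c.val • f) g) rfl)

theorem ad_none (t : Tor p F) : ad none t = (t.2.1, t.1, -t.2.2) := rfl

theorem ad_some (c : ZMod p) (t : Tor p F) :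
    ad (some c) t = (t.1, c.val • t.1 + t.2.1, t.2.2) := rfl

theorem ad_snd (l : Line p) (t : Tor p F) : (ad l t).2.1 = chi l t := by
  cases l with
  | none => rfl
  | some c => rfl

/-- the line `l` has the smallest pole order, strictly -/
def IsMin (l : Line p) (t : Tor p F) : Prop :=
  chi l t ≠ 0 ∧ ∀ l', l' ≠ l → sw (chi l t) < sw (chi l' t)

/-- all lines have the same pole order -/
def EqT (t : Tor p F) : Prop :=
  t.2.1 ≠ 0 ∧ sw t.1 = sw t.2.1 ∧
    ∀ c : ZMod p, t.1.1 (sw t.1) ≠ (c.val : F) * t.2.1.1 (sw t.1)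

private theorem hsa_pow (n k : ℕ) : ((k : ℕ) : F) ^ p ^ n = (k : F) := by
  have h := map_natCast (iterateFrobenius F p n) k
  rwa [iterateFrobenius_def] at h

private theorem hsa_comm_swap (n : ℕ) (f g : ℕ →₀ F) (m : ℕ) :
    comm p n g f m = -comm p n f g m := by
  unfold comm
  rw [← Finset.sum_neg_distrib]
  refine Finset.sum_congr rfl fun a _ => ?_
  ring

private theorem hsa_comm_add (n k : ℕ) (f g : Par p F) (m : ℕ) :
    comm p n f.1 (k • f + g).1 m = comm p n f.1 g.1 m := by
  unfold comm
  refine Finset.sum_congr rfl fun a _ => ?_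
  have h1 : ((k : F) * f.1 a + g.1 a) ^ p ^ n =
      (k : F) * f.1 a ^ p ^ n + g.1 a ^ p ^ n := by
    have h2 := map_add (iterateFrobenius F p n) ((k : F) * f.1 a) (g.1 a)
    rw [iterateFrobenius_def, iterateFrobenius_def, iterateFrobenius_def, mul_pow,
      hsa_pow (p := p) n k] at h2
    exact h2
  rw [par_add, par_nsmul, par_add, par_nsmul, h1]
  ring

private theorem hsa_ramF_ad (l : Line p) (t : Tor p F) (n m : ℕ) :
    ramF (ad l t) n m ≠ 0 ↔ ramF t n m ≠ 0 := by
  cases l with
  | none =>
    have h1 : ramF (ad none t) n m = -ramF t n m := by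
      rw [ad_none]
      unfold ramF
      split_ifs with h
      · change (m : F) * (-t.2.2).1 m + comm p 0 t.2.1.1 t.1.1 m / 2 = _
        rw [par_neg, hsa_comm_swap 0 t.1.1 t.2.1.1 m]
        ring
      · exact hsa_comm_swap n t.1.1 t.2.1.1 m
    rw [h1, neg_ne_zero]
  | some c =>
    have h1 : ramF (ad (some c) t) n m = ramF t n m := by
      rw [ad_some]
      unfold ramF
      split_ifs with h
      · change (m : F) * t.2.2.1 m + comm p 0 t.1.1 (c.val • t.1 + t.2.1).1 m / 2 = _
        rw [hsa_comm_add]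
      · exact hsa_comm_add n c.val t.1 t.2.1 m
    rw [h1]

private theorem hsa_ramF_shift (t : Tor p F) (α β : F) (m : ℕ) (hba : sw t.2.1 ≤ sw t.1)
    (hm : sw t.1 < m) :
    ramF (t.1, t.2.1, t.2.2 + α • t.1 + β • t.2.1) 0 m = ramF t 0 m := by
  unfold ramF
  rw [if_pos rfl, if_pos rfl]
  change (m : F) * (t.2.2 + α • t.1 + β • t.2.1).1 m + comm p 0 t.1.1 t.2.1.1 m / 2 = _
  rw [par_add, par_add, par_smul, par_smul, eq_zero_of_sw_lt hm,
    eq_zero_of_sw_lt (lt_of_le_of_lt hba hm), mul_zero, mul_zero, add_zero, add_zero]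

private theorem hsa_Ub_shift (t : Tor p F) (α β : F) (hba : sw t.2.1 ≤ sw t.1) :
    Ub (t.1, t.2.1, t.2.2 + α • t.1 + β • t.2.1) = Ub t := by
  set t' : Tor p F := (t.1, t.2.1, t.2.2 + α • t.1 + β • t.2.1) with ht'
  have key : ∀ y, sw t.1 ≤ y → (bigM t' ≤ y ↔ bigM t ≤ y) := by
    intro y hy
    rw [bigM_le_iff, bigM_le_iff]
    refine forall_congr' fun m => forall_congr' fun hm => ?_
    rw [ht', hsa_ramF_shift t α β m hba (lt_of_le_of_lt hy hm)]
  have h1 : Ub t' = max (p * sw t.1 + sw t.2.1) (p * bigM t') := rfl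
  have h2 : Ub t = max (p * sw t.1 + sw t.2.1) (p * bigM t) := rfl
  rw [h1, h2]
  rcases le_or_gt (bigM t') (sw t.1) with h3 | h3
  · have h4 := (key _ le_rfl).1 h3
    have h5 := Nat.mul_le_mul_left p h3
    have h6 := Nat.mul_le_mul_left p h4
    rw [max_eq_left (by omega), max_eq_left (by omega)]
  · have h4 : sw t.1 < bigM t := by
      by_contra h5
      exact absurd ((key _ le_rfl).2 (not_lt.1 h5)) (not_le.2 h3)
    have h5 : bigM t ≤ bigM t' := (key _ h3.le).1 le_rfl
    have h6 : bigM t' ≤ bigM t := (key _ h4.le).2 le_rfl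
    rw [le_antisymm h5 h6]

theorem lastBreak_ad (l : Line p) (t : Tor p F) : lastBreak (ad l t) = lastBreak t := by
  unfold lastBreak
  congr 1
  ext u
  simp only [Set.mem_ofPred_eq, hsa_ramF_ad]

private theorem hsb_phi (c : ZMod p) : ((c.val : ℕ) : F) = ZMod.castHom (dvd_refl p) F c := by
  rw [ZMod.castHom_apply, ZMod.natCast_val]

private theorem hsb_add_lt {f g : Par p F} (h : sw f < sw g) (c : ZMod p) :
    sw (c.val • f + g) = sw g := by
  by_cases hc : c = 0
  · rw [hc, ZMod.val_zero, zero_smul, zero_add]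
  · rw [add_comm]
    exact sw_add_of_lt (by rw [sw_val_nsmul hc]; exact h)

private theorem hsb_key (l : Line p) (t : Tor p F) (h : sw (chi l t) < sw (ad l t).1)
    (l' : Line p) (hl : l' ≠ l) : sw (chi l' t) = sw (ad l t).1 := by
  cases l with
  | none =>
    cases l' with
    | none => exact absurd rfl hl
    | some c => exact hsb_add_lt h c
  | some c =>
    cases l' with
    | none => rfl
    | some c' =>
      have hne : c' - c ≠ 0 := by
        intro h0
        exact hl (by rw [sub_eq_zero.1 h0])
      have e : chi (some c') t = (c' - c).val • t.1 + (c.val • t.1 + t.2.1) := by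
        change c'.val • t.1 + t.2.1 = _
        rw [← add_assoc, ← val_add_nsmul, sub_add_cancel]
      rw [e]
      change _ = sw t.1
      rw [sw_add_of_lt, sw_val_nsmul hne]
      rw [sw_val_nsmul hne]
      exact h

private theorem hsb_other (l : Line p) (t : Tor p F) :
    ∃ l', l' ≠ l ∧ (ad l t).1 = chi l' t := by
  cases l with
  | none =>
    refine ⟨some 0, by simp, ?_⟩
    change t.2.1 = (0 : ZMod p).val • t.1 + t.2.1
    rw [ZMod.val_zero, zero_smul, zero_add]
  | some c => exact ⟨none, by simp, rfl⟩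

theorem isMin_iff (l : Line p) (t : Tor p F) :
    IsMin l t ↔ 0 < sw (ad l t).2.1 ∧ sw (ad l t).2.1 < sw (ad l t).1 := by
  rw [ad_snd]
  constructor
  · rintro ⟨h1, h2⟩
    obtain ⟨l', h3, h4⟩ := hsb_other l t
    refine ⟨sw_pos h1, ?_⟩
    rw [h4]
    exact h2 l' h3
  · rintro ⟨h1, h2⟩
    refine ⟨?_, fun l' hl => ?_⟩
    · intro h0
      rw [h0, sw_zero] at h1
      exact lt_irrefl _ h1
    · rw [hsb_key l t h2 l' hl]
      exact h2

theorem sw_of_isMin (l : Line p) (t : Tor p F) (h : IsMin l t) (l' : Line p) (hl : l' ≠ l) :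
    sw (chi l' t) = sw (ad l t).1 := by
  have h1 := ((isMin_iff l t).1 h).2
  rw [ad_snd] at h1
  exact hsb_key l t h1 l' hl

theorem sw_of_eqT (t : Tor p F) (h : EqT t) (l : Line p) : sw (chi l t) = sw t.1 := by
  cases l with
  | none => rfl
  | some c =>
    obtain ⟨h1, h2, h3⟩ := h
    apply sw_eq_of
    · change (c.val • t.1 + t.2.1).1 (sw t.1) ≠ 0
      rw [par_add, par_nsmul]
      intro h4
      by_cases hc : c = 0
      · rw [hc, ZMod.val_zero, Nat.cast_zero, zero_mul, zero_add, h2] at h4
        exact sw_spec h1 h4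
      · apply h3 (-c⁻¹)
        have h5 : ((c.val : ℕ) : F) ≠ 0 := fun h6 => hc (cast_val_eq_zero.1 h6)
        rw [hsb_phi] at h4 h5 ⊢
        rw [map_neg, map_inv₀]
        field_simp
        linear_combination h4
    · intro i hi
      change (c.val • t.1 + t.2.1).1 i = 0
      rw [par_add, par_nsmul, eq_zero_of_sw_lt hi, eq_zero_of_sw_lt (h2 ▸ hi), mul_zero, add_zero]

theorem indep_iff_chi (t : Tor p F) : Indep t ↔ ∀ l, chi l t ≠ 0 := by
  have hp1 : (1 : ZMod p).val = 1 := by
    haveI : Fact (1 < p) := ⟨(Fact.out : p.Prime).one_lt⟩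
    exact ZMod.val_one p
  constructor
  · intro h l
    cases l with
    | none =>
      have h1 := h (1, 0) (by
        intro h0
        exact one_ne_zero (congrArg Prod.fst h0))
      unfold lin at h1
      simp only [hp1, ZMod.val_zero, one_smul, zero_smul, add_zero] at h1
      exact h1
    | some c =>
      have h1 := h (c, 1) (by
        intro h0
        exact one_ne_zero (congrArg Prod.snd h0))
      unfold lin at h1
      simp only [hp1, one_smul] at h1
      exact h1
  · intro h ψ hψ h0
    obtain ⟨α, β⟩ := ψ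
    by_cases hβ : β = 0
    · have hα : α ≠ 0 := by
        intro h1
        exact hψ (by rw [h1, hβ]; rfl)
      unfold lin at h0
      simp only [hβ, ZMod.val_zero, zero_smul, add_zero] at h0
      have h1 := h none
      apply h1
      have h2 : sw t.1 = 0 := by
        rw [← sw_val_nsmul hα t.1, h0, sw_zero]
      exact sw_eq_zero.1 h2
    · have h1 := h (some (β⁻¹ * α))
      apply h1
      have e : β.val • chi (some (β⁻¹ * α)) t = lin (α, β) t := by
        apply par_ext
        intro i
        change (β.val • ((β⁻¹ * α).val • t.1 + t.2.1)).1 i = (α.val • t.1 + β.val • t.2.1).1 i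
        have h5 : ((β.val : ℕ) : F) ≠ 0 := fun h6 => hβ (cast_val_eq_zero.1 h6)
        simp only [par_nsmul, par_add]
        rw [hsb_phi] at h5 ⊢
        rw [hsb_phi (β⁻¹ * α), hsb_phi α, map_mul, map_inv₀]
        field_simp
      have h2 : sw (chi (some (β⁻¹ * α)) t) = 0 := by
        rw [← sw_val_nsmul hβ, e, h0, sw_zero]
      exact sw_eq_zero.1 h2

theorem indep_iff (t : Tor p F) : Indep t ↔ (∃ l, IsMin l t) ∨ EqT t := by
  rw [indep_iff_chi]
  constructor
  · intro h
    by_cases hm : ∃ l, IsMin l t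
    · exact Or.inl hm
    right
    have hn : ∀ l, ¬ IsMin l t := fun l hl => hm ⟨l, hl⟩
    have hf : t.1 ≠ 0 := h none
    have hg : t.2.1 ≠ 0 := by
      have h1 := h (some 0)
      change (0 : ZMod p).val • t.1 + t.2.1 ≠ 0 at h1
      rwa [ZMod.val_zero, zero_smul, zero_add] at h1
    have hsw : sw t.1 = sw t.2.1 := by
      rcases lt_trichotomy (sw t.1) (sw t.2.1) with h1 | h1 | h1
      · exact absurd ((isMin_iff none t).2 ⟨sw_pos hf, h1⟩) (hn none)
      · exact h1
      · refine absurd ((isMin_iff (some 0) t).2 ?_) (hn (some 0))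
        have e : (ad (some 0) t).2.1 = t.2.1 := by
          change (0 : ZMod p).val • t.1 + t.2.1 = t.2.1
          rw [ZMod.val_zero, zero_smul, zero_add]
        rw [e]
        exact ⟨sw_pos hg, h1⟩
    refine ⟨hg, hsw, fun c hc => ?_⟩
    have hfa := sw_spec hf
    have hc0 : c ≠ 0 := by
      intro h0
      rw [h0, ZMod.val_zero, Nat.cast_zero, zero_mul] at hc
      exact hfa hc
    have h5 : ((c.val : ℕ) : F) ≠ 0 := fun h6 => hc0 (cast_val_eq_zero.1 h6)
    have hcoef : (chi (some (-c⁻¹)) t).1 (sw t.1) = 0 := by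
      change ((-c⁻¹).val • t.1 + t.2.1).1 (sw t.1) = 0
      rw [par_add, par_nsmul, hc]
      rw [hsb_phi] at h5 ⊢
      rw [hsb_phi c, map_neg, map_inv₀]
      field_simp
      ring
    have hle : sw (chi (some (-c⁻¹)) t) ≤ sw t.1 := by
      rw [sw_le_iff]
      intro i hi
      change ((-c⁻¹).val • t.1 + t.2.1).1 i = 0
      rw [par_add, par_nsmul, eq_zero_of_sw_lt hi, eq_zero_of_sw_lt (hsw ▸ hi), mul_zero, add_zero]
    have hlt : sw (chi (some (-c⁻¹)) t) < sw t.1 := by
      refine lt_of_le_of_ne hle fun h6 => ?_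
      have h7 := sw_spec (h (some (-c⁻¹)))
      rw [h6] at h7
      exact h7 hcoef
    exact hn (some (-c⁻¹)) ((isMin_iff _ t).2 ⟨sw_pos (h (some (-c⁻¹))), hlt⟩)
  · rintro (⟨l, hl⟩ | he) l'
    · by_cases h1 : l' = l
      · rw [h1]
        exact hl.1
      · intro h0
        have h2 := hl.2 l' h1
        rw [h0, sw_zero] at h2
        omega
    · intro h0
      have h1 := sw_of_eqT t he l'
      rw [h0, sw_zero, he.2.1] at h1
      exact (sw_pos he.1).ne h1

theorem isMin_unique (t : Tor p F) (l l' : Line p) (h : IsMin l t) (h' : IsMin l' t) :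
    l = l' := by
  by_contra hne
  have h1 := h.2 l' (fun h2 => hne h2.symm)
  have h2 := h'.2 l hne
  omega

theorem isMin_not_eqT (t : Tor p F) (l : Line p) (h : IsMin l t) : ¬EqT t := by
  intro he
  obtain ⟨l', h1, _⟩ := hsb_other l t
  have h2 := h.2 l' h1
  rw [sw_of_eqT t he, sw_of_eqT t he] at h2
  exact lt_irrefl _ h2

/-- (from `lastBreak_eq` and `lastBreak_ad`) -/
theorem lastBreak_isMin (hp : p ≠ 2) (l : Line p) (t : Tor p F) (h : IsMin l t) :
    lastBreak t = (Ub (ad l t) : ℝ) / p := by
  have h1 := (isMin_iff l t).1 h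
  rw [← lastBreak_ad l t]
  exact lastBreak_eq hp (ad l t) h1.1 h1.2.le fun h2 => absurd h2 h1.2.ne'

theorem lastBreak_eqT (hp : p ≠ 2) (t : Tor p F) (h : EqT t) : lastBreak t = (Ub t : ℝ) / p := by
  exact lastBreak_eq hp t (sw_pos h.1) h.2.1.ge fun _ => h.2.2

/-- Adding multiples of `f`, `g` with coefficients in `F` to `h` does not change the last break.
By the two formulas above it is enough to show `Ub (f, g, h + α f + β g) = Ub (f, g, h)` for
`sw g ≤ sw f`: the numbers `ramF 0 m` do not change for `m > sw f`, and `p * bigM ≤ p * sw f` is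
irrelevant in the maximum (`ad l` transforms `(f, g, h + α f + β g)` into such a triple, too). -/
theorem lastBreak_shift (hp : p ≠ 2) (t : Tor p F) (h : Indep t) (α β : F) :
    lastBreak (t.1, t.2.1, t.2.2 + α • t.1 + β • t.2.1) = lastBreak t := by
  set t' : Tor p F := (t.1, t.2.1, t.2.2 + α • t.1 + β • t.2.1) with ht'
  have hchi : ∀ l, chi l t' = chi l t := by
    intro l
    cases l with
    | none => rfl
    | some c => rfl
  rcases (indep_iff t).1 h with ⟨l, hl⟩ | he
  · have hl' : IsMin l t' := by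
      refine ⟨by rw [hchi]; exact hl.1, fun l' h1 => ?_⟩
      rw [hchi, hchi]
      exact hl.2 l' h1
    rw [lastBreak_isMin hp l t hl, lastBreak_isMin hp l t' hl']
    have h1 := ((isMin_iff l t).1 hl).2.le
    have h2 : ∃ α' β' : F, ad l t' = ((ad l t).1, (ad l t).2.1,
        (ad l t).2.2 + α' • (ad l t).1 + β' • (ad l t).2.1) := by
      cases l with
      | none =>
        refine ⟨-β, -α, ?_⟩
        rw [ad_none, ad_none]
        refine Prod.ext rfl (Prod.ext rfl ?_)
        apply par_ext
        intro i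
        simp only [ht', par_neg, par_add, par_smul]
        ring
      | some c =>
        refine ⟨α - β * (c.val : F), β, ?_⟩
        rw [ad_some, ad_some]
        refine Prod.ext rfl (Prod.ext rfl ?_)
        apply par_ext
        intro i
        simp only [ht', par_add, par_smul, par_nsmul]
        ring
    obtain ⟨α', β', h3⟩ := h2
    rw [h3, hsa_Ub_shift (ad l t) α' β' h1]
  · have he' : EqT t' := he
    rw [lastBreak_eqT hp t he, lastBreak_eqT hp t' he', ht', hsa_Ub_shift t α β he.2.1.ge]

end Pool.Agent.Helper10.HS
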