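import Pool.Agent.Helper10.HS.Fn

/-!
# Project HS (MP_827cb6_ag): basic facts on pole orders
-/

namespace Pool.Agent.Helper10.HS

section

variable {p : ℕ} {F : Type} [Field F]

theorem par_ext {f g : Par p F} (h : ∀ i, f.1 i = g.1 i) : f = g :=
  Subtype.ext (Finsupp.ext h)

@[simp] theorem par_add (f g : Par p F) (i : ℕ) : (f + g).1 i = f.1 i + g.1 i := rfl
@[simp] theorem par_neg (f : Par p F) (i : ℕ) : (-f).1 i = -f.1 i := rfl
@[simp] theorem par_sub (f g : Par p F) (i : ℕ) : (f - g).1 i = f.1 i - g.1 i := rfl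
@[simp] theorem par_zero (i : ℕ) : (0 : Par p F).1 i = 0 := rfl
@[simp] theorem par_smul (c : F) (f : Par p F) (i : ℕ) : (c • f).1 i = c * f.1 i := rfl
@[simp] theorem par_nsmul (n : ℕ) (f : Par p F) (i : ℕ) : (n • f).1 i = (n : F) * f.1 i := by
  have : n • f = (n : F) • f := (Nat.cast_smul_eq_nsmul F n f).symm
  rw [this, par_smul]

theorem sw_le_iff (f : Par p F) (n : ℕ) : sw f ≤ n ↔ ∀ i, n < i → f.1 i = 0 := by
  unfold sw
  rw [Finset.sup_le_iff]
  constructor
  · intro h i hi
    by_contra hne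
    have := h i (Finsupp.mem_support_iff.2 hne)
    simp only [id] at this
    omega
  · intro h i hi
    by_contra hne
    exact (Finsupp.mem_support_iff.1 hi) (h i (by simpa using hne))

theorem eq_zero_of_sw_lt {f : Par p F} {i : ℕ} (h : sw f < i) : f.1 i = 0 :=
  (sw_le_iff f _).1 le_rfl i h

theorem le_sw {f : Par p F} {i : ℕ} (h : f.1 i ≠ 0) : i ≤ sw f := by
  by_contra hne
  exact h (eq_zero_of_sw_lt (by omega))

theorem sw_spec {f : Par p F} (h : f ≠ 0) : f.1 (sw f) ≠ 0 := by
  have h1 : f.1.support.Nonempty := by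
    rw [Finsupp.support_nonempty_iff]
    intro h0
    exact h (Subtype.ext h0)
  have h2 := Finset.exists_mem_eq_sup f.1.support h1 id
  obtain ⟨i, hi, he⟩ := h2
  have : sw f = i := he
  rw [this]
  exact Finsupp.mem_support_iff.1 hi

theorem not_dvd_sw {f : Par p F} (h : f ≠ 0) : ¬p ∣ sw f := fun hd => sw_spec h (f.2 _ hd)

theorem sw_pos {f : Par p F} (h : f ≠ 0) : 0 < sw f := by
  rcases Nat.eq_zero_or_pos (sw f) with h0 | h0
  · exact absurd (h0 ▸ dvd_zero p) (not_dvd_sw h)
  · exact h0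

@[simp] theorem sw_zero : sw (0 : Par p F) = 0 := rfl

theorem sw_eq_zero {f : Par p F} : sw f = 0 ↔ f = 0 := by
  constructor
  · intro h
    by_contra h0
    exact (sw_pos h0).ne' h
  · rintro rfl
    rfl

/-- the characterisation of the pole order -/
theorem sw_eq_of {f : Par p F} {n : ℕ} (h1 : f.1 n ≠ 0) (h2 : ∀ i, n < i → f.1 i = 0) :
    sw f = n :=
  le_antisymm ((sw_le_iff f n).2 h2) (le_sw h1)

theorem sw_add_le (f g : Par p F) : sw (f + g) ≤ max (sw f) (sw g) := by
  rw [sw_le_iff]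
  intro i hi
  rw [par_add, eq_zero_of_sw_lt (lt_of_le_of_lt (le_max_left _ _) hi),
    eq_zero_of_sw_lt (lt_of_le_of_lt (le_max_right _ _) hi), add_zero]

@[simp] theorem sw_neg (f : Par p F) : sw (-f) = sw f := by
  apply le_antisymm
  · rw [sw_le_iff]
    intro i hi
    rw [par_neg, eq_zero_of_sw_lt hi, neg_zero]
  · rw [sw_le_iff]
    intro i hi
    have := eq_zero_of_sw_lt hi
    rw [par_neg, neg_eq_zero] at this
    exact this

theorem sw_smul {c : F} (hc : c ≠ 0) (f : Par p F) : sw (c • f) = sw f := by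
  apply le_antisymm
  · rw [sw_le_iff]
    intro i hi
    rw [par_smul, eq_zero_of_sw_lt hi, mul_zero]
  · rw [sw_le_iff]
    intro i hi
    have := eq_zero_of_sw_lt hi
    rw [par_smul] at this
    exact (mul_eq_zero.1 this).resolve_left hc

/-- if the pole orders differ, the larger one wins -/
theorem sw_add_of_lt {f g : Par p F} (h : sw g < sw f) : sw (f + g) = sw f := by
  have hf : f ≠ 0 := by
    rintro rfl
    simp at h
  apply sw_eq_of
  · rw [par_add, eq_zero_of_sw_lt h, add_zero]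
    exact sw_spec hf
  · intro i hi
    rw [par_add, eq_zero_of_sw_lt hi, eq_zero_of_sw_lt (h.trans hi), add_zero]

end

section

variable {p : ℕ} [Fact p.Prime] {F : Type} [Field F] [CharP F p]

theorem cast_val_eq_zero {a : ZMod p} : ((a.val : ℕ) : F) = 0 ↔ a = 0 := by
  rw [CharP.cast_eq_zero_iff F p]
  constructor
  · intro h
    have := Nat.eq_zero_of_dvd_of_lt h (ZMod.val_lt a)
    exact (ZMod.val_eq_zero a).1 this
  · rintro rfl
    simp

theorem sw_val_nsmul {a : ZMod p} (ha : a ≠ 0) (f : Par p F) : sw (a.val • f) = sw f := by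
  have : a.val • f = ((a.val : ℕ) : F) • f := (Nat.cast_smul_eq_nsmul F a.val f).symm
  rw [this, sw_smul]
  intro h
  exact ha (cast_val_eq_zero.1 h)

end

end Pool.Agent.Helper10.HS
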