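import Pool.Agent.Helper10.HS.CntB

/-!
# Project HS, piece Brk: the last ramification break

`t = (f, g, h)`, `a = sw f ≥ b = sw g > 0`, and if `a = b` then `f_a / g_a ∉ 𝔽_p`. `Ub t` is `p` times
the last break. Proof of `lastBreak_eq`: let `S` be the set in `lastBreak`.

(1) `ramF t 1 (p a + b) = a (f_a^p g_b - g_a^p f_b) ≠ 0`: in the sum `comm p 1 f g (p a + b)` the terms
with `a₁ < a`, `a₂ = p a + b - p a₁ ≥ b + p` vanish: `g_(a₂) = 0`, and if `g_(a₁) ≠ 0 ≠ f_(a₂)` then
`a₁ ≤ b`, `a₂ ≤ a`, so `p a + b = p a₁ + a₂ ≤ p b + a`, `a = b`, `a₁ = a`; terms with `a₁ > a` vanish.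
If `a > b` the value is `a f_a^p g_b`. If `a = b` it is `a (f_a^p g_a - g_a^p f_a)`, and
`(f_a / g_a)^p = f_a / g_a` would imply `f_a / g_a ∈ 𝔽_p` (`frobenius_fixed`). So
`(p a + b) / p ∈ S`.
(2) for `n ≥ 1`, `ramF t n m ≠ 0` implies `m ≤ p^n a + b` (some term has `a₁ ≤ a`, `a₂ ≤ b` or
`a₁ ≤ b`, `a₂ ≤ a`, and `p^n b + a ≤ p^n a + b`), so `m / p^n ≤ a + b / p^n ≤ a + b / p`.
(3) `ramF t 0 m ≠ 0` implies `m ≤ bigM t` (`ramF_zero_large`), and `bigM t ∈ S` or `bigM t = 0`.
So `sSup S = max (a + b / p) (bigM t)` (`csSup_eq_of_forall_le_of_forall_lt_exists_gt`, or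
`le_antisymm (csSup_le …) (le_csSup …)`).
-/

namespace Pool.Agent.Helper10.HS

variable {p : ℕ} [Fact p.Prime] {F : Type} [Field F] [CharP F p]

open Classical in
/-- the largest integer `m` with `F_m ≠ 0` -/
noncomputable def bigM (t : Tor p F) : ℕ :=
  ((Finset.range (sw t.2.2 + sw t.1 + sw t.2.1 + 1)).filter fun m => ramF t 0 m ≠ 0).sup id

/-- `p` times the last break, for adapted `(f, g)` -/
noncomputable def Ub (t : Tor p F) : ℕ := max (p * sw t.1 + sw t.2.1) (p * bigM t)

theorem ramF_zero_large (t : Tor p F) (m : ℕ) (hm : sw t.2.2 + sw t.1 + sw t.2.1 < m) :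
    ramF t 0 m = 0 := by
  have h1 : t.2.2.1 m = 0 := eq_zero_of_sw_lt (by omega)
  have h2 : comm p 0 t.1.1 t.2.1.1 m = 0 := by
    unfold comm
    refine Finset.sum_eq_zero fun a ha => ?_
    rw [Finset.mem_filter, pow_zero, one_mul] at ha
    rw [pow_zero, one_mul, pow_one, pow_one]
    have h3 : t.1.1 a * t.2.1.1 (m - a) = 0 := by
      by_cases hx : sw t.1 < a
      · rw [eq_zero_of_sw_lt hx, zero_mul]
      · rw [eq_zero_of_sw_lt (f := t.2.1) (i := m - a) (by omega), mul_zero]
    have h4 : t.2.1.1 a * t.1.1 (m - a) = 0 := by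
      by_cases hx : sw t.2.1 < a
      · rw [eq_zero_of_sw_lt hx, zero_mul]
      · rw [eq_zero_of_sw_lt (f := t.1) (i := m - a) (by omega), mul_zero]
    rw [h3, h4, sub_zero, mul_zero]
  unfold ramF
  rw [if_pos rfl, h1, h2, mul_zero, zero_div, add_zero]

theorem bigM_le_iff (t : Tor p F) (y : ℕ) : bigM t ≤ y ↔ ∀ m, y < m → ramF t 0 m = 0 := by
  classical
  unfold bigM
  rw [Finset.sup_le_iff]
  constructor
  · intro h m hm
    by_contra hne
    by_cases hl : sw t.2.2 + sw t.1 + sw t.2.1 < m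
    · exact hne (ramF_zero_large t m hl)
    · have h1 := h m (Finset.mem_filter.2 ⟨Finset.mem_range.2 (by omega), hne⟩)
      simp only [id] at h1
      omega
  · intro h m hm
    rw [Finset.mem_filter] at hm
    by_contra hne
    exact hm.2 (h m (by simpa using hne))

/-- the roots of `x^p - x` are the elements of `𝔽_p` -/
theorem frobenius_fixed (x : F) (hx : x ^ p = x) : ∃ c : ZMod p, x = (c.val : F) := by
  have h1 : x ∈ (⊥ : Subfield F) := (Subfield.mem_bot_iff_pow_eq_self F p).2 hx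
  obtain ⟨n, hn⟩ := (mem_bot_iff_intCast p F).1 h1
  refine ⟨(n : ZMod p), ?_⟩
  rw [← hn]
  have h2 : ((((n : ZMod p).val : ℕ) : ℤ) : F) = (n : F) := by
    rw [CharP.intCast_eq_intCast F p, ← ZMod.intCast_eq_intCast_iff]
    simp
  rw [← h2, Int.cast_natCast]

theorem lastBreak_eq (hp : p ≠ 2) (t : Tor p F) (hb : 0 < sw t.2.1) (hba : sw t.2.1 ≤ sw t.1)
    (hind : sw t.1 = sw t.2.1 → ∀ c : ZMod p, t.1.1 (sw t.1) ≠ (c.val : F) * t.2.1.1 (sw t.1)) :
    lastBreak t = (Ub t : ℝ) / p := by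
  have hp0 : 0 < p := (Fact.out : p.Prime).pos
  have hp1 : 1 < p := (Fact.out : p.Prime).one_lt
  have hpR : (0 : ℝ) < p := by exact_mod_cast hp0
  have hg0 : t.2.1 ≠ 0 := fun h => by rw [h, sw_zero] at hb; exact lt_irrefl _ hb
  have hf0 : t.1 ≠ 0 := fun h => by rw [h, sw_zero] at hba; omega
  obtain ⟨a, ha⟩ : ∃ a, a = sw t.1 := ⟨_, rfl⟩
  obtain ⟨b, hb'⟩ : ∃ b, b = sw t.2.1 := ⟨_, rfl⟩
  rw [← hb'] at hb hba
  rw [← ha] at hba
  have hfa : t.1.1 a ≠ 0 := by rw [ha]; exact sw_spec hf0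
  have hgb : t.2.1.1 b ≠ 0 := by rw [hb']; exact sw_spec hg0
  have hfz : ∀ i, a < i → t.1.1 i = 0 := fun i hi => eq_zero_of_sw_lt (by rw [← ha]; exact hi)
  have hgz : ∀ i, b < i → t.2.1.1 i = 0 := fun i hi => eq_zero_of_sw_lt (by rw [← hb']; exact hi)
  -- the term of level one
  have h1 : ramF t 1 (p * a + b) ≠ 0 := by
    have e1 : ramF t 1 (p * a + b) =
        (a : F) * (t.1.1 a ^ p * t.2.1.1 b - t.2.1.1 a ^ p * t.1.1 b) := by
      unfold ramF
      rw [if_neg one_ne_zero]
      unfold comm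
      rw [pow_one, Finset.sum_eq_single a]
      · rw [Nat.add_sub_cancel_left]
      · intro a₁ h1 h2
        rw [Finset.mem_filter, Finset.mem_range] at h1
        rcases lt_or_gt_of_ne h2 with h3 | h3
        · have h4 : p * a₁ + p ≤ p * a := by
            have := Nat.mul_le_mul_left p (Nat.succ_le_of_lt h3)
            rw [Nat.mul_succ] at this
            exact this
          have h5 : t.2.1.1 (p * a + b - p * a₁) = 0 := hgz _ (by omega)
          have h6 : t.2.1.1 a₁ ^ p * t.1.1 (p * a + b - p * a₁) = 0 := by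
            by_cases h7 : b < a₁
            · rw [hgz _ h7, zero_pow hp0.ne', zero_mul]
            · rw [hfz (p * a + b - p * a₁) ?_, mul_zero]
              have h8 : p * a₁ ≤ p * b := Nat.mul_le_mul_left p (by omega)
              obtain ⟨x, rfl⟩ : ∃ x, a = b + x := ⟨a - b, by omega⟩
              by_contra h9
              have h10 : p * (b + x) + b ≤ b + x + p * a₁ := by omega
              rw [Nat.mul_add] at h10
              have h11 : p * x ≤ x := by omega
              have h12 : 2 * x ≤ p * x := Nat.mul_le_mul_right x hp1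
              have h13 : x = 0 := by omega
              subst h13
              rw [Nat.add_zero] at h3 h4 h9
              omega
          rw [h5, h6, mul_zero, sub_zero, mul_zero]
        · rw [hfz a₁ h3, hgz a₁ (by omega), zero_pow hp0.ne', zero_mul, zero_mul, sub_zero,
            mul_zero]
      · intro h1
        exfalso
        apply h1
        rw [Finset.mem_filter, Finset.mem_range]
        have : a ≤ p * a := Nat.le_mul_of_pos_left a hp0
        omega
    rw [e1]
    refine mul_ne_zero ?_ ?_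
    · intro h0
      rw [CharP.cast_eq_zero_iff F p] at h0
      rw [ha] at h0
      exact not_dvd_sw hf0 h0
    · rcases hba.lt_or_eq with h2 | h2
      · rw [hgz a h2, zero_pow hp0.ne', zero_mul, sub_zero]
        exact mul_ne_zero (pow_ne_zero _ hfa) hgb
      · subst h2
        intro h0
        have h3 : (t.1.1 b / t.2.1.1 b) ^ p = t.1.1 b / t.2.1.1 b := by
          rw [div_pow, div_eq_div_iff (pow_ne_zero _ hgb) hgb]
          linear_combination h0
        obtain ⟨c, hc⟩ := frobenius_fixed _ h3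
        have h4 := hind (by rw [← ha, ← hb']) c
        rw [← ha] at h4
        apply h4
        rw [← hc, div_mul_cancel₀ _ hgb]
  -- the terms of positive level
  have h2 : ∀ n m, n ≠ 0 → ramF t n m ≠ 0 → m ≤ p ^ n * a + b := by
    intro n m hn hne
    by_contra hlt
    rw [not_le] at hlt
    apply hne
    unfold ramF
    rw [if_neg hn]
    unfold comm
    refine Finset.sum_eq_zero fun a₁ h3 => ?_
    have hpn : 0 < p ^ n := pow_pos hp0 n
    have h4 : t.1.1 a₁ ^ p ^ n * t.2.1.1 (m - p ^ n * a₁) = 0 := by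
      by_cases h5 : a < a₁
      · rw [hfz _ h5, zero_pow hpn.ne', zero_mul]
      · have h6 : p ^ n * a₁ ≤ p ^ n * a := Nat.mul_le_mul_left _ (by omega)
        rw [hgz (m - p ^ n * a₁) (by omega), mul_zero]
    have h5 : t.2.1.1 a₁ ^ p ^ n * t.1.1 (m - p ^ n * a₁) = 0 := by
      by_cases h5 : b < a₁
      · rw [hgz _ h5, zero_pow hpn.ne', zero_mul]
      · have h6 : p ^ n * a₁ ≤ p ^ n * b := Nat.mul_le_mul_left _ (by omega)
        obtain ⟨x, rfl⟩ : ∃ x, a = b + x := ⟨a - b, by omega⟩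
        have h7 : 1 * x ≤ p ^ n * x := Nat.mul_le_mul_right x hpn
        rw [Nat.mul_add] at hlt
        rw [hfz (m - p ^ n * a₁) (by omega), mul_zero]
    rw [h4, h5, sub_zero, mul_zero]
  -- the terms of level zero
  have h3 : ∀ m, ramF t 0 m ≠ 0 → m ≤ bigM t := by
    intro m hne
    by_contra hlt
    exact hne ((bigM_le_iff t (bigM t)).1 le_rfl m (not_le.1 hlt))
  have h4 : bigM t ≠ 0 → ramF t 0 (bigM t) ≠ 0 := by
    intro hM h0
    have h5 : bigM t ≤ bigM t - 1 := by
      rw [bigM_le_iff]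
      intro m hm
      rcases Nat.lt_or_ge (bigM t) m with h6 | h6
      · exact (bigM_le_iff t (bigM t)).1 le_rfl m h6
      · have h7 : m = bigM t := by omega
        rw [h7, h0]
    omega
  have hU : Ub t = max (p * a + b) (p * bigM t) := by
    unfold Ub
    rw [← ha, ← hb']
  unfold lastBreak
  refine IsGreatest.csSup_eq ⟨?_, ?_⟩
  · rcases le_total (p * bigM t) (p * a + b) with h5 | h5
    · refine ⟨1, p * a + b, h1, ?_⟩
      rw [hU, max_eq_left h5, pow_one]
    · have hM : bigM t ≠ 0 := by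
        intro h0
        rw [h0, Nat.mul_zero] at h5
        omega
      refine ⟨0, bigM t, h4 hM, ?_⟩
      rw [hU, max_eq_right h5, pow_zero, div_one]
      push_cast
      rw [mul_div_cancel_left₀ _ hpR.ne']
  · rintro u ⟨n, m, hne, rfl⟩
    rw [hU]
    by_cases hn : n = 0
    · subst hn
      rw [pow_zero, div_one, le_div_iff₀ hpR]
      have h5 := h3 m hne
      have h6 : m * p ≤ max (p * a + b) (p * bigM t) := by
        refine le_trans ?_ (le_max_right _ _)
        rw [mul_comm]
        exact Nat.mul_le_mul_left p h5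
      exact_mod_cast h6
    · have h5 := h2 n m hn hne
      have hpn : (0 : ℝ) < (p : ℝ) ^ n := pow_pos hpR n
      rw [div_le_div_iff₀ hpn hpR]
      obtain ⟨j, rfl⟩ : ∃ j, n = j + 1 := ⟨n - 1, by omega⟩
      have h6 : m * p ≤ (p * a + b) * p ^ (j + 1) := by
        have h7 : b ≤ b * p ^ j := Nat.le_mul_of_pos_right b (pow_pos hp0 j)
        calc m * p ≤ (p ^ (j + 1) * a + b) * p := Nat.mul_le_mul_right p h5
          _ ≤ (p ^ (j + 1) * a + b * p ^ j) * p :=
              Nat.mul_le_mul_right p (Nat.add_le_add_left h7 _)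
          _ = (p * a + b) * p ^ (j + 1) := by ring
      have h8 : (p * a + b) * p ^ (j + 1) ≤ max (p * a + b) (p * bigM t) * p ^ (j + 1) :=
        Nat.mul_le_mul_right _ (le_max_left _ _)
      exact_mod_cast h6.trans h8

end Pool.Agent.Helper10.HS
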