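import Pool.Agent.Helper10.HS.Api

/-!
# Project HS, piece CntA: counting reduced series over a finite field

`card_sw_le`: `f ↦ (f_i)`, `1 ≤ i ≤ n`, `¬ p ∣ i`, is a bijection from `{sw f ≤ n}` to the functions
on a set of `n - n / p` elements (`Nat.card_multiples` or `Nat.Ioc_filter_dvd_card_eq_div`;
inverse: `Finsupp.onFinset` or `Finsupp.extendDomain`). `card_lead`: the same with the indices
`i < a`; `(a - 1) / p = a / p` as `¬ p ∣ a`. `card_sw_eq`: sum over `q - 1` leading coefficients.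
`tsum_sw`: group the nonzero `f` by `a = sw f` (`ENNReal.tsum_fiberwise`-like, or
`Equiv.sigmaFiberEquiv` and `ENNReal.tsum_sigma'`), the inner sum of a constant over a finite type
is card times the constant; for `¬ p ∣ a` one has `0 < a`, so `sw f = a` implies `f ≠ 0`.
-/

namespace Pool.Agent.Helper10.HS

open scoped ENNReal

variable {p : ℕ} [Fact p.Prime] {k : Type} [Field k] [Fintype k] [CharP k p]

/-- the indices -/
private def cntA_I (p n : ℕ) : Finset ℕ := (Finset.Ioc 0 n).filter (fun i => ¬ p ∣ i)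

omit [Fact p.Prime] in
private theorem cntA_card (n : ℕ) : (cntA_I p n).card = n - n / p := by
  unfold cntA_I
  have h1 := Finset.card_filter_add_card_filter_not (s := Finset.Ioc 0 n) (fun i => p ∣ i)
  rw [Nat.Ioc_filter_dvd_card_eq_div, Nat.card_Ioc, Nat.sub_zero] at h1
  omega

open scoped Classical in
/-- the series with given coefficients at the indices -/
private noncomputable def cntA_v (p : ℕ) (k : Type) [Field k] (n : ℕ) (g : cntA_I p n → k) :
    Par p k :=
  ⟨Finsupp.onFinset (cntA_I p n) (fun i => if h : i ∈ cntA_I p n then g ⟨i, h⟩ else 0) (by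
    intro i hi
    by_contra h
    exact hi (dif_neg h)), by
    intro i hi
    rw [Finsupp.onFinset_apply, dif_neg]
    intro h
    exact (Finset.mem_filter.1 h).2 hi⟩

omit [Fact p.Prime] [Fintype k] [CharP k p] in
private theorem cntA_v_pos (n : ℕ) (g : cntA_I p n → k) {i : ℕ} (h : i ∈ cntA_I p n) :
    (cntA_v p k n g).1 i = g ⟨i, h⟩ := by
  classical
  unfold cntA_v
  rw [Finsupp.onFinset_apply, dif_pos h]

omit [Fact p.Prime] [Fintype k] [CharP k p] in
private theorem cntA_v_neg (n : ℕ) (g : cntA_I p n → k) {i : ℕ} (h : i ∉ cntA_I p n) :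
    (cntA_v p k n g).1 i = 0 := by
  classical
  unfold cntA_v
  rw [Finsupp.onFinset_apply, dif_neg h]

/-- the bijection with the functions on the indices -/
private noncomputable def cntA_e (p : ℕ) (k : Type) [Field k] (n : ℕ) :
    {f : Par p k // sw f ≤ n} ≃ (cntA_I p n → k) where
  toFun f i := f.1.1 i
  invFun g := ⟨cntA_v p k n g, by
    rw [sw_le_iff]
    intro i hi
    refine cntA_v_neg n g ?_
    intro h
    have := Finset.mem_Ioc.1 (Finset.mem_filter.1 h).1
    omega⟩
  left_inv f := by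
    apply Subtype.ext
    apply par_ext
    intro i
    show (cntA_v p k n fun i => f.1.1 i).1 i = f.1.1 i
    by_cases h : i ∈ cntA_I p n
    · rw [cntA_v_pos n _ h]
    · rw [cntA_v_neg n _ h]
      symm
      by_cases hp : p ∣ i
      · exact f.1.2 i hp
      · rcases Nat.eq_zero_or_pos i with h0 | h0
        · exact f.1.2 i (by rw [h0]; exact dvd_zero p)
        · have h1 : n < i := by
            by_contra hle
            exact h (Finset.mem_filter.2 ⟨Finset.mem_Ioc.2 ⟨h0, by omega⟩, hp⟩)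
          exact (sw_le_iff f.1 n).1 f.2 i h1
  right_inv g := by
    funext i
    exact cntA_v_pos n g i.2

theorem finite_sw_le (n : ℕ) : Finite {f : Par p k // sw f ≤ n} := by
  exact Finite.of_equiv _ (cntA_e p k n).symm

theorem card_sw_le (n : ℕ) :
    Nat.card {f : Par p k // sw f ≤ n} = Fintype.card k ^ (n - n / p) := by
  classical
  rw [Nat.card_congr (cntA_e p k n), Nat.card_eq_fintype_card, Fintype.card_fun,
    Fintype.card_coe, cntA_card]

/-- a monomial -/
private noncomputable def cntA_s {a : ℕ} (ha : ¬p ∣ a) (lam : k) : Par p k :=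
  ⟨Finsupp.single a lam, by
    intro i hi
    rw [Finsupp.single_apply, if_neg]
    rintro rfl
    exact ha hi⟩

omit [Fact p.Prime] [Fintype k] [CharP k p] in
private theorem cntA_s_self {a : ℕ} (ha : ¬p ∣ a) (lam : k) : (cntA_s ha lam).1 a = lam :=
  Finsupp.single_eq_same

omit [Fact p.Prime] [Fintype k] [CharP k p] in
private theorem cntA_s_ne {a : ℕ} (ha : ¬p ∣ a) (lam : k) {i : ℕ} (h : a < i) :
    (cntA_s ha lam).1 i = 0 :=
  Finsupp.single_eq_of_ne (by omega)

private noncomputable def cntA_l (a : ℕ) (ha : ¬p ∣ a) (lam : k) (hl : lam ≠ 0) :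
    {f : Par p k // sw f = a ∧ f.1 a = lam} ≃ {f : Par p k // sw f ≤ a - 1} where
  toFun f := ⟨f.1 - cntA_s ha lam, by
    rw [sw_le_iff]
    intro i hi
    rw [par_sub]
    rcases (show a ≤ i by omega).eq_or_lt with h | h
    · rw [← h, f.2.2, cntA_s_self, sub_self]
    · rw [eq_zero_of_sw_lt (by rw [f.2.1]; exact h), cntA_s_ne ha lam h, sub_zero]⟩
  invFun f := ⟨f.1 + cntA_s ha lam, by
    have ha0 : a ≠ 0 := by
      rintro rfl
      exact ha (dvd_zero p)
    have h1 : (f.1 + cntA_s ha lam).1 a = lam := by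
      rw [par_add, eq_zero_of_sw_lt (lt_of_le_of_lt f.2 (by omega)), cntA_s_self, zero_add]
    refine ⟨sw_eq_of (by rw [h1]; exact hl) ?_, h1⟩
    intro i hi
    rw [par_add, eq_zero_of_sw_lt (lt_of_le_of_lt f.2 (by omega)), cntA_s_ne ha lam hi,
      add_zero]⟩
  left_inv f := by
    apply Subtype.ext
    show f.1 - cntA_s ha lam + cntA_s ha lam = f.1
    exact sub_add_cancel f.1 (cntA_s ha lam)
  right_inv f := by
    apply Subtype.ext
    show f.1 + cntA_s ha lam - cntA_s ha lam = f.1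
    exact add_sub_cancel_right f.1 (cntA_s ha lam)

theorem card_lead (a : ℕ) (ha : ¬p ∣ a) (lam : k) (hl : lam ≠ 0) :
    Nat.card {f : Par p k // sw f = a ∧ f.1 a = lam} = Fintype.card k ^ (a - 1 - a / p) := by
  rw [Nat.card_congr (cntA_l a ha lam hl), card_sw_le]
  congr 2
  obtain ⟨a', rfl⟩ : ∃ a', a = a' + 1 := ⟨a - 1, by
    have ha0 : a ≠ 0 := by
      rintro rfl
      exact ha (dvd_zero p)
    omega⟩
  rw [Nat.succ_div_of_not_dvd ha]
  rfl

private noncomputable def cntA_g (a : ℕ) (ha : ¬p ∣ a) :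
    {f : Par p k // sw f = a} ≃ Σ lam : {lam : k // lam ≠ 0},
      {f : Par p k // sw f = a ∧ f.1 a = lam.1} where
  toFun f := ⟨⟨f.1.1 a, by
    have h1 : f.1 ≠ 0 := by
      intro h0
      have h2 := f.2
      rw [h0, sw_zero] at h2
      exact ha (by rw [← h2]; exact dvd_zero p)
    have h3 := sw_spec h1
    rw [f.2] at h3
    exact h3⟩, ⟨f.1, f.2, rfl⟩⟩
  invFun x := ⟨x.2.1, x.2.2.1⟩
  left_inv f := rfl
  right_inv x := by
    obtain ⟨⟨lam, hl⟩, ⟨f, h1, h2⟩⟩ := x
    simp only at h2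
    subst h2
    rfl

private theorem cntA_card_eq (a : ℕ) (ha : ¬p ∣ a) :
    Nat.card {f : Par p k // sw f = a} =
      (Fintype.card k - 1) * Fintype.card k ^ (a - 1 - a / p) := by
  classical
  have hfin : ∀ lam : {lam : k // lam ≠ 0},
      Finite {f : Par p k // sw f = a ∧ f.1 a = lam.1} := by
    intro lam
    have := finite_sw_le (p := p) (k := k) (a - 1)
    exact Finite.of_equiv _ (cntA_l a ha lam.1 lam.2).symm
  rw [Nat.card_congr (cntA_g a ha), Nat.card_sigma,
    Finset.sum_congr rfl (fun lam _ => card_lead a ha lam.1 lam.2), Finset.sum_const,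
    Finset.card_univ, smul_eq_mul]
  congr 1
  have h1 := Fintype.card_subtype_compl (fun x : k => x = 0)
  rw [Fintype.card_subtype_eq] at h1
  exact h1

private theorem cntA_finite_eq (a : ℕ) : Finite {f : Par p k // sw f = a} := by
  have := finite_sw_le (p := p) (k := k) a
  exact Finite.of_injective
    (fun f : {f : Par p k // sw f = a} => (⟨f.1, f.2.le⟩ : {f : Par p k // sw f ≤ a}))
    (fun f g h => Subtype.ext (congrArg (fun x => x.1) h))

theorem card_sw_eq (a : ℕ) (ha : ¬p ∣ a) (s : ℝ) (hs : 0 < s) (hq : s ^ 2 = Fintype.card k) :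
    (Nat.card {f : Par p k // sw f = a} : ℝ) = Af p s a := by
  have hp : 2 ≤ p := (Fact.out : p.Prime).two_le
  have ha0 : a ≠ 0 := by
    rintro rfl
    exact ha (dvd_zero p)
  have h1 : a / p ≤ a - 1 := by
    have h2 : a / p ≤ a / 2 := Nat.div_le_div_left hp (by norm_num)
    omega
  have h3 : 1 ≤ Fintype.card k := Fintype.card_pos
  rw [cntA_card_eq a ha, Nat.cast_mul, Nat.cast_sub h3, Nat.cast_pow, ← hq, Nat.cast_one]
  unfold Af
  congr 1
  rw [← pow_mul, ← zpow_natCast]
  congr 1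
  push_cast [Nat.cast_sub h1, Nat.cast_sub (show 1 ≤ a by omega)]
  ring

private noncomputable def cntA_t :
    {f : Par p k // f ≠ 0} ≃ Σ a : {a : ℕ // ¬p ∣ a}, {f : Par p k // sw f = a.1} where
  toFun f := ⟨⟨sw f.1, not_dvd_sw f.2⟩, ⟨f.1, rfl⟩⟩
  invFun x := ⟨x.2.1, by
    intro h0
    have h1 := x.2.2
    rw [h0, sw_zero] at h1
    exact x.1.2 (by rw [← h1]; exact dvd_zero p)⟩
  left_inv f := rfl
  right_inv x := by
    obtain ⟨⟨a, ha⟩, ⟨f, h1⟩⟩ := x
    simp only at h1
    subst h1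
    rfl

theorem tsum_sw (s : ℝ) (hs : 1 < s) (hq : s ^ 2 = Fintype.card k) (φ : ℕ → ℝ≥0∞) :
    ∑' f : {f : Par p k // f ≠ 0}, φ (sw f.1) =
      ∑' a : {a : ℕ // ¬p ∣ a}, ENNReal.ofReal (Af p s (a.1 : ℤ)) * φ a.1 := by
  have h1 : ∑' f : {f : Par p k // f ≠ 0}, φ (sw f.1) =
      ∑' x : (Σ a : {a : ℕ // ¬p ∣ a}, {f : Par p k // sw f = a.1}), φ x.1.1 := by
    rw [← Equiv.tsum_eq (cntA_t (p := p) (k := k))]
    rfl
  rw [h1, ENNReal.tsum_sigma']
  refine tsum_congr fun a => ?_
  have hfin := cntA_finite_eq (p := p) (k := k) a.1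
  have := Fintype.ofFinite {f : Par p k // sw f = a.1}
  simp only
  rw [tsum_fintype, Finset.sum_const, Finset.card_univ, nsmul_eq_mul,
    ← card_sw_eq a.1 a.2 s (by linarith) hq, ENNReal.ofReal_natCast, Nat.card_eq_fintype_card]

end Pool.Agent.Helper10.HS
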