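import Pool.Agent.Helper10.HS.CntA

/-!
# Project HS, piece CntB: the linear conditions on `f` for fixed `g`

`b = sw g`. `comm0_eq`: in `∑ a g_a f_(m - a)` replace `a` by `m - a` (`Finset.sum_range_reflect` or
`Finset.sum_flip`); as `(m : F) = 0` it is `-∑ a f_a g_(m - a)`. (The filter `p ^ 0 * a ≤ m` is no
condition on `range (m + 1)`.)

`fib_card`: for `v : k` let `S_v = {f ∈ S | φ f = v}`; `f ↦ f + sg i (v / u)` is a bijection from
`S_0` to `S_v`, and `S` is the disjoint union of the `q` sets `S_v`.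

`card_N1`: `comm p 0 f g m = 0` for `m > a + b`, so it is `card_lead`. `card_N2`: by `comm0_eq` the
condition at `m = a + b` is `a f_a g_b = 0`, but `(a : k) ≠ 0`, `f_a = lam ≠ 0`, `g_b ≠ 0`.
`card_N3`: induction on `d = (a + b) - y`. For `y = a + b` (or directly `y = a + b - 1`) use
`card_N1` (`¬ p ∣ a + b`). Step from `y` to `y - 1 ≥ a`: if `¬ p ∣ y` the two sets are equal and
`y / p = (y - 1) / p`; if `p ∣ y`, use `fib_card` with `S` the set for `y`, `i = y - b` (`0 < i < a`,
`¬ p ∣ i`), `φ f = comm p 0 f g y / 2`, `u = i g_b`: adding `sg i δ` does not change `f_a`, `sw f`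
(as `i < a`), nor the conditions for `m > y` (`i + b < m`), and changes `φ` by `i δ g_b`.
-/

namespace Pool.Agent.Helper10.HS

open scoped ENNReal

section

variable {p : ℕ} {F : Type} [Field F]

/-- the series `δ t^(-i)` -/
noncomputable def sg (i : ℕ) (hi : ¬p ∣ i) (δ : F) : Par p F :=
  ⟨Finsupp.single i δ, by
    intro j hj
    rw [Finsupp.single_apply, if_neg]
    rintro rfl
    exact hi hj⟩

theorem sg_apply (i : ℕ) (hi : ¬p ∣ i) (δ : F) (j : ℕ) :
    (sg (p := p) i hi δ).1 j = if i = j then δ else 0 := Finsupp.single_apply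

/-- The filter in `comm` is no condition for `n = 0`. -/
private theorem cntB_comm0 (f g : ℕ →₀ F) (m : ℕ) :
    comm p 0 f g m = ∑ a ∈ Finset.range (m + 1), (a : F) * (f a * g (m - a) - g a * f (m - a)) := by
  unfold comm
  rw [Finset.filter_true_of_mem]
  · refine Finset.sum_congr rfl fun a _ => ?_
    simp
  · intro a ha
    have := Finset.mem_range.1 ha
    simp
    omega

private theorem cntB_add (f f' g : Par p F) (m : ℕ) :
    comm p 0 (f + f').1 g.1 m = comm p 0 f.1 g.1 m + comm p 0 f'.1 g.1 m := by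
  rw [cntB_comm0, cntB_comm0, cntB_comm0, ← Finset.sum_add_distrib]
  refine Finset.sum_congr rfl fun a _ => ?_
  rw [par_add, par_add]
  ring

private theorem cntB_sg_add (i : ℕ) (hi : ¬p ∣ i) (f : Par p F) (δ δ' : F) :
    f + sg i hi δ + sg i hi δ' = f + sg i hi (δ + δ') := by
  apply par_ext
  intro j
  simp only [par_add, sg_apply]
  split_ifs
  · ring
  · ring

private theorem cntB_sg_zero (i : ℕ) (hi : ¬p ∣ i) (f : Par p F) : f + sg i hi 0 = f := by
  apply par_ext
  intro j
  simp only [par_add, sg_apply]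
  split_ifs
  · ring
  · ring

private theorem cntB_sw_sg (i : ℕ) (hi : ¬p ∣ i) (δ : F) : sw (sg i hi δ) ≤ i := by
  rw [sw_le_iff]
  intro j hj
  rw [sg_apply, if_neg (by omega)]

variable [Fact p.Prime] [CharP F p]

theorem two_ne (hp : p ≠ 2) : (2 : F) ≠ 0 := by
  have h := CharP.cast_eq_zero_iff F p 2
  intro h0
  have h1 : p ∣ 2 := h.1 (by exact_mod_cast h0)
  exact hp ((Nat.prime_dvd_prime_iff_eq (Fact.out : p.Prime) Nat.prime_two).1 h1)

theorem comm0_eq (hp : p ≠ 2) (f g : Par p F) (m : ℕ) (hm : p ∣ m) :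
    comm p 0 f.1 g.1 m / 2 = ∑ a ∈ Finset.range (m + 1), (a : F) * (f.1 a * g.1 (m - a)) := by
  have h2 := two_ne (p := p) (F := F) hp
  have hm0 : (m : F) = 0 := (CharP.cast_eq_zero_iff F p m).2 hm
  rw [div_eq_iff h2, cntB_comm0]
  have h3 : ∑ a ∈ Finset.range (m + 1), (a : F) * (g.1 a * f.1 (m - a)) =
      -∑ a ∈ Finset.range (m + 1), (a : F) * (f.1 a * g.1 (m - a)) := by
    rw [← Finset.sum_range_reflect, ← Finset.sum_neg_distrib]
    refine Finset.sum_congr rfl fun a ha => ?_
    have ha' : a ≤ m := by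
      have := Finset.mem_range.1 ha
      omega
    have e1 : m + 1 - 1 - a = m - a := by omega
    have e2 : m - (m - a) = a := by omega
    rw [e1, e2, Nat.cast_sub ha', hm0]
    ring
  have h4 : ∑ a ∈ Finset.range (m + 1), (a : F) * (f.1 a * g.1 (m - a) - g.1 a * f.1 (m - a)) =
      ∑ a ∈ Finset.range (m + 1), (a : F) * (f.1 a * g.1 (m - a)) -
        ∑ a ∈ Finset.range (m + 1), (a : F) * (g.1 a * f.1 (m - a)) := by
    rw [← Finset.sum_sub_distrib]
    refine Finset.sum_congr rfl fun a _ => ?_
    ring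
  rw [h4, h3]
  ring

theorem comm_large (f g : Par p F) (m : ℕ) (hm : sw f + sw g < m) : comm p 0 f.1 g.1 m = 0 := by
  rw [cntB_comm0]
  apply Finset.sum_eq_zero
  intro a ha
  have ha' : a ≤ m := by
    have := Finset.mem_range.1 ha
    omega
  have h1 : f.1 a * g.1 (m - a) = 0 := by
    rcases lt_or_ge (sw f) a with h | h
    · rw [eq_zero_of_sw_lt h, zero_mul]
    · rw [eq_zero_of_sw_lt (f := g) (i := m - a) (by omega), mul_zero]
  have h2 : g.1 a * f.1 (m - a) = 0 := by
    rcases lt_or_ge (sw g) a with h | h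
    · rw [eq_zero_of_sw_lt h, zero_mul]
    · rw [eq_zero_of_sw_lt (f := f) (i := m - a) (by omega), mul_zero]
  rw [h1, h2, sub_zero, mul_zero]

end

variable {p : ℕ} [Fact p.Prime] {k : Type} [Field k] [Fintype k] [CharP k p]

theorem fib_card (S : Set (Par p k)) (hS : S.Finite) (i : ℕ) (hi : ¬p ∣ i) (φ : Par p k → k) (u : k)
    (hu : u ≠ 0) (h1 : ∀ f ∈ S, ∀ δ, f + sg i hi δ ∈ S)
    (h2 : ∀ f ∈ S, ∀ δ, φ (f + sg i hi δ) = φ f + u * δ) :
    S.ncard = Fintype.card k * {f ∈ S | φ f = 0}.ncard := by
  let e : S ≃ ({f ∈ S | φ f = 0} : Set (Par p k)) × k :=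
    { toFun := fun f => (⟨f.1 + sg i hi (-φ f.1 / u), h1 f.1 f.2 _, by
        rw [h2 f.1 f.2]
        field_simp
        ring⟩, φ f.1)
      invFun := fun x => ⟨x.1.1 + sg i hi (x.2 / u), h1 x.1.1 x.1.2.1 _⟩
      left_inv := by
        intro f
        apply Subtype.ext
        change f.1 + sg i hi (-φ f.1 / u) + sg i hi (φ f.1 / u) = f.1
        rw [cntB_sg_add]
        have : -φ f.1 / u + φ f.1 / u = 0 := by ring
        rw [this, cntB_sg_zero]
      right_inv := by
        rintro ⟨⟨f, hf, hf0⟩, v⟩
        have hv : φ (f + sg i hi (v / u)) = v := by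
          rw [h2 f hf, hf0]
          field_simp
          ring
        apply Prod.ext
        · apply Subtype.ext
          change f + sg i hi (v / u) + sg i hi (-φ (f + sg i hi (v / u)) / u) = f
          rw [hv, cntB_sg_add]
          have : v / u + -v / u = 0 := by ring
          rw [this, cntB_sg_zero]
        · exact hv }
  have h := Nat.card_congr e
  rw [Nat.card_prod, Nat.card_coe_set_eq, Nat.card_coe_set_eq, Nat.card_eq_fintype_card (α := k)] at h
  rw [h, mul_comm]

/-- the series `f` with leading term `lam t^(-a)` and `c_m(f, g) = 0` for all `m > y`, `p ∣ m` -/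
def Nset (g : Par p k) (a : ℕ) (lam : k) (y : ℕ) : Set (Par p k) :=
  {f | sw f = a ∧ f.1 a = lam ∧ ∀ m, p ∣ m → y < m → comm p 0 f.1 g.1 m = 0}

theorem finite_N (g : Par p k) (a : ℕ) (lam : k) (y : ℕ) : (Nset g a lam y).Finite := by
  have h : ({f : Par p k | sw f ≤ a} : Set (Par p k)).Finite :=
    Set.finite_coe_iff.1 (finite_sw_le a)
  exact h.subset fun f hf => hf.1.le

theorem card_N1 (g : Par p k) (a : ℕ) (ha : ¬p ∣ a) (lam : k) (hl : lam ≠ 0) (y : ℕ)
    (hy : a + sw g ≤ y) : (Nset g a lam y).ncard = Fintype.card k ^ (a - 1 - a / p) := by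
  have h : Nset g a lam y = {f : Par p k | sw f = a ∧ f.1 a = lam} := by
    ext f
    constructor
    · intro hf
      exact ⟨hf.1, hf.2.1⟩
    · intro hf
      refine ⟨hf.1, hf.2, fun m _ hm => comm_large f g m ?_⟩
      rw [hf.1]
      omega
  rw [h, ← Nat.card_coe_set_eq]
  exact card_lead a ha lam hl

theorem card_N2 (hp : p ≠ 2) (g : Par p k) (hb : 0 < sw g) (a : ℕ) (ha : ¬p ∣ a) (lam : k)
    (hl : lam ≠ 0) (y : ℕ) (hy : y < a + sw g) (hab : p ∣ a + sw g) :
    (Nset g a lam y).ncard = 0 := by
  have hg : g ≠ 0 := by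
    rintro rfl
    simp at hb
  have h : Nset g a lam y = ∅ := by
    ext f
    simp only [Set.mem_empty_iff_false, iff_false]
    rintro ⟨h1, h2, h3⟩
    have h4 := h3 (a + sw g) hab hy
    have h5 := comm0_eq (F := k) hp f g (a + sw g) hab
    rw [h4, zero_div, Finset.sum_eq_single a] at h5
    · have e : a + sw g - a = sw g := by omega
      rw [e, h2] at h5
      have h6 : (a : k) ≠ 0 := by
        rw [Ne, CharP.cast_eq_zero_iff k p]
        exact ha
      exact (mul_ne_zero h6 (mul_ne_zero hl (sw_spec hg))) h5.symm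
    · intro x hx hne
      rcases lt_or_gt_of_ne hne with h7 | h7
      · rw [eq_zero_of_sw_lt (f := g) (i := a + sw g - x) (by omega), mul_zero, mul_zero]
      · rw [eq_zero_of_sw_lt (f := f) (i := x) (by omega), zero_mul, mul_zero]
    · intro hx
      exfalso
      apply hx
      rw [Finset.mem_range]
      omega
  rw [h, Set.ncard_empty]

/-- One step down. -/
private theorem cntB_step (hp : p ≠ 2) (g : Par p k) (hb : 0 < sw g) (a : ℕ) (hba : sw g ≤ a)
    (lam : k) (z : ℕ) (hz : a < z) (hz' : z < a + sw g) (hpz : p ∣ z) :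
    (Nset g a lam z).ncard = Fintype.card k * (Nset g a lam (z - 1)).ncard := by
  have hg : g ≠ 0 := by
    rintro rfl
    simp at hb
  have hpb : ¬p ∣ sw g := not_dvd_sw hg
  have hi : ¬p ∣ z - sw g := by
    intro hd
    apply hpb
    have : sw g = z - (z - sw g) := by omega
    rw [this]
    exact Nat.dvd_sub hpz hd
  have hi0 : ((z - sw g : ℕ) : k) ≠ 0 := by
    rw [Ne, CharP.cast_eq_zero_iff k p]
    exact hi
  have h2 := two_ne (p := p) (F := k) hp
  have hN : {f ∈ Nset g a lam z | comm p 0 f.1 g.1 z / 2 = 0} = Nset g a lam (z - 1) := by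
    ext f
    constructor
    · rintro ⟨⟨e1, e2, e3⟩, e4⟩
      refine ⟨e1, e2, fun m hm hzm => ?_⟩
      rcases eq_or_lt_of_le (show z ≤ m by omega) with h | h
      · rw [← h]
        exact (div_eq_zero_iff.1 e4).resolve_right h2
      · exact e3 m hm h
    · rintro ⟨e1, e2, e3⟩
      refine ⟨⟨e1, e2, fun m hm hzm => e3 m hm (by omega)⟩, ?_⟩
      rw [e3 z hpz (by omega), zero_div]
  rw [← hN]
  apply fib_card (Nset g a lam z) (finite_N g a lam z) (z - sw g) hi
    (fun f => comm p 0 f.1 g.1 z / 2) (((z - sw g : ℕ) : k) * g.1 (sw g))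
    (mul_ne_zero hi0 (sw_spec hg))
  · rintro f ⟨e1, e2, e3⟩ δ
    have hs := cntB_sw_sg (p := p) (z - sw g) hi δ
    refine ⟨?_, ?_, ?_⟩
    · rw [sw_add_of_lt (by omega), e1]
    · rw [par_add, sg_apply, if_neg (by omega), add_zero, e2]
    · intro m hm hzm
      rw [cntB_add, e3 m hm hzm, comm_large _ _ _ (by omega), add_zero]
  · rintro f ⟨e1, e2, e3⟩ δ
    rw [cntB_add, add_div, comm0_eq hp (sg (z - sw g) hi δ) g z hpz,
      Finset.sum_eq_single (z - sw g)]
    · have e : z - (z - sw g) = sw g := by omega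
      rw [sg_apply, if_pos rfl, e]
      ring
    · intro x _ hne
      rw [sg_apply, if_neg (fun h => hne h.symm), zero_mul, mul_zero]
    · intro hx
      exfalso
      apply hx
      rw [Finset.mem_range]
      omega

theorem card_N3 (hp : p ≠ 2) (g : Par p k) (hb : 0 < sw g) (a : ℕ) (hba : sw g ≤ a) (ha : ¬p ∣ a)
    (lam : k) (hl : lam ≠ 0) (y : ℕ) (hay : a ≤ y) (hy : y < a + sw g) (hab : ¬p ∣ a + sw g) :
    (Nset g a lam y).ncard * Fintype.card k ^ ((a + sw g) / p - y / p) =
      Fintype.card k ^ (a - 1 - a / p) := by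
  have hp0 : 0 < p := (Fact.out : p.Prime).pos
  have key : ∀ d y : ℕ, y + d = a + sw g → a ≤ y →
      (Nset g a lam y).ncard * Fintype.card k ^ ((a + sw g) / p - y / p) =
        Fintype.card k ^ (a - 1 - a / p) := by
    intro d
    induction d with
    | zero =>
      intro y hy _
      have e : y = a + sw g := by omega
      subst e
      rw [Nat.sub_self, pow_zero, mul_one]
      exact card_N1 g a ha lam hl _ le_rfl
    | succ d ih =>
      intro y hy hay
      have h1 := ih (y + 1) (by omega) (by omega)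
      by_cases hd : p ∣ y + 1
      · have hlt : y + 1 < a + sw g := by
          rcases eq_or_lt_of_le (show y + 1 ≤ a + sw g by omega) with h | h
          · exact absurd (h ▸ hd) hab
          · exact h
        have h2 := cntB_step hp g hb a hba lam (y + 1) (by omega) hlt hd
        rw [Nat.add_sub_cancel] at h2
        rw [h2] at h1
        obtain ⟨c, hc⟩ := hd
        have hc0 : 0 < c := by
          rcases Nat.eq_zero_or_pos c with h | h
          · rw [h, mul_zero] at hc
            omega
          · exact h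
        have e1 : (y + 1) / p = c := by rw [hc, Nat.mul_div_cancel_left _ hp0]
        have e2 : y / p = c - 1 := by
          obtain ⟨c', rfl⟩ : ∃ c', c = c' + 1 := ⟨c - 1, by omega⟩
          have e3 : y = p * c' + (p - 1) := by
            have : p * (c' + 1) = p * c' + p := by ring
            omega
          rw [e3, Nat.mul_add_div hp0, Nat.div_eq_of_lt (by omega)]
          simp
        have e4 : c ≤ (a + sw g) / p := by
          rw [← e1]
          exact Nat.div_le_div_right (by omega)
        have e5 : (a + sw g) / p - y / p = ((a + sw g) / p - (y + 1) / p) + 1 := by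
          rw [e1, e2]
          omega
        rw [e5, pow_succ, ← h1]
        ring
      · have e1 : y / p = (y + 1) / p := by
          rw [Nat.succ_div_of_not_dvd hd]
        have e2 : Nset g a lam y = Nset g a lam (y + 1) := by
          ext f
          constructor
          · rintro ⟨f1, f2, f3⟩
            exact ⟨f1, f2, fun m hm hym => f3 m hm (by omega)⟩
          · rintro ⟨f1, f2, f3⟩
            refine ⟨f1, f2, fun m hm hym => ?_⟩
            apply f3 m hm
            rcases eq_or_lt_of_le (show y + 1 ≤ m by omega) with h | h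
            · exact absurd (h ▸ hm) hd
            · exact h
        rw [e1, e2]
        exact h1
  exact key (a + sw g - y) y (by omega) hay

end Pool.Agent.Helper10.HS
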