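import Pool.Agent.Helper10.HS.CntB

/-!
# Project HS, piece CntD: the number of the pairs `(f, h)`

`card_D_eq`: `(f, h) ↦ (f, h + ∑_{m ≤ y, ¬ p ∣ m} …)`: for `f` in `Nset g a lam y` the condition on
`h` at `m > y` is empty if `p ∣ m` (both `(m : k)` and `comm` vanish) and otherwise says
`h_m = -comm p 0 f g m / (2 m)`, which is `0` for large `m` (`comm_large`). So the fibre over
`f ∈ Nset g a lam y` is in bijection with `{h : sw h ≤ y}` (`h ↦ h + h₀`, where `h₀ ∈ Par p k` has
the coefficients `comm p 0 f g m / (2 m)` at all `m`, `¬ p ∣ m`; `h₀` exists by `comm_large`), whose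
number is `q ^ (y - y / p)` (`card_sw_le`), and `D` is a disjoint union (a sigma type) over
`Nset g a lam y`.

`card_D`: with `card_N1`, `card_N2`, `card_N3`; in the last case
`y - y / p = (y - (a + b) / p) + ((a + b) / p - y / p)` (`y / p ≤ (a + b) / p ≤ y`, the second as
`a + b ≤ 2 a ≤ 2 y`).
-/

namespace Pool.Agent.Helper10.HS

open scoped ENNReal

variable {p : ℕ} [Fact p.Prime] {k : Type} [Field k] [Fintype k] [CharP k p]

/-- the pairs `(f, h)`, `f` with leading term `lam t^(-a)`, and `F_m(f, g, h) = 0` for all integers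
`m > y` -/
def Dset (g : Par p k) (a : ℕ) (lam : k) (y : ℕ) : Set (Par p k × Par p k) :=
  {x | sw x.1 = a ∧ x.1.1 a = lam ∧ ∀ m, y < m → ramF (x.1, g, x.2) 0 m = 0}

omit [Fintype k] in
private theorem cntD_ramF (f g h : Par p k) (m : ℕ) :
    ramF (f, g, h) 0 m = (m : k) * h.1 m + comm p 0 f.1 g.1 m / 2 := by
  unfold ramF
  rw [if_pos rfl]

open scoped Classical in
/-- the shift -/
private noncomputable def cntD_h (f g : Par p k) : Par p k :=
  ⟨Finsupp.onFinset (Finset.range (sw f + sw g + 1))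
    (fun m => if p ∣ m then 0 else comm p 0 f.1 g.1 m / (2 * (m : k))) (by
      intro m hm
      rw [Finset.mem_range]
      by_contra hcon
      apply hm
      rw [comm_large f g m (by omega), zero_div, ite_self]), by
    intro m hm
    rw [Finsupp.onFinset_apply, if_pos hm]⟩

omit [Fintype k] in
private theorem cntD_h_apply (f g : Par p k) (m : ℕ) (hm : ¬p ∣ m) :
    (cntD_h f g).1 m = comm p 0 f.1 g.1 m / (2 * (m : k)) := by
  classical
  unfold cntD_h
  rw [Finsupp.onFinset_apply, if_neg hm]

private noncomputable def cntD_e (hp : p ≠ 2) (g : Par p k) (a : ℕ) (lam : k) (y : ℕ) :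
    Dset g a lam y ≃ Nset g a lam y × {h : Par p k // sw h ≤ y} where
  toFun x := (⟨x.1.1, x.2.1, x.2.2.1, fun m hm hym => by
      have h1 := x.2.2.2 m hym
      rw [cntD_ramF, (CharP.cast_eq_zero_iff k p m).2 hm, zero_mul, zero_add] at h1
      exact (div_eq_zero_iff.1 h1).resolve_right (two_ne (p := p) hp)⟩,
    ⟨x.1.2 + cntD_h x.1.1 g, by
      rw [sw_le_iff]
      intro m hym
      by_cases hm : p ∣ m
      · exact (x.1.2 + cntD_h x.1.1 g).2 m hm
      · have h1 := x.2.2.2 m hym
        rw [cntD_ramF] at h1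
        have h2 : (2 : k) ≠ 0 := two_ne (p := p) hp
        have h3 : (m : k) ≠ 0 := by
          rw [Ne, CharP.cast_eq_zero_iff k p]
          exact hm
        rw [par_add, cntD_h_apply _ _ _ hm]
        field_simp at h1 ⊢
        linear_combination h1⟩)
  invFun z := ⟨(z.1.1, z.2.1 - cntD_h z.1.1 g), z.1.2.1, z.1.2.2.1, fun m hym => by
      rw [cntD_ramF]
      by_cases hm : p ∣ m
      · rw [(CharP.cast_eq_zero_iff k p m).2 hm, zero_mul, zero_add, z.1.2.2.2 m hm hym, zero_div]
      · have h2 : (2 : k) ≠ 0 := two_ne (p := p) hp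
        have h3 : (m : k) ≠ 0 := by
          rw [Ne, CharP.cast_eq_zero_iff k p]
          exact hm
        rw [par_sub, cntD_h_apply _ _ _ hm, (sw_le_iff _ _).1 z.2.2 m hym]
        field_simp
        ring⟩
  left_inv x := by
    apply Subtype.ext
    apply Prod.ext
    · rfl
    · exact add_sub_cancel_right x.1.2 (cntD_h x.1.1 g)
  right_inv z := by
    apply Prod.ext
    · rfl
    · apply Subtype.ext
      exact sub_add_cancel z.2.1 (cntD_h z.1.1 g)

theorem card_D_eq (hp : p ≠ 2) (g : Par p k) (a : ℕ) (lam : k) (y : ℕ) :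
    (Dset g a lam y).Finite ∧
      (Dset g a lam y).ncard = (Nset g a lam y).ncard * Fintype.card k ^ (y - y / p) := by
  have hN : Finite (Nset g a lam y) := (finite_N g a lam y).to_subtype
  have hs : Finite {h : Par p k // sw h ≤ y} := finite_sw_le y
  refine ⟨Set.finite_coe_iff.1 (Finite.of_equiv _ (cntD_e hp g a lam y).symm), ?_⟩
  rw [← Nat.card_coe_set_eq, Nat.card_congr (cntD_e hp g a lam y), Nat.card_prod, card_sw_le,
    Nat.card_coe_set_eq]

theorem card_D (hp : p ≠ 2) (g : Par p k) (hb : 0 < sw g) (a : ℕ) (hba : sw g ≤ a) (ha : ¬p ∣ a)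
    (lam : k) (hl : lam ≠ 0) (y : ℕ) (hay : a ≤ y) :
    (Dset g a lam y).ncard = Fintype.card k ^ (a - 1 - a / p) *
      (if a + sw g ≤ y then Fintype.card k ^ (y - y / p)
        else if p ∣ a + sw g then 0 else Fintype.card k ^ (y - (a + sw g) / p)) := by
  rw [(card_D_eq hp g a lam y).2]
  by_cases h1 : a + sw g ≤ y
  · rw [if_pos h1, card_N1 g a ha lam hl y h1]
  · rw [if_neg h1]
    by_cases h2 : p ∣ a + sw g
    · rw [if_pos h2, card_N2 hp g hb a ha lam hl y (by omega) h2, zero_mul, mul_zero]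
    · rw [if_neg h2, ← card_N3 hp g hb a hba ha lam hl y hay (by omega) h2]
      have h3 : y / p ≤ (a + sw g) / p := Nat.div_le_div_right (by omega)
      have h4 : (a + sw g) / p ≤ (a + sw g) / 2 :=
        Nat.div_le_div_left (Fact.out : p.Prime).two_le (by omega)
      have h5 : y - y / p = ((a + sw g) / p - y / p) + (y - (a + sw g) / p) := by omega
      rw [h5, pow_add, mul_assoc]

end Pool.Agent.Helper10.HS
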