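import Pool.Agent.Helper10.HS.CntD
import Pool.Agent.Helper10.HS.Brk

/-!
# Project HS, piece Lay: the sum over `f` (with given leading term) and `h`

`layer`: `ofReal (s^(-c U)) = ∑' u, if U ≤ u then ofReal (s^(-c u) - s^(-c (u + 1))) else 0`
(telescoping sum, `HasSum` by `hasSum_of_…` or a geometric series), then swap the sums
(`ENNReal.tsum_comm`); the inner sum over `x` is `card {x | U x ≤ u}` times the constant.

`hasSum_layer`: `Ev a b u` is the number of the pairs with `U ≤ u` divided by `s^(2 (a - 1 - a / p))`.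
Let `n = a + b / p = (p a + b) / p`. For `p a + b ≤ u < p (n + 1)` we have `u / p = n` and the sum
telescopes to `(s^(-c (p a + b)) - s^(-c p (n + 1))) E n`; for `y > n` the `u` with `u / p = y`
contribute `(s^(-c p y) - s^(-c p (y + 1))) E y = (1 - s^(-c p)) s^(-c p y) E y`, where
`E y = s^(2 (y - y / p))` for `y ≥ a + b`, and for `y < a + b`, `E y = 0` if `p ∣ a + b`,
`E y = s^(2 (y - k))`, `k = (a + b) / p`, otherwise. The sum over `y ≥ a + b` is `Rf p c s (a + b)`
(blocks of length `p`, each block is `s ^ rr p c` times the previous one); the sum over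
`n < y < a + b` of `(1 - s^(-c p)) s^(-2k) θ^y`, `θ = s^(2 - c p)`, is
`(1 - s^(-c p)) s^(-2k) (θ^(n + 1) - θ^(a + b)) / (1 - θ)`. (If `p ∣ a + b` only the part
`y ≥ a + b` remains.) Together `Ja + Jb`, using
`s^(2 n - c p (n + 1)) (s² - 1) / (1 - θ) = -s^(2 n - c p (n + 1)) + (1 - s^(-c p)) θ^(n + 1) / (1 - θ)`.
Checked numerically.

`sum_fh`: `layer` with `x = (f, h)`, `U x = Ub (f, g, h)`: `Ub ≤ u` iff `p a + b ≤ u` and
`bigM ≤ u / p` (`bigM_le_iff`), i.e. `(f, h) ∈ Dset g a lam (u / p)`; then `card_D` (`a ≤ u / p`) and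
`hasSum_layer`.
-/

namespace Pool.Agent.Helper10.HS

open scoped ENNReal

/-- Layer cake. -/
theorem layer {X : Type} (U : X → ℕ) (N : ℕ → ℕ) (hf : ∀ u, {x | U x ≤ u}.Finite)
    (hN : ∀ u, {x | U x ≤ u}.ncard = N u) (c : ℕ) (hc : 0 < c) (s : ℝ) (hs : 1 < s) :
    ∑' x : X, ENNReal.ofReal (s ^ (-(c * U x : ℤ))) =
      ∑' u : ℕ, ENNReal.ofReal ((s ^ (-(c * u : ℤ)) - s ^ (-(c * (u + 1) : ℤ))) * N u) := by
  have hs0 : (0 : ℝ) < s := zero_lt_one.trans hs
  set r : ℝ := (s ^ c)⁻¹ with hr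
  have hsc : 1 < s ^ c := one_lt_pow₀ hs hc.ne'
  have hr0 : 0 < r := inv_pos.2 (zero_lt_one.trans hsc)
  have hr1 : r < 1 := inv_lt_one_of_one_lt₀ hsc
  have e1 : ∀ n : ℕ, s ^ (-(c * n : ℤ)) = r ^ n := by
    intro n
    rw [hr, zpow_neg, inv_pow, ← pow_mul, ← zpow_natCast]
    push_cast
    rfl
  have e2 : ∀ n : ℕ, s ^ (-(c * (n + 1) : ℤ)) = r ^ (n + 1) := by
    intro n
    have h1 := e1 (n + 1)
    push_cast at h1
    exact h1
  have hnn : ∀ n : ℕ, 0 ≤ r ^ n - r ^ (n + 1) := by
    intro n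
    rw [pow_succ]
    have h1 : 0 < r ^ n := pow_pos hr0 n
    nlinarith
  set a : ℕ → ℝ≥0∞ := fun n => ENNReal.ofReal (r ^ n - r ^ (n + 1)) with ha
  have h1 : ∀ k : ℕ, ∑' n : ℕ, (if k ≤ n then a n else 0) = ENNReal.ofReal (r ^ k) := by
    intro k
    have h2 := (ENNReal.summable (f := fun n : ℕ => (if k ≤ n + k then a (n + k) else 0)))
    have h3 := Summable.sum_add_tsum_nat_add' (f := fun n : ℕ => (if k ≤ n then a n else 0))
      (k := k) h2
    rw [← h3, Finset.sum_eq_zero (fun i hi => if_neg (by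
      rw [Finset.mem_range] at hi; omega)), zero_add]
    have h4 : ∀ n : ℕ, (if k ≤ n + k then a (n + k) else 0) =
        ENNReal.ofReal ((r ^ k * (1 - r)) * r ^ n) := by
      intro n
      rw [if_pos (by omega)]
      change ENNReal.ofReal (r ^ (n + k) - r ^ (n + k + 1)) = _
      congr 1
      ring
    rw [tsum_congr h4, ← ENNReal.ofReal_tsum_of_nonneg]
    · congr 1
      rw [tsum_mul_left, tsum_geometric_of_lt_one hr0.le hr1]
      have h5 : 1 - r ≠ 0 := by linarith
      field_simp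
    · intro n
      exact mul_nonneg (mul_nonneg (pow_nonneg hr0.le _) (by linarith)) (pow_nonneg hr0.le _)
    · exact (summable_geometric_of_lt_one hr0.le hr1).mul_left _
  have h6 : ∀ x : X, ENNReal.ofReal (s ^ (-(c * U x : ℤ))) =
      ∑' n : ℕ, (if U x ≤ n then a n else 0) := fun x => by rw [e1, h1]
  rw [tsum_congr h6, ENNReal.tsum_comm]
  refine tsum_congr fun u => ?_
  have h7 : ∀ x : X, (if U x ≤ u then a u else 0) =
      Set.indicator {x | U x ≤ u} (fun _ => a u) x := by
    intro x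
    by_cases hx : U x ≤ u
    · rw [if_pos hx, Set.indicator_of_mem (show x ∈ {x | U x ≤ u} from hx)]
    · rw [if_neg hx, Set.indicator_of_notMem (show x ∉ {x | U x ≤ u} from hx)]
  rw [tsum_congr h7, ← tsum_subtype, ENNReal.tsum_set_const, ← (hf u).cast_ncard_eq, hN, e1, e2,
    ENNReal.ofReal_mul (hnn u), ENNReal.ofReal_natCast, mul_comm]
  rfl

/-- the normalised number of the pairs `(f, h)` with `U ≤ u` -/
noncomputable def Ev (p a b : ℕ) (s : ℝ) (u : ℕ) : ℝ :=
  if u < p * a + b then 0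
  else if a + b ≤ u / p then s ^ (2 * ((u / p : ℕ) - (u / p / p : ℕ)) : ℤ)
  else if p ∣ a + b then 0
  else s ^ (2 * ((u / p : ℕ) - ((a + b) / p : ℕ)) : ℤ)

private lemma hl_block (p : ℕ) (T : ℕ → ℝ) (t : ℕ) :
    ∑ i ∈ Finset.range (p * t), T i = ∑ j ∈ Finset.range t, ∑ i ∈ Finset.range p, T (p * j + i) := by
  induction t with
  | zero => simp
  | succ t ih => rw [Nat.mul_succ, Finset.sum_range_add, ih, Finset.sum_range_succ]

private lemma hl_per {T : ℕ → ℝ} (hT : ∀ n, 0 ≤ T n) {P : ℕ} (hP : 0 < P) {x : ℝ} (hx0 : 0 ≤ x)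
    (hx1 : x < 1) (h : ∀ n, T (n + P) = x * T n) :
    HasSum T ((∑ i ∈ Finset.range P, T i) * (1 - x)⁻¹) := by
  rw [hasSum_iff_tendsto_nat_of_nonneg hT]
  have hmono : Monotone fun n => ∑ i ∈ Finset.range n, T i := by
    intro a b hab
    exact Finset.sum_le_sum_of_subset_of_nonneg (Finset.range_mono hab) fun i _ _ => hT i
  have hφ : Filter.Tendsto (fun t : ℕ => P * t) Filter.atTop Filter.atTop :=
    Filter.tendsto_id.const_mul_atTop' hP
  rw [tendsto_iff_tendsto_subseq_of_monotone hmono hφ]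
  have h1 : ∀ j i, T (P * j + i) = x ^ j * T i := by
    intro j
    induction j with
    | zero => intro i; simp
    | succ j ih =>
      intro i
      have : P * (j + 1) + i = (P * j + i) + P := by ring
      rw [this, h, ih]; ring
  have h2 : ((fun n => ∑ i ∈ Finset.range n, T i) ∘ fun t : ℕ => P * t) =
      fun t => (∑ i ∈ Finset.range P, T i) * ∑ j ∈ Finset.range t, x ^ j := by
    funext t
    simp only [Function.comp]
    rw [hl_block, Finset.mul_sum]
    refine Finset.sum_congr rfl fun j _ => ?_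
    rw [Finset.sum_congr rfl fun i _ => h1 j i, ← Finset.mul_sum, mul_comm]
  rw [h2]
  exact (hasSum_geometric_of_lt_one hx0 hx1).tendsto_sum_nat.const_mul _

private lemma hl_tele (g : ℕ → ℝ) (A B : ℕ) (h : A ≤ B) :
    ∑ u ∈ Finset.Ico A B, (g u - g (u + 1)) = g A - g B := by
  induction B, h using Nat.le_induction with
  | base => simp
  | succ B hB ih => rw [Finset.sum_Ico_succ_top hB, ih]; ring

private lemma hl_tele' (g : ℕ → ℝ) (A p : ℕ) :
    ∑ i ∈ Finset.range p, (g (A + i) - g (A + i + 1)) = g A - g (A + p) := by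
  induction p with
  | zero => simp
  | succ p ih => rw [Finset.sum_range_succ, ih]; rw [Nat.add_assoc]; ring

theorem hasSum_layer (p : ℕ) [Fact p.Prime] (hp : 3 ≤ p) (c : ℕ) (hc : 2 ≤ c) (s : ℝ) (hs : 1 < s)
    (a b : ℕ) (hb : 0 < b) (hba : b ≤ a) (ha : ¬p ∣ a) (hb' : ¬p ∣ b) :
    HasSum (fun u : ℕ => (s ^ (-(c * u : ℤ)) - s ^ (-(c * (u + 1) : ℤ))) * Ev p a b s u)
      (Ja p c s a b + Jb p c s a b) := by
  have hs0 : 0 < s := by linarith
  have hsn : s ≠ 0 := hs0.ne'
  have hp0 : 0 < p := by omega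
  obtain ⟨g, hg⟩ : ∃ g : ℕ → ℝ, ∀ u, g u = s ^ (-(c * u : ℤ)) := ⟨_, fun _ => rfl⟩
  have hg1 : ∀ u : ℕ, s ^ (-(c * u : ℤ)) - s ^ (-(c * (u + 1) : ℤ)) = g u - g (u + 1) := by
    intro u
    rw [hg, hg]
    push_cast
    rfl
  have hgpos : ∀ u, 0 < g u := fun u => by rw [hg]; exact zpow_pos hs0 _
  have hgm : ∀ u, g (u + 1) ≤ g u := by
    intro u
    rw [hg, hg]
    refine zpow_le_zpow_right₀ hs.le ?_
    push_cast
    have : (0 : ℤ) ≤ c := by positivity
    linarith
  have hgadd : ∀ u v, g (u + v) = g u * s ^ (-(c * v : ℤ)) := by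
    intro u v
    rw [hg, hg, ← zpow_add₀ hsn]
    congr 1
    push_cast
    ring
  have hgp : ∀ y, g (p * y) - g (p * y + p) = (1 - s ^ (-(c * p : ℤ))) * s ^ (-(c * p * y : ℤ)) := by
    intro y
    rw [hgadd, hg]
    have : (-(c * (p * y : ℕ) : ℤ)) = (-(c * p * y : ℤ)) := by push_cast; ring
    rw [this]
    ring
  obtain ⟨f, hf⟩ : ∃ f : ℕ → ℝ, ∀ u, f u = (g u - g (u + 1)) * Ev p a b s u := ⟨_, fun _ => rfl⟩
  have hff : (fun u : ℕ => (s ^ (-(c * u : ℤ)) - s ^ (-(c * (u + 1) : ℤ))) * Ev p a b s u) = f := by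
    funext u
    rw [hg1, hf]
  rw [hff]
  -- the numbers
  have hmod := Nat.div_add_mod b p
  have hmodlt := Nat.mod_lt b hp0
  have hbp : b / p < b := Nat.div_lt_self hb (by omega)
  have hA : p * a + b = p * (a + b / p) + b % p := by
    rw [Nat.mul_add]; omega
  have hA1 : p * a + b ≤ p * (a + b / p + 1) := by
    rw [Nat.mul_succ, hA]; omega
  have hm1 : a + b / p + 1 ≤ a + b := by omega
  have hA2 : p * (a + b / p + 1) ≤ p * (a + b) := Nat.mul_le_mul_left _ hm1
  -- the tail
  have htail : HasSum (fun n => f (n + p * (a + b))) (Rf p c s (a + b)) := by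
    obtain ⟨e, he⟩ : ∃ e : ℕ → ℝ, ∀ y, e y = s ^ (2 * ((y : ℤ) - (y / p : ℕ)) : ℤ) :=
      ⟨_, fun _ => rfl⟩
    have hepos : ∀ y, 0 < e y := fun y => by rw [he]; exact zpow_pos hs0 _
    have h1 : ∀ n, f (n + p * (a + b)) =
        (g (n + p * (a + b)) - g (n + p * (a + b) + 1)) * e (n / p + (a + b)) := by
      intro n
      have h2 : (n + p * (a + b)) / p = n / p + (a + b) := Nat.add_mul_div_left _ _ hp0
      rw [hf, Ev, h2, if_neg (by omega), if_pos (Nat.le_add_left _ _), he]
    have h2 := hl_per (T := fun n => f (n + p * (a + b))) (P := p * p)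
      (x := s ^ (2 * (p - 1) - c * p * p : ℤ)) ?_ (by positivity) (by positivity) ?_ ?_
    · have h3 : (∑ i ∈ Finset.range (p * p), f (i + p * (a + b))) =
          ∑ j ∈ Finset.range p, (1 - s ^ (-(c * p : ℤ))) *
            s ^ (2 * ((((a : ℤ) + b) + j) - (((a : ℤ) + b) + j) / p) - c * p * (((a : ℤ) + b) + j)) := by
        rw [hl_block]
        refine Finset.sum_congr rfl fun j _ => ?_
        have h4 : ∀ i ∈ Finset.range p, f (p * j + i + p * (a + b)) =
            (g (p * (j + (a + b)) + i) - g (p * (j + (a + b)) + i + 1)) * e (j + (a + b)) := by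
          intro i hi
          rw [Finset.mem_range] at hi
          rw [h1]
          have h5 : (p * j + i) / p = j := by
            rw [Nat.mul_add_div hp0, Nat.div_eq_of_lt hi, add_zero]
          have h6 : p * j + i + p * (a + b) = p * (j + (a + b)) + i := by ring
          rw [h5, h6]
        rw [Finset.sum_congr rfl h4, ← Finset.sum_mul, hl_tele', hgp, he, mul_assoc,
          ← zpow_add₀ hsn]
        congr 2
        push_cast
        ring_nf
      have h4 : Rf p c s (a + b) = (∑ i ∈ Finset.range (p * p), f (i + p * (a + b))) *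
          (1 - s ^ (2 * (p - 1) - c * p * p : ℤ))⁻¹ := by
        rw [h3]; rfl
      rw [h4]
      exact h2
    · intro n
      show 0 ≤ f (n + p * (a + b))
      rw [h1]
      exact mul_nonneg (sub_nonneg.2 (hgm _)) (hepos _).le
    · refine zpow_lt_one_of_neg₀ hs ?_
      have h3 : (3 : ℤ) ≤ p := by exact_mod_cast hp
      have h4 : (2 : ℤ) ≤ c := by exact_mod_cast hc
      have h5 : (6 : ℤ) ≤ c * p := by nlinarith
      have h6 : (6 : ℤ) * p ≤ c * p * p := by nlinarith
      linarith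
    · intro n
      show f (n + p * p + p * (a + b)) = _ * f (n + p * (a + b))
      rw [h1, h1]
      have h3 : (n + p * p) / p = n / p + p := Nat.add_mul_div_left _ _ hp0
      have h4 : n / p + p + (a + b) = (n / p + (a + b)) + p := by ring
      have h5 : (n / p + (a + b) + p) / p = (n / p + (a + b)) / p + 1 := Nat.add_div_right _ hp0
      have h6 : n + p * p + p * (a + b) = (n + p * (a + b)) + p * p := by ring
      have h7 : n + p * (a + b) + p * p + 1 = (n + p * (a + b) + 1) + p * p := by ring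
      rw [h3, h4, h6, h7, hgadd (n + p * (a + b)) (p * p), hgadd (n + p * (a + b) + 1) (p * p),
        he, he, h5]
      have h8 : s ^ (2 * (((n / p + (a + b) + p : ℕ) : ℤ) - (((n / p + (a + b)) / p + 1 : ℕ) : ℤ))) =
          s ^ (2 * ((p : ℤ) - 1)) *
            s ^ (2 * (((n / p + (a + b) : ℕ) : ℤ) - (((n / p + (a + b)) / p : ℕ) : ℤ))) := by
        rw [← zpow_add₀ hsn]
        congr 1
        push_cast
        ring
      have h9 : s ^ (2 * (p - 1) - c * p * p : ℤ) =
          s ^ (2 * ((p : ℤ) - 1)) * s ^ (-(c * (p * p : ℕ) : ℤ)) := by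
        rw [← zpow_add₀ hsn]
        congr 1
        push_cast
        ring
      rw [h8, h9]
      ring
  rw [← hasSum_nat_add_iff' (p * (a + b))]
  have hfin : ∑ i ∈ Finset.range (p * (a + b)), f i =
      Ja p c s a b + Jb p c s a b - Rf p c s (a + b) := by
    have hz : ∀ u, u < p * a + b → f u = 0 := by
      intro u hu
      rw [hf, Ev, if_pos hu, mul_zero]
    have hsplit : ∑ i ∈ Finset.range (p * (a + b)), f i =
        ∑ i ∈ Finset.Ico (p * a + b) (p * (a + b)), f i := by
      rw [Finset.range_eq_Ico, ← Finset.sum_Ico_consecutive f (Nat.zero_le _)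
        (hA1.trans hA2)]
      rw [Finset.sum_eq_zero, zero_add]
      intro i hi
      rw [Finset.mem_Ico] at hi
      exact hz i hi.2
    rw [hsplit]
    have hdv : ((p : ℤ) ∣ (a : ℤ) + b) ↔ p ∣ a + b := by
      rw [← Int.natCast_dvd_natCast]; push_cast; rfl
    by_cases hd : p ∣ a + b
    · rw [Finset.sum_eq_zero]
      · rw [Ja, Jb, if_pos (hdv.2 hd), if_pos (hdv.2 hd)]
        ring
      · intro i hi
        rw [Finset.mem_Ico] at hi
        have h1 : i / p < a + b := by
          rw [Nat.div_lt_iff_lt_mul hp0, mul_comm]; exact hi.2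
        rw [hf, Ev, if_neg (by omega), if_neg (by omega), if_pos hd, mul_zero]
    · rw [Ja, Jb, if_neg (fun h => hd (hdv.1 h)), if_neg (fun h => hd (hdv.1 h))]
      obtain ⟨e, he⟩ : ∃ e : ℕ → ℝ, ∀ y, e y = s ^ (2 * ((y : ℤ) - ((a + b) / p : ℕ)) : ℤ) :=
        ⟨_, fun _ => rfl⟩
      have h1 : ∀ u, p * a + b ≤ u → u < p * (a + b) → f u = (g u - g (u + 1)) * e (u / p) := by
        intro u hu1 hu2
        have h2 : u / p < a + b := by
          rw [Nat.div_lt_iff_lt_mul hp0, mul_comm]; exact hu2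
        rw [hf, Ev, if_neg (by omega), if_neg (by omega), if_neg hd, he]
      have hθ : 1 - s ^ (2 - c * p : ℤ) ≠ 0 := by
        have : s ^ (2 - c * p : ℤ) < 1 := by
          refine zpow_lt_one_of_neg₀ hs ?_
          have h3 : (3 : ℤ) ≤ p := by exact_mod_cast hp
          have h4 : (2 : ℤ) ≤ c := by exact_mod_cast hc
          nlinarith
        linarith
      -- the middle part
      have hmid : ∀ M, a + b / p + 1 ≤ M → M ≤ a + b →
          ∑ u ∈ Finset.Ico (p * (a + b / p + 1)) (p * M), f u =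
          (1 - s ^ (-(c * p : ℤ))) * s ^ (-2 * (((a + b) / p : ℕ) : ℤ)) *
            (s ^ ((2 - c * p : ℤ) * (a + b / p + 1 : ℕ)) - s ^ ((2 - c * p : ℤ) * M)) *
            (1 - s ^ (2 - c * p : ℤ))⁻¹ := by
        intro M hM
        induction M, hM using Nat.le_induction with
        | base => intro _; simp
        | succ M hM ih =>
          intro hM2
          rw [← Finset.sum_Ico_consecutive f (Nat.mul_le_mul_left p hM)
            (Nat.mul_le_mul_left p (Nat.le_succ M)), ih (by omega)]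
          have h2 : ∑ u ∈ Finset.Ico (p * M) (p * (M + 1)), f u =
              (1 - s ^ (-(c * p : ℤ))) * s ^ (-(c * p * M : ℤ)) * e M := by
            have h3 : ∀ u ∈ Finset.Ico (p * M) (p * (M + 1)), f u = (g u - g (u + 1)) * e M := by
              intro u hu
              rw [Finset.mem_Ico] at hu
              have h4 : p * (a + b / p + 1) ≤ p * M := Nat.mul_le_mul_left p hM
              have h5 : p * (M + 1) ≤ p * (a + b) := Nat.mul_le_mul_left p hM2
              rw [h1 u (by omega) (by omega)]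
              have h6 : u / p = M := by
                rw [Nat.div_eq_iff hp0]
                constructor
                · rw [mul_comm]; exact hu.1
                · have := hu.2
                  rw [Nat.mul_succ] at this
                  rw [mul_comm M p]; omega
              rw [h6]
            rw [Finset.sum_congr rfl h3, ← Finset.sum_mul,
              hl_tele g _ _ (Nat.mul_le_mul_left p (Nat.le_succ M)), Nat.mul_succ, hgp]
          rw [h2, he]
          have h3 : (1 - s ^ (-(c * p : ℤ))) * s ^ (-(c * p * M : ℤ)) *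
              s ^ (2 * ((M : ℤ) - ((a + b) / p : ℕ)) : ℤ) =
              (1 - s ^ (-(c * p : ℤ))) * s ^ (-2 * (((a + b) / p : ℕ) : ℤ)) *
                s ^ ((2 - c * p : ℤ) * M) := by
            have h5 : s ^ (-(c * p * M : ℤ)) * s ^ (2 * ((M : ℤ) - ((a + b) / p : ℕ)) : ℤ) =
                s ^ (-2 * (((a + b) / p : ℕ) : ℤ)) * s ^ ((2 - c * p : ℤ) * M) := by
              rw [← zpow_add₀ hsn, ← zpow_add₀ hsn]
              congr 1
              ring
            linear_combination (1 - s ^ (-(c * p : ℤ))) * h5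
          have h4 : s ^ ((2 - c * p : ℤ) * (M + 1 : ℕ)) =
              s ^ ((2 - c * p : ℤ) * M) * s ^ (2 - c * p : ℤ) := by
            rw [← zpow_add₀ hsn]
            congr 1
            push_cast
            ring
          rw [h3, h4]
          field_simp
          ring
      have hfirst : ∑ u ∈ Finset.Ico (p * a + b) (p * (a + b / p + 1)), f u =
          (s ^ (-(c * (p * a + b) : ℤ)) - s ^ (-(c * p * (a + b / p + 1 : ℕ) : ℤ))) *
            s ^ (2 * (((a + b / p : ℕ) : ℤ) - ((a + b) / p : ℕ)) : ℤ) := by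
        have h3 : ∀ u ∈ Finset.Ico (p * a + b) (p * (a + b / p + 1)), f u =
            (g u - g (u + 1)) * e (a + b / p) := by
          intro u hu
          rw [Finset.mem_Ico] at hu
          rw [h1 u hu.1 (by omega)]
          have h6 : u / p = a + b / p := by
            rw [Nat.div_eq_iff hp0]
            constructor
            · rw [mul_comm]; omega
            · have := hu.2
              rw [Nat.mul_succ] at this
              rw [mul_comm (a + b / p) p]; omega
          rw [h6]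
        have y1 : s ^ (-(c * (p * a + b : ℕ) : ℤ)) = s ^ (-(c * (p * a + b) : ℤ)) := by
          congr 1
        have y2 : s ^ (-(c * (p * (a + b / p + 1) : ℕ) : ℤ)) =
            s ^ (-(c * p * (a + b / p + 1 : ℕ) : ℤ)) := by
          congr 1
          push_cast
          ring
        rw [Finset.sum_congr rfl h3, ← Finset.sum_mul, hl_tele g _ _ hA1, hg, hg, he, y1, y2]
      rw [← Finset.sum_Ico_consecutive f hA1 hA2, hfirst, hmid (a + b) hm1 le_rfl]
      have hk : (((a + b) / p : ℕ) : ℤ) = ((a : ℤ) + b) / p := by push_cast; rfl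
      have hn : ((a + b / p : ℕ) : ℤ) = (a : ℤ) + (b : ℤ) / p := by push_cast; rfl
      have hn1 : ((a + b / p + 1 : ℕ) : ℤ) = (a : ℤ) + (b : ℤ) / p + 1 := by push_cast; rfl
      have hm2 : ((a + b : ℕ) : ℤ) = (a : ℤ) + b := by push_cast; rfl
      rw [hk, hn, hn1, hm2]
      generalize ((a : ℤ) + b) / p = K
      generalize (a : ℤ) + (b : ℤ) / p = n
      -- algebra
      have e1 : s ^ (2 * (n - K)) = s ^ (-2 * K) * s ^ (2 * n) := by
        rw [← zpow_add₀ hsn]; congr 1; ring
      have e2 : s ^ (2 * n - c * (p * a + b)) = s ^ (2 * n) * s ^ (-(c * (p * a + b) : ℤ)) := by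
        rw [← zpow_add₀ hsn]; congr 1
      have e3 : s ^ (2 * n - c * p * (n + 1)) = s ^ (2 * n) * s ^ (-(c * p * (n + 1) : ℤ)) := by
        rw [← zpow_add₀ hsn]; congr 1
      have e4 : s ^ ((2 - c * p : ℤ) * (n + 1)) =
          s ^ (2 * n) * s ^ (-(c * p * (n + 1) : ℤ)) * s ^ (2 : ℤ) := by
        rw [← zpow_add₀ hsn, ← zpow_add₀ hsn]; congr 1; ring
      have e5 : s ^ (-2 * K + (2 - c * p) * ((a : ℤ) + b)) =
          s ^ (-2 * K) * s ^ ((2 - c * p : ℤ) * ((a : ℤ) + b)) := by
        rw [← zpow_add₀ hsn]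
      have e6 : s ^ (2 - c * p : ℤ) = s ^ (2 : ℤ) * s ^ (-(c * p : ℤ)) := by
        rw [← zpow_add₀ hsn]; congr 1
      rw [e1, e2, e3, e4, e5]
      rw [e6] at hθ ⊢
      generalize s ^ (2 * n) = A
      generalize s ^ (-(c * (p * a + b) : ℤ)) = B
      generalize s ^ (-(c * p * (n + 1) : ℤ)) = W
      generalize s ^ (-2 * K) = L
      generalize s ^ ((2 - c * p : ℤ) * ((a : ℤ) + b)) = Z
      generalize s ^ (-(c * p : ℤ)) = Y at *
      generalize s ^ (2 : ℤ) = Q at *
      have hI := mul_inv_cancel₀ hθ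
      linear_combination (L * W * A) * hI
  rw [hfin]
  have : Ja p c s a b + Jb p c s a b - (Ja p c s a b + Jb p c s a b - Rf p c s (a + b)) =
      Rf p c s (a + b) := by ring
  rw [this]
  exact htail

variable {p : ℕ} [Fact p.Prime] {k : Type} [Field k] [Fintype k] [CharP k p]

private theorem lay3_Ub_le (t : Tor p k) (u : ℕ) : Ub t ≤ u ↔
    p * sw t.1 + sw t.2.1 ≤ u ∧ ∀ m, u / p < m → ramF t 0 m = 0 := by
  have hp0 : 0 < p := (Fact.out : p.Prime).pos
  unfold Ub
  rw [max_le_iff, ← bigM_le_iff, Nat.le_div_iff_mul_le hp0, mul_comm p (bigM t)]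

private theorem lay3_pow {s : ℝ} {q : ℕ} (hq : s ^ 2 = q) (n : ℕ) :
    ((q ^ n : ℕ) : ℝ) = s ^ (2 * (n : ℤ)) := by
  rw [Nat.cast_pow, ← hq, ← pow_mul, zpow_mul]
  rw [← zpow_natCast s (2 * n)]
  rw [← zpow_mul]
  norm_cast

theorem sum_fh (hp : 3 ≤ p) (c : ℕ) (hc : 2 ≤ c) (s : ℝ) (hs : 1 < s)
    (hq : s ^ 2 = Fintype.card k) (g : Par p k) (hb : 0 < sw g) (a : ℕ) (hba : sw g ≤ a)
    (ha : ¬p ∣ a) (lam : k) (hl : lam ≠ 0) :
    ∑' x : {x : Par p k × Par p k // sw x.1 = a ∧ x.1.1 a = lam},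
      ENNReal.ofReal (s ^ (-(c * Ub (x.1.1, g, x.1.2) : ℤ))) =
    ENNReal.ofReal (s ^ (2 * (a - 1 - (a : ℤ) / p)) *
      (Ja p c s a (sw g) + Jb p c s a (sw g))) := by
  have hp0 : 0 < p := by omega
  have hg : g ≠ 0 := by
    rintro rfl
    simp at hb
  have hb' : ¬p ∣ sw g := not_dvd_sw hg
  have ha1 : 1 ≤ a := by omega
  have hap : a / p ≤ a - 1 := by
    have h1 : a / p ≤ a / 3 := Nat.div_le_div_left hp (by norm_num)
    omega
  -- the sets
  have key : ∀ u : ℕ, Subtype.val '' {x : {x : Par p k × Par p k // sw x.1 = a ∧ x.1.1 a = lam} |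
      Ub (x.1.1, g, x.1.2) ≤ u} = if u < p * a + sw g then ∅ else Dset g a lam (u / p) := by
    intro u
    by_cases hu : u < p * a + sw g
    · rw [if_pos hu, Set.image_eq_empty, Set.eq_empty_iff_forall_notMem]
      rintro ⟨x, hx1, hx2⟩ hx
      have h1 := ((lay3_Ub_le (x.1, g, x.2) u).1 hx).1
      change p * sw x.1 + sw g ≤ u at h1
      rw [hx1] at h1
      omega
    · rw [if_neg hu]
      ext x
      constructor
      · rintro ⟨⟨y, hy1, hy2⟩, hy, rfl⟩
        exact ⟨hy1, hy2, ((lay3_Ub_le (y.1, g, y.2) u).1 hy).2⟩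
      · rintro ⟨hx1, hx2, hx3⟩
        refine ⟨⟨x, hx1, hx2⟩, ?_, rfl⟩
        refine (lay3_Ub_le (x.1, g, x.2) u).2 ⟨?_, hx3⟩
        change p * sw x.1 + sw g ≤ u
        rw [hx1]
        omega
  have hfin : ∀ u : ℕ, {x : {x : Par p k × Par p k // sw x.1 = a ∧ x.1.1 a = lam} |
      Ub (x.1.1, g, x.1.2) ≤ u}.Finite := by
    intro u
    apply Set.Finite.of_finite_image _ Subtype.val_injective.injOn
    rw [key u]
    split_ifs
    · exact Set.finite_empty
    · exact (card_D_eq (by omega) g a lam (u / p)).1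
  have hcard : ∀ u : ℕ, {x : {x : Par p k × Par p k // sw x.1 = a ∧ x.1.1 a = lam} |
      Ub (x.1.1, g, x.1.2) ≤ u}.ncard =
      if u < p * a + sw g then 0 else (Dset g a lam (u / p)).ncard := by
    intro u
    rw [← Set.ncard_image_of_injective _ Subtype.val_injective, key u]
    split_ifs
    · exact Set.ncard_empty _
    · rfl
  rw [layer (fun x : {x : Par p k × Par p k // sw x.1 = a ∧ x.1.1 a = lam} =>
    Ub (x.1.1, g, x.1.2)) (fun u => if u < p * a + sw g then 0 else (Dset g a lam (u / p)).ncard)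
    hfin hcard c (by omega) s hs]
  -- the numbers
  have hN : ∀ u : ℕ, (((if u < p * a + sw g then 0 else (Dset g a lam (u / p)).ncard : ℕ)) : ℝ) =
      s ^ (2 * (a - 1 - (a : ℤ) / p)) * Ev p a (sw g) s u := by
    intro u
    unfold Ev
    by_cases hu : u < p * a + sw g
    · rw [if_pos hu, if_pos hu, Nat.cast_zero, mul_zero]
    · rw [if_neg hu, if_neg hu]
      have hau : a ≤ u / p := by
        rw [Nat.le_div_iff_mul_le hp0, mul_comm]
        omega
      rw [card_D (by omega) g hb a hba ha lam hl (u / p) hau, Nat.cast_mul, lay3_pow hq]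
      congr 1
      · congr 1
        rw [Nat.cast_sub hap, Nat.cast_sub ha1, Nat.cast_one, Int.natCast_div]
      · by_cases h1 : a + sw g ≤ u / p
        · rw [if_pos h1, if_pos h1, lay3_pow hq, Nat.cast_sub (Nat.div_le_self _ _)]
        · rw [if_neg h1, if_neg h1]
          by_cases h2 : p ∣ a + sw g
          · rw [if_pos h2, if_pos h2, Nat.cast_zero]
          · rw [if_neg h2, if_neg h2, lay3_pow hq, Nat.cast_sub]
            apply Nat.div_le_div_right
            have h3 : a ≤ p * a := Nat.le_mul_of_pos_left a hp0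
            omega
  have hs0 : 0 < s := by linarith
  have hsum := (hasSum_layer p hp c hc s hs a (sw g) hb hba ha hb').mul_left
    (s ^ (2 * (a - 1 - (a : ℤ) / p)))
  have hterm : ∀ u : ℕ, (s ^ (-(c * u : ℤ)) - s ^ (-(c * (u + 1) : ℤ))) *
      (((if u < p * a + sw g then 0 else (Dset g a lam (u / p)).ncard : ℕ)) : ℝ) =
      s ^ (2 * (a - 1 - (a : ℤ) / p)) *
        ((s ^ (-(c * u : ℤ)) - s ^ (-(c * (u + 1) : ℤ))) * Ev p a (sw g) s u) := by
    intro u
    rw [hN u]
    ring
  have hnn : ∀ u : ℕ, 0 ≤ (s ^ (-(c * u : ℤ)) - s ^ (-(c * (u + 1) : ℤ))) *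
      (((if u < p * a + sw g then 0 else (Dset g a lam (u / p)).ncard : ℕ)) : ℝ) := by
    intro u
    apply mul_nonneg _ (Nat.cast_nonneg _)
    rw [sub_nonneg]
    apply zpow_le_zpow_right₀ hs.le
    have h1 : (0 : ℤ) ≤ c := Int.natCast_nonneg c
    nlinarith
  have hsummable : Summable (fun u : ℕ => (s ^ (-(c * u : ℤ)) - s ^ (-(c * (u + 1) : ℤ))) *
      (((if u < p * a + sw g then 0 else (Dset g a lam (u / p)).ncard : ℕ)) : ℝ)) := by
    simp only [hterm]
    exact hsum.summable
  rw [← ENNReal.ofReal_tsum_of_nonneg hnn hsummable]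
  congr 1
  rw [tsum_congr hterm]
  exact hsum.tsum_eq

end Pool.Agent.Helper10.HS
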