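import Pool.Agent.Helper10.HS.Fn

/-!
# Project HS, piece Per: periodicity

`(a + p) / p = a / p + 1` (`Int.add_ediv_of_dvd_right` or `Int.add_mul_ediv_right`), so all exponents
are shifted by a constant and `zpow_add₀` gives the claims. In `Rf` every summand is multiplied by
`s ^ rr p c`. In `Ja`, `Jb` divisibility `p ∣ a + b` is unchanged.
-/

namespace Pool.Agent.Helper10.HS

variable (p : ℕ) [Fact p.Prime] (c : ℕ) {s : ℝ}

private theorem Per_div (a : ℤ) : (a + p) / p = a / (p : ℤ) + 1 := by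
  have hp : (p : ℤ) ≠ 0 := by exact_mod_cast (Fact.out : p.Prime).ne_zero
  have := Int.add_mul_ediv_right a 1 hp
  rwa [one_mul] at this

omit [Fact p.Prime] in
private theorem Per_dvd (a : ℤ) : (p : ℤ) ∣ a + p ↔ (p : ℤ) ∣ a :=
  dvd_add_left (dvd_refl _)

theorem Af_per (hs : 0 < s) (a : ℤ) : Af p s (a + p) = Af p s a * s ^ (2 * (p - 1) : ℤ) := by
  unfold Af
  rw [mul_assoc, ← zpow_add₀ hs.ne', Per_div]
  congr 2
  ring

theorem Rf_per (hs : 0 < s) (n : ℤ) : Rf p c s (n + p) = Rf p c s n * s ^ rr p c := by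
  unfold Rf
  have e : ∑ j ∈ Finset.range p, (1 - s ^ (-(c * p : ℤ))) *
      s ^ (2 * ((n + p + j) - (n + p + j) / p) - c * p * (n + p + j) : ℤ) =
      (∑ j ∈ Finset.range p, (1 - s ^ (-(c * p : ℤ))) *
      s ^ (2 * ((n + j) - (n + j) / p) - c * p * (n + j) : ℤ)) * s ^ rr p c := by
    rw [Finset.sum_mul]
    refine Finset.sum_congr rfl fun j _ => ?_
    rw [mul_assoc (1 - s ^ (-(c * p : ℤ))), ← zpow_add₀ hs.ne',
      show n + (p : ℤ) + (j : ℤ) = n + (j : ℤ) + p by ring, Per_div]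
    congr 2
    unfold rr
    ring
  rw [e]
  ring

theorem Ja_per1 (hs : 0 < s) (a b : ℤ) : Ja p c s (a + p) b = Ja p c s a b * s ^ rr p c := by
  unfold Ja
  rw [show a + (p : ℤ) + b = a + b + p by ring, ite_mul, zero_mul]
  refine if_congr (Per_dvd p _) rfl ?_
  rw [Per_div, mul_add (s ^ _), mul_add (s ^ _), add_mul (s ^ _ * s ^ _)]
  congr 1
  · rw [← zpow_add₀ hs.ne', ← zpow_add₀ hs.ne', ← zpow_add₀ hs.ne']
    congr 1
    unfold rr
    ring
  · have e : s ^ (-2 * ((a + b) / (p : ℤ) + 1)) *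
        s ^ (2 * (a + (p : ℤ) + b / (p : ℤ)) - c * p * (a + (p : ℤ) + b / (p : ℤ) + 1)) =
        s ^ (-2 * ((a + b) / (p : ℤ))) *
          s ^ (2 * (a + b / (p : ℤ)) - c * p * (a + b / (p : ℤ) + 1)) * s ^ rr p c := by
      rw [← zpow_add₀ hs.ne', ← zpow_add₀ hs.ne', ← zpow_add₀ hs.ne']
      congr 1
      unfold rr
      ring
    rw [← mul_assoc, ← mul_assoc, e]
    ring

theorem Ja_per2 (hs : 0 < s) (a b : ℤ) : Ja p c s a (b + p) = Ja p c s a b * s ^ ry p c := by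
  unfold Ja
  rw [show a + (b + (p : ℤ)) = a + b + p by ring, ite_mul, zero_mul]
  refine if_congr (Per_dvd p _) rfl ?_
  rw [Per_div, Per_div, mul_add (s ^ _), mul_add (s ^ _), add_mul (s ^ _ * s ^ _)]
  congr 1
  · rw [← zpow_add₀ hs.ne', ← zpow_add₀ hs.ne', ← zpow_add₀ hs.ne']
    congr 1
    unfold ry
    ring
  · have e : s ^ (-2 * ((a + b) / (p : ℤ) + 1)) *
        s ^ (2 * (a + (b / (p : ℤ) + 1)) - c * p * (a + (b / (p : ℤ) + 1) + 1)) =
        s ^ (-2 * ((a + b) / (p : ℤ))) *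
          s ^ (2 * (a + b / (p : ℤ)) - c * p * (a + b / (p : ℤ) + 1)) * s ^ ry p c := by
      rw [← zpow_add₀ hs.ne', ← zpow_add₀ hs.ne', ← zpow_add₀ hs.ne']
      congr 1
      unfold ry
      ring
    rw [← mul_assoc, ← mul_assoc, e]
    ring

private theorem Per_Jb (hs : 0 < s) (a b : ℤ) :
    (Rf p c s (a + b + p) - if (p : ℤ) ∣ a + b + p then 0 else
      (1 - s ^ (-(c * p : ℤ))) * s ^ (-2 * ((a + b + p) / p) + (2 - c * p) * (a + b + p)) *
        (1 - s ^ (2 - c * p : ℤ))⁻¹) = Jb p c s a b * s ^ rr p c := by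
  unfold Jb
  rw [Rf_per p c hs, sub_mul (Rf p c s (a + b)), ite_mul, zero_mul]
  congr 1
  refine if_congr (Per_dvd p _) rfl ?_
  rw [Per_div]
  have e : s ^ (-2 * ((a + b) / (p : ℤ) + 1) + (2 - (c : ℤ) * p) * (a + b + p)) =
      s ^ (-2 * ((a + b) / (p : ℤ)) + (2 - (c : ℤ) * p) * (a + b)) * s ^ rr p c := by
    rw [← zpow_add₀ hs.ne']
    congr 1
    unfold rr
    ring
  rw [e]
  ring

theorem Jb_per1 (hs : 0 < s) (a b : ℤ) : Jb p c s (a + p) b = Jb p c s a b * s ^ rr p c := by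
  rw [← Per_Jb p c hs a b]
  unfold Jb
  rw [show a + (p : ℤ) + b = a + b + p by ring]

theorem Jb_per2 (hs : 0 < s) (a b : ℤ) : Jb p c s a (b + p) = Jb p c s a b * s ^ rr p c := by
  rw [← Per_Jb p c hs a b]
  unfold Jb
  rw [show a + (b + (p : ℤ)) = a + b + p by ring]

theorem Cf_per1 (u v : ℕ) (J : ℝ → ℤ → ℤ → ℝ) (x : ℤ) (hs : 0 < s)
    (hJ : ∀ a b, J s (a + p) b = J s a b * s ^ x) (a b : ℤ) :
    Cf p u v J s (a + p) b = Cf p u v J s a b * s ^ ex p u x := by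
  unfold Cf
  rw [hJ, Af_per p hs]
  have e : s ^ (2 * (p - 1) : ℤ) * s ^ (-(u * (a + p) + v * b : ℤ)) * s ^ x =
      s ^ (-(u * a + v * b : ℤ)) * s ^ ex p u x := by
    rw [← zpow_add₀ hs.ne', ← zpow_add₀ hs.ne', ← zpow_add₀ hs.ne']
    congr 1
    unfold ex
    ring
  calc Af p s a * s ^ (2 * (p - 1) : ℤ) * Af p s b * s ^ (-(u * (a + p) + v * b : ℤ)) *
        (J s a b * s ^ x) = Af p s a * Af p s b * J s a b *
          (s ^ (2 * (p - 1) : ℤ) * s ^ (-(u * (a + p) + v * b : ℤ)) * s ^ x) := by ring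
    _ = _ := by
      rw [e]
      ring

theorem Cf_per2 (u v : ℕ) (J : ℝ → ℤ → ℤ → ℝ) (y : ℤ) (hs : 0 < s)
    (hJ : ∀ a b, J s a (b + p) = J s a b * s ^ y) (a b : ℤ) :
    Cf p u v J s a (b + p) = Cf p u v J s a b * s ^ ex p v y := by
  unfold Cf
  rw [hJ, Af_per p hs]
  have e : s ^ (2 * (p - 1) : ℤ) * s ^ (-(u * a + v * (b + p) : ℤ)) * s ^ y =
      s ^ (-(u * a + v * b : ℤ)) * s ^ ex p v y := by
    rw [← zpow_add₀ hs.ne', ← zpow_add₀ hs.ne', ← zpow_add₀ hs.ne']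
    congr 1
    unfold ex
    ring
  calc Af p s a * (Af p s b * s ^ (2 * (p - 1) : ℤ)) * s ^ (-(u * a + v * (b + p) : ℤ)) *
        (J s a b * s ^ y) = Af p s a * Af p s b * J s a b *
          (s ^ (2 * (p - 1) : ℤ) * s ^ (-(u * a + v * (b + p) : ℤ)) * s ^ y) := by ring
    _ = _ := by
      rw [e]
      ring

end Pool.Agent.Helper10.HS
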