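import Pool.Agent.Helper10.HS.SumB
import Pool.Agent.Helper10.HS.Per
import Pool.Agent.Helper10.HS.Lay
import Pool.Agent.Helper10.HS.Adp

/-!
# Project HS, piece Cone: the sums over the torsors of a given type

`sum_cone`: group the triples `(f, g, h)` by `b = sw g`, `g`, `a = sw f`, `lam = f_a`: for fixed `g`,
`a > b` and `lam ≠ 0` the sum over `(f, h)` is given by `sum_fh`, there are `q - 1` values of `lam`
(together `Af p s a * (Ja + Jb)`, as `Af p s a = (q - 1) s^(2 (a - 1 - a / p))`), and `Af p s b` series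
`g` (`card_sw_eq`, or `tsum_sw`). So the sum is the sum over `x = (a, b)`, `b < a`, of
`ofReal (Cf p u v (Ja p c) s a b + Cf p u v (Jb p c) s a b)`, and `hasSum_S2` (twice; the multipliers
are in `(0, 1)`, `Cf_per1`, `Cf_per2`, `Ja_per1`, …) gives `Zc p c u v s`
(`ENNReal.ofReal_tsum_of_nonneg`; the summands are nonnegative as limits of sums of nonnegative
terms, `hasSum_layer`).

`sum_ray`: the same with `a = b` and `lam ∉ 𝔽_p g_a`: there are `q - p` such `lam`, and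
`(q - p) s^(2 (a - 1 - a / p)) = (q - p) / (q - 1) * Af p s a`.

`sum_pairs`: the sets `{IsMin l t}` and `{EqT t}` are disjoint with union `{Indep t}`
(`indep_iff`, `isMin_unique`, `isMin_not_eqT`), a statement on indicator functions.
-/

namespace Pool.Agent.Helper10.HS

open scoped ENNReal

variable {p : ℕ} [Fact p.Prime] {k : Type} [Field k] [Fintype k] [CharP k p]

theorem Jab_nonneg (hp : 3 ≤ p) (c : ℕ) (hc : 2 ≤ c) (s : ℝ) (hs : 1 < s) (a b : ℕ)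
    (hb : 0 < b) (hba : b ≤ a) (ha : ¬p ∣ a) (hb' : ¬p ∣ b) :
    0 ≤ Ja p c s a b + Jb p c s a b := by
  have hs0 : 0 < s := by linarith
  refine (hasSum_layer p hp c hc s hs a b hb hba ha hb').nonneg fun u => ?_
  refine mul_nonneg ?_ ?_
  · rw [sub_nonneg]
    refine zpow_le_zpow_right₀ hs.le ?_
    have : (0 : ℤ) ≤ (c : ℤ) := Int.natCast_nonneg c
    linarith
  · unfold Ev
    split_ifs
    · exact le_refl _
    · exact (zpow_pos hs0 _).le
    · exact le_refl _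
    · exact (zpow_pos hs0 _).le

/-- the triples of the cone: `g`, the leading term of `f`, the pair `(f, h)` -/
private noncomputable def cone1_equiv :
    {t : Tor p k // 0 < sw t.2.1 ∧ sw t.2.1 < sw t.1} ≃
      Σ g : {g : Par p k // g ≠ 0},
        Σ al : {a : ℕ // ¬p ∣ a ∧ sw g.1 < a} × {lam : k // lam ≠ 0},
          {x : Par p k × Par p k // sw x.1 = al.1.1 ∧ x.1.1 al.1.1 = al.2.1} where
  toFun t := ⟨⟨t.1.2.1, fun h => by
      have h1 := t.2.1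
      rw [h, sw_zero] at h1
      exact lt_irrefl _ h1⟩,
    ⟨⟨sw t.1.1, not_dvd_sw fun h => by
      have h1 := t.2.2
      rw [h, sw_zero] at h1
      exact Nat.not_lt_zero _ h1, t.2.2⟩, ⟨t.1.1.1 (sw t.1.1), sw_spec fun h => by
      have h1 := t.2.2
      rw [h, sw_zero] at h1
      exact Nat.not_lt_zero _ h1⟩⟩, ⟨(t.1.1, t.1.2.2), rfl, rfl⟩⟩
  invFun y := ⟨(y.2.2.1.1, y.1.1, y.2.2.1.2), sw_pos y.1.2, by
    show sw y.1.1 < sw y.2.2.1.1
    rw [y.2.2.2.1]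
    exact y.2.1.1.2.2⟩
  left_inv := by
    rintro ⟨⟨f, g, h⟩, h1⟩
    rfl
  right_inv := by
    rintro ⟨⟨g, hg⟩, ⟨⟨⟨a, ha⟩, ⟨lam, hl⟩⟩, ⟨⟨f, h⟩, h1, h2⟩⟩⟩
    dsimp only at h1 h2
    subst h1
    subst h2
    rfl

/-- the pairs of pole orders -/
private def cone1_pairs (p : ℕ) :
    (Σ b : {b : ℕ // ¬p ∣ b}, {a : ℕ // ¬p ∣ a ∧ b.1 < a}) ≃
      {x : ℕ × ℕ // ¬p ∣ x.1 ∧ ¬p ∣ x.2 ∧ x.2 < x.1} where
  toFun y := ⟨(y.2.1, y.1.1), y.2.2.1, y.1.2, y.2.2.2⟩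
  invFun x := ⟨⟨x.1.2, x.2.2.1⟩, ⟨x.1.1, x.2.1, x.2.2.2⟩⟩
  left_inv := fun _ => rfl
  right_inv := fun _ => rfl

omit [Fact p.Prime] in
private theorem cone1_Af_nonneg {s0 : ℝ} (hs : 1 < s0) (a : ℤ) : 0 ≤ Af p s0 a := by
  unfold Af
  have h1 : (1 : ℝ) ≤ s0 ^ (2 : ℤ) := one_le_zpow₀ hs.le (by norm_num)
  exact mul_nonneg (by linarith) (zpow_pos (by linarith) _).le

private theorem cone1_zlt {s0 : ℝ} {x : ℤ} (hs : 1 < s0) (hx : x < 0) : s0 ^ x < 1 :=
  zpow_lt_one_of_neg₀ hs hx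

private theorem cone1_hasSum (hp : 3 ≤ p) (c : ℕ) (hc : 2 ≤ c) (u v : ℕ) {s0 : ℝ} (hs : 1 < s0) :
    HasSum (fun x : {x : ℕ × ℕ // ¬p ∣ x.1 ∧ ¬p ∣ x.2 ∧ x.2 < x.1} =>
      Cf p u v (Ja p c) s0 (x.1.1 : ℤ) (x.1.2 : ℤ) + Cf p u v (Jb p c) s0 (x.1.1 : ℤ) (x.1.2 : ℤ))
      (Zc p c u v s0) := by
  have hs0 : 0 < s0 := by linarith
  have hp3 : (3 : ℤ) ≤ p := by exact_mod_cast hp
  have hc2 : (2 : ℤ) ≤ c := by exact_mod_cast hc
  have e1 : ∀ w : ℕ, ex p w (rr p c) < 0 := by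
    intro w
    unfold ex rr
    have h1 : (0 : ℤ) ≤ (p : ℤ) * w := by positivity
    have h2 : (2 : ℤ) * p * p ≤ c * p * p := by
      have : (0 : ℤ) ≤ (p : ℤ) * p := by positivity
      nlinarith
    nlinarith
  have e2 : ex p v (ry p c) < 0 := by
    unfold ex ry
    have h1 : (0 : ℤ) ≤ (p : ℤ) * v := by positivity
    nlinarith
  have l1 : ∀ w : ℕ, s0 ^ ex p w (rr p c) < 1 := fun w => cone1_zlt hs (e1 w)
  have l2 : s0 ^ ex p v (ry p c) < 1 := cone1_zlt hs e2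
  unfold Zc
  refine HasSum.add ?_ ?_
  · refine hasSum_S2 p (by omega) (Cf p u v (Ja p c) s0) _ _ (zpow_pos hs0 _).le (l1 u)
      (zpow_pos hs0 _).le ?_ ?_ ?_
    · exact mul_lt_one_of_nonneg_of_lt_one_left (zpow_pos hs0 _).le (l1 u) l2.le
    · exact fun a b => Cf_per1 p u v (Ja p c) (rr p c) hs0 (Ja_per1 p c hs0) a b
    · exact fun a b => Cf_per2 p u v (Ja p c) (ry p c) hs0 (Ja_per2 p c hs0) a b
  · refine hasSum_S2 p (by omega) (Cf p u v (Jb p c) s0) _ _ (zpow_pos hs0 _).le (l1 u)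
      (zpow_pos hs0 _).le ?_ ?_ ?_
    · exact mul_lt_one_of_nonneg_of_lt_one_left (zpow_pos hs0 _).le (l1 u) (l1 v).le
    · exact fun a b => Cf_per1 p u v (Jb p c) (rr p c) hs0 (Jb_per1 p c hs0) a b
    · exact fun a b => Cf_per2 p u v (Jb p c) (rr p c) hs0 (Jb_per2 p c hs0) a b

theorem sum_cone (hp : 3 ≤ p) (c : ℕ) (hc : 2 ≤ c) (u v : ℕ) (s : ℝ) (hs : 1 < s)
    (hq : s ^ 2 = Fintype.card k) :
    ∑' t : {t : Tor p k // 0 < sw t.2.1 ∧ sw t.2.1 < sw t.1},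
      ENNReal.ofReal (s ^ (-(u * sw t.1.1 + v * sw t.1.2.1 + c * Ub t.1 : ℤ))) =
    ENNReal.ofReal (Zc p c u v s) := by
  classical
  have hs0 : 0 < s := by linarith
  have hp0 : 0 < p := by omega
  -- the sum over the pairs `(f, h)` and the leading coefficients
  have key : ∀ (g : Par p k), g ≠ 0 → ∀ a : {a : ℕ // ¬p ∣ a ∧ sw g < a},
      (∑' lam : {lam : k // lam ≠ 0},
        ∑' x : {x : Par p k × Par p k // sw x.1 = a.1 ∧ x.1.1 a.1 = lam.1},
          ENNReal.ofReal (s ^ (-(u * sw x.1.1 + v * sw g + c * Ub (x.1.1, g, x.1.2) : ℤ)))) =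
      ENNReal.ofReal (Af p s (a.1 : ℤ) * s ^ (-(u * (a.1 : ℤ) + v * (sw g : ℤ) : ℤ)) *
        (Ja p c s (a.1 : ℤ) (sw g) + Jb p c s (a.1 : ℤ) (sw g))) := by
    intro g hg a
    have hb := sw_pos hg
    have hj := Jab_nonneg hp c hc s hs a.1 (sw g) hb a.2.2.le a.2.1 (not_dvd_sw hg)
    have h1 : ∀ lam : {lam : k // lam ≠ 0},
        (∑' x : {x : Par p k × Par p k // sw x.1 = a.1 ∧ x.1.1 a.1 = lam.1},
          ENNReal.ofReal (s ^ (-(u * sw x.1.1 + v * sw g + c * Ub (x.1.1, g, x.1.2) : ℤ)))) =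
        ENNReal.ofReal (s ^ (-(u * (a.1 : ℤ) + v * (sw g : ℤ) : ℤ)) *
          (s ^ (2 * (a.1 - 1 - (a.1 : ℤ) / p)) *
            (Ja p c s (a.1 : ℤ) (sw g) + Jb p c s (a.1 : ℤ) (sw g)))) := by
      intro lam
      rw [ENNReal.ofReal_mul (zpow_pos hs0 _).le,
        ← sum_fh hp c hc s hs hq g hb a.1 a.2.2.le a.2.1 lam.1 lam.2, ← ENNReal.tsum_mul_left]
      refine tsum_congr fun x => ?_
      rw [← ENNReal.ofReal_mul (zpow_pos hs0 _).le, ← zpow_add₀ hs0.ne', x.2.1]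
      congr 2
      ring
    rw [tsum_congr h1, tsum_fintype, Finset.sum_const, nsmul_eq_mul, Finset.card_univ]
    have h2 : ((Fintype.card {lam : k // lam ≠ 0} : ℕ) : ℝ≥0∞) =
        ENNReal.ofReal (s ^ (2 : ℤ) - 1) := by
      have h3 : Fintype.card {lam : k // lam ≠ 0} = Fintype.card k - 1 := by
        rw [Fintype.card_subtype_compl, Fintype.card_subtype_eq]
      have h4 : 1 ≤ Fintype.card k := Fintype.card_pos
      rw [h3, ← ENNReal.ofReal_natCast]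
      congr 1
      rw [Nat.cast_sub h4, ← hq]
      norm_cast
    have h5 : (0 : ℝ) ≤ s ^ (2 : ℤ) - 1 := by
      have : (1 : ℝ) ≤ s ^ (2 : ℤ) := one_le_zpow₀ hs.le (by norm_num)
      linarith
    rw [h2, ← ENNReal.ofReal_mul h5]
    congr 1
    unfold Af
    ring
  rw [← (cone1_equiv (p := p) (k := k)).symm.tsum_eq, ENNReal.tsum_sigma']
  have h6 : ∀ g : {g : Par p k // g ≠ 0},
      (∑' y : Σ al : {a : ℕ // ¬p ∣ a ∧ sw g.1 < a} × {lam : k // lam ≠ 0},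
          {x : Par p k × Par p k // sw x.1 = al.1.1 ∧ x.1.1 al.1.1 = al.2.1},
        ENNReal.ofReal (s ^ (-(u * sw (cone1_equiv.symm ⟨g, y⟩).1.1 +
          v * sw (cone1_equiv.symm ⟨g, y⟩).1.2.1 + c * Ub (cone1_equiv.symm ⟨g, y⟩).1 : ℤ)))) =
      (fun b : ℕ => ∑' a : {a : ℕ // ¬p ∣ a ∧ b < a},
        ENNReal.ofReal (Af p s (a.1 : ℤ) * s ^ (-(u * (a.1 : ℤ) + v * (b : ℤ) : ℤ)) *
          (Ja p c s (a.1 : ℤ) b + Jb p c s (a.1 : ℤ) b))) (sw g.1) := by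
    intro g
    rw [ENNReal.tsum_sigma', ENNReal.tsum_prod']
    refine tsum_congr fun a => ?_
    exact key g.1 g.2 a
  rw [tsum_congr h6, tsum_sw s hs hq (fun b : ℕ => ∑' a : {a : ℕ // ¬p ∣ a ∧ b < a},
        ENNReal.ofReal (Af p s (a.1 : ℤ) * s ^ (-(u * (a.1 : ℤ) + v * (b : ℤ) : ℤ)) *
          (Ja p c s (a.1 : ℤ) b + Jb p c s (a.1 : ℤ) b)))]
  have h7 : ∀ b : {b : ℕ // ¬p ∣ b}, ENNReal.ofReal (Af p s (b.1 : ℤ)) *
      (∑' a : {a : ℕ // ¬p ∣ a ∧ b.1 < a},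
        ENNReal.ofReal (Af p s (a.1 : ℤ) * s ^ (-(u * (a.1 : ℤ) + v * (b.1 : ℤ) : ℤ)) *
          (Ja p c s (a.1 : ℤ) b.1 + Jb p c s (a.1 : ℤ) b.1))) =
      ∑' a : {a : ℕ // ¬p ∣ a ∧ b.1 < a},
        (fun x : {x : ℕ × ℕ // ¬p ∣ x.1 ∧ ¬p ∣ x.2 ∧ x.2 < x.1} => ENNReal.ofReal
          (Cf p u v (Ja p c) s (x.1.1 : ℤ) (x.1.2 : ℤ) +
            Cf p u v (Jb p c) s (x.1.1 : ℤ) (x.1.2 : ℤ))) (cone1_pairs p ⟨b, a⟩) := by
    intro b
    rw [← ENNReal.tsum_mul_left]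
    refine tsum_congr fun a => ?_
    rw [← ENNReal.ofReal_mul (cone1_Af_nonneg hs _)]
    show _ = ENNReal.ofReal (Cf p u v (Ja p c) s (a.1 : ℤ) (b.1 : ℤ) +
      Cf p u v (Jb p c) s (a.1 : ℤ) (b.1 : ℤ))
    congr 1
    unfold Cf
    ring
  rw [tsum_congr h7, ← ENNReal.tsum_sigma' (f := fun y => (fun x : {x : ℕ × ℕ //
    ¬p ∣ x.1 ∧ ¬p ∣ x.2 ∧ x.2 < x.1} => ENNReal.ofReal
          (Cf p u v (Ja p c) s (x.1.1 : ℤ) (x.1.2 : ℤ) +
            Cf p u v (Jb p c) s (x.1.1 : ℤ) (x.1.2 : ℤ))) (cone1_pairs p y))]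
  refine ((cone1_pairs p).tsum_eq (fun x : {x : ℕ × ℕ //
    ¬p ∣ x.1 ∧ ¬p ∣ x.2 ∧ x.2 < x.1} => ENNReal.ofReal
          (Cf p u v (Ja p c) s (x.1.1 : ℤ) (x.1.2 : ℤ) +
            Cf p u v (Jb p c) s (x.1.1 : ℤ) (x.1.2 : ℤ)))).trans ?_
  have h8 := cone1_hasSum hp c hc u v hs
  rw [← ENNReal.ofReal_tsum_of_nonneg _ h8.summable, h8.tsum_eq]
  intro x
  have hb0 : 0 < x.1.2 := Nat.pos_of_ne_zero fun h => x.2.2.1 (h ▸ dvd_zero p)
  have hj := Jab_nonneg hp c hc s hs x.1.1 x.1.2 hb0 x.2.2.2.le x.2.1 x.2.2.1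
  have h9 : Cf p u v (Ja p c) s (x.1.1 : ℤ) (x.1.2 : ℤ) +
      Cf p u v (Jb p c) s (x.1.1 : ℤ) (x.1.2 : ℤ) =
      Af p s (x.1.1 : ℤ) * Af p s (x.1.2 : ℤ) * s ^ (-(u * (x.1.1 : ℤ) + v * (x.1.2 : ℤ) : ℤ)) *
        (Ja p c s (x.1.1 : ℤ) (x.1.2 : ℤ) + Jb p c s (x.1.1 : ℤ) (x.1.2 : ℤ)) := by
    unfold Cf
    ring
  rw [h9]
  exact mul_nonneg (mul_nonneg (mul_nonneg (cone1_Af_nonneg hs _) (cone1_Af_nonneg hs _))
    (zpow_pos hs0 _).le) hj

/-- (piece Cone2) the torsors with equal pole orders -/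
private noncomputable def cone2_eqv : {t : Tor p k // EqT t} ≃
    Σ g : {g : Par p k // g ≠ 0},
      Σ lam : {lam : k // ∀ c : ZMod p, lam ≠ (c.val : k) * g.1.1 (sw g.1)},
        {x : Par p k × Par p k // sw x.1 = sw g.1 ∧ x.1.1 (sw g.1) = lam.1} where
  toFun t := ⟨⟨t.1.2.1, t.2.1⟩, ⟨t.1.1.1 (sw t.1.2.1), fun c => by
    have h := t.2.2.2 c
    rwa [t.2.2.1] at h⟩, ⟨(t.1.1, t.1.2.2), t.2.2.1, rfl⟩⟩
  invFun y := ⟨(y.2.2.1.1, y.1.1, y.2.2.1.2), y.1.2, y.2.2.2.1, fun c => by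
    have h := y.2.1.2 c
    have h1 := y.2.2.2.1
    have h2 := y.2.2.2.2
    change (y.2.2.1.1).1 (sw y.2.2.1.1) ≠ (c.val : k) * y.1.1.1 (sw y.2.2.1.1)
    rw [h1, h2]
    exact h⟩
  left_inv t := rfl
  right_inv y := by
    obtain ⟨g, ⟨lam, hlam⟩, ⟨x, hx1, hx2⟩⟩ := y
    cases hx2
    rfl

private theorem cone2_card (g : Par p k) (hg : g ≠ 0) :
    Nat.card {lam : k // ∀ c : ZMod p, lam ≠ (c.val : k) * g.1 (sw g)} + p = Fintype.card k := by
  classical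
  have hinj : Function.Injective (fun c : ZMod p => (c.val : k) * g.1 (sw g)) := by
    intro c c' h
    have h1 := mul_right_cancel₀ (sw_spec hg) h
    rw [← sub_eq_zero]
    have h2 : ((c - c').val : k) = 0 := by
      have e : (c - c').val + c'.val ≡ c.val [MOD p] := by
        have h3 : ((c - c') + c').val = c.val := by rw [sub_add_cancel]
        rw [ZMod.val_add] at h3
        have h4 := Nat.mod_modEq ((c - c').val + c'.val) p
        rw [h3] at h4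
        exact h4.symm
      have h5 := (CharP.natCast_eq_natCast k p).2 e
      rw [Nat.cast_add] at h5
      linear_combination h5 + h1
    exact cast_val_eq_zero.1 h2
  have h1 : Fintype.card k = Nat.card {lam : k // ∀ c : ZMod p, lam ≠ (c.val : k) * g.1 (sw g)} +
      Nat.card {lam : k // ¬ ∀ c : ZMod p, lam ≠ (c.val : k) * g.1 (sw g)} := by
    rw [Nat.card_eq_fintype_card, Nat.card_eq_fintype_card,
      Fintype.card_subtype_compl, Nat.add_sub_cancel']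
    exact Fintype.card_subtype_le _
  have h2 : Nat.card {lam : k // ¬ ∀ c : ZMod p, lam ≠ (c.val : k) * g.1 (sw g)} = p := by
    have e : {lam : k // ¬ ∀ c : ZMod p, lam ≠ (c.val : k) * g.1 (sw g)} ≃ ZMod p := by
      refine Equiv.symm ((Equiv.ofInjective _ hinj).trans (Equiv.subtypeEquivRight ?_))
      intro x
      simp only [Set.mem_range, not_forall, not_not, eq_comm]
    rw [Nat.card_congr e, Nat.card_eq_fintype_card, ZMod.card]
  rw [h1, h2]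

theorem sum_ray (hp : 3 ≤ p) (c : ℕ) (hc : 2 ≤ c) (W : ℕ) (s : ℝ) (hs : 1 < s)
    (hq : s ^ 2 = Fintype.card k) :
    ∑' t : {t : Tor p k // EqT t},
      ENNReal.ofReal (s ^ (-(W * sw t.1.1 + c * Ub t.1 : ℤ))) =
    ENNReal.ofReal ((s ^ (2 : ℤ) - p) * (s ^ (2 : ℤ) - 1)⁻¹ * Zd p c W s) := by
  classical
  have hs0 : (0 : ℝ) < s := by linarith
  have hsne : s ≠ 0 := hs0.ne'
  -- the two series over the pole order
  have hp1 : 1 < p := by omega
  have hP : (3 : ℤ) ≤ p := by exact_mod_cast hp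
  have hC : (2 : ℤ) ≤ c := by exact_mod_cast hc
  have hW : (0 : ℤ) ≤ W := Int.natCast_nonneg W
  have hx1 : s ^ (ex p W (rr p c) + ex p 0 (ry p c)) < 1 := by
    apply zpow_lt_one_of_neg₀ hs
    unfold ex rr ry
    have h1 : (0 : ℤ) ≤ p * W := by positivity
    have h2 : 2 * (p * p + p : ℤ) ≤ c * (p * p + p) := by
      apply mul_le_mul_of_nonneg_right hC
      positivity
    push_cast
    nlinarith
  have hx2 : s ^ (ex p W (rr p c) + ex p 0 (rr p c)) < 1 := by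
    apply zpow_lt_one_of_neg₀ hs
    unfold ex rr
    have h1 : (0 : ℤ) ≤ p * W := by positivity
    have h2 : 2 * (p * p : ℤ) ≤ c * (p * p) := by
      apply mul_le_mul_of_nonneg_right hC
      positivity
    push_cast
    nlinarith
  have hS1 := hasSum_S1 p hp1 (fun a => Cf p W 0 (Ja p c) s a a)
    (s ^ (ex p W (rr p c) + ex p 0 (ry p c))) (by positivity) hx1 (by
      intro a
      rw [Cf_per1 p W 0 (Ja p c) (rr p c) hs0 (fun a b => Ja_per1 p c hs0 a b),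
        Cf_per2 p W 0 (Ja p c) (ry p c) hs0 (fun a b => Ja_per2 p c hs0 a b),
        zpow_add₀ hsne]
      ring)
  have hS2 := hasSum_S1 p hp1 (fun a => Cf p W 0 (Jb p c) s a a)
    (s ^ (ex p W (rr p c) + ex p 0 (rr p c))) (by positivity) hx2 (by
      intro a
      rw [Cf_per1 p W 0 (Jb p c) (rr p c) hs0 (fun a b => Jb_per1 p c hs0 a b),
        Cf_per2 p W 0 (Jb p c) (rr p c) hs0 (fun a b => Jb_per2 p c hs0 a b),
        zpow_add₀ hsne]
      ring)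
  have hS := (hS1.add hS2).mul_left ((s ^ (2 : ℤ) - p) * (s ^ (2 : ℤ) - 1)⁻¹)
  have hq' : s ^ (2 : ℤ) = Fintype.card k := by
    rw [← hq]
    norm_cast
  have hs2 : 0 < s ^ (2 : ℤ) - 1 := by
    have : 1 < s ^ (2 : ℤ) := one_lt_zpow₀ hs (by norm_num)
    linarith
  -- an element of the first type gives the inequality between the cardinalities
  have hpq : (p : ℝ) ≤ s ^ (2 : ℤ) := by
    rw [hq']
    have h1 : Function.Injective (fun c : ZMod p => (c.val : k)) := by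
      intro x y hxy
      have h2 : (x.val : ℕ) ≡ y.val [MOD p] := (CharP.natCast_eq_natCast k p).1 hxy
      apply ZMod.val_injective p
      exact h2.eq_of_lt_of_lt (ZMod.val_lt x) (ZMod.val_lt y)
    have h2 := Fintype.card_le_of_injective _ h1
    rw [ZMod.card] at h2
    exact_mod_cast h2
  have hterm : ∀ a : {a : ℕ // ¬p ∣ a},
      ENNReal.ofReal (Af p s (a.1 : ℤ)) * (ENNReal.ofReal (s ^ (2 : ℤ) - p) *
        (ENNReal.ofReal (s ^ (-(W * a.1 : ℤ))) *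
          ENNReal.ofReal (s ^ (2 * (a.1 - 1 - (a.1 : ℤ) / p)) *
            (Ja p c s a.1 a.1 + Jb p c s a.1 a.1)))) =
      ENNReal.ofReal ((s ^ (2 : ℤ) - p) * (s ^ (2 : ℤ) - 1)⁻¹ *
        (Cf p W 0 (Ja p c) s a.1 a.1 + Cf p W 0 (Jb p c) s a.1 a.1)) ∧
      0 ≤ (s ^ (2 : ℤ) - p) * (s ^ (2 : ℤ) - 1)⁻¹ *
        (Cf p W 0 (Ja p c) s a.1 a.1 + Cf p W 0 (Jb p c) s a.1 a.1) := by
    intro a
    have ha0 : 0 < a.1 := Nat.pos_of_ne_zero (fun h => a.2 (h ▸ dvd_zero p))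
    have hJ := Jab_nonneg hp c hc s hs a.1 a.1 ha0 le_rfl a.2 a.2
    have hA : 0 ≤ Af p s (a.1 : ℤ) := by
      unfold Af
      positivity
    have e : (s ^ (2 : ℤ) - p) * (s ^ (2 : ℤ) - 1)⁻¹ *
        (Cf p W 0 (Ja p c) s a.1 a.1 + Cf p W 0 (Jb p c) s a.1 a.1) =
        Af p s (a.1 : ℤ) * ((s ^ (2 : ℤ) - p) * (s ^ (-(W * a.1 : ℤ)) *
          (s ^ (2 * (a.1 - 1 - (a.1 : ℤ) / p)) *
            (Ja p c s a.1 a.1 + Jb p c s a.1 a.1)))) := by
      have h1 : Cf p W 0 (Ja p c) s a.1 a.1 + Cf p W 0 (Jb p c) s a.1 a.1 =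
          Af p s a.1 * Af p s a.1 * s ^ (-(W * a.1 : ℤ)) *
            (Ja p c s a.1 a.1 + Jb p c s a.1 a.1) := by
        unfold Cf
        simp only [Nat.cast_zero, zero_mul, add_zero]
        ring
      rw [h1]
      have h2 : (s ^ (2 : ℤ) - 1)⁻¹ * Af p s a.1 = s ^ (2 * (a.1 - 1 - (a.1 : ℤ) / p)) := by
        unfold Af
        rw [← mul_assoc, inv_mul_cancel₀ hs2.ne', one_mul]
      rw [← h2]
      ring
    have hz : 0 ≤ s ^ (2 : ℤ) - p := by linarith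
    constructor
    · rw [e, ← ENNReal.ofReal_mul (by positivity), ← ENNReal.ofReal_mul hz,
        ← ENNReal.ofReal_mul hA]
    · rw [e]
      positivity
  calc ∑' t : {t : Tor p k // EqT t},
      ENNReal.ofReal (s ^ (-(W * sw t.1.1 + c * Ub t.1 : ℤ)))
      = ∑' y : (Σ g : {g : Par p k // g ≠ 0},
          Σ lam : {lam : k // ∀ c : ZMod p, lam ≠ (c.val : k) * g.1.1 (sw g.1)},
            {x : Par p k × Par p k // sw x.1 = sw g.1 ∧ x.1.1 (sw g.1) = lam.1}),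
          ENNReal.ofReal (s ^ (-(W * sw y.2.2.1.1 +
            c * Ub (y.2.2.1.1, y.1.1, y.2.2.1.2) : ℤ))) :=
        (Equiv.tsum_eq (cone2_eqv (p := p) (k := k)).symm
          (fun t => ENNReal.ofReal (s ^ (-(W * sw t.1.1 + c * Ub t.1 : ℤ))))).symm
    _ = ∑' g : {g : Par p k // g ≠ 0},
          ENNReal.ofReal (s ^ (2 : ℤ) - p) * (ENNReal.ofReal (s ^ (-(W * sw g.1 : ℤ))) *
            ENNReal.ofReal (s ^ (2 * (sw g.1 - 1 - (sw g.1 : ℤ) / p)) *
              (Ja p c s (sw g.1) (sw g.1) + Jb p c s (sw g.1) (sw g.1)))) := by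
        rw [ENNReal.tsum_sigma']
        refine tsum_congr fun g => ?_
        rw [ENNReal.tsum_sigma']
        have hin : ∀ lam : {lam : k // ∀ c : ZMod p, lam ≠ (c.val : k) * g.1.1 (sw g.1)},
            ∑' x : {x : Par p k × Par p k // sw x.1 = sw g.1 ∧ x.1.1 (sw g.1) = lam.1},
              ENNReal.ofReal (s ^ (-(W * sw x.1.1 + c * Ub (x.1.1, g.1, x.1.2) : ℤ))) =
            ENNReal.ofReal (s ^ (-(W * sw g.1 : ℤ))) *
              ENNReal.ofReal (s ^ (2 * (sw g.1 - 1 - (sw g.1 : ℤ) / p)) *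
              (Ja p c s (sw g.1) (sw g.1) + Jb p c s (sw g.1) (sw g.1))) := by
          intro lam
          have hl : lam.1 ≠ 0 := by
            have := lam.2 0
            rwa [ZMod.val_zero, Nat.cast_zero, zero_mul] at this
          rw [← sum_fh hp c hc s hs hq g.1 (sw_pos g.2) (sw g.1) le_rfl (not_dvd_sw g.2) lam.1 hl,
            ← ENNReal.tsum_mul_left]
          refine tsum_congr fun x => ?_
          rw [← ENNReal.ofReal_mul (by positivity), ← zpow_add₀ hsne, x.2.1]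
          congr 2
          ring
        rw [tsum_congr hin, tsum_fintype, Finset.sum_const, Finset.card_univ, nsmul_eq_mul]
        congr 1
        have hcard := cone2_card g.1 g.2
        rw [Nat.card_eq_fintype_card] at hcard
        rw [hq', ← hcard]
        push_cast
        rw [add_sub_cancel_right, ENNReal.ofReal_natCast]
    _ = ∑' a : {a : ℕ // ¬p ∣ a}, ENNReal.ofReal (Af p s (a.1 : ℤ)) *
          (ENNReal.ofReal (s ^ (2 : ℤ) - p) * (ENNReal.ofReal (s ^ (-(W * a.1 : ℤ))) *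
            ENNReal.ofReal (s ^ (2 * (a.1 - 1 - (a.1 : ℤ) / p)) *
              (Ja p c s a.1 a.1 + Jb p c s a.1 a.1)))) :=
        tsum_sw (p := p) (k := k) s hs hq (fun a => ENNReal.ofReal (s ^ (2 : ℤ) - p) *
          (ENNReal.ofReal (s ^ (-(W * a : ℤ))) * ENNReal.ofReal (s ^ (2 * (a - 1 - (a : ℤ) / p)) *
            (Ja p c s a a + Jb p c s a a))))
    _ = ∑' a : {a : ℕ // ¬p ∣ a}, ENNReal.ofReal ((s ^ (2 : ℤ) - p) * (s ^ (2 : ℤ) - 1)⁻¹ *
        (Cf p W 0 (Ja p c) s a.1 a.1 + Cf p W 0 (Jb p c) s a.1 a.1)) :=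
        tsum_congr fun a => (hterm a).1
    _ = ENNReal.ofReal ((s ^ (2 : ℤ) - p) * (s ^ (2 : ℤ) - 1)⁻¹ * Zd p c W s) := by
        rw [← ENNReal.ofReal_tsum_of_nonneg (fun a => (hterm a).2) hS.summable, hS.tsum_eq]
        rfl

theorem sum_pairs (Φ : Tor p k → ℝ≥0∞) :
    ∑' t : {t : Tor p k // Indep t}, Φ t.1 =
      (∑ l : Line p, ∑' t : {t : Tor p k // IsMin l t}, Φ t.1) +
        ∑' t : {t : Tor p k // EqT t}, Φ t.1 := by
  classical
  have h0 : ∀ P : Tor p k → Prop, ∑' t : {t : Tor p k // P t}, Φ t.1 =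
      ∑' t, Set.indicator {t | P t} Φ t := fun P => tsum_subtype {t | P t} Φ
  rw [h0, h0, Finset.sum_congr rfl fun l _ => h0 (IsMin l),
    ← Summable.tsum_finsetSum fun l _ => ENNReal.summable, ← ENNReal.tsum_add]
  refine tsum_congr fun t => ?_
  by_cases hI : Indep t
  · rw [Set.indicator_of_mem (show t ∈ {t | Indep t} from hI)]
    by_cases he : EqT t
    · rw [Finset.sum_eq_zero, Set.indicator_of_mem (show t ∈ {t | EqT t} from he), zero_add]
      intro l _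
      exact Set.indicator_of_notMem (show t ∉ {t | IsMin l t} from
        fun hl => isMin_not_eqT t l hl he) Φ
    · obtain ⟨l, hl⟩ := ((indep_iff t).1 hI).resolve_right he
      rw [Set.indicator_of_notMem (show t ∉ {t | EqT t} from he), add_zero,
        Finset.sum_eq_single l, Set.indicator_of_mem (show t ∈ {t | IsMin l t} from hl)]
      · intro l' _ hl'
        exact Set.indicator_of_notMem (show t ∉ {t | IsMin l' t} from
          fun h => hl' (isMin_unique t l' l h hl)) Φ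
      · intro h
        exact absurd (Finset.mem_univ l) h
  · rw [Set.indicator_of_notMem (show t ∉ {t | Indep t} from hI), Finset.sum_eq_zero,
      Set.indicator_of_notMem, add_zero]
    · exact fun h => hI ((indep_iff t).2 (Or.inr h))
    · intro l _
      exact Set.indicator_of_notMem (show t ∉ {t | IsMin l t} from
        fun h => hI ((indep_iff t).2 (Or.inl ⟨l, h⟩))) Φ

end Pool.Agent.Helper10.HS
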