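import Mathlib

/-!
# The Heisenberg group
-/

namespace Pool.Agent.Helper10.HS

noncomputable section

/-- The Heisenberg group: the matrix `[[1, x, z], [0, 1, y], [0, 0, 1]]` over `𝔽_p`. -/
@[ext] structure Heis (p : ℕ) where
  x : ZMod p
  y : ZMod p
  z : ZMod p

namespace Heis

variable {p : ℕ}

instance : Mul (Heis p) := ⟨fun g h => ⟨g.x + h.x, g.y + h.y, g.z + h.z + g.x * h.y⟩⟩
instance : One (Heis p) := ⟨⟨0, 0, 0⟩⟩
instance : Inv (Heis p) := ⟨fun g => ⟨-g.x, -g.y, -g.z + g.x * g.y⟩⟩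

@[simp] theorem mul_x (g h : Heis p) : (g * h).x = g.x + h.x := rfl
@[simp] theorem mul_y (g h : Heis p) : (g * h).y = g.y + h.y := rfl
@[simp] theorem mul_z (g h : Heis p) : (g * h).z = g.z + h.z + g.x * h.y := rfl
@[simp] theorem one_x : (1 : Heis p).x = 0 := rfl
@[simp] theorem one_y : (1 : Heis p).y = 0 := rfl
@[simp] theorem one_z : (1 : Heis p).z = 0 := rfl
@[simp] theorem inv_x (g : Heis p) : (g⁻¹).x = -g.x := rfl
@[simp] theorem inv_y (g : Heis p) : (g⁻¹).y = -g.y := rfl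
@[simp] theorem inv_z (g : Heis p) : (g⁻¹).z = -g.z + g.x * g.y := rfl

theorem mul_assoc' (a b c : Heis p) : a * b * c = a * (b * c) := by ext <;> simp <;> ring
theorem one_mul' (a : Heis p) : 1 * a = a := by ext <;> simp
theorem inv_mul' (a : Heis p) : a⁻¹ * a = 1 := by ext <;> simp

instance : Group (Heis p) := Group.ofLeftAxioms mul_assoc' one_mul' inv_mul'

end Heis

end

end Pool.Agent.Helper10.HS
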