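import Mathlib
import Pool.Agent.Helper10.HS.Grp

/-!
# MP_827cb6_ag : permutation representations of the Heisenberg group, definitions

`p` is an odd prime, `G = Heis p` the group of unitriangular `3 × 3` matrices over `𝔽_p`, and
`V` a direct sum of permutation modules `k[G / B_s]`, `B_s ≤ G` arbitrary subgroups.
-/

namespace Pool.Agent.Helper10.HS

noncomputable section

open scoped ENNReal

section Torsors

/-- The reduced parts `∑ f_i t^{-i}`, `i ≥ 1` prime to `p`, of Laurent series. -/
def Par (p : ℕ) (F : Type) [Field F] : Submodule F (ℕ →₀ F) where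
  carrier := {f | ∀ i, p ∣ i → f i = 0}
  add_mem' := by
    intro a b ha hb i hi
    rw [Finsupp.add_apply, ha i hi, hb i hi, add_zero]
  zero_mem' := fun i _ => rfl
  smul_mem' := by
    intro c a ha i hi
    rw [Finsupp.smul_apply, ha i hi, smul_zero]

/-- The parameters `(f, g, h)` of the `G`-torsors over `F((t))`, `F` algebraically closed. -/
abbrev Tor (p : ℕ) (F : Type) [Field F] : Type := Par p F × Par p F × Par p F

variable {p : ℕ} {F : Type} [Field F]

/-- the pole order (Swan conductor of the Artin-Schreier character of `f`) -/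
def sw (f : Par p F) : ℕ := f.1.support.sup id

/-- `∑ a (f_a^(p^n) g_b - g_a^(p^n) f_b)`, the sum over `p^n a + b = m` -/
def comm (p n : ℕ) (f g : ℕ →₀ F) (m : ℕ) : F :=
  ∑ a ∈ (Finset.range (m + 1)).filter (fun a => p ^ n * a ≤ m),
    (a : F) * (f a ^ p ^ n * g (m - p ^ n * a) - g a ^ p ^ n * f (m - p ^ n * a))

/-- The central component of Abrashkin's element `F_γ`, `γ = m / p^n` (its `p^n`-th power). -/
def ramF (t : Tor p F) (n m : ℕ) : F :=
  if n = 0 then (m : F) * t.2.2.1 m + comm p 0 t.1.1 t.2.1.1 m / 2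
  else comm p n t.1.1 t.2.1.1 m

/-- The largest `γ` with `F_γ ≠ 0`: the last upper ramification break of the torsor, if
`f` and `g` are linearly independent over `𝔽_p`. -/
def lastBreak (t : Tor p F) : ℝ := sSup {u : ℝ | ∃ n m : ℕ, ramF t n m ≠ 0 ∧ u = m / p ^ n}

/-- the value `α f + β g` of the linear character `(α, β)` of `G` -/
def lin (ψ : ZMod p × ZMod p) (t : Tor p F) : Par p F := ψ.1.val • t.1 + ψ.2.val • t.2.1

/-- `f` and `g` are linearly independent over `𝔽_p` (the torsor has the Galois group `G`) -/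
def Indep (t : Tor p F) : Prop := ∀ ψ : ZMod p × ZMod p, ψ ≠ 0 → lin ψ t ≠ 0

open Classical in
/-- a generator of the `𝔽_p`-span of `f` and `g`, if `f` and `g` are dependent -/
def gen (t : Tor p F) : Par p F := if t.1 = 0 then t.2.1 else t.1

open Classical in
/-- the Artin conductor of the linear character `ψ` -/
def artL (ψ : ZMod p × ZMod p) (t : Tor p F) : ℕ := if lin ψ t = 0 then 0 else 1 + sw (lin ψ t)

open Classical in
/-- The Artin conductor of each of the `p - 1` irreducible characters `ρ` of `G` of degree `p`. If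
`f` and `g` are dependent, then `ρ` restricts to the sum of the characters `h + c e`, `e = gen t`,
`c ∈ 𝔽_p`, on the abelian Galois group of the torsor. -/
def artF (t : Tor p F) : ℝ :=
  if Indep t then p * (1 + lastBreak t)
  else ∑ c ∈ Finset.range p,
    if t.2.2 + c • gen t = 0 then (0 : ℝ) else 1 + sw (t.2.2 + c • gen t)

open Classical in
/-- the codimension of the fixed space of the Galois group of the torsor on `ρ` -/
def codF (t : Tor p F) : ℕ :=
  if Indep t then p else ((Finset.range p).filter fun c => t.2.2 + c • gen t ≠ 0).card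

end Torsors

section Representation

variable {p : ℕ}

/-- the linear character `ψ` is trivial on the subgroup `B` -/
def Trivial (B : Subgroup (Heis p)) (ψ : ZMod p × ZMod p) : Prop :=
  ∀ g ∈ B, ψ.1 * g.x + ψ.2 * g.y = 0

open Classical in
/-- the multiplicity of each irreducible character of degree `p` in `k[G / B]` -/
def multF (B : Subgroup (Heis p)) : ℕ :=
  if Subgroup.center (Heis p) ≤ B then 0 else p / Nat.card B

variable {m : ℕ} (B : Fin m → Subgroup (Heis p))

/-- `V = ⊕ k[G / B_s]` is a faithful representation -/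
def Faithful : Prop := ∀ g : Heis p, (∀ s, ∀ x : Heis p, x * g * x⁻¹ ∈ B s) → g = 1

/-- `dim V` -/
def dimV : ℕ := ∑ s, (B s).index

variable [Fact p.Prime] {F : Type} [Field F]

open Classical in
/-- Yasuda's function `v`: half of the Artin conductor of `V` -/
def vV (t : Tor p F) : ℝ :=
  (∑ s, ((∑ ψ ∈ Finset.univ.filter (Trivial (B s)), (artL ψ t : ℝ)) +
    multF (B s) * (p - 1) * artF t)) / 2

open Classical in
/-- the codimension of the fixed space of the Galois group of the torsor on `V` -/
def codV (t : Tor p F) : ℕ :=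
  ∑ s, ((∑ ψ ∈ Finset.univ.filter (Trivial (B s)), if lin ψ t = 0 then 0 else 1) +
    multF (B s) * (p - 1) * codF t)

end Representation

section Count

variable (p : ℕ) [Fact p.Prime] (F : Type) [Field F] [CharP F p]

omit [Fact p.Prime] in
theorem nsmul_p (f : Par p F) : p • f = 0 := by
  apply Subtype.ext
  ext i
  simp

theorem val_add_nsmul (a b : ZMod p) (f : Par p F) :
    (a + b).val • f = a.val • f + b.val • f := by
  rw [ZMod.val_add, ← add_smul]
  conv_rhs => rw [← Nat.mod_add_div (a.val + b.val) p]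
  rw [add_smul, mul_comm, mul_smul, nsmul_p, smul_zero, add_zero]

/-- Isomorphism of torsors: `(f, g, h)` and `(f, g, h + a f + b g)`, `a, b ∈ 𝔽_p`. -/
def isoS : Setoid (Tor p F) where
  r t t' := t'.1 = t.1 ∧ t'.2.1 = t.2.1 ∧
    ∃ a b : ZMod p, t'.2.2 = t.2.2 + a.val • t.1 + b.val • t.2.1
  iseqv := by
    refine ⟨fun t => ⟨rfl, rfl, 0, 0, by simp⟩, ?_, ?_⟩
    · rintro t t' ⟨h1, h2, a, b, h3⟩
      refine ⟨h1.symm, h2.symm, -a, -b, ?_⟩
      have ha : (-a).val • t.1 + a.val • t.1 = 0 := by
        rw [← val_add_nsmul, neg_add_cancel, ZMod.val_zero, zero_smul]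
      have hb : (-b).val • t.2.1 + b.val • t.2.1 = 0 := by
        rw [← val_add_nsmul, neg_add_cancel, ZMod.val_zero, zero_smul]
      rw [h3, h1, h2]
      have e : t.2.2 + a.val • t.1 + b.val • t.2.1 + (-a).val • t.1 + (-b).val • t.2.1 =
          t.2.2 + ((-a).val • t.1 + a.val • t.1) + ((-b).val • t.2.1 + b.val • t.2.1) := by
        abel
      rw [e, ha, hb, add_zero, add_zero]
    · rintro t t' t'' ⟨h1, h2, a, b, h3⟩ ⟨h1', h2', a', b', h3'⟩
      refine ⟨h1'.trans h1, h2'.trans h2, a + a', b + b', ?_⟩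
      rw [h3', h3, h1, h2, val_add_nsmul, val_add_nsmul]
      abel

/-- The isomorphism classes of `G`-torsors over `F((t))`, `F` algebraically closed. -/
abbrev Delta : Type := Quotient (isoS p F)

variable {p F}

/-- the Frobenius `x ↦ x^(p^r)` on the coefficients -/
def frobP (r : ℕ) (f : Par p F) : Par p F :=
  ⟨f.1.mapRange (fun x => x ^ p ^ r) (zero_pow (pow_ne_zero r (Fact.out : p.Prime).ne_zero)), by
    intro i hi
    rw [Finsupp.mapRange_apply, f.2 i hi, zero_pow (pow_ne_zero r (Fact.out : p.Prime).ne_zero)]⟩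

/-- the Frobenius on the torsors -/
def frob (r : ℕ) (t : Tor p F) : Tor p F := (frobP r t.1, frobP r t.2.1, frobP r t.2.2)

/-- the points of `Delta` over `𝔽_q`, `q = p^r`: the classes fixed by the `q`-Frobenius -/
def Stable (r : ℕ) (x : Delta p F) : Prop := Quotient.mk (isoS p F) (frob r x.out) = x

variable (F) {m : ℕ} (B : Fin m → Subgroup (Heis p))

/-- The number of points of `M_st(V / G) = ∫ L^(d - v)` over the field with `q = p^r`
elements. -/
def Mst (r : ℕ) : ℝ≥0∞ :=
  ∑' x : {x : Delta p F // Stable r x}, ((p : ℝ≥0∞) ^ r) ^ ((dimV B : ℝ) - vV B x.1.out)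

/-- The number of points of `M_st(V / G)_o = ∫ L^w`, `w = codim - v`. -/
def Mo (r : ℕ) : ℝ≥0∞ :=
  ∑' x : {x : Delta p F // Stable r x}, ((p : ℝ≥0∞) ^ r) ^ ((codV B x.1.out : ℝ) - vV B x.1.out)

end Count

end

end Pool.Agent.Helper10.HS
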