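import Pool.Agent.Helper10.HS.Orb

/-!
# Project HS, piece Dep: the values of `v` and of the codimension

`wt B ψ` is the number of the `s` with `ψ` trivial on `B s`, `cN B` the number
`∑ multF (B s) (p - 1)`. Interchanging the sums over `s` and `ψ`:
`codV B t = ∑ ψ, wt B ψ * (if lin ψ t = 0 then 0 else 1) + cN B * codF t`,
`2 * vV B t = ∑ ψ, wt B ψ * artL ψ t + cN B * artF t` (with `((p : ℝ) - 1) = ((p - 1 : ℕ) : ℝ)`).

`cV_zero`, `cV_center`: all `lin ψ t = 0`, `gen t = 0`, `¬ Indep t`.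
`cV_dep`: `gen (vec L e, h) = e`, `lin ψ (vec L e, h) = x • e` with `x = ψ.2` for `L = none`,
`x = ψ.1 + c ψ.2` for `L = some c` (`val_add_nsmul`, `ZMod` arithmetic), so it vanishes iff `x = 0`
and otherwise has the same pole order as `e` (`sw_val_nsmul`).
`cV_indep`: every `ψ ≠ 0` lies on exactly one line `l`: `none` iff `ψ.2 = 0`, `some (ψ.1 / ψ.2)`
otherwise, and `lin ψ t` is a nonzero multiple of `chi l t`.
`iso_cV`: both functions are constant on isomorphism classes: for `Indep t` by `lastBreak_shift`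
(`α = a.val`, `β = b.val`); otherwise `a f + b g = c • gen t` and the sum (the number) over
`j ∈ range p` is only permuted, `j ↦ (j + c) % p`.
-/

namespace Pool.Agent.Helper10.HS

open scoped ENNReal

variable {p : ℕ} [Fact p.Prime] {m : ℕ} (B : Fin m → Subgroup (Heis p))

open Classical in
/-- the multiplicity of the linear character `ψ` in `V` -/
noncomputable def wt (ψ : ZMod p × ZMod p) : ℕ :=
  (Finset.univ.filter fun s => Trivial (B s) ψ).card

/-- `p - 1` times the multiplicity in `V` of each irreducible character of degree `p` -/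
noncomputable def cN : ℕ := ∑ s, multF (B s) * (p - 1)

/-- the number of the linear characters in `V` that do not vanish on `vec L e` -/
noncomputable def wl (L : Line p) : ℕ :=
  match L with
  | none => ∑ ψ ∈ Finset.univ.filter (fun ψ : ZMod p × ZMod p => ψ.2 ≠ 0), wt B ψ
  | some c => ∑ ψ ∈ Finset.univ.filter (fun ψ : ZMod p × ZMod p => ψ.1 + c * ψ.2 ≠ 0), wt B ψ

/-- the number of the nontrivial linear characters in `V` on the line `l` -/
noncomputable def w4 (l : Line p) : ℕ :=
  match l with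
  | none => ∑ ψ ∈ Finset.univ.filter (fun ψ : ZMod p × ZMod p => ψ.2 = 0 ∧ ψ.1 ≠ 0), wt B ψ
  | some c =>
    ∑ ψ ∈ Finset.univ.filter (fun ψ : ZMod p × ZMod p => ψ.2 ≠ 0 ∧ ψ.1 = c * ψ.2), wt B ψ

variable {F : Type} [Field F] [CharP F p]

omit [CharP F p] in
open Classical in
private theorem Dep1_cod (t : Tor p F) :
    codV B t = (∑ ψ, wt B ψ * (if lin ψ t = 0 then 0 else 1)) + cN B * codF t := by
  unfold codV cN
  rw [Finset.sum_add_distrib, ← Finset.sum_mul]
  congr 1
  rw [Finset.sum_comm' (t' := Finset.univ)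
    (s' := fun ψ => Finset.univ.filter fun s => Trivial (B s) ψ) (by
      intro s ψ
      simp)]
  refine Finset.sum_congr rfl fun ψ _ => ?_
  rw [Finset.sum_const, smul_eq_mul]
  rfl

omit [CharP F p] in
private theorem Dep1_v (t : Tor p F) :
    2 * vV B t = (∑ ψ, (wt B ψ : ℝ) * (artL ψ t : ℝ)) + cN B * artF t := by
  classical
  have hp : ((p - 1 : ℕ) : ℝ) = (p : ℝ) - 1 := by
    rw [Nat.cast_sub (Fact.out : p.Prime).one_lt.le, Nat.cast_one]
  have h1 : 2 * vV B t = (∑ s, ((∑ ψ ∈ Finset.univ.filter (Trivial (B s)), (artL ψ t : ℝ)) +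
      multF (B s) * (p - 1) * artF t)) := by
    unfold vV
    rw [mul_div_cancel₀ _ (two_ne_zero)]
  rw [h1, Finset.sum_add_distrib, ← Finset.sum_mul]
  congr 1
  · rw [Finset.sum_comm' (t' := Finset.univ)
      (s' := fun ψ => Finset.univ.filter fun s => Trivial (B s) ψ) (by
        intro s ψ
        simp)]
    refine Finset.sum_congr rfl fun ψ _ => ?_
    rw [Finset.sum_const, nsmul_eq_mul]
    congr 2
  · congr 1
    unfold cN
    rw [Nat.cast_sum]
    refine Finset.sum_congr rfl fun s _ => ?_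
    rw [Nat.cast_mul, hp]

omit [Fact p.Prime] [CharP F p] in
open Classical in
private theorem Dep1_dep (t : Tor p F) (e : Par p F) (hI : ¬ Indep t) (hg : gen t = e) :
    codF t = ((Finset.range p).filter fun c => t.2.2 + c • e ≠ 0).card ∧
      artF t = ((((Finset.range p).filter fun c => t.2.2 + c • e ≠ 0).card +
        ∑ j ∈ Finset.range p, sw (t.2.2 + j • e) : ℕ) : ℝ) := by
  subst hg
  refine ⟨if_neg hI, ?_⟩
  have h1 : artF t = ∑ c ∈ Finset.range p,
      if t.2.2 + c • gen t = 0 then (0 : ℝ) else 1 + sw (t.2.2 + c • gen t) := if_neg hI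
  rw [h1, Finset.card_filter, ← Finset.sum_add_distrib, Nat.cast_sum]
  refine Finset.sum_congr rfl fun c _ => ?_
  by_cases hc : t.2.2 + c • gen t = 0
  · rw [if_pos hc, if_neg (not_not.2 hc), hc, sw_zero]
    norm_num
  · rw [if_neg hc, if_pos hc]
    push_cast
    rfl

omit [Fact p.Prime] [CharP F p] in
private theorem Dep1_lin0 (ψ : ZMod p × ZMod p) (t : Tor p F) (h1 : t.1 = 0) (h2 : t.2.1 = 0) :
    lin ψ t = 0 := by
  unfold lin
  rw [h1, h2, smul_zero, smul_zero, add_zero]

omit [CharP F p] in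
private theorem Dep1_nI (t : Tor p F) (h1 : t.1 = 0) (h2 : t.2.1 = 0) : ¬ Indep t := by
  intro h
  refine h (1, 0) ?_ (Dep1_lin0 _ t h1 h2)
  intro h3
  exact one_ne_zero (congrArg Prod.fst h3)

omit [Fact p.Prime] [CharP F p] in
private theorem Dep1_gen0 (t : Tor p F) (h1 : t.1 = 0) (h2 : t.2.1 = 0) : gen t = 0 := by
  unfold gen
  rw [if_pos h1, h2]

theorem cV_zero : codV B (0 : Tor p F) = 0 ∧ vV B (0 : Tor p F) = 0 := by
  classical
  obtain ⟨h1, h2⟩ := Dep1_dep (0 : Tor p F) 0 (Dep1_nI 0 rfl rfl) (Dep1_gen0 0 rfl rfl)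
  have h3 : ∀ ψ, lin ψ (0 : Tor p F) = 0 := fun ψ => Dep1_lin0 ψ 0 rfl rfl
  have h4 : ∀ j : ℕ, (0 : Tor p F).2.2 + j • (0 : Par p F) = 0 := by
    intro j
    rw [smul_zero, add_zero]
    rfl
  have h5 : ((Finset.range p).filter fun c => (0 : Tor p F).2.2 + c • (0 : Par p F) ≠ 0).card =
      0 := by
    rw [Finset.card_eq_zero, Finset.filter_eq_empty_iff]
    intro c _ hc
    exact hc (h4 c)
  constructor
  · rw [Dep1_cod, h1, h5, mul_zero, add_zero]
    refine Finset.sum_eq_zero fun ψ _ => ?_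
    rw [if_pos (h3 ψ), mul_zero]
  · have h6 := Dep1_v B (0 : Tor p F)
    have h7 : ∑ ψ, (wt B ψ : ℝ) * (artL ψ (0 : Tor p F) : ℝ) = 0 := by
      refine Finset.sum_eq_zero fun ψ _ => ?_
      unfold artL
      rw [if_pos (h3 ψ), Nat.cast_zero, mul_zero]
    have h8 : ∑ j ∈ Finset.range p, sw ((0 : Tor p F).2.2 + j • (0 : Par p F)) = 0 := by
      refine Finset.sum_eq_zero fun j _ => ?_
      rw [h4 j, sw_zero]
    rw [h7, h2, h5, h8] at h6
    simpa using h6

theorem cV_center (h : Par p F) (hh : h ≠ 0) :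
    codV B ((0, 0, h) : Tor p F) = cN B * p ∧
      2 * vV B ((0, 0, h) : Tor p F) = (cN B * p * (1 + sw h) : ℕ) := by
  classical
  obtain ⟨h1, h2⟩ := Dep1_dep ((0, 0, h) : Tor p F) 0 (Dep1_nI (0, 0, h) rfl rfl)
    (Dep1_gen0 (0, 0, h) rfl rfl)
  have h3 : ∀ ψ, lin ψ ((0, 0, h) : Tor p F) = 0 := fun ψ => Dep1_lin0 ψ (0, 0, h) rfl rfl
  have h4 : ∀ j : ℕ, ((0, 0, h) : Tor p F).2.2 + j • (0 : Par p F) = h := by
    intro j
    rw [smul_zero, add_zero]
  have h5 : ((Finset.range p).filter fun c => ((0, 0, h) : Tor p F).2.2 +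
      c • (0 : Par p F) ≠ 0).card = p := by
    rw [Finset.filter_true_of_mem, Finset.card_range]
    intro c _
    rw [h4 c]
    exact hh
  constructor
  · rw [Dep1_cod, h1, h5]
    rw [Finset.sum_eq_zero fun ψ _ => ?_, zero_add]
    rw [if_pos (h3 ψ), mul_zero]
  · have h6 := Dep1_v B ((0, 0, h) : Tor p F)
    have h7 : ∑ ψ, (wt B ψ : ℝ) * (artL ψ ((0, 0, h) : Tor p F) : ℝ) = 0 := by
      refine Finset.sum_eq_zero fun ψ _ => ?_
      unfold artL
      rw [if_pos (h3 ψ), Nat.cast_zero, mul_zero]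
    have h8 : ∑ j ∈ Finset.range p, sw (((0, 0, h) : Tor p F).2.2 + j • (0 : Par p F)) =
        p * sw h := by
      rw [Finset.sum_congr rfl fun j _ => by rw [h4 j], Finset.sum_const, Finset.card_range,
        smul_eq_mul]
    rw [h7, h2, h5, h8] at h6
    rw [h6]
    push_cast
    ring

private theorem Dep1_mul (a b : ZMod p) (f : Par p F) :
    (a * b).val • f = a.val • b.val • f := by
  rw [ZMod.val_mul, ← mul_smul]
  conv_rhs => rw [← Nat.mod_add_div (a.val * b.val) p]
  rw [add_smul, mul_comm p, mul_smul _ p, nsmul_p, smul_zero, add_zero]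

open Classical in
private theorem Dep1_main (t : Tor p F) (x : ZMod p × ZMod p → ZMod p) (e : Par p F) (he : e ≠ 0)
    (hx : ∀ ψ, lin ψ t = (x ψ).val • e) (hI : ¬ Indep t) (hg : gen t = e) {W : ℕ}
    (hW : W = ∑ ψ, if x ψ = 0 then 0 else wt B ψ) :
    codV B t = W + cN B * ((Finset.range p).filter fun j => t.2.2 + j • e ≠ 0).card ∧
      2 * vV B t = (W * (1 + sw e) + cN B *
        (((Finset.range p).filter fun j => t.2.2 + j • e ≠ 0).card +
          ∑ j ∈ Finset.range p, sw (t.2.2 + j • e)) : ℕ) := by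
  obtain ⟨h1, h2⟩ := Dep1_dep t e hI hg
  have h3 : ∀ ψ, lin ψ t = 0 ↔ x ψ = 0 := by
    intro ψ
    rw [hx ψ]
    constructor
    · intro h
      by_contra h4
      have h5 := sw_val_nsmul h4 e
      rw [h, sw_zero] at h5
      exact he (sw_eq_zero.1 h5.symm)
    · intro h
      rw [h, ZMod.val_zero, zero_smul]
  constructor
  · rw [Dep1_cod, h1, hW]
    congr 1
    refine Finset.sum_congr rfl fun ψ _ => ?_
    by_cases h4 : x ψ = 0
    · rw [if_pos ((h3 ψ).2 h4), if_pos h4, mul_zero]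
    · rw [if_neg (fun h5 => h4 ((h3 ψ).1 h5)), if_neg h4, mul_one]
  · have h4 : ∑ ψ, (wt B ψ : ℝ) * (artL ψ t : ℝ) = ((W * (1 + sw e) : ℕ) : ℝ) := by
      rw [hW, Finset.sum_mul, Nat.cast_sum]
      refine Finset.sum_congr rfl fun ψ _ => ?_
      unfold artL
      by_cases h5 : x ψ = 0
      · rw [if_pos ((h3 ψ).2 h5), if_pos h5, zero_mul, Nat.cast_zero, mul_zero]
      · rw [if_neg (fun h6 => h5 ((h3 ψ).1 h6)), if_neg h5, hx ψ, sw_val_nsmul h5, Nat.cast_mul]
    rw [Dep1_v, h4, h2]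
    push_cast
    ring

open Classical in
theorem cV_dep (L : Line p) (e : Par p F) (he : e ≠ 0) (h : Par p F) :
    codV B (((vec L e).1, (vec L e).2, h) : Tor p F) =
        wl B L + cN B * ((Finset.range p).filter fun j => h + j • e ≠ 0).card ∧
      2 * vV B (((vec L e).1, (vec L e).2, h) : Tor p F) =
        (wl B L * (1 + sw e) + cN B * (((Finset.range p).filter fun j => h + j • e ≠ 0).card +
          ∑ j ∈ Finset.range p, sw (h + j • e)) : ℕ) := by
  cases L with
  | none =>
    refine Dep1_main B (((vec none e).1, (vec none e).2, h) : Tor p F) (fun ψ => ψ.2) e he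
      (fun ψ => ?_) (fun hI => ?_) ?_ ?_
    · show ψ.1.val • (0 : Par p F) + ψ.2.val • e = ψ.2.val • e
      rw [smul_zero, zero_add]
    · refine hI (1, 0) (fun h3 => one_ne_zero (congrArg Prod.fst h3)) ?_
      show (1 : ZMod p).val • (0 : Par p F) + (0 : ZMod p).val • e = 0
      rw [smul_zero, ZMod.val_zero, zero_smul, add_zero]
    · unfold gen
      exact if_pos rfl
    · show ∑ ψ ∈ Finset.univ.filter (fun ψ : ZMod p × ZMod p => ψ.2 ≠ 0), wt B ψ = _
      rw [Finset.sum_filter]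
      refine Finset.sum_congr rfl fun ψ _ => ?_
      by_cases h1 : ψ.2 = 0
      · rw [if_neg (not_not.2 h1), if_pos h1]
      · rw [if_pos h1, if_neg h1]
  | some c =>
    refine Dep1_main B (((vec (some c) e).1, (vec (some c) e).2, h) : Tor p F)
      (fun ψ => ψ.1 + c * ψ.2) e he (fun ψ => ?_) (fun hI => ?_) ?_ ?_
    · show ψ.1.val • e + ψ.2.val • c.val • e = (ψ.1 + c * ψ.2).val • e
      rw [val_add_nsmul, mul_comm c, Dep1_mul]
    · refine hI (-c, 1) (fun h3 => one_ne_zero (congrArg Prod.snd h3)) ?_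
      show (-c).val • e + (1 : ZMod p).val • c.val • e = 0
      rw [← Dep1_mul, one_mul, ← val_add_nsmul, neg_add_cancel, ZMod.val_zero, zero_smul]
    · unfold gen
      exact if_neg he
    · show ∑ ψ ∈ Finset.univ.filter (fun ψ : ZMod p × ZMod p => ψ.1 + c * ψ.2 ≠ 0), wt B ψ = _
      rw [Finset.sum_filter]
      refine Finset.sum_congr rfl fun ψ _ => ?_
      by_cases h1 : ψ.1 + c * ψ.2 = 0
      · rw [if_neg (not_not.2 h1), if_pos h1]
      · rw [if_pos h1, if_neg h1]

open Classical in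
private theorem dep2_cod (t : Tor p F) :
    codV B t = ∑ ψ, wt B ψ * (if lin ψ t = 0 then 0 else 1) + cN B * codF t := by
  unfold codV cN wt
  rw [Finset.sum_add_distrib, Finset.sum_mul]
  congr 1
  simp only [Finset.sum_filter, Finset.card_filter, Finset.sum_mul]
  rw [Finset.sum_comm]
  refine Finset.sum_congr rfl fun ψ _ => Finset.sum_congr rfl fun s _ => ?_
  by_cases h : Trivial (B s) ψ
  · rw [if_pos h, if_pos h, one_mul]
  · rw [if_neg h, if_neg h, zero_mul]

open Classical in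
private theorem dep2_v (t : Tor p F) :
    2 * vV B t = ∑ ψ, (wt B ψ : ℝ) * artL ψ t + cN B * artF t := by
  have hp1 : ((p - 1 : ℕ) : ℝ) = (p : ℝ) - 1 := by
    rw [Nat.cast_sub (Fact.out : p.Prime).one_lt.le, Nat.cast_one]
  unfold vV
  rw [mul_div_cancel₀ _ (two_ne_zero' ℝ), Finset.sum_add_distrib]
  have h1 : (cN B : ℝ) * artF t = ∑ s, (multF (B s) : ℝ) * ((p : ℝ) - 1) * artF t := by
    unfold cN
    rw [Nat.cast_sum, Finset.sum_mul]
    refine Finset.sum_congr rfl fun s _ => ?_
    rw [Nat.cast_mul, hp1]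
  rw [h1]
  congr 1
  unfold wt
  simp only [Finset.sum_filter, Finset.card_filter, Nat.cast_sum, Finset.sum_mul]
  rw [Finset.sum_comm]
  refine Finset.sum_congr rfl fun ψ _ => Finset.sum_congr rfl fun s _ => ?_
  by_cases h : Trivial (B s) ψ
  · rw [if_pos h, if_pos h, Nat.cast_one, one_mul]
  · rw [if_neg h, if_neg h, Nat.cast_zero, zero_mul]

open Classical in
/-- the line of a character -/
private noncomputable def dep2_ln (ψ : ZMod p × ZMod p) : Line p :=
  if ψ.2 = 0 then none else some (ψ.1 / ψ.2)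

open Classical in
private theorem dep2_w4 (l : Line p) :
    w4 B l = ∑ ψ ∈ Finset.univ.filter (fun ψ : ZMod p × ZMod p => ψ ≠ 0 ∧ dep2_ln ψ = l),
      wt B ψ := by
  cases l with
  | none =>
    unfold w4
    refine Finset.sum_congr (Finset.filter_congr fun ψ _ => ?_) fun _ _ => rfl
    unfold dep2_ln
    constructor
    · rintro ⟨h1, h2⟩
      exact ⟨fun h0 => h2 (by rw [h0]; rfl), by rw [if_pos h1]⟩
    · rintro ⟨h1, h2⟩
      by_cases h3 : ψ.2 = 0
      · exact ⟨h3, fun h4 => h1 (Prod.ext h4 h3)⟩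
      · rw [if_neg h3] at h2
        exact absurd h2 (by simp)
  | some c =>
    unfold w4
    refine Finset.sum_congr (Finset.filter_congr fun ψ _ => ?_) fun _ _ => rfl
    unfold dep2_ln
    constructor
    · rintro ⟨h1, h2⟩
      refine ⟨fun h0 => h1 (by rw [h0]; rfl), ?_⟩
      rw [if_neg h1, h2, mul_div_cancel_right₀ _ h1]
    · rintro ⟨_, h2⟩
      by_cases h3 : ψ.2 = 0
      · rw [if_pos h3] at h2
        exact absurd h2 (by simp)
      · rw [if_neg h3] at h2
        refine ⟨h3, ?_⟩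
        rw [← Option.some_injective _ h2, div_mul_cancel₀ _ h3]

open Classical in
private theorem dep2_lines {M : Type} [AddCommMonoid M] (H : ZMod p × ZMod p → Line p → M) :
    ∑ l : Line p, ∑ ψ ∈ Finset.univ.filter
      (fun ψ : ZMod p × ZMod p => ψ ≠ 0 ∧ dep2_ln ψ = l), H ψ l =
      ∑ ψ, if ψ = 0 then 0 else H ψ (dep2_ln ψ) := by
  simp only [Finset.sum_filter]
  rw [Finset.sum_comm]
  refine Finset.sum_congr rfl fun ψ _ => ?_
  by_cases h : ψ = 0
  · rw [if_pos h]
    refine Finset.sum_eq_zero fun l _ => ?_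
    rw [if_neg (fun h1 => h1.1 h)]
  · rw [if_neg h, Finset.sum_eq_single (dep2_ln ψ)]
    · rw [if_pos ⟨h, rfl⟩]
    · intro l _ hl
      rw [if_neg (fun h1 => hl h1.2.symm)]
    · intro h1
      exact absurd (Finset.mem_univ _) h1

private theorem dep2_mul (a b : ZMod p) (f : Par p F) : (a * b).val • f = a.val • b.val • f := by
  rw [ZMod.val_mul, smul_smul]
  conv_rhs => rw [← Nat.mod_add_div (a.val * b.val) p]
  rw [add_smul, mul_comm p, mul_smul, nsmul_p, smul_zero, add_zero]

private theorem dep2_one (f : Par p F) : (1 : ZMod p).val • f = f := by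
  have : Fact (1 < p) := ⟨(Fact.out : p.Prime).one_lt⟩
  rw [ZMod.val_one, one_smul]

private theorem dep2_lin (t : Tor p F) (ψ : ZMod p × ZMod p) (h : ψ ≠ 0) :
    sw (lin ψ t) = sw (chi (dep2_ln ψ) t) := by
  classical
  unfold dep2_ln
  by_cases h2 : ψ.2 = 0
  · have h1 : ψ.1 ≠ 0 := fun h1 => h (Prod.ext h1 h2)
    rw [if_pos h2]
    unfold lin
    rw [h2, ZMod.val_zero, zero_smul, add_zero, sw_val_nsmul h1]
    rfl
  · rw [if_neg h2]
    have h3 : lin ψ t = ψ.2.val • chi (some (ψ.1 / ψ.2)) t := by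
      unfold lin chi
      rw [smul_add, ← dep2_mul, mul_div_cancel₀ _ h2]
    rw [h3, sw_val_nsmul h2]

private theorem dep2_lin_zero (t : Tor p F) : lin (0 : ZMod p × ZMod p) t = 0 := by
  unfold lin
  rw [Prod.fst_zero, Prod.snd_zero, ZMod.val_zero, zero_smul, zero_smul, add_zero]

private theorem dep2_shift {M : Type} [AddCommMonoid M] [IsCancelAdd M] (n : ℕ) (Φ : ℕ → M)
    (h : ∀ i, Φ (i + n) = Φ i) (c : ℕ) :
    ∑ j ∈ Finset.range n, Φ (j + c) = ∑ j ∈ Finset.range n, Φ j := by
  induction c with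
  | zero => rfl
  | succ c ih =>
    rw [← ih]
    have h1 := Finset.sum_range_succ (fun j => Φ (j + c)) n
    rw [Finset.sum_range_succ' (fun j => Φ (j + c)) n] at h1
    have h2 : Φ (n + c) = Φ (0 + c) := by
      rw [zero_add, add_comm, h]
    rw [h2] at h1
    rw [← add_right_cancel h1]
    refine Finset.sum_congr rfl fun j _ => ?_
    rw [add_right_comm, add_assoc]

/-- the invariance of the data of the irreducible characters of degree `p` -/
private theorem dep2_iso (hp : p ≠ 2) (t : Tor p F) (a b : ZMod p) :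
    codF ((t.1, t.2.1, t.2.2 + a.val • t.1 + b.val • t.2.1) : Tor p F) = codF t ∧
      artF ((t.1, t.2.1, t.2.2 + a.val • t.1 + b.val • t.2.1) : Tor p F) = artF t := by
  classical
  have hI : Indep ((t.1, t.2.1, t.2.2 + a.val • t.1 + b.val • t.2.1) : Tor p F) ↔ Indep t :=
    Iff.rfl
  by_cases hi : Indep t
  · unfold codF artF
    rw [if_pos (hI.2 hi), if_pos hi, if_pos (hI.2 hi), if_pos hi]
    refine ⟨rfl, ?_⟩
    have h1 := lastBreak_shift hp t hi ((a.val : ℕ) : F) ((b.val : ℕ) : F)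
    rw [Nat.cast_smul_eq_nsmul, Nat.cast_smul_eq_nsmul] at h1
    rw [h1]
  · have hc : ∃ c : ℕ, a.val • t.1 + b.val • t.2.1 = c • gen t := by
      unfold gen
      by_cases h1 : t.1 = 0
      · rw [if_pos h1]
        exact ⟨b.val, by rw [h1, smul_zero, zero_add]⟩
      · rw [if_neg h1]
        unfold Indep at hi
        push Not at hi
        obtain ⟨ψ, hψ, hl⟩ := hi
        have h2 : ψ.2 ≠ 0 := by
          intro h2
          have h3 : ψ.1 ≠ 0 := fun h3 => hψ (Prod.ext h3 h2)
          unfold lin at hl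
          rw [h2, ZMod.val_zero, zero_smul, add_zero] at hl
          have h4 := sw_val_nsmul h3 t.1
          rw [hl, sw_zero] at h4
          exact h1 (sw_eq_zero.1 h4.symm)
        have h3 : t.2.1 = (-(ψ.2⁻¹ * ψ.1)).val • t.1 := by
          have h4 := congrArg (fun f => (ψ.2⁻¹).val • f) hl
          simp only [smul_zero] at h4
          unfold lin at h4
          rw [smul_add, ← dep2_mul, ← dep2_mul, inv_mul_cancel₀ h2, dep2_one] at h4
          have h5 : (-(ψ.2⁻¹ * ψ.1)).val • t.1 + (ψ.2⁻¹ * ψ.1).val • t.1 = 0 := by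
            rw [← val_add_nsmul, neg_add_cancel, ZMod.val_zero, zero_smul]
          have h6 := h4.trans h5.symm
          rw [add_comm] at h6
          exact add_right_cancel h6
        refine ⟨a.val + b.val * (-(ψ.2⁻¹ * ψ.1)).val, ?_⟩
        rw [add_smul, mul_smul, ← h3]
    obtain ⟨c, hc⟩ := hc
    have hg : gen ((t.1, t.2.1, t.2.2 + a.val • t.1 + b.val • t.2.1) : Tor p F) = gen t := rfl
    have hj : ∀ j : ℕ, t.2.2 + a.val • t.1 + b.val • t.2.1 + j • gen t =
        t.2.2 + (j + c) • gen t := by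
      intro j
      rw [add_assoc t.2.2, hc, add_smul, add_assoc, add_comm (c • gen t)]
    have hper : ∀ i : ℕ, t.2.2 + (i + p) • gen t = t.2.2 + i • gen t := by
      intro i
      rw [add_smul, nsmul_p, add_zero]
    unfold codF artF
    rw [if_neg (fun h => hi (hI.1 h)), if_neg hi, if_neg (fun h => hi (hI.1 h)), if_neg hi, hg]
    simp only [hj]
    constructor
    · rw [Finset.card_filter, Finset.card_filter]
      refine dep2_shift p (fun j => if t.2.2 + j • gen t ≠ 0 then 1 else 0) ?_ c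
      intro i
      simp only [hper]
    · refine dep2_shift p (fun j => if t.2.2 + j • gen t = 0 then (0 : ℝ)
        else 1 + sw (t.2.2 + j • gen t)) ?_ c
      intro i
      simp only [hper]

theorem cV_indep (t : Tor p F) (ht : Indep t) :
    codV B t = tw (w4 B) + cN B * p ∧
      2 * vV B t = tw (w4 B) + ∑ l, (w4 B l : ℝ) * sw (chi l t) +
        cN B * p * (1 + lastBreak t) := by
  classical
  constructor
  · rw [dep2_cod]
    have h1 : codF t = p := by
      unfold codF
      rw [if_pos ht]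
    rw [h1]
    congr 1
    unfold tw
    simp only [dep2_w4]
    rw [dep2_lines (fun ψ _ => wt B ψ)]
    refine Finset.sum_congr rfl fun ψ _ => ?_
    by_cases h : ψ = 0
    · rw [if_pos h, h, if_pos (dep2_lin_zero t), mul_zero]
    · rw [if_neg h, if_neg (ht ψ h), mul_one]
  · rw [dep2_v]
    have h1 : artF t = p * (1 + lastBreak t) := by
      unfold artF
      rw [if_pos ht]
    rw [h1, ← mul_assoc]
    congr 1
    have h2 : (tw (w4 B) : ℝ) + ∑ l, (w4 B l : ℝ) * sw (chi l t) =
        ∑ l : Line p, ∑ ψ ∈ Finset.univ.filter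
          (fun ψ : ZMod p × ZMod p => ψ ≠ 0 ∧ dep2_ln ψ = l),
          (wt B ψ : ℝ) * (1 + sw (chi l t)) := by
      unfold tw
      rw [Nat.cast_sum, ← Finset.sum_add_distrib]
      refine Finset.sum_congr rfl fun l _ => ?_
      rw [← Finset.sum_mul, mul_add, mul_one, dep2_w4, Nat.cast_sum]
    rw [h2, dep2_lines (fun ψ l => (wt B ψ : ℝ) * (1 + sw (chi l t)))]
    refine Finset.sum_congr rfl fun ψ _ => ?_
    unfold artL
    by_cases h : ψ = 0
    · rw [if_pos h, h, if_pos (dep2_lin_zero t), Nat.cast_zero, mul_zero]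
    · rw [if_neg h, if_neg (ht ψ h), dep2_lin t ψ h]
      push_cast
      rfl

theorem iso_cV (hp : p ≠ 2) (t t' : Tor p F) (h : (isoS p F).r t t') :
    codV B t = codV B t' ∧ vV B t = vV B t' := by
  classical
  obtain ⟨h1, h2, a, b, h3⟩ := h
  have ht' : t' = ((t.1, t.2.1, t.2.2 + a.val • t.1 + b.val • t.2.1) : Tor p F) :=
    Prod.ext h1 (Prod.ext h2 h3)
  obtain ⟨e1, e2⟩ := dep2_iso hp t a b
  constructor
  · rw [dep2_cod, dep2_cod, ht', e1]
    rfl
  · have e3 : 2 * vV B t = 2 * vV B t' := by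
      rw [dep2_v, dep2_v, ht', e2]
      rfl
    exact mul_left_cancel₀ two_ne_zero e3

end Pool.Agent.Helper10.HS
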