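import Pool.Agent.Helper10.HS.Fn

/-!
# Project HS, piece Dl: the functions are rational in `s`

`DD Z` says that one rational function `R` (without poles in `(0, ∞) \ {1}`) satisfies `Z s = R s`
and `Z s⁻¹ = R s⁻¹` for all `s > 1`. Everything follows from `Dual.add`, `Dual.mul`, `Dual.const`,
`Dual.zpow`, `Dual.inv_one_sub`, `Dual.sum`, `Dual.congr` of Pool/Agent/WD/D1.lean:
for `s > 1` one has `(s⁻¹) ^ n = s ^ (-n)`. In `DD_S2`, `s ^ x * s ^ y = s ^ (x + y)`. For `Rf`,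
`Ja`, `Jb` treat the `if` by cases; for `Ja`, `Jb` one needs `2 - c * p ≠ 0`, for `Rf`, `Jb`
`2 * (p - 1) - c * p * p ≠ 0`.
-/

namespace Pool.Agent.Helper10.HS

open Pool.Agent.WD

/-- `Z` is a rational function. -/
def DD (Z : ℝ → ℝ) : Prop := Dual Z fun s => Z s⁻¹

theorem DD.add {Y Z : ℝ → ℝ} (hY : DD Y) (hZ : DD Z) : DD fun s => Y s + Z s :=
  Dual.add hY hZ

theorem DD.mul {Y Z : ℝ → ℝ} (hY : DD Y) (hZ : DD Z) : DD fun s => Y s * Z s :=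
  Dual.mul hY hZ

theorem DD.const (z : ℤ) : DD fun _ => (z : ℝ) := Dual.const z

theorem DD.zpow (z : ℤ) : DD fun s => s ^ z :=
  (Dual.zpow z).congr (fun _ _ => rfl) fun q _ => inv_zpow' q z

/-- it is enough to know the function for `s > 0`, `s ≠ 1` -/
private theorem Dl_congr {Y Z : ℝ → ℝ} (hY : DD Y) (h : ∀ s, 0 < s → s ≠ 1 → Z s = Y s) :
    DD Z := by
  refine Dual.congr hY (fun q hq => h q (by linarith) hq.ne') fun q hq => ?_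
  have h0 : 0 < q := by linarith
  exact h q⁻¹ (inv_pos.2 h0) fun h1 => hq.ne' (inv_eq_one.1 h1)

theorem DD.neg {Z : ℝ → ℝ} (hZ : DD Z) : DD fun s => -Z s := by
  refine Dl_congr ((DD.const (-1)).mul hZ) fun s _ _ => ?_
  push_cast
  ring

theorem DD.sub {Y Z : ℝ → ℝ} (hY : DD Y) (hZ : DD Z) : DD fun s => Y s - Z s :=
  Dl_congr (hY.add hZ.neg) fun _ _ _ => sub_eq_add_neg _ _

theorem DD.sum {α : Type*} (t : Finset α) (Z : α → ℝ → ℝ) (hZ : ∀ a ∈ t, DD (Z a)) :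
    DD fun s => ∑ a ∈ t, Z a s :=
  Dual.sum t Z (fun a s => Z a s⁻¹) hZ

/-- `(1 - s ^ l)⁻¹` -/
theorem DD.inv_one_sub (l : ℤ) (hl : l ≠ 0) : DD fun s => (1 - s ^ l)⁻¹ := by
  refine (Dual.inv_one_sub (-l) (neg_ne_zero.2 hl)).congr (fun q _ => ?_) fun q _ => ?_
  · rw [neg_neg]
  · change (1 - q⁻¹ ^ l)⁻¹ = _
    rw [inv_zpow']

/-- `(s ^ 2 - 1)⁻¹` -/
theorem DD.inv_sq : DD fun s => (s ^ (2 : ℤ) - 1)⁻¹ :=
  Dl_congr (DD.inv_one_sub 2 (by norm_num)).neg fun s _ _ => by rw [← inv_neg, neg_sub]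

/-- it is enough to know the function for `s > 0`, `s ≠ 1` -/
theorem DD.congr {Y Z : ℝ → ℝ} (hY : DD Y) (h : ∀ s, 0 < s → s ≠ 1 → Z s = Y s) : DD Z :=
  Dl_congr hY h

private theorem Dl_one : DD fun _ => (1 : ℝ) :=
  (DD.const 1).congr fun _ _ _ => by norm_num

private theorem Dl_zero : DD fun _ => (0 : ℝ) :=
  (DD.const 0).congr fun _ _ _ => by norm_num

theorem DD_S1 (p : ℕ) (F : ℝ → ℤ → ℝ) (x : ℤ) (hx : x ≠ 0) (hF : ∀ a, DD fun s => F s a) :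
    DD fun s => S1 p (F s) (s ^ x) :=
  (DD.sum _ (fun a s => F s a) fun a _ => hF a).mul (DD.inv_one_sub x hx)

private theorem Dl_ite (P : Prop) [Decidable P] {Y Z : ℝ → ℝ} (hY : DD Y) (hZ : DD Z) :
    DD fun s => if P then Y s else Z s := by
  by_cases h : P
  · exact hY.congr fun s _ _ => if_pos h
  · exact hZ.congr fun s _ _ => if_neg h

theorem DD_S2 (p : ℕ) (F : ℝ → ℤ → ℤ → ℝ) (x y : ℤ) (hx : x ≠ 0) (hxy : x + y ≠ 0)
    (hF : ∀ a b, DD fun s => F s a b) : DD fun s => S2 p (F s) (s ^ x) (s ^ y) := by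
  have h1 : DD fun s => (∑ i ∈ Finset.Ico (1 : ℤ) p, ∑ j ∈ Finset.Ico (1 : ℤ) p,
      F s i j * (if i ≤ j then s ^ x else 1)) :=
    DD.sum _ (fun i s => ∑ j ∈ Finset.Ico (1 : ℤ) p, F s i j * (if i ≤ j then s ^ x else 1))
      fun i _ => DD.sum _ (fun j s => F s i j * (if i ≤ j then s ^ x else 1)) fun j _ =>
        (hF i j).mul (Dl_ite (i ≤ j) (DD.zpow x) Dl_one)
  refine DD.congr ((h1.mul (DD.inv_one_sub x hx)).mul (DD.inv_one_sub (x + y) hxy))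
    fun s hs _ => ?_
  rw [S2, zpow_add₀ hs.ne']

theorem DD_Af (p : ℕ) (a : ℤ) : DD fun s => Af p s a :=
  ((DD.zpow 2).sub Dl_one).mul (DD.zpow _)

theorem DD_Rf (p c : ℕ) (h : rr p c ≠ 0) (n : ℤ) : DD fun s => Rf p c s n :=
  (DD.sum _ (fun (j : ℕ) s => (1 - s ^ (-(c * p : ℤ))) *
    s ^ (2 * ((n + j) - (n + j) / p) - c * p * (n + j))) fun j _ =>
      (Dl_one.sub (DD.zpow _)).mul (DD.zpow _)).mul (DD.inv_one_sub _ h)

theorem DD_Ja (p c : ℕ) (h : (2 : ℤ) - c * p ≠ 0) (a b : ℤ) : DD fun s => Ja p c s a b :=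
  Dl_ite ((p : ℤ) ∣ a + b) Dl_zero ((DD.zpow _).mul ((DD.zpow _).add
    (((DD.zpow _).mul ((DD.zpow 2).sub Dl_one)).mul (DD.inv_one_sub _ h))))

theorem DD_Jb (p c : ℕ) (h : (2 : ℤ) - c * p ≠ 0) (h' : rr p c ≠ 0) (a b : ℤ) :
    DD fun s => Jb p c s a b :=
  (DD_Rf p c h' (a + b)).sub (Dl_ite ((p : ℤ) ∣ a + b) Dl_zero
    (((Dl_one.sub (DD.zpow _)).mul (DD.zpow _)).mul (DD.inv_one_sub _ h)))

theorem DD_Cf (p u v : ℕ) (J : ℝ → ℤ → ℤ → ℝ) (a b : ℤ) (hJ : DD fun s => J s a b) :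
    DD fun s => Cf p u v J s a b :=
  (((DD_Af p a).mul (DD_Af p b)).mul (DD.zpow _)).mul hJ

end Pool.Agent.Helper10.HS
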