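import Pool.Agent.Helper10.HS.Api

/-!
# Project HS, piece Emb: finite fields inside the algebraically closed field

`ramF_mapT`: `φ` commutes with the finite sums, powers, natural numbers and division by `2`.
`lastBreak_mapT`: so the two sets in the definitions are equal.
`exists_fixed`: the polynomial `X^(p^r) - X` has at most `p^r` roots in `F`, and the `p^r` elements
`φ y` are roots (`FiniteField.pow_card`).
`exists_frobP`: choose preimages of the coefficients (`Finsupp.mapRange` by a left inverse of `φ` or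
`Finsupp.onFinset`). `exists_as`: `IsAlgClosed.exists_root` for `X^(p^r) - X - c`, degree
`p^r ≥ 2`. `as_notMem`: a solution for `c ≠ 0` is not in the image of `φ`.
-/

namespace Pool.Agent.Helper10.HS

variable {p : ℕ} [Fact p.Prime] {k F : Type} [Field k] [Field F] [CharP k p] [CharP F p]

/-- extension of scalars -/
noncomputable def mapP (φ : k →+* F) (f : Par p k) : Par p F :=
  ⟨f.1.mapRange φ (map_zero φ), by
    intro i hi
    rw [Finsupp.mapRange_apply, f.2 i hi, map_zero]⟩

/-- extension of scalars -/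
noncomputable def mapT (φ : k →+* F) (t : Tor p k) : Tor p F :=
  (mapP φ t.1, mapP φ t.2.1, mapP φ t.2.2)

omit [Fact p.Prime] [CharP k p] [CharP F p] in
theorem mapP_apply (φ : k →+* F) (f : Par p k) (i : ℕ) : (mapP φ f).1 i = φ (f.1 i) := rfl

theorem mapP_injective (φ : k →+* F) : Function.Injective (mapP (p := p) φ) := by
  intro f g h
  apply par_ext
  intro i
  apply φ.injective
  rw [← mapP_apply, ← mapP_apply, h]

theorem mapP_add (φ : k →+* F) (f g : Par p k) : mapP φ (f + g) = mapP φ f + mapP φ g := by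
  apply par_ext
  intro i
  rw [mapP_apply, par_add, par_add, map_add, mapP_apply, mapP_apply]

theorem mapP_nsmul (φ : k →+* F) (n : ℕ) (f : Par p k) : mapP φ (n • f) = n • mapP φ f := by
  apply par_ext
  intro i
  rw [mapP_apply, par_nsmul, par_nsmul, map_mul, map_natCast, mapP_apply]

theorem mapP_zero (φ : k →+* F) : mapP φ (0 : Par p k) = 0 := by
  apply par_ext
  intro i
  rw [mapP_apply, par_zero, par_zero, map_zero]

theorem mapP_eq_zero (φ : k →+* F) (f : Par p k) : mapP φ f = 0 ↔ f = 0 := by
  constructor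
  · intro h
    apply mapP_injective φ
    rw [h, mapP_zero]
  · rintro rfl
    exact mapP_zero φ

theorem sw_mapP (φ : k →+* F) (f : Par p k) : sw (mapP φ f) = sw f := by
  unfold sw
  congr 1
  ext i
  rw [Finsupp.mem_support_iff, Finsupp.mem_support_iff, mapP_apply, ne_eq, map_eq_zero]

theorem lin_mapT (φ : k →+* F) (ψ : ZMod p × ZMod p) (t : Tor p k) :
    lin ψ (mapT φ t) = mapP φ (lin ψ t) := by
  unfold lin mapT
  rw [mapP_add, mapP_nsmul, mapP_nsmul]

theorem indep_mapT (φ : k →+* F) (t : Tor p k) : Indep (mapT φ t) ↔ Indep t := by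
  unfold Indep
  refine forall_congr' fun ψ => ?_
  rw [lin_mapT, ne_eq, ne_eq, ne_eq, mapP_eq_zero]

private theorem comm_mapP (φ : k →+* F) (n : ℕ) (f g : Par p k) (m : ℕ) :
    comm p n (mapP φ f).1 (mapP φ g).1 m = φ (comm p n f.1 g.1 m) := by
  unfold comm
  rw [map_sum]
  refine Finset.sum_congr rfl fun a _ => ?_
  rw [mapP_apply, mapP_apply, mapP_apply, mapP_apply, map_mul, map_sub, map_mul, map_mul,
    map_pow, map_pow, map_natCast]

theorem ramF_mapT (φ : k →+* F) (t : Tor p k) (n m : ℕ) :
    ramF (mapT φ t) n m = φ (ramF t n m) := by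
  unfold ramF mapT
  split_ifs with h
  · rw [comm_mapP, mapP_apply, map_add, map_mul, map_div₀, map_natCast, map_ofNat]
  · rw [comm_mapP]

theorem lastBreak_mapT (φ : k →+* F) (t : Tor p k) : lastBreak (mapT φ t) = lastBreak t := by
  unfold lastBreak
  congr 1
  ext u
  simp only [ramF_mapT, ne_eq, map_eq_zero]

variable [Fintype k] (r : ℕ) (hr : 0 < r) (hk : Fintype.card k = p ^ r)

include hk in
theorem pow_image (φ : k →+* F) (y : k) : φ y ^ p ^ r = φ y := by
  rw [← map_pow, ← hk, FiniteField.pow_card]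

include hk in
theorem exists_fixed (φ : k →+* F) (x : F) (hx : x ^ p ^ r = x) : ∃ y, x = φ y := by
  classical
  have hp1 : 1 < p := (Fact.out : p.Prime).one_lt
  have hr0 : r ≠ 0 := by
    rintro rfl
    have h1 : 1 < Fintype.card k := Fintype.one_lt_card
    rw [hk, pow_zero] at h1
    omega
  have hne := FiniteField.X_pow_card_pow_sub_X_ne_zero F hr0 hp1
  have hdeg := FiniteField.X_pow_card_pow_sub_X_natDegree_eq F hr0 hp1
  obtain ⟨P, hP⟩ : ∃ P : Polynomial F, P = Polynomial.X ^ p ^ r - Polynomial.X := ⟨_, rfl⟩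
  rw [← hP] at hne hdeg
  have hmem : ∀ y : F, y ∈ P.roots.toFinset ↔ y ^ p ^ r = y := by
    intro y
    rw [Multiset.mem_toFinset, Polynomial.mem_roots hne, Polynomial.IsRoot.def, hP]
    simp [sub_eq_zero]
  have hsub : Finset.univ.image φ ⊆ P.roots.toFinset := by
    intro y hy
    rw [Finset.mem_image] at hy
    obtain ⟨z, _, rfl⟩ := hy
    rw [hmem]
    exact pow_image r hk φ z
  have hcard : P.roots.toFinset.card ≤ (Finset.univ.image φ).card := by
    rw [Finset.card_image_of_injective _ φ.injective, Finset.card_univ, hk, ← hdeg]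
    exact (Multiset.toFinset_card_le _).trans (Polynomial.card_roots' P)
  have heq := Finset.eq_of_subset_of_card_le hsub hcard
  have h1 := (hmem x).2 hx
  rw [← heq, Finset.mem_image] at h1
  obtain ⟨y, _, hy⟩ := h1
  exact ⟨y, hy.symm⟩

private theorem frobP_apply (r : ℕ) (f : Par p F) (i : ℕ) :
    (frobP r f).1 i = (f.1 i) ^ p ^ r := rfl

include hk in
theorem frobP_mapP (φ : k →+* F) (f : Par p k) : frobP r (mapP φ f) = mapP φ f := by
  apply par_ext
  intro i
  rw [frobP_apply, mapP_apply, pow_image r hk]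

include hk in
theorem exists_frobP (φ : k →+* F) (f : Par p F) (hf : frobP r f = f) : ∃ g, f = mapP φ g := by
  have h0 : Function.invFun φ (0 : F) = 0 := by
    have := Function.leftInverse_invFun φ.injective 0
    rw [map_zero] at this
    exact this
  refine ⟨⟨f.1.mapRange (Function.invFun φ) h0, ?_⟩, ?_⟩
  · intro i hi
    rw [Finsupp.mapRange_apply, f.2 i hi, h0]
  · apply par_ext
    intro i
    rw [mapP_apply]
    have h1 : (f.1 i) ^ p ^ r = f.1 i := by
      rw [← frobP_apply, hf]
    obtain ⟨y, hy⟩ := exists_fixed r hk φ _ h1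
    exact (Function.invFun_eq ⟨y, hy.symm⟩).symm

omit [Fintype k] in
theorem frobP_add (f g : Par p F) : frobP r (f + g) = frobP r f + frobP r g := by
  apply par_ext
  intro i
  rw [frobP_apply, par_add, par_add, frobP_apply, frobP_apply, add_pow_char_pow]

omit [Fintype k] in
theorem frobP_nsmul (n : ℕ) (f : Par p F) : frobP r (n • f) = n • frobP r f := by
  induction n with
  | zero =>
    apply par_ext
    intro i
    rw [zero_smul, zero_smul, frobP_apply, par_zero,
      zero_pow (pow_ne_zero r (Fact.out : p.Prime).ne_zero)]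
  | succ n ih => rw [succ_nsmul, succ_nsmul, frobP_add, ih]

omit [Fintype k] in
theorem frobP_smul (c : F) (f : Par p F) : frobP r (c • f) = c ^ p ^ r • frobP r f := by
  apply par_ext
  intro i
  rw [frobP_apply, par_smul, par_smul, frobP_apply, mul_pow]

include hr in
omit [Fintype k] in
/-- solutions of `x^q = x + c`, with `0` for `c = 0` -/
theorem exists_as [IsAlgClosed F] :
    ∃ ρ : ZMod p → F, ρ 0 = 0 ∧ ∀ c, ρ c ^ p ^ r = ρ c + (c.val : F) := by
  classical
  have hp1 : 1 < p := (Fact.out : p.Prime).one_lt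
  have hr0 : r ≠ 0 := hr.ne'
  have key : ∀ c : ZMod p, ∃ x : F, x ^ p ^ r = x + (c.val : F) := by
    intro c
    have hdeg := FiniteField.X_pow_card_pow_sub_X_natDegree_eq F hr0 hp1
    have hd : (Polynomial.X ^ p ^ r - Polynomial.X - Polynomial.C (c.val : F)).degree ≠ 0 := by
      intro h
      have h1 := Polynomial.natDegree_eq_of_degree_eq_some h
      rw [Polynomial.natDegree_sub_C, hdeg] at h1
      exact pow_ne_zero r (by omega) h1
    obtain ⟨x, hx⟩ := IsAlgClosed.exists_root _ hd
    refine ⟨x, ?_⟩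
    rw [Polynomial.IsRoot.def] at hx
    simp only [Polynomial.eval_sub, Polynomial.eval_pow, Polynomial.eval_X,
      Polynomial.eval_C] at hx
    have h2 : x ^ p ^ r = (x ^ p ^ r - x - (c.val : F)) + (x + (c.val : F)) := by ring
    rw [h2, hx, zero_add]
  choose f hf using key
  refine ⟨fun c => if c = 0 then 0 else f c, by simp, fun c => ?_⟩
  by_cases hc : c = 0
  · subst hc
    simp [(Fact.out : p.Prime).ne_zero]
  · simp only [hc, if_false]
    exact hf c

include hk in
theorem as_notMem (φ : k →+* F) (ρ : F) (c : ZMod p) (hc : c ≠ 0)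
    (hρ : ρ ^ p ^ r = ρ + (c.val : F)) (y : k) (n : ℕ) : ρ + n ≠ φ y := by
  intro h
  have h1 := pow_image (F := F) r hk φ y
  rw [← h, add_pow_char_pow, hρ] at h1
  have h2 : ((n : F)) ^ p ^ r = n := by
    have := map_natCast (iterateFrobenius F p r) n
    rwa [iterateFrobenius_def] at this
  rw [h2] at h1
  have h3 : ((c.val : ℕ) : F) = 0 := by
    have h4 : ((c.val : ℕ) : F) = (ρ + (c.val : F) + n) - (ρ + n) := by ring
    rw [h4, h1, sub_self]
  exact hc (cast_val_eq_zero.1 h3)

end Pool.Agent.Helper10.HS
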