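import Pool.Agent.WD.D1
import Pool.Agent.Helper10.HS.Defs

/-!
# Project HS (MP_827cb6_ag): closed forms

Everything is a function of a real number `s`, `s ^ 2 = q`, and of integers `a`, `b` (the sums run
over positive `a`, `b` prime to `p`, but the functions are defined for all integers, since the
duality compares `(a, b)` with `(-a, -b)`). `/` between integers is the floor.
-/

namespace Pool.Agent.Helper10.HS

open Pool.Agent.WD

noncomputable section

/-- the sum of `F a` over `a ≥ 1` prime to `p`, if `F (a + p) = F a * X` -/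
def S1 (p : ℕ) (F : ℤ → ℝ) (X : ℝ) : ℝ := (∑ i ∈ Finset.Ico (1 : ℤ) p, F i) * (1 - X)⁻¹

/-- the sum of `F a b` over `a > b ≥ 1` prime to `p`, if `F (a + p) b = F a b * X`,
`F a (b + p) = F a b * Y` -/
def S2 (p : ℕ) (F : ℤ → ℤ → ℝ) (X Y : ℝ) : ℝ :=
  (∑ i ∈ Finset.Ico (1 : ℤ) p, ∑ j ∈ Finset.Ico (1 : ℤ) p, F i j * (if i ≤ j then X else 1)) *
    (1 - X)⁻¹ * (1 - X * Y)⁻¹

/-- the same over `a ≥ b ≥ 1` -/
def S2' (p : ℕ) (F : ℤ → ℤ → ℝ) (X Y : ℝ) : ℝ :=
  (∑ i ∈ Finset.Ico (1 : ℤ) p, ∑ j ∈ Finset.Ico (1 : ℤ) p, F i j * (if i < j then X else 1)) *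
    (1 - X)⁻¹ * (1 - X * Y)⁻¹

/-- the number of reduced series of pole order `a` (`a` prime to `p`) -/
def Af (p : ℕ) (s : ℝ) (a : ℤ) : ℝ := (s ^ (2 : ℤ) - 1) * s ^ (2 * (a - 1 - a / p))

/-- the tail sum of the central parameter -/
def Rf (p c : ℕ) (s : ℝ) (n : ℤ) : ℝ :=
  (∑ j ∈ Finset.range p, (1 - s ^ (-(c * p : ℤ))) *
    s ^ (2 * ((n + j) - (n + j) / p) - c * p * (n + j))) * (1 - s ^ (2 * (p - 1) - c * p * p : ℤ))⁻¹

/-- first part of the sum over `f` (up to lower terms) and `h` of `s^(- c p T)` -/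
def Ja (p c : ℕ) (s : ℝ) (a b : ℤ) : ℝ :=
  if (p : ℤ) ∣ a + b then 0 else
    s ^ (-2 * ((a + b) / p)) * (s ^ (2 * (a + b / p) - c * (p * a + b)) +
      s ^ (2 * (a + b / p) - c * p * (a + b / p + 1)) * (s ^ (2 : ℤ) - 1) *
        (1 - s ^ (2 - c * p : ℤ))⁻¹)

/-- second part of the sum over `f` and `h` -/
def Jb (p c : ℕ) (s : ℝ) (a b : ℤ) : ℝ :=
  Rf p c s (a + b) - if (p : ℤ) ∣ a + b then 0 else
    (1 - s ^ (-(c * p : ℤ))) * s ^ (-2 * ((a + b) / p) + (2 - c * p) * (a + b)) *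
      (1 - s ^ (2 - c * p : ℤ))⁻¹

/-- the weight of the cone of `a > b` with weights `u`, `v`, times the kernel `J` -/
def Cf (p u v : ℕ) (J : ℝ → ℤ → ℤ → ℝ) (s : ℝ) (a b : ℤ) : ℝ :=
  Af p s a * Af p s b * s ^ (-(u * a + v * b : ℤ)) * J s a b

/-- exponent of the multiplier of `Cf` in direction `a` -/
def ex (p u : ℕ) (x : ℤ) : ℤ := 2 * (p - 1) - p * u + x

/-- exponent of the multipliers of `Ja` (first variable), `Jb` (both variables) -/
def rr (p c : ℕ) : ℤ := 2 * (p - 1) - c * p * p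

/-- exponent of the multiplier of `Ja` (second variable) -/
def ry (p c : ℕ) : ℤ := -(c * p)

/-- the lines in the character space: `none` is `(1, 0)`, `some c` is `(c, 1)` -/
abbrev Line (p : ℕ) : Type := Option (ZMod p)

/-- the sum over a cone: the line `B` of smaller pole order has weight `v`, all others together
have weight `u` -/
def Zc (p c u v : ℕ) (s : ℝ) : ℝ :=
  S2 p (Cf p u v (Ja p c) s) (s ^ ex p u (rr p c)) (s ^ ex p v (ry p c)) +
  S2 p (Cf p u v (Jb p c) s) (s ^ ex p u (rr p c)) (s ^ ex p v (rr p c))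

/-- the sum over the ray of equal pole orders, `W` is the total weight -/
def Zd (p c W : ℕ) (s : ℝ) : ℝ :=
  S1 p (fun a => Cf p W 0 (Ja p c) s a a) (s ^ (ex p W (rr p c) + ex p 0 (ry p c))) +
  S1 p (fun a => Cf p W 0 (Jb p c) s a a) (s ^ (ex p W (rr p c) + ex p 0 (rr p c)))

/-- the total weight -/
def tw {p : ℕ} [Fact p.Prime] (w : Line p → ℕ) : ℕ := ∑ l, w l

/-- the sum over all torsors with Galois group `G`; `w` are the weights of the lines -/
def Z4 (p c : ℕ) [Fact p.Prime] (w : Line p → ℕ) (s : ℝ) : ℝ :=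
  (∑ l : Line p, Zc p c (tw w - w l) (w l) s) +
    (s ^ (2 : ℤ) - p) * (s ^ (2 : ℤ) - 1)⁻¹ * Zd p c (tw w) s

/-- the sum over the torsors whose group is a given abelian subgroup of order `p ^ 2`, modulo
conjugation: `u` is the weight of `e`, `c` the weight of each of the `p` characters `h + c' e` -/
def Z3 (p u c : ℕ) (s : ℝ) : ℝ :=
  S2 p (Cf p (p * c) u (fun _ _ _ => 1) s) (s ^ ex p (p * c) 0) (s ^ ex p u 0) +
  S2 p (Cf p (u + (p - 1) * c) c (fun _ _ _ => 1) s) (s ^ ex p (u + (p - 1) * c) 0)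
    (s ^ ex p c 0) +
  S1 p (fun a => Cf p (u + p * c) 0 (fun _ _ _ => 1) s a a)
    (s ^ (ex p (u + p * c) 0 + ex p 0 0))

/-- the sum over the nonzero reduced series with weight `u` -/
def Z1 (p u : ℕ) (s : ℝ) : ℝ := S1 p (fun a => Af p s a * s ^ (-(u * a : ℤ))) (s ^ ex p u 0)

end

end Pool.Agent.Helper10.HS
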