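import Pool.Agent.Helper10.HS.Fn

/-!
# Project HS, piece Jd: the pointwise duality

`(-a) / p = -(a / p) - 1` if `¬ p ∣ a`, and `(-a) / p = -(a / p)` if `p ∣ a`.

`Af_neg`: the exponent at `(s⁻¹, -a)` is `2 (a - a / p)`, and `s⁻² - 1 = -(s² - 1) s⁻²`.

`Rf_neg`: the terms of `Rf p c s⁻¹ (-n)` are `(1 - s^(c p)) * s^(-(2 (y - y / p) - c p y))`,
`y = -n + j`, `0 ≤ j < p`. Put `y = -y' - 1`, `y' = n - p + j'`, `j' = p - 1 - j`: since
`(-y' - 1) / p = -(y' / p) - 1`, the term is `-(1 - s^(-c p)) * s^(2 (y' - y' / p) - c p y')`, and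
`y' = (n + j') - p` gives the term of `Rf p c s n` times `-s^(-rr p c)`. Finally
`-s^(-r) * (1 - s^(-r))⁻¹ = (1 - s^r)⁻¹`.

`J_dual`: if `p ∣ a + b` both `Ja` vanish and `Jb` is `Rf (a + b)`. Otherwise put
`k = (a + b) / p`, `n = a + b / p` (as `¬ p ∣ b`, at `(-a, -b)` they are `-k - 1`, `-n - 1`),
`θ = s^(2 - c p)`. Then `Ja = s^(-2k) (s^(2n - c (p a + b)) + s^(2 n - c p (n + 1)) (s² - 1) / (1 - θ))`
and `Jb - Rf = -(1 - s^(-c p)) s^(-2k) θ^(a + b) / (1 - θ)`; at `(s⁻¹, -a, -b)` they are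
`s^(-2k) (s^(2n - c (p a + b)) - s^(2 n - c p n) * s^2 (…))`: a direct computation shows that
`Ja + Jb - Rf` is the same at `(s, a, b)` and at `(s⁻¹, -a, -b)` (checked numerically). Indeed
`s^(2 n - c p (n + 1)) (s² - 1) / (1 - θ) = -s^(2 n - c p (n + 1)) + (1 - s^(-c p)) θ^(n + 1) / (1 - θ)`.
-/

namespace Pool.Agent.Helper10.HS

private theorem jd_negdiv {p : ℕ} (hp : 0 < p) {a : ℤ} (ha : ¬(p : ℤ) ∣ a) :
    (-a) / (p : ℤ) = -(a / p) - 1 := by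
  have hp' : (0 : ℤ) < p := by exact_mod_cast hp
  have h1 := Int.mul_ediv_add_emod a p
  have h2 := Int.emod_nonneg a hp'.ne'
  have h3 := Int.emod_lt_of_pos a hp'
  have h4 : a % p ≠ 0 := fun h => ha (Int.dvd_of_emod_eq_zero h)
  have h5 : -a = (p - a % p) + p * (-(a / p) - 1) := by linarith
  rw [h5, Int.add_mul_ediv_left _ _ hp'.ne', Int.ediv_eq_zero_of_lt (by omega) (by omega), zero_add]

private theorem jd_negdiv1 {p : ℕ} (hp : 0 < p) (y : ℤ) :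
    (-y - 1) / (p : ℤ) = -(y / p) - 1 := by
  have hp' : (0 : ℤ) < p := by exact_mod_cast hp
  have h1 := Int.mul_ediv_add_emod y p
  have h2 := Int.emod_nonneg y hp'.ne'
  have h3 := Int.emod_lt_of_pos y hp'
  have h5 : -y - 1 = (p - 1 - y % p) + p * (-(y / p) - 1) := by linarith
  rw [h5, Int.add_mul_ediv_left _ _ hp'.ne', Int.ediv_eq_zero_of_lt (by omega) (by omega), zero_add]

private theorem jd_inv {x : ℝ} (hx : x ≠ 0) : (1 - x⁻¹)⁻¹ = -(x * (1 - x)⁻¹) := by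
  by_cases h : x = 1
  · rw [h]
    simp
  · have h1 : 1 - x ≠ 0 := sub_ne_zero.2 (Ne.symm h)
    have h2 : x - 1 ≠ 0 := sub_ne_zero.2 h
    have h3 : 1 - x⁻¹ = (x - 1) / x := by field_simp
    rw [h3, inv_div]
    field_simp
    ring

variable (p : ℕ) [Fact p.Prime] (c : ℕ) {s : ℝ}

theorem Af_neg (hs : 0 < s) (a : ℤ) (ha : ¬(p : ℤ) ∣ a) : Af p s⁻¹ (-a) = -Af p s a := by
  have hp : 0 < p := (Fact.out : p.Prime).pos
  have hs0 : s ≠ 0 := hs.ne'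
  unfold Af
  rw [jd_negdiv hp ha]
  have e1 : (2 * (-a - 1 - (-(a / (p : ℤ)) - 1)) : ℤ) = -(2 * (a - 1 - a / p) + 2) := by ring
  rw [e1, inv_zpow, inv_zpow, zpow_neg, inv_inv, zpow_add₀ hs0]
  have h2 : s ^ (2 : ℤ) ≠ 0 := zpow_ne_zero _ hs0
  field_simp
  ring

private theorem jd_ex (y : ℤ) :
    (2 * ((-y - 1) - (-y - 1) / (p : ℤ)) - c * p * (-y - 1) : ℤ) =
      -(2 * (y - y / p) - c * p * y) + c * p := by
  rw [jd_negdiv1 (Fact.out : p.Prime).pos y]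
  ring

private theorem jd_per (y : ℤ) :
    (2 * ((y - p) - (y - p) / (p : ℤ)) - c * p * (y - p) : ℤ) =
      (2 * (y - y / p) - c * p * y) - rr p c := by
  have hp : (p : ℤ) ≠ 0 := by exact_mod_cast (Fact.out : p.Prime).ne_zero
  have h1 : (y - p) / (p : ℤ) = y / p - 1 := by
    have e : y - p = y + p * (-1) := by ring
    rw [e, Int.add_mul_ediv_left _ _ hp]
    ring
  rw [h1, rr]
  ring

theorem Rf_neg (hs : 0 < s) (hs1 : s ≠ 1) (h : rr p c ≠ 0) (n : ℤ) :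
    Rf p c s⁻¹ (-n) = Rf p c s n := by
  have hs0 : s ≠ 0 := hs.ne'
  unfold Rf
  have hx : s ^ rr p c ≠ 0 := zpow_ne_zero _ hs0
  have e0 : (2 * ((p : ℤ) - 1) - c * p * p : ℤ) = rr p c := rfl
  rw [e0, inv_zpow s (rr p c), jd_inv hx]
  have key : ∑ j ∈ Finset.range p, (1 - s⁻¹ ^ (-(c * p : ℤ))) *
      s⁻¹ ^ (2 * ((-n + j) - (-n + j) / (p : ℤ)) - c * p * (-n + j)) =
      -((s ^ rr p c)⁻¹ * ∑ j ∈ Finset.range p, (1 - s ^ (-(c * p : ℤ))) *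
      s ^ (2 * ((n + j) - (n + j) / (p : ℤ)) - c * p * (n + j))) := by
    rw [← Finset.sum_range_reflect (fun j : ℕ => (1 - s ^ (-(c * p : ℤ))) *
      s ^ (2 * ((n + j) - (n + j) / (p : ℤ)) - c * p * (n + j))) p, Finset.mul_sum,
      ← Finset.sum_neg_distrib]
    apply Finset.sum_congr rfl
    intro j hj
    have hj' := Finset.mem_range.1 hj
    have hc : ((p - 1 - j : ℕ) : ℤ) = p - 1 - j := by omega
    rw [hc]
    have h1 : (-n + (j : ℤ)) = -(n - 1 - j) - 1 := by ring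
    have h2 : (n - 1 - j : ℤ) = (n + (p - 1 - j)) - p := by ring
    have h3 : (2 * ((-n + j) - (-n + j) / (p : ℤ)) - c * p * (-n + j) : ℤ) =
        -(2 * ((n + (p - 1 - j)) - (n + (p - 1 - j)) / (p : ℤ)) -
          c * p * (n + (p - 1 - j))) + rr p c + c * p := by
      rw [h1, jd_ex p c (n - 1 - j), h2, jd_per p c (n + (p - 1 - j))]
      ring
    rw [h3, inv_zpow', inv_zpow']
    have h4 : (-(-(2 * ((n + (p - 1 - j)) - (n + (p - 1 - j)) / (p : ℤ)) -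
          c * p * (n + (p - 1 - j))) + rr p c + c * p) : ℤ) =
        (2 * ((n + (p - 1 - j)) - (n + (p - 1 - j)) / (p : ℤ)) -
          c * p * (n + (p - 1 - j))) + -(rr p c) + -(c * p) := by ring
    rw [h4, zpow_add₀ hs0, zpow_add₀ hs0, zpow_neg s (rr p c), neg_neg, zpow_neg s (c * p)]
    have h5 : s ^ ((c : ℤ) * p) ≠ 0 := zpow_ne_zero _ hs0
    field_simp
    ring
  rw [key]
  field_simp

theorem J_dual (hs : 0 < s) (hs1 : s ≠ 1) (h : rr p c ≠ 0) (h' : (2 : ℤ) - c * p ≠ 0) (a b : ℤ)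
    (hb : ¬(p : ℤ) ∣ b) :
    Ja p c s⁻¹ (-a) (-b) + Jb p c s⁻¹ (-a) (-b) = Ja p c s a b + Jb p c s a b := by
  have hs0 : s ≠ 0 := hs.ne'
  have hp : 0 < p := (Fact.out : p.Prime).pos
  have hab : (-a + -b : ℤ) = -(a + b) := by ring
  unfold Ja Jb
  rw [hab, Rf_neg p c hs hs1 h]
  by_cases hd : (p : ℤ) ∣ a + b
  · have hd' : (p : ℤ) ∣ -(a + b) := dvd_neg.2 hd
    simp only [if_pos hd, if_pos hd']
  · have hd' : ¬(p : ℤ) ∣ -(a + b) := fun h => hd (dvd_neg.1 h)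
    simp only [if_neg hd, if_neg hd']
    rw [jd_negdiv hp hd, jd_negdiv hp hb]
    have hθ : s ^ (2 - c * p : ℤ) ≠ 0 := zpow_ne_zero _ hs0
    rw [inv_zpow s (2 - c * p : ℤ), jd_inv hθ]
    simp only [inv_zpow']
    have hX : s ^ ((c : ℤ) * p) ≠ 0 := zpow_ne_zero _ hs0
    have hS : s ^ (2 : ℤ) ≠ 0 := zpow_ne_zero _ hs0
    have eθ : s ^ (2 - c * p : ℤ) = s ^ (2 : ℤ) * (s ^ ((c : ℤ) * p))⁻¹ := by
      rw [zpow_sub₀ hs0, div_eq_mul_inv]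
    set k : ℤ := (a + b) / (p : ℤ) with hk
    set n : ℤ := a + b / (p : ℤ) with hn
    have e1 : (-(-2 * (-k - 1)) : ℤ) = -2 * k + -2 := by ring
    have e2 : (-(2 * (-a + (-(b / (p : ℤ)) - 1)) - c * (p * -a + -b)) : ℤ) =
        (2 * n - c * (p * a + b)) + 2 := by rw [hn]; ring
    have e3 : (-(2 * (-a + (-(b / (p : ℤ)) - 1)) - c * p * (-a + (-(b / (p : ℤ)) - 1) + 1)) : ℤ) =
        (2 * n - c * p * (n + 1)) + 2 + c * p := by rw [hn]; ring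
    have e4 : (-(-2 * (-k - 1) + (2 - c * p) * -(a + b)) : ℤ) =
        (-2 * k + (2 - c * p) * (a + b)) + -2 := by ring
    have e5 : (-(-((c : ℤ) * p)) : ℤ) = c * p := by ring
    rw [e1, e2, e3, e4, e5, zpow_add₀ hs0 (-2 * k), zpow_add₀ hs0 (2 * n - c * (p * a + b)),
      zpow_add₀ hs0 _ ((c : ℤ) * p), zpow_add₀ hs0 (2 * n - c * p * (n + 1)),
      zpow_add₀ hs0 (-2 * k + (2 - c * p) * (a + b)), zpow_neg s 2, zpow_neg s (c * p)]
    generalize hI : (1 - s ^ (2 - c * p : ℤ))⁻¹ = I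
    rw [eθ]
    generalize s ^ (2 : ℤ) = S at *
    generalize s ^ ((c : ℤ) * p) = X at *
    field_simp
    ring

/-- (write `(s⁻¹) ^ (-(u * (-a) + v * (-b))) = s ^ (-(u * a + v * b))` and use `Af_neg` twice) -/
theorem Cf_neg (u v : ℕ) (J : ℝ → ℤ → ℤ → ℝ) (hs : 0 < s) (a b : ℤ) (ha : ¬(p : ℤ) ∣ a)
    (hb : ¬(p : ℤ) ∣ b) :
    Cf p u v J s⁻¹ (-a) (-b) =
      Af p s a * Af p s b * s ^ (-(u * a + v * b : ℤ)) * J s⁻¹ (-a) (-b) := by
  unfold Cf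
  rw [Af_neg p hs a ha, Af_neg p hs b hb, inv_zpow']
  have e : (-(-(u * -a + v * -b)) : ℤ) = -(u * a + v * b) := by ring
  rw [e]
  ring

end Pool.Agent.Helper10.HS
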