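import Pool.Agent.Helper10.HS.Zdual

/-!
# Project HS, piece Zfin: the sums are self-dual

See the header of Zdual.lean. `Z3_inv`: `cone1` for the two cones (`J = 1`, `x = y = 0`) with
`Cf_neg`; the ray: `S1_neg` and `Cf_neg` give `-S1`; the two diagonal terms of `cone1` are equal to
the third summand of `Z3` (`Cf p u v J s a a = Cf p (u + v) 0 J s a a`), so the total is
`S2 + D + S2 + D - D = Z3`.

`Z4_inv`: `Zc_inv` and `Zd_inv`; there are `p + 1` lines (`Fintype.card (Option (ZMod p)) = p + 1`),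
and `(s⁻² - p) / (s⁻² - 1) = (p s² - 1) / (s² - 1)`,
`(p + 1) - (p s² - 1) / (s² - 1) = (s² - p) / (s² - 1)`; `w l ≤ tw w`.
-/

namespace Pool.Agent.Helper10.HS

open Pool.Agent.WD

private theorem Zfin_cast {p c : ℕ} (hp : 3 ≤ p) (hc : 2 ≤ c) : (3 : ℤ) ≤ p ∧ (2 : ℤ) ≤ c :=
  ⟨by exact_mod_cast hp, by exact_mod_cast hc⟩

private theorem Zfin_rr {p c : ℕ} (hp : 3 ≤ p) (hc : 2 ≤ c) : rr p c < -(2 * p) := by
  obtain ⟨h1, h2⟩ := Zfin_cast hp hc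
  unfold rr
  nlinarith [mul_nonneg (sub_nonneg.2 h2) (mul_self_nonneg (p : ℤ)),
    mul_nonneg (sub_nonneg.2 h1) (sub_nonneg.2 h1)]

private theorem Zfin_ry {p c : ℕ} (hp : 3 ≤ p) (hc : 2 ≤ c) : ry p c ≤ -(2 * p) := by
  obtain ⟨h1, h2⟩ := Zfin_cast hp hc
  unfold ry
  nlinarith

private theorem Zfin_ex {p u : ℕ} {x : ℤ} : ex p u x ≤ 2 * p + x - 2 := by
  have h : (0 : ℤ) ≤ p * u := by positivity
  unfold ex
  linarith

private theorem Zfin_exrr {p c : ℕ} (hp : 3 ≤ p) (hc : 2 ≤ c) (u : ℕ) : ex p u (rr p c) < 0 := by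
  have h1 := Zfin_rr hp hc
  have h2 := Zfin_ex (p := p) (u := u) (x := rr p c)
  linarith

private theorem Zfin_exry {p c : ℕ} (hp : 3 ≤ p) (hc : 2 ≤ c) (u : ℕ) : ex p u (ry p c) < 0 := by
  have h1 := Zfin_ry hp hc
  have h2 := Zfin_ex (p := p) (u := u) (x := ry p c)
  linarith

private theorem Zfin_two {p c : ℕ} (hp : 3 ≤ p) (hc : 2 ≤ c) : (2 : ℤ) - c * p ≠ 0 := by
  obtain ⟨h1, h2⟩ := Zfin_cast hp hc
  nlinarith

private theorem Zfin_ex_add (p u v : ℕ) (x y : ℤ) :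
    ex p u x + ex p v y = ex p (u + v) x + ex p 0 y := by
  unfold ex
  push_cast
  ring

private theorem Zfin_diag (p u v : ℕ) (J : ℝ → ℤ → ℤ → ℝ) (s : ℝ) (a : ℤ) :
    Cf p u v J s a a = Cf p (u + v) 0 J s a a := by
  unfold Cf
  have e : (-(u * a + v * a : ℤ)) = -(((u + v : ℕ) : ℤ) * a + ((0 : ℕ) : ℤ) * a) := by
    push_cast
    ring
  rw [e]

private theorem Zfin_J (p c u v : ℕ) [Fact p.Prime] (hp : 3 ≤ p) (hc : 2 ≤ c) {s : ℝ}
    (hs : 1 < s) (a b : ℤ) (ha : ¬(p : ℤ) ∣ a) (hb : ¬(p : ℤ) ∣ b) :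
    Cf p u v (Ja p c) s⁻¹ (-a) (-b) + Cf p u v (Jb p c) s⁻¹ (-a) (-b) =
      Cf p u v (Ja p c) s a b + Cf p u v (Jb p c) s a b := by
  have hs0 : 0 < s := by linarith
  have hr : rr p c ≠ 0 := by
    have := Zfin_rr hp hc
    omega
  rw [Cf_neg p u v (Ja p c) hs0 a b ha hb, Cf_neg p u v (Jb p c) hs0 a b ha hb, ← mul_add,
    J_dual p c hs0 hs.ne' hr (Zfin_two hp hc) a b hb, mul_add]
  rfl

theorem Zc_inv (p c u v : ℕ) [Fact p.Prime] (hp : 3 ≤ p) (hc : 2 ≤ c) {s : ℝ} (hs : 1 < s) :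
    Zc p c u v s⁻¹ = Zc p c u v s + Zd p c (u + v) s := by
  have hs0 : 0 < s := by linarith
  have hi0 : 0 < s⁻¹ := inv_pos.2 hs0
  have e1 := Zfin_exrr hp hc u
  have e2 := Zfin_exry hp hc v
  have e3 := Zfin_exrr hp hc v
  have key := cone2 p (by omega) (Cf p u v (Ja p c) s⁻¹) (Cf p u v (Jb p c) s⁻¹)
    (Cf p u v (Ja p c) s) (Cf p u v (Jb p c) s) (s ^ ex p u (rr p c)) (s ^ ex p v (ry p c))
    (s ^ ex p v (rr p c)) (zpow_pos hs0 _) (zpow_lt_one_of_neg₀ hs e1) (zpow_pos hs0 _)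
    (zpow_pos hs0 _)
    (by
      rw [← zpow_add₀ hs0.ne']
      exact zpow_lt_one_of_neg₀ hs (by omega))
    (by
      rw [← zpow_add₀ hs0.ne']
      exact zpow_lt_one_of_neg₀ hs (by omega))
    (Cf_per1 p u v (Ja p c) (rr p c) hs0 (Ja_per1 p c hs0))
    (Cf_per2 p u v (Ja p c) (ry p c) hs0 (Ja_per2 p c hs0))
    (Cf_per1 p u v (Jb p c) (rr p c) hs0 (Jb_per1 p c hs0))
    (Cf_per2 p u v (Jb p c) (rr p c) hs0 (Jb_per2 p c hs0))
    (fun a b => by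
      rw [← inv_zpow]
      exact Cf_per1 p u v (Ja p c) (rr p c) hi0 (Ja_per1 p c hi0) a b)
    (fun a b => by
      rw [← inv_zpow]
      exact Cf_per2 p u v (Ja p c) (ry p c) hi0 (Ja_per2 p c hi0) a b)
    (fun a b => by
      rw [← inv_zpow]
      exact Cf_per1 p u v (Jb p c) (rr p c) hi0 (Jb_per1 p c hi0) a b)
    (fun a b => by
      rw [← inv_zpow]
      exact Cf_per2 p u v (Jb p c) (rr p c) hi0 (Jb_per2 p c hi0) a b)
    (Zfin_J p c u v hp hc hs)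
  unfold Zc Zd
  rw [inv_zpow, inv_zpow, inv_zpow, key, ← zpow_add₀ hs0.ne', ← zpow_add₀ hs0.ne',
    Zfin_ex_add p u v (rr p c) (ry p c), Zfin_ex_add p u v (rr p c) (rr p c)]
  simp only [Zfin_diag p u v]

theorem Zd_inv (p c W : ℕ) [Fact p.Prime] (hp : 3 ≤ p) (hc : 2 ≤ c) {s : ℝ} (hs : 1 < s) :
    Zd p c W s⁻¹ = -Zd p c W s := by
  have hs0 : 0 < s := by linarith
  have hi0 : 0 < s⁻¹ := inv_pos.2 hs0
  have e1 := Zfin_exrr hp hc W
  have e2 := Zfin_exry hp hc 0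
  have e3 := Zfin_exrr hp hc 0
  have per : ∀ {t : ℝ}, 0 < t → ∀ (J : ℝ → ℤ → ℤ → ℝ) (x y : ℤ),
      (∀ a b, J t (a + p) b = J t a b * t ^ x) → (∀ a b, J t a (b + p) = J t a b * t ^ y) →
      ∀ a, Cf p W 0 J t (a + p) (a + p) = Cf p W 0 J t a a * t ^ (ex p W x + ex p 0 y) := by
    intro t ht J x y h1 h2 a
    rw [Cf_per1 p W 0 J x ht h1, Cf_per2 p W 0 J y ht h2, zpow_add₀ ht.ne']
    ring
  have key := ray2 p (by omega) (fun a => Cf p W 0 (Ja p c) s⁻¹ a a)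
    (fun a => Cf p W 0 (Jb p c) s⁻¹ a a) (fun a => Cf p W 0 (Ja p c) s a a)
    (fun a => Cf p W 0 (Jb p c) s a a) (s ^ (ex p W (rr p c) + ex p 0 (ry p c)))
    (s ^ (ex p W (rr p c) + ex p 0 (rr p c))) (zpow_pos hs0 _)
    (zpow_lt_one_of_neg₀ hs (by omega)) (zpow_pos hs0 _) (zpow_lt_one_of_neg₀ hs (by omega))
    (per hs0 (Ja p c) (rr p c) (ry p c) (Ja_per1 p c hs0) (Ja_per2 p c hs0))
    (per hs0 (Jb p c) (rr p c) (rr p c) (Jb_per1 p c hs0) (Jb_per2 p c hs0))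
    (fun a => by
      rw [← inv_zpow]
      exact per hi0 (Ja p c) (rr p c) (ry p c) (Ja_per1 p c hi0) (Ja_per2 p c hi0) a)
    (fun a => by
      rw [← inv_zpow]
      exact per hi0 (Jb p c) (rr p c) (rr p c) (Jb_per1 p c hi0) (Jb_per2 p c hi0) a)
    (fun a ha => Zfin_J p c W 0 hp hc hs a a ha ha)
  unfold Zd
  rw [inv_zpow, inv_zpow]
  exact key

theorem Z4_inv (p c : ℕ) [Fact p.Prime] (hp : 3 ≤ p) (hc : 2 ≤ c) (w : Line p → ℕ) {s : ℝ}
    (hs : 1 < s) : Z4 p c w s⁻¹ = Z4 p c w s := by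
  have hs0 : 0 < s := by linarith
  have hw : ∀ l : Line p, tw w - w l + w l = tw w := fun l =>
    Nat.sub_add_cancel (Finset.single_le_sum (f := w) (fun _ _ => Nat.zero_le _)
      (Finset.mem_univ l))
  have h1 : (∑ l : Line p, Zc p c (tw w - w l) (w l) s⁻¹) =
      (∑ l : Line p, Zc p c (tw w - w l) (w l) s) + ((p : ℝ) + 1) * Zd p c (tw w) s := by
    have h2 : ∀ l : Line p, Zc p c (tw w - w l) (w l) s⁻¹ =
        Zc p c (tw w - w l) (w l) s + Zd p c (tw w) s := by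
      intro l
      rw [Zc_inv p c _ _ hp hc hs, hw l]
    rw [Finset.sum_congr rfl fun l _ => h2 l, Finset.sum_add_distrib, Finset.sum_const,
      Finset.card_univ, Fintype.card_option, ZMod.card, nsmul_eq_mul]
    push_cast
    ring
  unfold Z4
  rw [h1, Zd_inv p c _ hp hc hs]
  have hS : 1 < s ^ (2 : ℤ) := one_lt_zpow₀ hs (by norm_num)
  have hS0 : s ^ (2 : ℤ) ≠ 0 := by positivity
  have hS1 : s ^ (2 : ℤ) - 1 ≠ 0 := by
    intro h
    linarith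
  rw [inv_zpow]
  generalize s ^ (2 : ℤ) = S at hS hS0 hS1
  have hS2 : S⁻¹ - 1 ≠ 0 := by
    intro h
    have h3 : S⁻¹ = 1 := by linarith
    rw [inv_eq_one] at h3
    linarith
  have key : ((p : ℝ) + 1) - (S⁻¹ - p) * (S⁻¹ - 1)⁻¹ = (S - p) * (S - 1)⁻¹ := by
    have h4 : 1 - S ≠ 0 := by
      intro h
      linarith
    have h5 : (S⁻¹ - 1)⁻¹ = S * (1 - S)⁻¹ := by
      rw [show S⁻¹ - 1 = (1 - S) * S⁻¹ by field_simp, mul_inv, inv_inv, mul_comm]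
    have h6 : (S - 1)⁻¹ = -(1 - S)⁻¹ := by
      rw [← inv_neg, neg_sub]
    rw [h5, h6]
    field_simp
    ring
  rw [← key]
  ring

private theorem Zfin_ray (p W : ℕ) [Fact p.Prime] (hp : 3 ≤ p) (hW : 4 ≤ W) {s : ℝ}
    (hs : 1 < s) :
    S1 p (fun a => Cf p W 0 (fun _ _ _ => 1) s⁻¹ a a) (s⁻¹ ^ (ex p W 0 + ex p 0 0)) =
      -S1 p (fun a => Cf p W 0 (fun _ _ _ => 1) s a a) (s ^ (ex p W 0 + ex p 0 0)) := by
  have hs0 : 0 < s := by linarith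
  have hi0 : 0 < s⁻¹ := inv_pos.2 hs0
  have hneg : ex p W 0 + ex p 0 0 < 0 := by
    have h1 : (3 : ℤ) ≤ p := by exact_mod_cast hp
    have h2 : (4 : ℤ) ≤ W := by exact_mod_cast hW
    unfold ex
    push_cast
    nlinarith
  have per : ∀ {t : ℝ}, 0 < t → ∀ a, Cf p W 0 (fun _ _ _ => 1) t (a + p) (a + p) =
      Cf p W 0 (fun _ _ _ => 1) t a a * t ^ (ex p W 0 + ex p 0 0) := by
    intro t ht a
    rw [Cf_per1 p W 0 (fun _ _ _ => 1) 0 ht (fun _ _ => by rw [zpow_zero, mul_one]),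
      Cf_per2 p W 0 (fun _ _ _ => 1) 0 ht (fun _ _ => by rw [zpow_zero, mul_one]),
      zpow_add₀ ht.ne']
    ring
  have key := ray2 p (by omega) (fun a => Cf p W 0 (fun _ _ _ => 1) s⁻¹ a a) (fun _ => 0)
    (fun a => Cf p W 0 (fun _ _ _ => 1) s a a) (fun _ => 0) (s ^ (ex p W 0 + ex p 0 0))
    (s ^ (ex p W 0 + ex p 0 0)) (zpow_pos hs0 _) (zpow_lt_one_of_neg₀ hs hneg) (zpow_pos hs0 _)
    (zpow_lt_one_of_neg₀ hs hneg) (per hs0) (fun _ => by rw [zero_mul])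
    (fun a => by
      rw [← inv_zpow]
      exact per hi0 a) (fun _ => by rw [zero_mul])
    (fun a ha => by
      rw [Cf_neg p W 0 (fun _ _ _ => 1) hs0 a a ha ha]
      rfl)
  have hz : ∀ X : ℝ, S1 p (fun _ => (0 : ℝ)) X = 0 := by
    intro X
    unfold S1
    rw [Finset.sum_const_zero, zero_mul]
  rw [hz, hz, add_zero, add_zero] at key
  rw [inv_zpow]
  exact key

private theorem Zfin_cone (p u v : ℕ) [Fact p.Prime] (hp : 3 ≤ p) (hu : 2 ≤ u) (huv : 4 ≤ u + v)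
    {s : ℝ} (hs : 1 < s) :
    S2 p (Cf p u v (fun _ _ _ => 1) s⁻¹) (s⁻¹ ^ ex p u 0) (s⁻¹ ^ ex p v 0) =
      S2 p (Cf p u v (fun _ _ _ => 1) s) (s ^ ex p u 0) (s ^ ex p v 0) +
        S1 p (fun a => Cf p (u + v) 0 (fun _ _ _ => 1) s a a) (s ^ (ex p (u + v) 0 + ex p 0 0)) := by
  have hs0 : 0 < s := by linarith
  have hi0 : 0 < s⁻¹ := inv_pos.2 hs0
  have h1 : (3 : ℤ) ≤ p := by exact_mod_cast hp
  have h2 : (2 : ℤ) ≤ u := by exact_mod_cast hu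
  have h3 : (4 : ℤ) ≤ u + v := by exact_mod_cast huv
  have hneg : ex p u 0 < 0 := by
    unfold ex
    nlinarith
  have hneg2 : ex p u 0 + ex p v 0 < 0 := by
    unfold ex
    nlinarith
  have key := cone1 p (Cf p u v (fun _ _ _ => 1) s⁻¹) (Cf p u v (fun _ _ _ => 1) s)
    (s ^ ex p u 0) (s ^ ex p v 0) (zpow_pos hs0 _).ne' (zpow_pos hs0 _).ne'
    (zpow_lt_one_of_neg₀ hs hneg).ne
    (by
      rw [← zpow_add₀ hs0.ne']
      exact (zpow_lt_one_of_neg₀ hs hneg2).ne)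
    (fun a b => by
      rw [← inv_zpow]
      exact Cf_per1 p u v (fun _ _ _ => 1) 0 hi0 (fun _ _ => by rw [zpow_zero, mul_one]) a b)
    (fun a b => by
      rw [← inv_zpow]
      exact Cf_per2 p u v (fun _ _ _ => 1) 0 hi0 (fun _ _ => by rw [zpow_zero, mul_one]) a b)
    (fun a b ha hb => by
      rw [Cf_neg p u v (fun _ _ _ => 1) hs0 a b ha hb]
      rfl)
  rw [inv_zpow, inv_zpow, key, ← zpow_add₀ hs0.ne', Zfin_ex_add p u v 0 0]
  simp only [Zfin_diag p u v]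

theorem Z3_inv (p u c : ℕ) [Fact p.Prime] (hp : 3 ≤ p) (hc : 2 ≤ c) {s : ℝ} (hs : 1 < s) :
    Z3 p u c s⁻¹ = Z3 p u c s := by
  have h1 : 6 ≤ p * c := Nat.mul_le_mul hp hc
  have h2 : 4 ≤ (p - 1) * c := Nat.mul_le_mul (show 2 ≤ p - 1 by omega) hc
  have e1 : p * c + u = u + p * c := Nat.add_comm _ _
  have e2 : u + (p - 1) * c + c = u + p * c := by
    rw [Nat.add_assoc, ← Nat.succ_mul, Nat.succ_eq_add_one, Nat.sub_add_cancel (by omega)]
  unfold Z3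
  rw [Zfin_cone p (p * c) u hp (by omega) (by omega) hs,
    Zfin_cone p (u + (p - 1) * c) c hp (by omega) (by omega) hs,
    Zfin_ray p (u + p * c) hp (by omega) hs, e1, e2]
  ring

private theorem Zfin_dual {Z : ℝ → ℝ} (h : DD Z) (hi : ∀ s, 1 < s → Z s⁻¹ = Z s) : Dual Z Z :=
  Dual.congr h (fun _ _ => rfl) fun q hq => (hi q hq).symm

private theorem Zfin_one : DD fun _ => (1 : ℝ) :=
  (DD.const 1).congr fun _ _ _ => by norm_num

theorem Z1_dual (p u : ℕ) [Fact p.Prime] (hu : 2 ≤ u) : Dual (Z1 p u) (Z1 p u) := by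
  have hp2 : 2 ≤ p := (Fact.out : p.Prime).two_le
  refine Zfin_dual ?_ fun s hs => Z1_inv p u hu hs
  refine DD_S1 p (fun s a => Af p s a * s ^ (-(u * a : ℤ))) (ex p u 0) ?_ fun a =>
    (DD_Af p a).mul (DD.zpow _)
  have h1 : (2 : ℤ) ≤ p := by exact_mod_cast hp2
  have h2 : (2 : ℤ) ≤ u := by exact_mod_cast hu
  unfold ex
  nlinarith

theorem Z3_dual (p u c : ℕ) [Fact p.Prime] (hp : 3 ≤ p) (hc : 2 ≤ c) :
    Dual (Z3 p u c) (Z3 p u c) := by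
  refine Zfin_dual ?_ fun s hs => Z3_inv p u c hp hc hs
  have h1 : (3 : ℤ) ≤ p := by exact_mod_cast hp
  have hneg : ∀ u : ℕ, 2 ≤ u → ex p u 0 ≠ 0 := by
    intro u hu
    have h2 : (2 : ℤ) ≤ u := by exact_mod_cast hu
    unfold ex
    nlinarith
  have hneg2 : ∀ u v : ℕ, 4 ≤ u + v → ex p u 0 + ex p v 0 ≠ 0 := by
    intro u v huv
    have h3 : (4 : ℤ) ≤ u + v := by exact_mod_cast huv
    unfold ex
    nlinarith
  have g1 : 6 ≤ p * c := Nat.mul_le_mul hp hc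
  have g2 : 4 ≤ (p - 1) * c := Nat.mul_le_mul (show 2 ≤ p - 1 by omega) hc
  refine DD.add (DD.add ?_ ?_) ?_
  · exact DD_S2 p (fun s => Cf p (p * c) u (fun _ _ _ => 1) s) _ _ (hneg _ (by omega))
      (hneg2 _ _ (by omega)) fun a b => DD_Cf p _ _ _ a b Zfin_one
  · exact DD_S2 p (fun s => Cf p (u + (p - 1) * c) c (fun _ _ _ => 1) s) _ _
      (hneg _ (by omega)) (hneg2 _ _ (by omega)) fun a b => DD_Cf p _ _ _ a b Zfin_one
  · exact DD_S1 p (fun s a => Cf p (u + p * c) 0 (fun _ _ _ => 1) s a a) _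
      (hneg2 _ _ (by omega)) fun a => DD_Cf p _ _ _ a a Zfin_one

theorem Z4_dual (p c : ℕ) [Fact p.Prime] (hp : 3 ≤ p) (hc : 2 ≤ c) (w : Line p → ℕ) :
    Dual (Z4 p c w) (Z4 p c w) := by
  refine Zfin_dual ?_ fun s hs => Z4_inv p c hp hc w hs
  have hr : rr p c ≠ 0 := by
    have := Zfin_rr hp hc
    omega
  have h2 := Zfin_two hp hc
  have e1 := fun u => Zfin_exrr hp hc u
  have e2 := fun u => Zfin_exry hp hc u
  have hZc : ∀ u v, DD fun s => Zc p c u v s := by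
    intro u v
    have a1 := e1 u
    have a2 := e2 v
    have a3 := e1 v
    refine DD.add ?_ ?_
    · exact DD_S2 p (fun s => Cf p u v (Ja p c) s) _ _ (by omega) (by omega)
        fun a b => DD_Cf p _ _ _ a b (DD_Ja p c h2 a b)
    · exact DD_S2 p (fun s => Cf p u v (Jb p c) s) _ _ (by omega) (by omega)
        fun a b => DD_Cf p _ _ _ a b (DD_Jb p c h2 hr a b)
  have hZd : DD fun s => Zd p c (tw w) s := by
    have a1 := e1 (tw w)
    have a2 := e2 0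
    have a3 := e1 0
    refine DD.add ?_ ?_
    · exact DD_S1 p (fun s a => Cf p (tw w) 0 (Ja p c) s a a) _ (by omega)
        fun a => DD_Cf p _ _ _ a a (DD_Ja p c h2 a a)
    · exact DD_S1 p (fun s a => Cf p (tw w) 0 (Jb p c) s a a) _ (by omega)
        fun a => DD_Cf p _ _ _ a a (DD_Jb p c h2 hr a a)
  have hpc : DD fun _ => (p : ℝ) := (DD.const p).congr fun _ _ _ => by push_cast; rfl
  exact DD.add (DD.sum Finset.univ (fun l s => Zc p c (tw w - w l) (w l) s) fun l _ => hZc _ _)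
    (((DD.zpow 2).sub hpc).mul DD.inv_sq |>.mul hZd)

end Pool.Agent.Helper10.HS
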