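import Pool.Agent.Helper10.HS.Total
import Pool.Agent.Helper10.HS.Zfin

/-!
# Project HS, piece Main

`two_le_cN`: by faithfulness some `B s` does not contain the centre `{(0, 0, z)}` (otherwise the
central element `(0, 0, 1) ≠ 1` would lie in all conjugates). For a subgroup `H` that does not contain
the centre `Z` (order `p`, prime), `H ∩ Z = 1`, so `H` is abelian (commutators are central and in
`H`); `(x, y) ↦` the image of `H` in `𝔽_p²` is injective on `H`, and its image does not contain two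
linearly independent vectors `(x, y)`, `(x', y')` since the commutator of the elements is
`(0, 0, x y' - x' y)`. So `card H ≤ p`, `p / card H ≥ 1` and `cN ≥ p - 1 ≥ 2`.

`Tot_dual`: with `Z1_dual`, `Z3_dual`, `Z4_dual`, `Dual.add`, `Dual.mul`, `Dual.sum`, `Dual.zpow`: the
functions `s ^ (2 d - κ) Z s` and `s ^ (κ - 2 d) Z s` are dual.

`main`: `q = p ^ r`, `s = √q`; `(p ^ r : ℝ≥0∞) ^ (d - v) = ofReal (s ^ (2 d - 2 v))`, which is
`WE B (fun κ => 2 d - κ) s`, and `q ^ (codV - v) = WE B (fun κ => κ) s`; `total` with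
`k = GaloisField p r` and `φ` from `IsAlgClosed.lift`. Finally `Tot B (fun κ => κ) s =
s ^ (2 d) * Tot B (fun κ => κ - 2 d) s`.
-/

namespace Pool.Agent.Helper10.HS

open scoped ENNReal
open Pool.Agent.WD Polynomial

variable {p : ℕ} [Fact p.Prime] {m : ℕ} (B : Fin m → Subgroup (Heis p))

private theorem central_mk (z : ZMod p) : (⟨0, 0, z⟩ : Heis p) ∈ Subgroup.center (Heis p) := by
  rw [Subgroup.mem_center_iff]
  intro g
  ext
  · simp
  · simp
  · simp [add_comm]

private theorem pow_mk (z : ZMod p) (n : ℕ) : (⟨0, 0, z⟩ : Heis p) ^ n = ⟨0, 0, n * z⟩ := by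
  induction n with
  | zero => ext <;> simp
  | succ n ih =>
    rw [pow_succ, ih]
    ext
    · simp
    · simp
    · simp
      ring

private theorem z_eq_zero {H : Subgroup (Heis p)} (hH : ¬ Subgroup.center (Heis p) ≤ H)
    {h : Heis p} (hh : h ∈ H) (hx : h.x = 0) (hy : h.y = 0) : h.z = 0 := by
  by_contra hz
  apply hH
  intro c hc
  rw [Subgroup.mem_center_iff] at hc
  have h1 := congrArg Heis.z (hc ⟨1, 0, 0⟩)
  have h2 := congrArg Heis.z (hc ⟨0, 1, 0⟩)
  simp only [Heis.mul_z] at h1 h2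
  have cx : c.x = 0 := by linear_combination -h2
  have cy : c.y = 0 := by linear_combination h1
  have e : h = ⟨0, 0, h.z⟩ := by
    ext
    · exact hx
    · exact hy
    · rfl
  have e2 : c = h ^ (c.z * h.z⁻¹).val := by
    rw [e, pow_mk, ZMod.natCast_zmod_val]
    ext
    · exact cx
    · exact cy
    · show c.z = c.z * h.z⁻¹ * h.z
      field_simp
  rw [e2]
  exact H.pow_mem hh _

private theorem exists_inj {H : Subgroup (Heis p)} (hH : ¬ Subgroup.center (Heis p) ≤ H) :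
    ∃ f : H → ZMod p, Function.Injective f := by
  by_cases h0 : ∀ h ∈ H, h.x = 0
  · refine ⟨fun h => h.1.y, fun a b hab => ?_⟩
    have hab' : a.1.y = b.1.y := hab
    have ha := h0 _ a.2
    have hb := h0 _ b.2
    have h1 := z_eq_zero hH (H.mul_mem (H.inv_mem a.2) b.2) (by simp [ha, hb]) (by simp [hab'])
    apply Subtype.ext
    ext
    · rw [ha, hb]
    · exact hab'
    · simp only [Heis.mul_z, Heis.inv_z, Heis.inv_x, ha] at h1
      linear_combination -h1
  · push Not at h0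
    obtain ⟨k, hk, hkx⟩ := h0
    have key : ∀ h ∈ H, h.y = h.x * (k.y / k.x) := by
      intro h hh
      have h1 := z_eq_zero hH (H.mul_mem (H.mul_mem (H.mul_mem hk hh) (H.inv_mem hk))
        (H.inv_mem hh)) (by simp) (by simp)
      simp only [Heis.mul_z, Heis.inv_z, Heis.inv_y, Heis.mul_x, Heis.inv_x] at h1
      field_simp
      linear_combination h1
    refine ⟨fun h => h.1.x, fun a b hab => ?_⟩
    have hab' : a.1.x = b.1.x := hab
    have hy : a.1.y = b.1.y := by rw [key _ a.2, key _ b.2, hab']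
    have h1 := z_eq_zero hH (H.mul_mem (H.inv_mem a.2) b.2) (by simp [hab']) (by simp [hy])
    apply Subtype.ext
    ext
    · exact hab'
    · exact hy
    · simp only [Heis.mul_z, Heis.inv_z, Heis.inv_x] at h1
      rw [← hy] at h1
      linear_combination -h1

private theorem multF_pos {H : Subgroup (Heis p)} (hH : ¬ Subgroup.center (Heis p) ≤ H) :
    1 ≤ multF H := by
  obtain ⟨f, hf⟩ := exists_inj hH
  have hfin : Finite H := Finite.of_injective f hf
  have h1 : Nat.card H ≤ p := by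
    have := Nat.card_le_card_of_injective f hf
    rwa [Nat.card_zmod] at this
  rw [multF, if_neg hH]
  exact Nat.div_pos h1 Nat.card_pos

theorem two_le_cN (hp : 3 ≤ p) (hB : Faithful B) : 2 ≤ cN B := by
  obtain ⟨s, hs⟩ : ∃ s, ¬ Subgroup.center (Heis p) ≤ B s := by
    by_contra h
    push Not at h
    have h1 : (⟨0, 0, 1⟩ : Heis p) = 1 := by
      apply hB
      intro s x
      apply h s
      have h2 := (Subgroup.mem_center_iff.1 (central_mk (p := p) 1)) x
      rw [h2, mul_assoc, mul_inv_cancel, mul_one]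
      exact central_mk 1
    have h3 := congrArg Heis.z h1
    exact one_ne_zero h3
  have h1 := multF_pos hs
  calc 2 ≤ 1 * (p - 1) := by omega
    _ ≤ multF (B s) * (p - 1) := Nat.mul_le_mul_right _ h1
    _ ≤ cN B := Finset.single_le_sum (f := fun s => multF (B s) * (p - 1))
        (fun _ _ => Nat.zero_le _) (Finset.mem_univ s)

theorem Tot_dual (hp : 3 ≤ p) (hc : 2 ≤ cN B) (d : ℕ) :
    Dual (Tot B fun κ => 2 * d - κ) (Tot B fun κ => κ - 2 * d) := by
  have hz : ∀ κ : ℕ, Dual (fun s => s ^ (2 * (d : ℤ) - κ)) (fun s => s ^ ((κ : ℤ) - 2 * d)) := by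
    intro κ
    refine (Dual.zpow (2 * (d : ℤ) - κ)).congr (fun _ _ => rfl) fun q _ => ?_
    rw [neg_sub]
  have hp1 : 1 ≤ p - 1 := by omega
  have h1 : ∀ x : ℕ, 2 ≤ x + cN B * (p - 1) := by
    intro x
    have : cN B * 1 ≤ cN B * (p - 1) := Nat.mul_le_mul_left _ hp1
    omega
  have h2 : 2 ≤ cN B * p := by
    have : cN B * 1 ≤ cN B * p := Nat.mul_le_mul_left _ (by omega)
    omega
  unfold Tot
  have k1 := (hz 0).add ((hz (cN B * p)).mul (Z1_dual p (cN B * p) h2))
  have k2 := Dual.sum Finset.univ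
    (fun (L : Line p) (s : ℝ) => s ^ (2 * (d : ℤ) - ((wl B L + cN B * (p - 1) : ℕ) : ℤ)) *
      Z1 p (wl B L + cN B * (p - 1)) s + s ^ (2 * (d : ℤ) - ((wl B L + cN B * p : ℕ) : ℤ)) *
      Z3 p (wl B L) (cN B) s)
    (fun (L : Line p) (s : ℝ) => s ^ (((wl B L + cN B * (p - 1) : ℕ) : ℤ) - 2 * (d : ℤ)) *
      Z1 p (wl B L + cN B * (p - 1)) s + s ^ (((wl B L + cN B * p : ℕ) : ℤ) - 2 * (d : ℤ)) *
      Z3 p (wl B L) (cN B) s)
    (fun L _ => ((hz _).mul (Z1_dual p _ (h1 _))).add ((hz _).mul (Z3_dual p _ _ hp hc)))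
  have k3 := (hz (tw (w4 B) + cN B * p)).mul (Z4_dual p (cN B) hp hc (w4 B))
  exact (k1.add k2).add k3

theorem main (hp : 3 ≤ p) (hB : Faithful B) :
    ∃ P Q : ℤ[X], (∀ x : ℝ, 0 < x → x ≠ 1 → aeval x Q ≠ 0) ∧
      ∀ (F : Type) [Field F] [CharP F p] [IsAlgClosed F], ∀ r : ℕ, 0 < r →
        Mst F B r = ENNReal.ofReal (aeval (Real.sqrt (p ^ r)) P / aeval (Real.sqrt (p ^ r)) Q) ∧
        Mo F B r = ENNReal.ofReal ((p : ℝ) ^ (r * dimV B) *
          (aeval (Real.sqrt (p ^ r))⁻¹ P / aeval (Real.sqrt (p ^ r))⁻¹ Q)) := by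
  have hc := two_le_cN B hp hB
  obtain ⟨P, Q, hQ, hPQ⟩ := Tot_dual B hp hc (dimV B)
  refine ⟨P, Q, hQ, ?_⟩
  intro F _ _ _ r hr
  have hp0 : (0 : ℝ) < p := by exact_mod_cast (Fact.out : p.Prime).pos
  have hp1 : (1 : ℝ) < p := by exact_mod_cast (Fact.out : p.Prime).one_lt
  have hpr : (0 : ℝ) < (p : ℝ) ^ r := pow_pos hp0 r
  obtain ⟨s, hs⟩ : ∃ s : ℝ, s = Real.sqrt (p ^ r) := ⟨_, rfl⟩
  have hq : s ^ 2 = (p : ℝ) ^ r := by
    rw [hs, Real.sq_sqrt hpr.le]
  have hs1 : 1 < s := by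
    rw [hs]
    refine Real.lt_sqrt_of_sq_lt ?_
    rw [one_pow]
    exact one_lt_pow₀ hp1 hr.ne'
  have hs0 : 0 < s := by linarith
  rw [← hs]
  have : Fintype (GaloisField p r) := Fintype.ofFinite _
  have hk : Fintype.card (GaloisField p r) = p ^ r := by
    rw [← Nat.card_eq_fintype_card]
    exact GaloisField.card p r hr.ne'
  have : CharP (GaloisField p r) p := charP_of_injective_algebraMap
    (algebraMap (ZMod p) (GaloisField p r)).injective p
  let _ : Algebra (ZMod p) F := ZMod.algebra F p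
  let φ : GaloisField p r →+* F :=
    (IsAlgClosed.lift (R := ZMod p) (S := GaloisField p r) (M := F)).toRingHom
  have hw : ∀ x : ℝ, ((p : ℝ≥0∞) ^ r) ^ x = ENNReal.ofReal (s ^ (2 * x)) := by
    intro x
    have h1 : ((p : ℝ≥0∞) ^ r) = ENNReal.ofReal (s ^ 2) := by
      rw [hq, ENNReal.ofReal_pow hp0.le, ENNReal.ofReal_natCast]
    rw [h1, ENNReal.ofReal_rpow_of_pos (by positivity), ← Real.rpow_natCast,
      ← Real.rpow_mul hs0.le]
    norm_num
  have t1 := total (F := F) B hp hc (fun κ => 2 * (dimV B : ℤ) - κ) s hs1 r hr hq hk φ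
  have t2 := total (F := F) B hp hc (fun κ => (κ : ℤ)) s hs1 r hr hq hk φ
  have e1 : Mst F B r = ENNReal.ofReal (Tot B (fun κ => 2 * (dimV B : ℤ) - κ) s) := by
    rw [← t1]
    unfold Mst WE
    refine tsum_congr fun x => ?_
    rw [hw]
    congr 2
    push_cast
    ring
  have e2 : Mo F B r = ENNReal.ofReal (Tot B (fun κ => (κ : ℤ)) s) := by
    rw [← t2]
    unfold Mo WE
    refine tsum_congr fun x => ?_
    rw [hw]
    congr 2
    push_cast
    ring
  have e3 : Tot B (fun κ => (κ : ℤ)) s =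
      (p : ℝ) ^ (r * dimV B) * Tot B (fun κ => (κ : ℤ) - 2 * (dimV B : ℤ)) s := by
    have h1 : ∀ x : ℤ, s ^ x = (p : ℝ) ^ (r * dimV B) * s ^ (x - 2 * (dimV B : ℤ)) := by
      intro x
      have h2 : (p : ℝ) ^ (r * dimV B) = s ^ (2 * (dimV B : ℤ)) := by
        rw [pow_mul, ← hq, ← pow_mul, ← zpow_natCast]
        push_cast
        rfl
      rw [h2, ← zpow_add₀ hs0.ne']
      congr 1
      ring
    unfold Tot
    simp only
    rw [h1 ((0 : ℕ) : ℤ), h1 ((cN B * p : ℕ) : ℤ), h1 ((tw (w4 B) + cN B * p : ℕ) : ℤ)]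
    have h3 : ∀ L : Line p, (s ^ ((wl B L + cN B * (p - 1) : ℕ) : ℤ) *
        Z1 p (wl B L + cN B * (p - 1)) s + s ^ ((wl B L + cN B * p : ℕ) : ℤ) *
        Z3 p (wl B L) (cN B) s) = (p : ℝ) ^ (r * dimV B) *
        (s ^ (((wl B L + cN B * (p - 1) : ℕ) : ℤ) - 2 * (dimV B : ℤ)) *
        Z1 p (wl B L + cN B * (p - 1)) s + s ^ (((wl B L + cN B * p : ℕ) : ℤ) -
        2 * (dimV B : ℤ)) * Z3 p (wl B L) (cN B) s) := by
      intro L
      rw [h1 ((wl B L + cN B * (p - 1) : ℕ) : ℤ), h1 ((wl B L + cN B * p : ℕ) : ℤ)]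
      ring
    rw [Finset.sum_congr rfl fun L _ => h3 L, ← Finset.mul_sum]
    ring
  obtain ⟨e4, e5⟩ := hPQ s hs1
  constructor
  · rw [e1]
    exact congrArg ENNReal.ofReal e4
  · rw [e2, e3]
    exact congrArg (fun x => ENNReal.ofReal ((p : ℝ) ^ (r * dimV B) * x)) e5

end Pool.Agent.Helper10.HS
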