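import Pool.Agent.Helper10.HS.Adp
import Pool.Agent.Helper10.HS.Emb

/-!
# Project HS, piece Orb: the sum over the stable isomorphism classes

`stable_iff`: `frob r` maps isomorphic torsors to isomorphic torsors (`frobP_add`, `frobP_nsmul`), so
`Stable r ⟦t⟧` (with the representative `⟦t⟧.out`) iff `frob r t` is isomorphic to `t`, and this is
`StT r t`: here `frobP r t.1 = t.1` and `frobP r t.2.1 = t.2.1`.

`card_class`: the class of `t = (f, g, h)` is `{(f, g, h + a f + b g)}`; `(a, b) ↦ a f + b g` is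
injective if `Indep t`; if `f = g = 0` the class has one element; otherwise the span of `f`, `g` is
`𝔽_p e`, `e = gen t` and the class is `{(f, g, h + c e) : c ∈ 𝔽_p}`.

`sum_stable`: group the `t` with `StT r t` by their classes: `∑' t = ∑' x, ∑' t in the class x`, and
the inner sum is `card * (W / card)` (use `Equiv.sigmaFiberEquiv` for `t ↦ ⟦t⟧`,
`ENNReal.tsum_sigma'`, `orbN` is constant on classes; `orbN ≠ 0`, `≠ ⊤`).

`sum_ind`: `((a, b), t) ↦ (f, g, h + ρ a • f + ρ b • g)`, `(f, g, h) = mapT φ t`, is a bijection from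
`(ZMod p × ZMod p) × {t : Tor p k // Indep t}` to `{t : Tor p F // StT r t ∧ Indep t}`: if
`frob r t' = (f', g', h' + a f' + b g')`, then `h' - ρ a • f' - ρ b • g'` is fixed by `frobP r`
(`frobP_smul`), so it and `f'`, `g'` come from `k` (`exists_frobP`); `a`, `b` are unique by
independence. `W` is the same for all `(a, b)`.

`sum_dep`: `vec L e` are the values `(f, g)` of the torsors whose span of `f`, `g` is `𝔽_p e`,
`e = gen t`; every `t ≠ (0, 0, *)` with `¬ Indep t` has `(t.1, t.2.1) = vec L (gen t)` for exactly one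
`L`; `frob r t = t + c e` for exactly one `c : ZMod p`, and `h - ρ c • e` is fixed.
-/

namespace Pool.Agent.Helper10.HS

open scoped ENNReal

variable {p : ℕ} [Fact p.Prime] {k F : Type} [Field k] [Field F] [CharP k p] [CharP F p]

/-- the isomorphism class of `t` is stable under the Frobenius -/
def StT (r : ℕ) (t : Tor p F) : Prop :=
  ∃ a b : ZMod p, frob r t = (t.1, t.2.1, t.2.2 + a.val • t.1 + b.val • t.2.1)

open Classical in
/-- the size of the isomorphism class -/
noncomputable def orbN (t : Tor p F) : ℕ :=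
  if Indep t then p ^ 2 else if t.1 = 0 ∧ t.2.1 = 0 then 1 else p

private theorem ho1_frob_iso (r : ℕ) {t t' : Tor p F} (h : (isoS p F).r t t') :
    (isoS p F).r (frob r t) (frob r t') := by
  obtain ⟨h1, h2, a, b, h3⟩ := h
  refine ⟨congrArg (frobP r) h1, congrArg (frobP r) h2, a, b, ?_⟩
  change frobP r t'.2.2 = frobP r t.2.2 + a.val • frobP r t.1 + b.val • frobP r t.2.1
  rw [h3, frobP_add, frobP_add, frobP_nsmul, frobP_nsmul]

theorem stable_iff (r : ℕ) (t : Tor p F) :
    Stable r (Quotient.mk (isoS p F) t) ↔ StT r t := by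
  have h1 : (isoS p F).r (Quotient.mk (isoS p F) t).out t :=
    Quotient.exact (Quotient.out_eq (Quotient.mk (isoS p F) t))
  have h2 := ho1_frob_iso r h1
  have h3 : Quotient.mk (isoS p F) (frob r (Quotient.mk (isoS p F) t).out) =
      Quotient.mk (isoS p F) (frob r t) := Quotient.sound h2
  unfold Stable
  rw [h3]
  constructor
  · intro h
    have h4 : (isoS p F).r t (frob r t) := (isoS p F).symm (Quotient.exact h)
    obtain ⟨h5, h6, a, b, h7⟩ := h4
    exact ⟨a, b, Prod.ext h5 (Prod.ext h6 h7)⟩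
  · rintro ⟨a, b, h⟩
    have h4 : (isoS p F).r t (frob r t) := by
      rw [h]
      exact ⟨rfl, rfl, a, b, rfl⟩
    exact (Quotient.sound h4).symm

private theorem ho1_val (a : ZMod p) (f : Par p F) :
    a.val • f = (ZMod.castHom (dvd_refl p) F a) • f := by
  rw [← Nat.cast_smul_eq_nsmul F, ZMod.castHom_apply, ZMod.natCast_val]

private theorem ho1_sub_smul (a b : F) (f : Par p F) : (a - b) • f = a • f - b • f :=
  par_ext fun i => by rw [par_smul, par_sub, par_smul, par_smul, sub_mul]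

private theorem ho1_val_inj {e : Par p F} (he : e ≠ 0) {a b : ZMod p}
    (h : a.val • e = b.val • e) : a = b := by
  rw [ho1_val, ho1_val] at h
  have h1 : (ZMod.castHom (dvd_refl p) F (a - b)) • e = 0 := by
    refine par_ext fun i => ?_
    have h2 := congrArg (fun f : Par p F => f.1 i) h
    simp only [par_smul] at h2
    rw [par_smul, map_sub, sub_mul, h2, sub_self, par_zero]
  have h2 := (smul_eq_zero.1 h1).resolve_right he
  have h3 := (map_eq_zero (ZMod.castHom (dvd_refl p) F)).1 h2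
  exact sub_eq_zero.1 h3

private theorem ho1_class (t : Tor p F) : {t' | (isoS p F).r t t'} =
    Set.range fun ab : ZMod p × ZMod p =>
      ((t.1, t.2.1, t.2.2 + ab.1.val • t.1 + ab.2.val • t.2.1) : Tor p F) := by
  ext t'
  constructor
  · rintro ⟨h1, h2, a, b, h3⟩
    exact ⟨(a, b), (Prod.ext h1 (Prod.ext h2 h3) :
      t' = (t.1, t.2.1, t.2.2 + a.val • t.1 + b.val • t.2.1)).symm⟩
  · rintro ⟨⟨a, b⟩, rfl⟩
    exact ⟨rfl, rfl, a, b, rfl⟩

private theorem ho1_range {t : Tor p F} (hI : ¬ Indep t) (h0 : ¬ (t.1 = 0 ∧ t.2.1 = 0)) :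
    gen t ≠ 0 ∧ (Set.range fun ab : ZMod p × ZMod p =>
      ((t.1, t.2.1, t.2.2 + ab.1.val • t.1 + ab.2.val • t.2.1) : Tor p F)) =
    Set.range fun c : ZMod p => ((t.1, t.2.1, t.2.2 + c.val • gen t) : Tor p F) := by
  by_cases h1 : t.1 = 0
  · have h2 : t.2.1 ≠ 0 := fun h => h0 ⟨h1, h⟩
    have h3 : gen t = t.2.1 := if_pos h1
    rw [h3]
    refine ⟨h2, ?_⟩
    ext t'
    constructor
    · rintro ⟨⟨a, b⟩, rfl⟩
      refine ⟨b, ?_⟩
      change ((t.1, t.2.1, t.2.2 + b.val • t.2.1) : Tor p F) =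
        (t.1, t.2.1, t.2.2 + a.val • t.1 + b.val • t.2.1)
      rw [h1, smul_zero, add_zero]
    · rintro ⟨b, rfl⟩
      refine ⟨(0, b), ?_⟩
      change ((t.1, t.2.1, t.2.2 + (0 : ZMod p).val • t.1 + b.val • t.2.1) : Tor p F) =
        (t.1, t.2.1, t.2.2 + b.val • t.2.1)
      rw [ZMod.val_zero, zero_smul, add_zero]
  · have h3 : gen t = t.1 := if_neg h1
    rw [h3]
    refine ⟨h1, ?_⟩
    obtain ⟨⟨x, y⟩, hψ, hl⟩ : ∃ ψ : ZMod p × ZMod p, ψ ≠ 0 ∧ lin ψ t = 0 := by
      by_contra! h
      exact hI h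
    have hl' : (ZMod.castHom (dvd_refl p) F x) • t.1 + (ZMod.castHom (dvd_refl p) F y) • t.2.1 =
        0 := by
      rw [← ho1_val, ← ho1_val]
      exact hl
    have hy : y ≠ 0 := by
      rintro rfl
      rw [map_zero, zero_smul, add_zero] at hl'
      have h4 := (smul_eq_zero.1 hl').resolve_right h1
      have h5 := (map_eq_zero (ZMod.castHom (dvd_refl p) F)).1 h4
      exact hψ (Prod.ext h5 rfl)
    have hy' : (ZMod.castHom (dvd_refl p) F y) ≠ 0 := fun h =>
      hy ((map_eq_zero (ZMod.castHom (dvd_refl p) F)).1 h)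
    have hg : t.2.1 = (ZMod.castHom (dvd_refl p) F (-x * y⁻¹)) • t.1 := by
      have h4 : (ZMod.castHom (dvd_refl p) F y) • t.2.1 =
          (ZMod.castHom (dvd_refl p) F y) • (ZMod.castHom (dvd_refl p) F (-x * y⁻¹)) • t.1 := by
        rw [smul_smul, ← map_mul, mul_comm y, mul_assoc, inv_mul_cancel₀ hy, mul_one, map_neg]
        refine par_ext fun i => ?_
        have h2 := congrArg (fun f : Par p F => f.1 i) hl'
        simp only [par_add, par_smul, par_zero] at h2
        rw [par_smul, par_smul]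
        linear_combination h2
      exact smul_right_injective _ hy' h4
    ext t'
    constructor
    · rintro ⟨⟨a, b⟩, rfl⟩
      refine ⟨a + b * (-x * y⁻¹), ?_⟩
      refine Prod.ext rfl (Prod.ext rfl ?_)
      change t.2.2 + (a + b * (-x * y⁻¹)).val • t.1 = t.2.2 + a.val • t.1 + b.val • t.2.1
      rw [ho1_val, ho1_val, ho1_val b, hg, map_add, map_mul, add_smul, mul_smul, add_assoc]
    · rintro ⟨a, rfl⟩
      refine ⟨(a, 0), ?_⟩
      refine Prod.ext rfl (Prod.ext rfl ?_)
      change t.2.2 + a.val • t.1 + (0 : ZMod p).val • t.2.1 = t.2.2 + a.val • t.1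
      rw [ZMod.val_zero, zero_smul, add_zero]

theorem card_class (t : Tor p F) :
    {t' | (isoS p F).r t t'}.Finite ∧ {t' | (isoS p F).r t t'}.ncard = orbN t := by
  rw [ho1_class]
  refine ⟨Set.finite_range _, ?_⟩
  unfold orbN
  split_ifs with h1 h2
  · rw [Set.ncard_range_of_injective, Nat.card_prod, Nat.card_zmod, sq]
    rintro ⟨a, b⟩ ⟨a', b'⟩ h
    have h3 : t.2.2 + a.val • t.1 + b.val • t.2.1 = t.2.2 + a'.val • t.1 + b'.val • t.2.1 :=
      congrArg (fun z : Tor p F => z.2.2) h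
    rw [ho1_val, ho1_val b, ho1_val a', ho1_val b', add_assoc, add_assoc] at h3
    have h4 := add_left_cancel h3
    have h5 : lin (a - a', b - b') t = 0 := by
      change (a - a').val • t.1 + (b - b').val • t.2.1 = 0
      rw [ho1_val, ho1_val, map_sub, map_sub, ho1_sub_smul, ho1_sub_smul,
        ← sub_eq_zero_of_eq h4]
      abel
    by_contra hne
    refine h1 (a - a', b - b') ?_ h5
    intro h6
    have h7 : a - a' = 0 := congrArg Prod.fst h6
    have h8 : b - b' = 0 := congrArg Prod.snd h6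
    exact hne (Prod.ext (sub_eq_zero.1 h7) (sub_eq_zero.1 h8))
  · have h3 : (Set.range fun ab : ZMod p × ZMod p =>
        ((t.1, t.2.1, t.2.2 + ab.1.val • t.1 + ab.2.val • t.2.1) : Tor p F)) = {t} := by
      ext t'
      constructor
      · rintro ⟨⟨a, b⟩, rfl⟩
        refine Prod.ext rfl (Prod.ext rfl ?_)
        change t.2.2 + a.val • t.1 + b.val • t.2.1 = t.2.2
        rw [h2.1, h2.2, smul_zero, smul_zero, add_zero, add_zero]
      · rintro rfl
        refine ⟨(0, 0), ?_⟩
        refine Prod.ext rfl (Prod.ext rfl ?_)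
        change t'.2.2 + (0 : ZMod p).val • t'.1 + (0 : ZMod p).val • t'.2.1 = t'.2.2
        rw [ZMod.val_zero, zero_smul, zero_smul, add_zero, add_zero]
    rw [h3, Set.ncard_singleton]
  · obtain ⟨h3, h4⟩ := ho1_range h1 h2
    rw [h4, Set.ncard_range_of_injective, Nat.card_zmod]
    intro a b h
    have h5 : t.2.2 + a.val • gen t = t.2.2 + b.val • gen t :=
      congrArg (fun z : Tor p F => z.2.2) h
    exact ho1_val_inj h3 (add_left_cancel h5)

omit [Fact p.Prime] [CharP F p] in
private theorem ho1_indep {t t' : Tor p F} (h1 : t'.1 = t.1) (h2 : t'.2.1 = t.2.1) :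
    Indep t' ↔ Indep t := by
  unfold Indep lin
  rw [h1, h2]

private theorem ho1_orbN {t t' : Tor p F} (h : (isoS p F).r t t') : orbN t' = orbN t := by
  obtain ⟨h1, h2, -⟩ := h
  have hI := ho1_indep h1 h2
  by_cases hI' : Indep t
  · rw [orbN, orbN, if_pos (hI.2 hI'), if_pos hI']
  · rw [orbN, orbN, if_neg (fun h => hI' (hI.1 h)), if_neg hI', h1, h2]

private theorem ho1_orbN_ne (t : Tor p F) : orbN t ≠ 0 := by
  have hp := (Fact.out : p.Prime).ne_zero
  unfold orbN
  split_ifs
  · exact pow_ne_zero 2 hp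
  · exact one_ne_zero
  · exact hp

theorem sum_stable (r : ℕ) (W : Tor p F → ℝ≥0∞)
    (hW : ∀ t t', (isoS p F).r t t' → W t = W t') :
    ∑' x : {x : Delta p F // Stable r x}, W x.1.out =
      ∑' t : {t : Tor p F // StT r t}, W t.1 / (orbN t.1 : ℝ≥0∞) := by
  let π : {t : Tor p F // StT r t} → {x : Delta p F // Stable r x} := fun t =>
    ⟨Quotient.mk (isoS p F) t.1, (stable_iff r t.1).2 t.2⟩
  rw [← (Equiv.sigmaFiberEquiv π).tsum_eq
    (fun t : {t : Tor p F // StT r t} => W t.1 / (orbN t.1 : ℝ≥0∞)), ENNReal.tsum_sigma']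
  refine tsum_congr fun x => ?_
  have hcl : ∀ t : {t : {t : Tor p F // StT r t} // π t = x}, (isoS p F).r x.1.out t.1.1 := by
    intro t
    have h1 : Quotient.mk (isoS p F) t.1.1 = x.1 := congrArg Subtype.val t.2
    exact Quotient.exact ((Quotient.out_eq x.1).trans h1.symm)
  have hconst : ∀ t : {t : {t : Tor p F // StT r t} // π t = x},
      W ((Equiv.sigmaFiberEquiv π) ⟨x, t⟩).1 /
        (orbN ((Equiv.sigmaFiberEquiv π) ⟨x, t⟩).1 : ℝ≥0∞) =
      W x.1.out / (orbN x.1.out : ℝ≥0∞) := by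
    intro t
    change W t.1.1 / (orbN t.1.1 : ℝ≥0∞) = _
    rw [← hW _ _ (hcl t), ho1_orbN (hcl t)]
  rw [tsum_congr hconst, ENNReal.tsum_const]
  have e : {t : {t : Tor p F // StT r t} // π t = x} ≃ {t' | (isoS p F).r x.1.out t'} :=
    { toFun := fun t => ⟨t.1.1, hcl t⟩
      invFun := fun t => by
        have h1 : Quotient.mk (isoS p F) t.1 = x.1 :=
          (Quotient.sound t.2).symm.trans (Quotient.out_eq x.1)
        exact ⟨⟨t.1, (stable_iff r t.1).1 (by rw [h1]; exact x.2)⟩, Subtype.ext h1⟩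
      left_inv := fun t => rfl
      right_inv := fun t => rfl }
  have hfin := (card_class x.1.out).1
  have hcard : ENat.card {t : {t : Tor p F // StT r t} // π t = x} = (orbN x.1.out : ℕ∞) := by
    rw [ENat.card_congr e, ENat.card_coe_set_eq, ← hfin.cast_ncard_eq, (card_class x.1.out).2]
  rw [hcard]
  have h0 : ((orbN x.1.out : ℕ) : ℝ≥0∞) ≠ 0 := Nat.cast_ne_zero.2 (ho1_orbN_ne _)
  have h1 : (((orbN x.1.out : ℕ∞) : ℝ≥0∞)) = ((orbN x.1.out : ℕ) : ℝ≥0∞) := by
    exact ENat.toENNReal_coe _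
  rw [h1]
  exact (ENNReal.mul_div_cancel h0 (ENNReal.natCast_ne_top _)).symm

variable [Fintype k] [IsAlgClosed F]

omit [CharP k p] [Fintype k] [IsAlgClosed F] [Field k] in
private theorem hso_unique {f g : Par p F} (hi : Indep ((f, g, 0) : Tor p F))
    {a b a' b' : ZMod p} (h : a.val • f + b.val • g = a'.val • f + b'.val • g) :
    (a, b) = (a', b') := by
  by_contra hne
  have h1 : ((a - a', b - b') : ZMod p × ZMod p) ≠ 0 := by
    intro h0
    have h2 := congrArg Prod.fst h0
    have h3 := congrArg Prod.snd h0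
    simp only [Prod.fst_zero, Prod.snd_zero] at h2 h3
    exact hne (by rw [sub_eq_zero.1 h2, sub_eq_zero.1 h3])
  apply hi _ h1
  change (a - a').val • f + (b - b').val • g = 0
  have e1 : (a - a').val • f + a'.val • f = a.val • f := by
    rw [← val_add_nsmul, sub_add_cancel]
  have e2 : (b - b').val • g + b'.val • g = b.val • g := by
    rw [← val_add_nsmul, sub_add_cancel]
  have h3 : (a - a').val • f + (b - b').val • g + (a'.val • f + b'.val • g) =
      0 + (a'.val • f + b'.val • g) := by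
    refine (add_add_add_comm ((a - a').val • f) ((b - b').val • g) (a'.val • f)
      (b'.val • g)).trans ?_
    rw [e1, e2, h, zero_add]
  exact add_right_cancel h3

omit [Fintype k] [IsAlgClosed F] [Field k] [CharP k p] in
private theorem hso_frob (r : ℕ) (ρ : ZMod p → F)
    (hρ : ∀ c, ρ c ^ p ^ r = ρ c + (c.val : F)) {f g : Par p F} (hf : frobP r f = f)
    (hg : frobP r g = g) (h : Par p F) (a b : ZMod p) :
    frobP r (h + ρ a • f + ρ b • g) =
      frobP r h + (ρ a • f + ρ b • g) + (a.val • f + b.val • g) := by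
  rw [frobP_add, frobP_add, frobP_smul, frobP_smul, hf, hg, hρ, hρ, add_smul, add_smul,
    Nat.cast_smul_eq_nsmul, Nat.cast_smul_eq_nsmul]
  abel

theorem sum_ind (r : ℕ) (hr : 0 < r) (hk : Fintype.card k = p ^ r) (φ : k →+* F)
    (W : Tor p F → ℝ≥0∞)
    (hW : ∀ t, Indep t → ∀ α β : F, W (t.1, t.2.1, t.2.2 + α • t.1 + β • t.2.1) = W t) :
    ∑' t : {t : Tor p F // StT r t ∧ Indep t}, W t.1 =
      (p : ℝ≥0∞) ^ 2 * ∑' t : {t : Tor p k // Indep t}, W (mapT φ t.1) := by
  obtain ⟨ρ, -, hρ⟩ := exists_as (p := p) (F := F) r hr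
  have hfix : ∀ f : Par p k, frobP r (mapP φ f) = mapP φ f := frobP_mapP r hk φ
  let Θ : (ZMod p × ZMod p) × {t : Tor p k // Indep t} → {t : Tor p F // StT r t ∧ Indep t} :=
    fun x => ⟨(mapP φ x.2.1.1, mapP φ x.2.1.2.1,
        mapP φ x.2.1.2.2 + ρ x.1.1 • mapP φ x.2.1.1 + ρ x.1.2 • mapP φ x.2.1.2.1), by
      refine ⟨⟨x.1.1, x.1.2, ?_⟩, ?_⟩
      · unfold frob
        refine Prod.ext (hfix _) (Prod.ext (hfix _) ?_)
        change frobP r (mapP φ x.2.1.2.2 + ρ x.1.1 • mapP φ x.2.1.1 +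
          ρ x.1.2 • mapP φ x.2.1.2.1) = _
        rw [hso_frob r ρ hρ (hfix _) (hfix _), hfix]
        change _ = mapP φ x.2.1.2.2 + ρ x.1.1 • mapP φ x.2.1.1 + ρ x.1.2 • mapP φ x.2.1.2.1 +
          x.1.1.val • mapP φ x.2.1.1 + x.1.2.val • mapP φ x.2.1.2.1
        abel
      · exact (indep_mapT φ x.2.1).2 x.2.2⟩
  have hΘ : Function.Bijective Θ := by
    constructor
    · rintro ⟨⟨a, b⟩, ⟨⟨f, g, h⟩, hi⟩⟩ ⟨⟨a', b'⟩, ⟨⟨f', g', h'⟩, hi'⟩⟩ heq
      have h0 := congrArg Subtype.val heq
      have h1 : mapP φ f = mapP φ f' := congrArg Prod.fst h0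
      have h2 : mapP φ g = mapP φ g' := congrArg (fun t : Tor p F => t.2.1) h0
      have h3 : mapP φ h + ρ a • mapP φ f + ρ b • mapP φ g =
          mapP φ h' + ρ a' • mapP φ f' + ρ b' • mapP φ g' :=
        congrArg (fun t : Tor p F => t.2.2) h0
      have h1' := mapP_injective φ h1
      have h2' := mapP_injective φ h2
      subst h1' h2'
      have h4 := congrArg (frobP r) h3
      rw [hso_frob r ρ hρ (hfix _) (hfix _), hso_frob r ρ hρ (hfix _) (hfix _), hfix, hfix,
        ← add_assoc (mapP φ h), ← add_assoc (mapP φ h'), h3] at h4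
      have h5 := add_left_cancel h4
      have h6 := hso_unique (f := mapP φ f) (g := mapP φ g)
        ((indep_mapT φ ((f, g, h) : Tor p k)).2 hi) h5
      have h7 : a = a' := congrArg Prod.fst h6
      have h8 : b = b' := congrArg Prod.snd h6
      subst h7 h8
      have h9 := mapP_injective φ (add_right_cancel (add_right_cancel h3))
      subst h9
      rfl
    · rintro ⟨⟨f, g, h⟩, ⟨a, b, hab⟩, hi⟩
      have hf : frobP r f = f := congrArg Prod.fst hab
      have hg : frobP r g = g := congrArg (fun t : Tor p F => t.2.1) hab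
      have hh : frobP r h = h + a.val • f + b.val • g :=
        congrArg (fun t : Tor p F => t.2.2) hab
      obtain ⟨f₀, hf₀⟩ := exists_frobP r hk φ f hf
      obtain ⟨g₀, hg₀⟩ := exists_frobP r hk φ g hg
      set h' : Par p F := h - (ρ a • f + ρ b • g) with hh'
      have e : h = h' + ρ a • f + ρ b • g := by
        rw [hh', add_assoc]
        exact (sub_add_cancel h _).symm
      have h1 : frobP r h' = h' := by
        have h2 := hso_frob r ρ hρ hf hg h' a b
        rw [← e, hh, add_assoc] at h2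
        have h3 := add_right_cancel h2
        rw [e, add_assoc] at h3
        exact (add_right_cancel h3).symm
      obtain ⟨h₀, hh₀⟩ := exists_frobP r hk φ h' h1
      refine ⟨⟨(a, b), ⟨(f₀, g₀, h₀), ?_⟩⟩, ?_⟩
      · rw [← indep_mapT φ]
        change Indep ((mapP φ f₀, mapP φ g₀, mapP φ h₀) : Tor p F)
        rw [← hf₀, ← hg₀]
        exact hi
      · apply Subtype.ext
        change ((mapP φ f₀, mapP φ g₀, mapP φ h₀ + ρ a • mapP φ f₀ + ρ b • mapP φ g₀) :
          Tor p F) = (f, g, h)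
        rw [← hf₀, ← hg₀, ← hh₀, ← e]
  rw [← (Equiv.ofBijective Θ hΘ).tsum_eq]
  have h1 : ∀ x : (ZMod p × ZMod p) × {t : Tor p k // Indep t},
      W (Equiv.ofBijective Θ hΘ x).1 = W (mapT φ x.2.1) := by
    intro x
    exact hW (mapT φ x.2.1) ((indep_mapT φ x.2.1).2 x.2.2) (ρ x.1.1) (ρ x.1.2)
  simp only [h1]
  rw [ENNReal.tsum_prod (f := fun _ (t : {t : Tor p k // Indep t}) => W (mapT φ t.1)),
    tsum_fintype, Finset.sum_const, Finset.card_univ, Fintype.card_prod, ZMod.card,
    nsmul_eq_mul, pow_two]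
  push_cast
  rfl

theorem sum_zero (r : ℕ) (hk : Fintype.card k = p ^ r) (φ : k →+* F) (W : Tor p F → ℝ≥0∞) :
    ∑' t : {t : Tor p F // StT r t ∧ t.1 = 0 ∧ t.2.1 = 0}, W t.1 =
      ∑' h : Par p k, W (0, 0, mapP φ h) := by
  have hfix : ∀ f : Par p k, frobP r (mapP φ f) = mapP φ f := frobP_mapP r hk φ
  have hz : frobP r (0 : Par p F) = 0 := by
    have h1 := hfix 0
    rwa [mapP_zero] at h1
  let Θ : Par p k → {t : Tor p F // StT r t ∧ t.1 = 0 ∧ t.2.1 = 0} :=
    fun h => ⟨(0, 0, mapP φ h), by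
      refine ⟨⟨0, 0, ?_⟩, rfl, rfl⟩
      unfold frob
      refine Prod.ext hz (Prod.ext hz ?_)
      change frobP r (mapP φ h) = mapP φ h + (0 : ZMod p).val • (0 : Par p F) +
        (0 : ZMod p).val • (0 : Par p F)
      rw [smul_zero, add_zero, add_zero, hfix]⟩
  have hΘ : Function.Bijective Θ := by
    constructor
    · intro h h' heq
      have h0 := congrArg Subtype.val heq
      exact mapP_injective φ (congrArg (fun t : Tor p F => t.2.2) h0)
    · rintro ⟨⟨f, g, h⟩, ⟨a, b, hab⟩, hf, hg⟩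
      simp only at hf hg
      subst hf hg
      have hh : frobP r h = h + a.val • (0 : Par p F) + b.val • (0 : Par p F) :=
        congrArg (fun t : Tor p F => t.2.2) hab
      rw [smul_zero, smul_zero, add_zero, add_zero] at hh
      obtain ⟨h₀, hh₀⟩ := exists_frobP r hk φ h hh
      refine ⟨h₀, ?_⟩
      apply Subtype.ext
      change ((0, 0, mapP φ h₀) : Tor p F) = (0, 0, h)
      rw [← hh₀]
  rw [← (Equiv.ofBijective Θ hΘ).tsum_eq]
  rfl

/-- the pairs `(f, g)` with generator `e` -/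
noncomputable def vec (L : Line p) (e : Par p F) : Par p F × Par p F :=
  match L with
  | none => (0, e)
  | some c => (e, c.val • e)

omit [Fintype k] [IsAlgClosed F] [Field k] [CharP k p] in
private theorem hsd_frob (r : ℕ) (ρ : ZMod p → F)
    (hρ : ∀ c, ρ c ^ p ^ r = ρ c + (c.val : F)) {e : Par p F} (he : frobP r e = e)
    (h : Par p F) (c : ZMod p) :
    frobP r (h + ρ c • e) = frobP r h + ρ c • e + c.val • e := by
  rw [frobP_add, frobP_smul, he, hρ, add_smul, Nat.cast_smul_eq_nsmul]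
  abel

omit [Fintype k] [IsAlgClosed F] [Field k] [CharP k p] in
private theorem hsd_val_mul (a b : ZMod p) (f : Par p F) :
    (a * b).val • f = a.val • (b.val • f) := by
  rw [ho1_val, ho1_val a, ho1_val b, smul_smul, map_mul]

omit [Fintype k] [IsAlgClosed F] [Field k] [CharP k p] in
private theorem hsd_one (f : Par p F) : (1 : ZMod p).val • f = f := by
  rw [ho1_val, map_one, one_smul]

omit [Fintype k] [IsAlgClosed F] [Field k] [CharP k p] in
private theorem hsd_dep {t : Tor p F} (hI : ¬ Indep t) (h1 : t.1 ≠ 0) :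
    ∃ d : ZMod p, t.2.1 = d.val • t.1 := by
  obtain ⟨⟨x, y⟩, hψ, hl⟩ : ∃ ψ : ZMod p × ZMod p, ψ ≠ 0 ∧ lin ψ t = 0 := by
    by_contra! h
    exact hI h
  have hl' : x.val • t.1 + y.val • t.2.1 = 0 := hl
  have hy : y ≠ 0 := by
    rintro rfl
    rw [ZMod.val_zero, zero_smul, add_zero] at hl'
    have h2 : x = 0 := ho1_val_inj h1 (b := 0) (by rw [hl', ZMod.val_zero, zero_smul])
    exact hψ (Prod.ext h2 rfl)
  refine ⟨-x * y⁻¹, ?_⟩
  have h2 : y⁻¹.val • (x.val • t.1 + y.val • t.2.1) = 0 := by rw [hl', smul_zero]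
  rw [smul_add, ← hsd_val_mul, ← hsd_val_mul, inv_mul_cancel₀ hy, hsd_one] at h2
  have h3 : (-x * y⁻¹).val • t.1 + (y⁻¹ * x).val • t.1 = 0 := by
    rw [← val_add_nsmul]
    have : -x * y⁻¹ + y⁻¹ * x = 0 := by ring
    rw [this, ZMod.val_zero, zero_smul]
  have h4 : (y⁻¹ * x).val • t.1 + t.2.1 = (y⁻¹ * x).val • t.1 + (-x * y⁻¹).val • t.1 := by
    rw [h2, add_comm, h3]
  exact add_left_cancel h4

theorem sum_dep (r : ℕ) (hk : Fintype.card k = p ^ r) (φ : k →+* F)
    (W : Tor p F → ℝ≥0∞) (ρ : ZMod p → F) (hρ : ∀ c, ρ c ^ p ^ r = ρ c + (c.val : F)) :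
    ∑' t : {t : Tor p F // StT r t ∧ ¬Indep t ∧ ¬(t.1 = 0 ∧ t.2.1 = 0)}, W t.1 =
      ∑ L : Line p, ∑' e : {e : Par p k // e ≠ 0}, ∑ c : ZMod p, ∑' h : Par p k,
        W ((vec L (mapP φ e.1)).1, (vec L (mapP φ e.1)).2, mapP φ h + ρ c • mapP φ e.1) := by
  have hfix : ∀ f : Par p k, frobP r (mapP φ f) = mapP φ f := frobP_mapP r hk φ
  have hz : frobP r (0 : Par p F) = 0 := by
    have h1 := hfix 0
    rwa [mapP_zero] at h1
  have hne : ∀ e : {e : Par p k // e ≠ 0}, mapP φ e.1 ≠ 0 := fun e h =>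
    e.2 ((mapP_eq_zero φ e.1).1 h)
  have hmem : ∀ (L : Line p) (e : {e : Par p k // e ≠ 0}) (c : ZMod p) (h : Par p k),
      StT r (((vec L (mapP φ e.1)).1, (vec L (mapP φ e.1)).2,
        mapP φ h + ρ c • mapP φ e.1) : Tor p F) ∧
      ¬Indep (((vec L (mapP φ e.1)).1, (vec L (mapP φ e.1)).2,
        mapP φ h + ρ c • mapP φ e.1) : Tor p F) ∧
      ¬((vec L (mapP φ e.1)).1 = 0 ∧ (vec L (mapP φ e.1)).2 = 0) := by
    intro L e c h
    have hc := hsd_frob r ρ hρ (hfix e.1) (mapP φ h) c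
    rw [hfix] at hc
    rcases L with _ | d
    · refine ⟨⟨0, c, ?_⟩, ?_, fun h0 => hne e h0.2⟩
      · unfold frob
        refine Prod.ext hz (Prod.ext (hfix _) ?_)
        change frobP r (mapP φ h + ρ c • mapP φ e.1) = mapP φ h + ρ c • mapP φ e.1 +
          (0 : ZMod p).val • (0 : Par p F) + c.val • mapP φ e.1
        rw [smul_zero, add_zero, hc]
      · intro hI
        apply hI (1, 0)
        · intro h0
          exact one_ne_zero (congrArg Prod.fst h0)
        · change (1 : ZMod p).val • (0 : Par p F) + (0 : ZMod p).val • mapP φ e.1 = 0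
          rw [smul_zero, ZMod.val_zero, zero_smul, add_zero]
    · refine ⟨⟨c, 0, ?_⟩, ?_, fun h0 => hne e h0.1⟩
      · unfold frob
        refine Prod.ext (hfix _) (Prod.ext ?_ ?_)
        · change frobP r (d.val • mapP φ e.1) = d.val • mapP φ e.1
          rw [frobP_nsmul, hfix]
        · change frobP r (mapP φ h + ρ c • mapP φ e.1) = mapP φ h + ρ c • mapP φ e.1 +
            c.val • mapP φ e.1 + (0 : ZMod p).val • (d.val • mapP φ e.1)
          rw [ZMod.val_zero, zero_smul, add_zero, hc]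
      · intro hI
        apply hI (-d, 1)
        · intro h0
          exact one_ne_zero (congrArg Prod.snd h0)
        · change (-d).val • mapP φ e.1 + (1 : ZMod p).val • (d.val • mapP φ e.1) = 0
          rw [hsd_one, ← val_add_nsmul, neg_add_cancel, ZMod.val_zero, zero_smul]
  let Θ : Line p × {e : Par p k // e ≠ 0} × ZMod p × Par p k →
      {t : Tor p F // StT r t ∧ ¬Indep t ∧ ¬(t.1 = 0 ∧ t.2.1 = 0)} :=
    fun x => ⟨((vec x.1 (mapP φ x.2.1.1)).1, (vec x.1 (mapP φ x.2.1.1)).2,
      mapP φ x.2.2.2 + ρ x.2.2.1 • mapP φ x.2.1.1), hmem x.1 x.2.1 x.2.2.1 x.2.2.2⟩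
  have hΘ : Function.Bijective Θ := by
    constructor
    · rintro ⟨L, e, c, h⟩ ⟨L', e', c', h'⟩ heq
      have h0 := congrArg Subtype.val heq
      have h1 : (vec L (mapP φ e.1)).1 = (vec L' (mapP φ e'.1)).1 :=
        congrArg (fun t : Tor p F => t.1) h0
      have h2 : (vec L (mapP φ e.1)).2 = (vec L' (mapP φ e'.1)).2 :=
        congrArg (fun t : Tor p F => t.2.1) h0
      have h3 : mapP φ h + ρ c • mapP φ e.1 = mapP φ h' + ρ c' • mapP φ e'.1 :=
        congrArg (fun t : Tor p F => t.2.2) h0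
      have hLe : L = L' ∧ e = e' := by
        rcases L with _ | d <;> rcases L' with _ | d'
        · exact ⟨rfl, Subtype.ext (mapP_injective φ h2)⟩
        · exact absurd h1.symm (hne e')
        · exact absurd h1 (hne e)
        · have h4 : e = e' := Subtype.ext (mapP_injective φ h1)
          subst h4
          refine ⟨?_, rfl⟩
          have h5 : d = d' := ho1_val_inj (hne e) h2
          rw [h5]
      obtain ⟨rfl, rfl⟩ := hLe
      have h4 := congrArg (frobP r) h3
      rw [hsd_frob r ρ hρ (hfix _), hsd_frob r ρ hρ (hfix _), hfix, hfix, h3] at h4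
      have h5 : c = c' := ho1_val_inj (hne e) (add_left_cancel h4)
      subst h5
      have h6 := mapP_injective φ (add_right_cancel h3)
      subst h6
      rfl
    · rintro ⟨⟨f, g, h⟩, ⟨a, b, hab⟩, hI, h0⟩
      have hf : frobP r f = f := congrArg Prod.fst hab
      have hg : frobP r g = g := congrArg (fun t : Tor p F => t.2.1) hab
      have hh : frobP r h = h + a.val • f + b.val • g :=
        congrArg (fun t : Tor p F => t.2.2) hab
      -- the fixed vector
      have key : ∀ (e : Par p F) (c : ZMod p), frobP r e = e → frobP r h = h + c.val • e →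
          ∃ h₀ : Par p k, h = mapP φ h₀ + ρ c • e := by
        intro e c he hc
        obtain ⟨h', hh'⟩ : ∃ h' : Par p F, h' + ρ c • e = h := ⟨h - ρ c • e, sub_add_cancel h _⟩
        have h1 : frobP r h' = h' := by
          have h2 := hsd_frob r ρ hρ he h' c
          rw [hh', hc] at h2
          have h3 := add_right_cancel h2
          rw [← hh'] at h3
          exact (add_right_cancel h3).symm
        obtain ⟨h₀, hh₀⟩ := exists_frobP r hk φ _ h1
        exact ⟨h₀, by rw [← hh₀, hh']⟩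
      by_cases hf0 : f = 0
      · subst hf0
        have hg0 : g ≠ 0 := fun h' => h0 ⟨rfl, h'⟩
        obtain ⟨g₀, hg₀⟩ := exists_frobP r hk φ g hg
        rw [smul_zero, add_zero] at hh
        obtain ⟨h₀, hh₀⟩ := key g b hg hh
        have hg₀' : g₀ ≠ 0 := by
          rintro rfl
          exact hg0 (hg₀.trans (mapP_zero φ))
        refine ⟨(none, ⟨g₀, hg₀'⟩, b, h₀), ?_⟩
        apply Subtype.ext
        change ((0, mapP φ g₀, mapP φ h₀ + ρ b • mapP φ g₀) : Tor p F) = (0, g, h)
        rw [← hg₀, ← hh₀]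
      · obtain ⟨d, hd⟩ := hsd_dep hI hf0
        change g = d.val • f at hd
        obtain ⟨f₀, hf₀⟩ := exists_frobP r hk φ f hf
        have hh' : frobP r h = h + (a + b * d).val • f := by
          rw [hh, hd, val_add_nsmul, hsd_val_mul, add_assoc]
        obtain ⟨h₀, hh₀⟩ := key f (a + b * d) hf hh'
        have hf₀' : f₀ ≠ 0 := by
          rintro rfl
          exact hf0 (hf₀.trans (mapP_zero φ))
        refine ⟨(some d, ⟨f₀, hf₀'⟩, a + b * d, h₀), ?_⟩
        apply Subtype.ext
        change ((mapP φ f₀, d.val • mapP φ f₀, mapP φ h₀ + ρ (a + b * d) • mapP φ f₀) :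
          Tor p F) = (f, g, h)
        rw [← hf₀, ← hh₀, ← hd]
  rw [← (Equiv.ofBijective Θ hΘ).tsum_eq, ENNReal.tsum_prod', tsum_fintype]
  refine Finset.sum_congr rfl fun L _ => ?_
  rw [ENNReal.tsum_prod']
  refine tsum_congr fun e => ?_
  rw [ENNReal.tsum_prod', tsum_fintype]
  rfl

end Pool.Agent.Helper10.HS
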