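import Mathlib
import Pool.Agent.Helper10.HS.Grp

/-!
# Permutation representations of the Heisenberg group, definitions

`p` is an odd prime, `G = Heis p` the group of unitriangular `3 × 3` matrices over `𝔽_p`, and
`V` a direct sum of permutation modules `k[G / B_s]`, `B_s ≤ G` arbitrary subgroups. `P` is a group
of Laurent tails (later `Par p F`), `co f` are the coefficients of the element `f` of `P`.
-/

namespace Pool.Agent.Helper10.HS.Slim

noncomputable section

open scoped ENNReal
open Pool.Agent.Helper10.HS (Heis)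

section

variable {F : Type} [Field F]

/-- the pole order (Swan conductor of the Artin-Schreier character of `f`) -/
def sw (f : ℕ →₀ F) : ℕ := f.support.sup id

/-- `∑ a (f_a^(p^n) g_b - g_a^(p^n) f_b)`, the sum over `p^n a + b = m` -/
def comm (p n : ℕ) (f g : ℕ →₀ F) (m : ℕ) : F :=
  ∑ a ∈ (Finset.range (m + 1)).filter (fun a => p ^ n * a ≤ m),
    (a : F) * (f a ^ p ^ n * g (m - p ^ n * a) - g a ^ p ^ n * f (m - p ^ n * a))

/-- The central component of Abrashkin's element `F_γ`, `γ = m / p^n` (its `p^n`-th power). -/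
def ramF (p : ℕ) (f g h : ℕ →₀ F) (n m : ℕ) : F :=
  if n = 0 then (m : F) * h m + comm p 0 f g m / 2 else comm p n f g m

/-- The largest `γ` with `F_γ ≠ 0`: the last upper ramification break of the torsor, if
`f` and `g` are linearly independent over `𝔽_p`. -/
def lastBreak (p : ℕ) (f g h : ℕ →₀ F) : ℝ :=
  sSup {u : ℝ | ∃ n m : ℕ, ramF p f g h n m ≠ 0 ∧ u = m / p ^ n}

end

section

variable {p : ℕ} {F P : Type} [Field F] [AddCommGroup P] (co : P → ℕ →₀ F)

/-- the value `α f + β g` of the linear character `(α, β)` of `G` -/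
def lin (ψ : ZMod p × ZMod p) (t : P × P × P) : P := ψ.1.val • t.1 + ψ.2.val • t.2.1

/-- `f` and `g` are linearly independent over `𝔽_p` (the torsor has the Galois group `G`) -/
def Indep (p : ℕ) (t : P × P × P) : Prop := ∀ ψ : ZMod p × ZMod p, ψ ≠ 0 → lin ψ t ≠ 0

open Classical in
/-- a generator of the `𝔽_p`-span of `f` and `g`, if `f` and `g` are dependent -/
def gen (t : P × P × P) : P := if t.1 = 0 then t.2.1 else t.1

open Classical in
/-- the Artin conductor of the linear character `ψ` -/
def artL (ψ : ZMod p × ZMod p) (t : P × P × P) : ℕ :=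
  if lin ψ t = 0 then 0 else 1 + sw (co (lin ψ t))

open Classical in
/-- The Artin conductor of each of the `p - 1` irreducible characters `ρ` of `G` of degree `p`. If
`f` and `g` are dependent, then `ρ` restricts to the sum of the characters `h + c e`, `e = gen t`,
`c ∈ 𝔽_p`, on the abelian Galois group of the torsor. -/
def artF (p : ℕ) (t : P × P × P) : ℝ :=
  if Indep p t then p * (1 + lastBreak p (co t.1) (co t.2.1) (co t.2.2))
  else ∑ c ∈ Finset.range p,
    if t.2.2 + c • gen t = 0 then (0 : ℝ) else 1 + sw (co (t.2.2 + c • gen t))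

open Classical in
/-- the codimension of the fixed space of the Galois group of the torsor on `ρ` -/
def codF (p : ℕ) (t : P × P × P) : ℕ :=
  if Indep p t then p else ((Finset.range p).filter fun c => t.2.2 + c • gen t ≠ 0).card

/-- the linear character `ψ` is trivial on the subgroup `B` -/
def Trivial (B : Subgroup (Heis p)) (ψ : ZMod p × ZMod p) : Prop :=
  ∀ g ∈ B, ψ.1 * g.x + ψ.2 * g.y = 0

open Classical in
/-- the multiplicity of each irreducible character of degree `p` in `k[G / B]` -/
def multF (B : Subgroup (Heis p)) : ℕ :=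
  if Subgroup.center (Heis p) ≤ B then 0 else p / Nat.card B

variable {m : ℕ} (B : Fin m → Subgroup (Heis p))

/-- `V = ⊕ k[G / B_s]` is a faithful representation -/
def Faithful : Prop := ∀ g : Heis p, (∀ s, ∀ x : Heis p, x * g * x⁻¹ ∈ B s) → g = 1

/-- `dim V` -/
def dimV : ℕ := ∑ s, (B s).index

variable [Fact p.Prime]

open Classical in
/-- Yasuda's function `v`: half of the Artin conductor of `V` -/
def vV (t : P × P × P) : ℝ :=
  (∑ s, ((∑ ψ ∈ Finset.univ.filter (Trivial (B s)), (artL co ψ t : ℝ)) +
    multF (B s) * (p - 1) * artF co p t)) / 2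

open Classical in
/-- the codimension of the fixed space of the Galois group of the torsor on `V` -/
def codV (t : P × P × P) : ℕ :=
  ∑ s, ((∑ ψ ∈ Finset.univ.filter (Trivial (B s)), if lin ψ t = 0 then 0 else 1) +
    multF (B s) * (p - 1) * codF p t)

/-- Isomorphism of torsors: `(f, g, h)` and `(f, g, h + a f + b g)`, `a, b ∈ 𝔽_p`. -/
def Iso (p : ℕ) (t t' : P × P × P) : Prop :=
  t'.1 = t.1 ∧ t'.2.1 = t.2.1 ∧ ∃ a b : ZMod p, t'.2.2 = t.2.2 + a.val • t.1 + b.val • t.2.1

/-- The isomorphism classes of torsors. -/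
abbrev Delta (p : ℕ) (P : Type) [AddCommGroup P] : Type := Quot (Iso (P := P) p)

/-- the classes fixed by `φ` (later the `q`-Frobenius) -/
def Stable (p : ℕ) (φ : P → P) (x : Delta p P) : Prop :=
  Quot.mk (Iso p) (φ x.out.1, φ x.out.2.1, φ x.out.2.2) = x

/-- The number of points of `M_st(V / G) = ∫ L^(d - v)` over the field with `q` elements: the sum of
`q ^ (d - v)` over the classes fixed by the `q`-Frobenius `φ`. -/
def Mst (φ : P → P) (q : ℝ≥0∞) : ℝ≥0∞ :=
  ∑' x : {x : Delta p P // Stable p φ x}, q ^ ((dimV B : ℝ) - vV co B x.1.out)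

/-- The number of points of `M_st(V / G)_o = ∫ L^w`, `w = codim - v`. -/
def Mo (φ : P → P) (q : ℝ≥0∞) : ℝ≥0∞ :=
  ∑' x : {x : Delta p P // Stable p φ x}, q ^ ((codV B x.1.out : ℝ) - vV co B x.1.out)

end

/-- The group of the reduced parts `∑ f_i t^{-i}`, `i ≥ 1` prime to `p`, of Laurent series. -/
def tails (p : ℕ) (F : Type) [Field F] : AddSubgroup (ℕ →₀ F) where
  carrier := {f | ∀ i, p ∣ i → f i = 0}
  add_mem' := by
    intro a b ha hb i hi
    rw [Finsupp.add_apply, ha i hi, hb i hi, add_zero]
  zero_mem' := fun i _ => rfl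
  neg_mem' := by
    intro a ha i hi
    rw [Finsupp.neg_apply, ha i hi, neg_zero]

/-- the elements of this group -/
def Par (p : ℕ) (F : Type) [Field F] : Type := tails p F

instance parGroup (p : ℕ) (F : Type) [Field F] : AddCommGroup (Par p F) :=
  AddSubgroup.toAddCommGroup (tails p F)

section

variable {p : ℕ} {F : Type} [Field F]

/-- the coefficients -/
def coef (f : Par p F) : ℕ →₀ F := f.1

variable [Fact p.Prime]

theorem frob_mem (r : ℕ) (f : Par p F) :
    (coef f).mapRange (fun x => x ^ p ^ r) (zero_pow (pow_ne_zero r (Fact.out : p.Prime).ne_zero))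
      ∈ tails p F := by
  intro i hi
  have h : coef f i = 0 := f.2 i hi
  rw [Finsupp.mapRange_apply, h, zero_pow (pow_ne_zero r (Fact.out : p.Prime).ne_zero)]

/-- the Frobenius `x ↦ x^(p^r)` on the coefficients -/
def frobP (r : ℕ) (f : Par p F) : Par p F :=
  ⟨(coef f).mapRange (fun x => x ^ p ^ r)
    (zero_pow (pow_ne_zero r (Fact.out : p.Prime).ne_zero)), frob_mem r f⟩

end

end

end Pool.Agent.Helper10.HS.Slim
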