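import Pool.Agent.Helper10.HS.Main
import Pool.Agent.Helper10.HS.SDefs

/-!
# The two sets of definitions agree
-/

namespace Pool.Agent.Helper10.HS.Slim

open scoped ENNReal
open Polynomial

theorem filt_card {α : Type} (s : Finset α) (q : α → Prop) (i j : DecidablePred q) :
    (@Finset.filter α q i s).card = (@Finset.filter α q j s).card := by
  rw [Subsingleton.elim i j]

section

variable {p : ℕ} {F : Type} [Field F]

/-- the coefficients -/
abbrev cf (f : HS.Par p F) : ℕ →₀ F := f.1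

theorem lin_eq (ψ : ZMod p × ZMod p) (t : HS.Tor p F) : lin ψ t = HS.lin ψ t := rfl

theorem indep_eq (t : HS.Tor p F) : Indep p t ↔ HS.Indep t := Iff.rfl

theorem gen_eq (t : HS.Tor p F) : gen t = HS.gen t := by
  by_cases h : t.1 = 0
  · exact (if_pos h).trans (if_pos h).symm
  · exact (if_neg h).trans (if_neg h).symm

theorem artL_eq (ψ : ZMod p × ZMod p) (t : HS.Tor p F) : artL cf ψ t = HS.artL ψ t := by
  by_cases h : HS.lin ψ t = 0
  · exact (if_pos h).trans (if_pos h).symm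
  · exact (if_neg h).trans (if_neg h).symm

theorem artF_eq (t : HS.Tor p F) : artF cf p t = HS.artF t := by
  by_cases h : HS.Indep t
  · exact (if_pos h).trans (if_pos h).symm
  · refine (if_neg h).trans (Eq.trans (Finset.sum_congr rfl fun c _ => ?_) (if_neg h).symm)
    rw [gen_eq]
    by_cases h' : t.2.2 + c • HS.gen t = 0
    · exact (if_pos h').trans (if_pos h').symm
    · exact (if_neg h').trans (if_neg h').symm

theorem codF_eq (t : HS.Tor p F) : codF p t = HS.codF t := by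
  by_cases h : HS.Indep t
  · exact (if_pos h).trans (if_pos h).symm
  · refine (if_neg h).trans (Eq.trans ?_ (if_neg h).symm)
    rw [gen_eq]
    exact filt_card _ _ _ _

variable [Fact p.Prime] {m : ℕ} (B : Fin m → Subgroup (Heis p))

theorem vV_eq (t : HS.Tor p F) : vV cf B t = HS.vV B t := by
  unfold vV HS.vV
  refine congrArg (fun x : ℝ => x / 2) (Finset.sum_congr rfl fun s _ => ?_)
  rw [artF_eq]
  refine congrArg₂ (fun x y : ℝ => x + y) (Finset.sum_congr rfl fun ψ _ => ?_) rfl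
  rw [artL_eq]

theorem codV_eq (t : HS.Tor p F) : codV B t = HS.codV B t := by
  unfold codV HS.codV
  refine Finset.sum_congr rfl fun s _ => ?_
  rw [codF_eq]
  refine congrArg₂ (fun x y : ℕ => x + y) (Finset.sum_congr rfl fun ψ _ => ?_) rfl
  by_cases h : HS.lin ψ t = 0
  · exact (if_pos h).trans (if_pos h).symm
  · exact (if_neg h).trans (if_neg h).symm

variable (F) [CharP F p]

theorem mst_eq (r : ℕ) : Mst (P := HS.Par p F) cf B (HS.frobP r) ((p : ℝ≥0∞) ^ r) =
    HS.Mst F B r := by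
  refine tsum_congr (β := {x : HS.Delta p F // HS.Stable r x}) fun x => ?_
  have e := vV_eq B x.1.out
  exact congrArg (fun v : ℝ => ((p : ℝ≥0∞) ^ r) ^ ((HS.dimV B : ℝ) - v)) e

theorem mo_eq (r : ℕ) : Mo (P := HS.Par p F) cf B (HS.frobP r) ((p : ℝ≥0∞) ^ r) =
    HS.Mo F B r := by
  refine tsum_congr (β := {x : HS.Delta p F // HS.Stable r x}) fun x => ?_
  have e := vV_eq B x.1.out
  have e' := codV_eq B x.1.out
  exact congrArg₂ (fun (w : ℕ) (v : ℝ) => ((p : ℝ≥0∞) ^ r) ^ ((w : ℝ) - v)) e' e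

theorem mst_eq' (r : ℕ) : Mst (P := Par p F) coef B (frobP r) ((p : ℝ≥0∞) ^ r) =
    HS.Mst F B r := mst_eq F B r

theorem mo_eq' (r : ℕ) : Mo (P := Par p F) coef B (frobP r) ((p : ℝ≥0∞) ^ r) =
    HS.Mo F B r := mo_eq F B r

end

theorem main (p : ℕ) [Fact p.Prime] (hp : 3 ≤ p) (m : ℕ) (B : Fin m → Subgroup (Heis p))
    (hB : Faithful B) :
    ∃ P Q : ℤ[X], (∀ x : ℝ, 0 < x → x ≠ 1 → aeval x Q ≠ 0) ∧
      ∀ (F : Type) [Field F] [CharP F p] [IsAlgClosed F], ∀ r : ℕ, 0 < r →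
        Mst (coef : Par p F → ℕ →₀ F) B (frobP r) ((p : ℝ≥0∞) ^ r) =
          ENNReal.ofReal (aeval (Real.sqrt (p ^ r)) P / aeval (Real.sqrt (p ^ r)) Q) ∧
        Mo (coef : Par p F → ℕ →₀ F) B (frobP r) ((p : ℝ≥0∞) ^ r) =
          ENNReal.ofReal ((p : ℝ) ^ (r * dimV B) *
            (aeval (Real.sqrt (p ^ r))⁻¹ P / aeval (Real.sqrt (p ^ r))⁻¹ Q)) := by
  obtain ⟨P, Q, h1, h2⟩ := HS.main B hp hB
  refine ⟨P, Q, h1, fun F _ _ _ r hr => ?_⟩
  obtain ⟨h3, h4⟩ := h2 F r hr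
  exact ⟨(mst_eq' F B r).trans h3, (mo_eq' F B r).trans h4⟩

end Pool.Agent.Helper10.HS.Slim
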