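import Pool.Agent.Helper10.HS.Fn

/-!
# Project HS, piece SumA: algebra of the closed forms

`S1_neg`: `F i = F (-(p - i)) * X⁻¹` for `1 ≤ i < p` (use `hF` at `-(p - i)`), reindex the sum by
`i ↦ p - i` (`Finset.sum_bij` or `Finset.sum_nbij'` on `Finset.Ico (1 : ℤ) p`), and
`X⁻¹ * (1 - X⁻¹)⁻¹ = -(1 - X)⁻¹`.

`S2_neg`: in the same way `F i j = F (-(p - i)) (-(p - j)) * X⁻¹ * Y⁻¹`, `i ≤ j` becomes
`p - j ≤ p - i`, and
`X⁻¹ * Y⁻¹ * (if i ≤ j then X⁻¹ else 1) * (1 - X⁻¹)⁻¹ * (1 - X⁻¹ * Y⁻¹)⁻¹ =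
 (if p - i < p - j then X else 1) * (1 - X)⁻¹ * (1 - X * Y)⁻¹` (two cases, `field_simp`).

`S2'_eq`: the two summands differ only for `i = j`, by `F i i * (1 - X)`.
-/

namespace Pool.Agent.Helper10.HS

private theorem sumA_refl (p : ℕ) (f : ℤ → ℝ) :
    ∑ i ∈ Finset.Ico (1 : ℤ) p, f (p - i) = ∑ i ∈ Finset.Ico (1 : ℤ) p, f i := by
  refine Finset.sum_nbij' (fun i => p - i) (fun i => p - i) ?_ ?_ ?_ ?_ ?_
  · intro i hi
    simp only [Finset.mem_Ico] at hi ⊢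
    omega
  · intro i hi
    simp only [Finset.mem_Ico] at hi ⊢
    omega
  · intro i _
    ring
  · intro i _
    ring
  · intro i _
    rfl

theorem S1_neg (p : ℕ) (F : ℤ → ℝ) (X : ℝ) (hX0 : X ≠ 0) (hX1 : X ≠ 1)
    (hF : ∀ a, F (a + p) = F a * X⁻¹) : S1 p F X⁻¹ = -S1 p (fun a => F (-a)) X := by
  unfold S1
  have h1 : ∀ i : ℤ, F i = F (-(p - i)) * X⁻¹ := by
    intro i
    rw [← hF]
    congr 1
    ring
  have h2 : ∑ i ∈ Finset.Ico (1 : ℤ) p, F i =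
      (∑ i ∈ Finset.Ico (1 : ℤ) p, F (-i)) * X⁻¹ := by
    rw [Finset.sum_mul, ← sumA_refl p (fun i => F (-i) * X⁻¹)]
    exact Finset.sum_congr rfl fun i _ => h1 i
  rw [h2]
  have h3 : 1 - X ≠ 0 := fun h => hX1 (by linarith)
  have h4 : 1 - X⁻¹ ≠ 0 := by
    intro h
    apply hX1
    have h5 : X⁻¹ = 1 := by linarith
    exact inv_eq_one.1 h5
  have h5 : X⁻¹ * (1 - X⁻¹)⁻¹ = -(1 - X)⁻¹ := by
    have h6 : X - 1 ≠ 0 := fun h => hX1 (by linarith)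
    rw [← mul_inv, mul_sub, mul_one, mul_inv_cancel₀ hX0, ← inv_neg]
    congr 1
    ring
  rw [mul_assoc, h5]
  ring

private theorem sumA_key (X Y : ℝ) (hX0 : X ≠ 0) (hY0 : Y ≠ 0) (i j : ℤ) :
    X⁻¹ * Y⁻¹ * (if j ≤ i then X⁻¹ else 1) * ((1 - X⁻¹)⁻¹ * (1 - X⁻¹ * Y⁻¹)⁻¹) =
      (if i < j then X else 1) * ((1 - X)⁻¹ * (1 - X * Y)⁻¹) := by
  have a1 : (1 - X⁻¹)⁻¹ = -(X * (1 - X)⁻¹) := by
    have e : 1 - X⁻¹ = -(X⁻¹ * (1 - X)) := by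
      rw [mul_sub, inv_mul_cancel₀ hX0]
      ring
    rw [e, inv_neg, mul_inv, inv_inv]
  have a2 : (1 - X⁻¹ * Y⁻¹)⁻¹ = -(X * Y * (1 - X * Y)⁻¹) := by
    have e : 1 - X⁻¹ * Y⁻¹ = -((X * Y)⁻¹ * (1 - X * Y)) := by
      rw [mul_sub, inv_mul_cancel₀ (mul_ne_zero hX0 hY0), mul_inv]
      ring
    rw [e, inv_neg, mul_inv, inv_inv]
  rw [a1, a2]
  have hx : X⁻¹ * X = 1 := inv_mul_cancel₀ hX0
  have hy : Y⁻¹ * Y = 1 := inv_mul_cancel₀ hY0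
  by_cases h : j ≤ i
  · rw [if_pos h, if_neg (by omega)]
    have : X⁻¹ * Y⁻¹ * X⁻¹ * (-(X * (1 - X)⁻¹) * -(X * Y * (1 - X * Y)⁻¹)) =
        (X⁻¹ * X) * (X⁻¹ * X) * (Y⁻¹ * Y) * ((1 - X)⁻¹ * (1 - X * Y)⁻¹) := by ring
    rw [this, hx, hy]
    ring
  · rw [if_neg h, if_pos (by omega)]
    have : X⁻¹ * Y⁻¹ * 1 * (-(X * (1 - X)⁻¹) * -(X * Y * (1 - X * Y)⁻¹)) =
        (X⁻¹ * X) * (Y⁻¹ * Y) * (X * ((1 - X)⁻¹ * (1 - X * Y)⁻¹)) := by ring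
    rw [this, hx, hy]
    ring

theorem S2_neg (p : ℕ) (F : ℤ → ℤ → ℝ) (X Y : ℝ) (hX0 : X ≠ 0) (hY0 : Y ≠ 0) (hX1 : X ≠ 1)
    (hXY : X * Y ≠ 1) (hX : ∀ a b, F (a + p) b = F a b * X⁻¹)
    (hY : ∀ a b, F a (b + p) = F a b * Y⁻¹) :
    S2 p F X⁻¹ Y⁻¹ = S2' p (fun a b => F (-a) (-b)) X Y := by
  unfold S2 S2'
  have h1 : ∀ i j : ℤ, F i j = F (-(p - i)) (-(p - j)) * (X⁻¹ * Y⁻¹) := by
    intro i j
    have e1 : F i j = F (-(p - i)) j * X⁻¹ := by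
      rw [← hX]
      congr 1
      ring
    have e2 : F (-(p - i)) j = F (-(p - i)) (-(p - j)) * Y⁻¹ := by
      rw [← hY]
      congr 1
      ring
    rw [e1, e2]
    ring
  have h2 : ∑ i ∈ Finset.Ico (1 : ℤ) p, ∑ j ∈ Finset.Ico (1 : ℤ) p,
      F i j * (if i ≤ j then X⁻¹ else 1) =
      ∑ i ∈ Finset.Ico (1 : ℤ) p, ∑ j ∈ Finset.Ico (1 : ℤ) p,
        F (-i) (-j) * (X⁻¹ * Y⁻¹ * (if j ≤ i then X⁻¹ else 1)) := by
    rw [← sumA_refl p (fun i => ∑ j ∈ Finset.Ico (1 : ℤ) p,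
        F (-i) (-j) * (X⁻¹ * Y⁻¹ * (if j ≤ i then X⁻¹ else 1)))]
    refine Finset.sum_congr rfl fun i _ => ?_
    rw [← sumA_refl p (fun j => F (-(p - i)) (-j) * (X⁻¹ * Y⁻¹ *
      (if j ≤ p - i then X⁻¹ else 1)))]
    refine Finset.sum_congr rfl fun j _ => ?_
    rw [h1 i j]
    by_cases h : i ≤ j
    · rw [if_pos h, if_pos (by omega)]
      ring
    · rw [if_neg h, if_neg (by omega)]
      ring
  rw [h2, mul_assoc, mul_assoc, Finset.sum_mul, Finset.sum_mul]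
  refine Finset.sum_congr rfl fun i _ => ?_
  rw [Finset.sum_mul, Finset.sum_mul]
  refine Finset.sum_congr rfl fun j _ => ?_
  rw [mul_assoc, sumA_key X Y hX0 hY0 i j]
  ring

theorem S2'_eq (p : ℕ) (F : ℤ → ℤ → ℝ) (X Y : ℝ) (hX1 : X ≠ 1) :
    S2' p F X Y = S2 p F X Y + S1 p (fun a => F a a) (X * Y) := by
  unfold S2' S2 S1
  have h3 : 1 - X ≠ 0 := fun h => hX1 (by linarith)
  have h1 : ∑ i ∈ Finset.Ico (1 : ℤ) p, ∑ j ∈ Finset.Ico (1 : ℤ) p,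
      F i j * (if i < j then X else 1) =
      ∑ i ∈ Finset.Ico (1 : ℤ) p, ∑ j ∈ Finset.Ico (1 : ℤ) p, F i j * (if i ≤ j then X else 1) +
        (∑ i ∈ Finset.Ico (1 : ℤ) p, F i i) * (1 - X) := by
    rw [Finset.sum_mul, ← Finset.sum_add_distrib]
    refine Finset.sum_congr rfl fun i hi => ?_
    have e : ∑ j ∈ Finset.Ico (1 : ℤ) p, F i j * (if i < j then X else 1) =
        ∑ j ∈ Finset.Ico (1 : ℤ) p, (F i j * (if i ≤ j then X else 1) +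
          if j = i then F i i * (1 - X) else 0) := by
      refine Finset.sum_congr rfl fun j _ => ?_
      rcases lt_trichotomy i j with h | h | h
      · rw [if_pos h, if_pos h.le, if_neg (by omega)]
        ring
      · subst h
        rw [if_neg (lt_irrefl _), if_pos le_rfl, if_pos rfl]
        ring
      · rw [if_neg (by omega), if_neg (by omega), if_neg (by omega)]
        ring
    rw [e, Finset.sum_add_distrib, Finset.sum_ite_eq' _ i, if_pos hi]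
  rw [h1, add_mul, add_mul, mul_assoc (_ : ℝ) (1 - X) ((1 - X)⁻¹), mul_inv_cancel₀ h3, mul_one]

end Pool.Agent.Helper10.HS
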