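import Pool.Agent.Helper10.HS.Fn

/-!
# Project HS, piece SumB: the sums over the integers prime to `p`

`hasSum_S1`: the map `(i, m) ↦ i + p m` is a bijection from `{1, …, p - 1} × ℕ` to the natural
numbers prime to `p` (with `¬ p ∣ a`, `i = a % p`, `m = a / p`), `F (i + p m) = F i * X ^ m`
(induction on `m`), `hasSum_geometric_of_lt_one` and a finite sum (`hasSum_sum`), then transport with
`Equiv.hasSum_iff`.

`hasSum_S2`: `a = i + p m`, `b = j + p n`; `b < a` iff `n ≤ m` if `j < i`, and iff `n + 1 ≤ m` if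
`i ≤ j`. So `m = n + e + l`, `e = if i ≤ j then 1 else 0`, `l ≥ 0`, and
`F a b = F i j * X ^ e * X ^ l * (X * Y) ^ n`.
-/

namespace Pool.Agent.Helper10.HS

private theorem ico_cast (p : ℕ) (f : ℤ → ℝ) :
    ∑ i ∈ Finset.Ico (1 : ℤ) p, f i = ∑ i ∈ Finset.Ico 1 p, f ((i : ℕ) : ℤ) := by
  have h : Finset.Ico (1 : ℤ) p = (Finset.Ico 1 p).image (fun i : ℕ => (i : ℤ)) := by
    ext x
    simp only [Finset.mem_Ico, Finset.mem_image]
    constructor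
    · rintro ⟨h1, h2⟩
      exact ⟨x.toNat, ⟨by omega, by omega⟩, by omega⟩
    · rintro ⟨i, ⟨h1, h2⟩, rfl⟩
      exact ⟨by omega, by omega⟩
  rw [h, Finset.sum_image]
  intro a _ b _ hab
  have hab' : (a : ℤ) = (b : ℤ) := hab
  exact_mod_cast hab'

private theorem div_mod_uniq {p i j m n : ℕ} (hi : i < p) (hj : j < p)
    (h : i + p * m = j + p * n) : i = j ∧ m = n := by
  have h1 : (i + p * m) % p = (j + p * n) % p := by rw [h]
  rw [Nat.add_mul_mod_self_left, Nat.add_mul_mod_self_left, Nat.mod_eq_of_lt hi,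
    Nat.mod_eq_of_lt hj] at h1
  refine ⟨h1, ?_⟩
  subst h1
  have h2 : p * m = p * n := by omega
  exact Nat.eq_of_mul_eq_mul_left (by omega) h2

private theorem not_dvd_add {p i m : ℕ} (h1 : 1 ≤ i) (h2 : i < p) : ¬p ∣ i + p * m := by
  rw [Nat.dvd_iff_mod_eq_zero, Nat.add_mul_mod_self_left, Nat.mod_eq_of_lt h2]
  omega

private theorem shift1 (p : ℕ) (F : ℤ → ℝ) (X : ℝ) (hF : ∀ a, F (a + p) = F a * X) (i : ℤ)
    (m : ℕ) : F (i + p * m) = F i * X ^ m := by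
  induction m with
  | zero => simp
  | succ m ih =>
    have h : i + (p : ℤ) * ((m + 1 : ℕ) : ℤ) = (i + p * m) + p := by
      push_cast
      ring
    rw [h, hF, ih, pow_succ]
    ring

theorem hasSum_S1 (p : ℕ) (hp : 1 < p) (F : ℤ → ℝ) (X : ℝ) (h0 : 0 ≤ X) (h1 : X < 1)
    (hF : ∀ a, F (a + p) = F a * X) :
    HasSum (fun a : {a : ℕ // ¬p ∣ a} => F (a.1 : ℤ)) (S1 p F X) := by
  have hf : HasSum (fun i : {i : ℕ // i ∈ Finset.Ico 1 p} => F ((i.1 : ℕ) : ℤ))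
      (∑ i ∈ Finset.Ico (1 : ℤ) p, F i) := by
    rw [ico_cast, ← Finset.sum_coe_sort]
    exact hasSum_fintype _
  have hg := hasSum_geometric_of_lt_one h0 h1
  have hfg : Summable (fun x : {i : ℕ // i ∈ Finset.Ico 1 p} × ℕ =>
      F ((x.1.1 : ℕ) : ℤ) * X ^ x.2) :=
    summable_mul_of_summable_norm (f := fun i : {i : ℕ // i ∈ Finset.Ico 1 p} =>
      F ((i.1 : ℕ) : ℤ)) (g := fun m : ℕ => X ^ m) (hasSum_fintype _).summable
      (hg.summable.congr fun m => by rw [Real.norm_of_nonneg (pow_nonneg h0 m)])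
  have hprod := hf.mul hg hfg
  let φ : {i : ℕ // i ∈ Finset.Ico 1 p} × ℕ → {a : ℕ // ¬p ∣ a} := fun x =>
    ⟨x.1.1 + p * x.2, not_dvd_add (Finset.mem_Ico.1 x.1.2).1 (Finset.mem_Ico.1 x.1.2).2⟩
  have hφ : Function.Bijective φ := by
    constructor
    · rintro ⟨⟨i, hi⟩, m⟩ ⟨⟨j, hj⟩, n⟩ h
      have h2 : i + p * m = j + p * n := congrArg Subtype.val h
      obtain ⟨h3, h4⟩ := div_mod_uniq (Finset.mem_Ico.1 hi).2 (Finset.mem_Ico.1 hj).2 h2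
      subst h3
      subst h4
      rfl
    · rintro ⟨a, ha⟩
      refine ⟨(⟨a % p, Finset.mem_Ico.2 ⟨?_, Nat.mod_lt _ (by omega)⟩⟩, a / p), ?_⟩
      · rw [Nat.dvd_iff_mod_eq_zero] at ha
        omega
      · exact Subtype.ext (Nat.mod_add_div a p)
  have key := (Equiv.ofBijective φ hφ).hasSum_iff (f := fun a : {a : ℕ // ¬p ∣ a} => F (a.1 : ℤ))
    (a := S1 p F X)
  rw [← key]
  have e : ((fun a : {a : ℕ // ¬p ∣ a} => F (a.1 : ℤ)) ∘ ⇑(Equiv.ofBijective φ hφ)) =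
      fun x : {i : ℕ // i ∈ Finset.Ico 1 p} × ℕ => F ((x.1.1 : ℕ) : ℤ) * X ^ x.2 := by
    funext x
    show F (((x.1.1 + p * x.2 : ℕ) : ℤ)) = _
    rw [← shift1 p F X hF]
    push_cast
    rfl
  rw [e]
  exact hprod

private theorem c1 (p : ℕ) (e : ℕ → ℕ → ℕ)
    (x : ({i : ℕ // i ∈ Finset.Ico 1 p} × {j : ℕ // j ∈ Finset.Ico 1 p}) × (ℕ × ℕ)) :
    (((x.1.1.1 + p * (x.2.2 + e x.1.1.1 x.1.2.1 + x.2.1) : ℕ) : ℤ)) =
      (x.1.1.1 : ℤ) + p * ((x.2.2 + e x.1.1.1 x.1.2.1 + x.2.1 : ℕ) : ℤ) := by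
  push_cast
  ring

private theorem c2 (p : ℕ)
    (x : ({i : ℕ // i ∈ Finset.Ico 1 p} × {j : ℕ // j ∈ Finset.Ico 1 p}) × (ℕ × ℕ)) :
    (((x.1.2.1 + p * x.2.2 : ℕ) : ℤ)) = (x.1.2.1 : ℤ) + p * ((x.2.2 : ℕ) : ℤ) := by
  push_cast
  ring

private theorem gen2 (p : ℕ) (hp : 1 < p) (F : ℤ → ℤ → ℝ) (X Y : ℝ) (h0 : 0 ≤ X) (h1 : X < 1)
    (hY0 : 0 ≤ Y) (hXY : X * Y < 1) (hX : ∀ a b, F (a + p) b = F a b * X)
    (hY : ∀ a b, F a (b + p) = F a b * Y) (P : ℕ → ℕ → Prop) (e : ℕ → ℕ → ℕ)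
    (he : ∀ i j m n, i < p → j < p → (P (i + p * m) (j + p * n) ↔ n + e i j ≤ m)) :
    HasSum (fun x : {x : ℕ × ℕ // ¬p ∣ x.1 ∧ ¬p ∣ x.2 ∧ P x.1 x.2} =>
      F (x.1.1 : ℤ) (x.1.2 : ℤ))
      ((∑ i ∈ Finset.Ico 1 p, ∑ j ∈ Finset.Ico 1 p, F ((i : ℕ) : ℤ) ((j : ℕ) : ℤ) * X ^ e i j) *
        ((1 - X)⁻¹ * (1 - X * Y)⁻¹)) := by
  have hXY0 : 0 ≤ X * Y := mul_nonneg h0 hY0
  have hg1 := hasSum_geometric_of_lt_one h0 h1
  have hg2 := hasSum_geometric_of_lt_one hXY0 hXY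
  have hg := hg1.mul hg2 (hg1.summable.mul_of_nonneg hg2.summable (fun m => pow_nonneg h0 m)
    (fun m => pow_nonneg hXY0 m))
  have hf : HasSum (fun x : {i : ℕ // i ∈ Finset.Ico 1 p} × {j : ℕ // j ∈ Finset.Ico 1 p} =>
      F ((x.1.1 : ℕ) : ℤ) ((x.2.1 : ℕ) : ℤ) * X ^ e x.1.1 x.2.1)
      (∑ i ∈ Finset.Ico 1 p, ∑ j ∈ Finset.Ico 1 p,
        F ((i : ℕ) : ℤ) ((j : ℕ) : ℤ) * X ^ e i j) := by
    have h2 : (∑ i ∈ Finset.Ico 1 p, ∑ j ∈ Finset.Ico 1 p,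
        F ((i : ℕ) : ℤ) ((j : ℕ) : ℤ) * X ^ e i j) =
        ∑ x : {i : ℕ // i ∈ Finset.Ico 1 p} × {j : ℕ // j ∈ Finset.Ico 1 p},
          F ((x.1.1 : ℕ) : ℤ) ((x.2.1 : ℕ) : ℤ) * X ^ e x.1.1 x.2.1 := by
      rw [Fintype.sum_prod_type, ← Finset.sum_coe_sort]
      refine Finset.sum_congr rfl fun i _ => ?_
      rw [← Finset.sum_coe_sort]
    rw [h2]
    exact hasSum_fintype _
  have hsm := summable_mul_of_summable_norm
    (f := fun x : {i : ℕ // i ∈ Finset.Ico 1 p} × {j : ℕ // j ∈ Finset.Ico 1 p} =>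
      F ((x.1.1 : ℕ) : ℤ) ((x.2.1 : ℕ) : ℤ) * X ^ e x.1.1 x.2.1)
    (g := fun m : ℕ × ℕ => X ^ m.1 * (X * Y) ^ m.2) (hasSum_fintype _).summable
    (hg.summable.congr fun m =>
      (Real.norm_of_nonneg (mul_nonneg (pow_nonneg h0 _) (pow_nonneg hXY0 _))).symm)
  have hfg := hf.mul hg hsm
  let φ : ({i : ℕ // i ∈ Finset.Ico 1 p} × {j : ℕ // j ∈ Finset.Ico 1 p}) × (ℕ × ℕ) →
      {x : ℕ × ℕ // ¬p ∣ x.1 ∧ ¬p ∣ x.2 ∧ P x.1 x.2} := fun x =>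
    ⟨(x.1.1.1 + p * (x.2.2 + e x.1.1.1 x.1.2.1 + x.2.1), x.1.2.1 + p * x.2.2),
      not_dvd_add (Finset.mem_Ico.1 x.1.1.2).1 (Finset.mem_Ico.1 x.1.1.2).2,
      not_dvd_add (Finset.mem_Ico.1 x.1.2.2).1 (Finset.mem_Ico.1 x.1.2.2).2,
      (he _ _ _ _ (Finset.mem_Ico.1 x.1.1.2).2 (Finset.mem_Ico.1 x.1.2.2).2).2 (by omega)⟩
  have hφ : Function.Bijective φ := by
    constructor
    · rintro ⟨⟨⟨i, hi⟩, ⟨j, hj⟩⟩, ⟨l, n⟩⟩ ⟨⟨⟨i', hi'⟩, ⟨j', hj'⟩⟩, ⟨l', n'⟩⟩ h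
      have h2 : i + p * (n + e i j + l) = i' + p * (n' + e i' j' + l') :=
        congrArg (fun x => x.1.1) h
      have h2' : j + p * n = j' + p * n' := congrArg (fun x => x.1.2) h
      obtain ⟨h3, h4⟩ := div_mod_uniq (Finset.mem_Ico.1 hi).2 (Finset.mem_Ico.1 hi').2 h2
      obtain ⟨h3', h4'⟩ := div_mod_uniq (Finset.mem_Ico.1 hj).2 (Finset.mem_Ico.1 hj').2 h2'
      subst h3
      subst h3'
      subst h4'
      have h5 : l = l' := by omega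
      subst h5
      rfl
    · rintro ⟨⟨a, b⟩, ha, hb, hP⟩
      have hap : a % p < p := Nat.mod_lt _ (by omega)
      have hbp : b % p < p := Nat.mod_lt _ (by omega)
      have ha' : 1 ≤ a % p := by
        have h2 := ha
        rw [Nat.dvd_iff_mod_eq_zero] at h2
        have h3 : a % p ≠ 0 := h2
        omega
      have hb' : 1 ≤ b % p := by
        have h2 := hb
        rw [Nat.dvd_iff_mod_eq_zero] at h2
        have h3 : b % p ≠ 0 := h2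
        omega
      have hP' : P (a % p + p * (a / p)) (b % p + p * (b / p)) := by
        rw [Nat.mod_add_div, Nat.mod_add_div]
        exact hP
      have hle := (he _ _ _ _ hap hbp).1 hP'
      refine ⟨((⟨a % p, Finset.mem_Ico.2 ⟨ha', hap⟩⟩, ⟨b % p, Finset.mem_Ico.2 ⟨hb', hbp⟩⟩),
        (a / p - (b / p + e (a % p) (b % p)), b / p)), ?_⟩
      apply Subtype.ext
      apply Prod.ext
      · show a % p + p * (b / p + e (a % p) (b % p) + (a / p - (b / p + e (a % p) (b % p)))) = a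
        rw [Nat.add_sub_cancel' hle, Nat.mod_add_div]
      · exact Nat.mod_add_div b p
  have key := (Equiv.ofBijective φ hφ).hasSum_iff
    (f := fun x : {x : ℕ × ℕ // ¬p ∣ x.1 ∧ ¬p ∣ x.2 ∧ P x.1 x.2} => F (x.1.1 : ℤ) (x.1.2 : ℤ))
    (a := (∑ i ∈ Finset.Ico 1 p, ∑ j ∈ Finset.Ico 1 p,
      F ((i : ℕ) : ℤ) ((j : ℕ) : ℤ) * X ^ e i j) * ((1 - X)⁻¹ * (1 - X * Y)⁻¹))
  rw [← key]
  have e1 : ((fun x : {x : ℕ × ℕ // ¬p ∣ x.1 ∧ ¬p ∣ x.2 ∧ P x.1 x.2} =>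
      F (x.1.1 : ℤ) (x.1.2 : ℤ)) ∘ ⇑(Equiv.ofBijective φ hφ)) =
      fun x : ({i : ℕ // i ∈ Finset.Ico 1 p} × {j : ℕ // j ∈ Finset.Ico 1 p}) × (ℕ × ℕ) =>
        F ((x.1.1.1 : ℕ) : ℤ) ((x.1.2.1 : ℕ) : ℤ) * X ^ e x.1.1.1 x.1.2.1 *
          (X ^ x.2.1 * (X * Y) ^ x.2.2) := by
    funext x
    show F (((x.1.1.1 + p * (x.2.2 + e x.1.1.1 x.1.2.1 + x.2.1) : ℕ) : ℤ))
      (((x.1.2.1 + p * x.2.2 : ℕ) : ℤ)) = _
    rw [c1 p e x, c2 p x, shift1 p (fun a => F a ((x.1.2.1 : ℤ) + p * ((x.2.2 : ℕ) : ℤ))) X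
      (fun a => hX a _) (x.1.1.1 : ℤ) (x.2.2 + e x.1.1.1 x.1.2.1 + x.2.1)]
    rw [shift1 p (fun b => F (x.1.1.1 : ℤ) b) Y (fun b => hY _ b) (x.1.2.1 : ℤ) x.2.2]
    rw [pow_add, pow_add, mul_pow]
    ring
  rw [e1]
  exact hfg

theorem hasSum_S2 (p : ℕ) (hp : 1 < p) (F : ℤ → ℤ → ℝ) (X Y : ℝ) (h0 : 0 ≤ X) (h1 : X < 1)
    (hY0 : 0 ≤ Y) (hXY : X * Y < 1) (hX : ∀ a b, F (a + p) b = F a b * X)
    (hY : ∀ a b, F a (b + p) = F a b * Y) :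
    HasSum (fun x : {x : ℕ × ℕ // ¬p ∣ x.1 ∧ ¬p ∣ x.2 ∧ x.2 < x.1} => F (x.1.1 : ℤ) (x.1.2 : ℤ))
      (S2 p F X Y) := by
  have h := gen2 p hp F X Y h0 h1 hY0 hXY hX hY (fun a b => b < a)
    (fun i j => if i ≤ j then 1 else 0) (by
    intro i j m n hi hj
    show j + p * n < i + p * m ↔ n + (if i ≤ j then 1 else 0) ≤ m
    rcases Nat.lt_trichotomy m n with hmn | hmn | hmn
    · have h2 : p * (m + 1) ≤ p * n := Nat.mul_le_mul_left p hmn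
      rw [mul_add, mul_one] at h2
      split_ifs <;> constructor <;> intro h <;> omega
    · subst hmn
      split_ifs <;> constructor <;> intro h <;> omega
    · have h2 : p * (n + 1) ≤ p * m := Nat.mul_le_mul_left p hmn
      rw [mul_add, mul_one] at h2
      split_ifs <;> constructor <;> intro h <;> omega)
  have e : S2 p F X Y = (∑ i ∈ Finset.Ico 1 p, ∑ j ∈ Finset.Ico 1 p,
      F ((i : ℕ) : ℤ) ((j : ℕ) : ℤ) * X ^ (if i ≤ j then 1 else 0)) *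
        ((1 - X)⁻¹ * (1 - X * Y)⁻¹) := by
    unfold S2
    rw [mul_assoc, ico_cast]
    congr 1
    refine Finset.sum_congr rfl fun i _ => ?_
    rw [ico_cast]
    refine Finset.sum_congr rfl fun j _ => ?_
    congr 1
    by_cases hij : i ≤ j
    · rw [if_pos hij, if_pos (by exact_mod_cast hij), pow_one]
    · rw [if_neg hij, if_neg (by exact_mod_cast hij), pow_zero]
  rw [e]
  exact h

theorem hasSum_S2' (p : ℕ) (hp : 1 < p) (F : ℤ → ℤ → ℝ) (X Y : ℝ) (h0 : 0 ≤ X) (h1 : X < 1)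
    (hY0 : 0 ≤ Y) (hXY : X * Y < 1) (hX : ∀ a b, F (a + p) b = F a b * X)
    (hY : ∀ a b, F a (b + p) = F a b * Y) :
    HasSum (fun x : {x : ℕ × ℕ // ¬p ∣ x.1 ∧ ¬p ∣ x.2 ∧ x.2 ≤ x.1} => F (x.1.1 : ℤ) (x.1.2 : ℤ))
      (S2' p F X Y) := by
  have h := gen2 p hp F X Y h0 h1 hY0 hXY hX hY (fun a b => b ≤ a)
    (fun i j => if i < j then 1 else 0) (by
    intro i j m n hi hj
    show j + p * n ≤ i + p * m ↔ n + (if i < j then 1 else 0) ≤ m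
    rcases Nat.lt_trichotomy m n with hmn | hmn | hmn
    · have h2 : p * (m + 1) ≤ p * n := Nat.mul_le_mul_left p hmn
      rw [mul_add, mul_one] at h2
      split_ifs <;> constructor <;> intro h <;> omega
    · subst hmn
      split_ifs <;> constructor <;> intro h <;> omega
    · have h2 : p * (n + 1) ≤ p * m := Nat.mul_le_mul_left p hmn
      rw [mul_add, mul_one] at h2
      split_ifs <;> constructor <;> intro h <;> omega)
  have e : S2' p F X Y = (∑ i ∈ Finset.Ico 1 p, ∑ j ∈ Finset.Ico 1 p,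
      F ((i : ℕ) : ℤ) ((j : ℕ) : ℤ) * X ^ (if i < j then 1 else 0)) *
        ((1 - X)⁻¹ * (1 - X * Y)⁻¹) := by
    unfold S2'
    rw [mul_assoc, ico_cast]
    congr 1
    refine Finset.sum_congr rfl fun i _ => ?_
    rw [ico_cast]
    refine Finset.sum_congr rfl fun j _ => ?_
    congr 1
    by_cases hij : i < j
    · rw [if_pos hij, if_pos (by exact_mod_cast hij), pow_one]
    · rw [if_neg hij, if_neg (by exact_mod_cast hij), pow_zero]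
  rw [e]
  exact h

end Pool.Agent.Helper10.HS
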