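import Pool.Agent.Helper10.HS.CntA
import Pool.Agent.Helper10.HS.SumB
import Pool.Agent.Helper10.HS.Per

/-!
# Project HS, piece Z3s: the sums over the torsors with abelian group

`sum_Z1`: `tsum_sw`, `hasSum_S1` (`X = s ^ ex p u 0 < 1`, `Af_per`).

`sum_dep1`, `sum_dep2` (`e ≠ 0`, `a = sw e`): split according to `n = sw h`.
* `n > a`: `sw (h + j e) = n` for all `j`;
* `n ≤ a`: the leading coefficients at `a` are `h_a + j e_a`. Either no `j` gives `0` (there are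
  `q - p` such `h_a`, each with `s^(2 (a - 1 - a / p))` lower parts), then all `sw (h + j e) = a`, or
  exactly one `j₀ ∈ {0, …, p - 1}` gives `0`: then `sw (h + j₀ e) < a` and
  all others are `a`; `(j₀, h') ↦ h' - j₀ e`, `sw h' < a`, is a bijection onto this part, and
  `h ∉ 𝔽_p e` means `h' ≠ 0`.
So with `A = Af p s`
`D1 = ∑_{n > a} A(n) A(a) s^-(u a + p c n) + p ∑_{n < a} A(a) A(n) s^-((u + (p - 1) c) a + c n)
      + (q - p) / (q - 1) ∑_a A(a)² s^-((u + p c) a)`,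
`D2 = ∑_{n > a} A(n) A(a) s^-(u a + p c n) + ∑_a A(a) s^(2 (a - a / p)) s^-((u + p c) a)`
(the number of `h` with `sw h ≤ a` is `s^(2 (a - a / p)) = q / (q - 1) * A(a)`), and
`(D1 + (p - 1) D2) / p = ∑_{n > a} + ∑_{n < a} + ∑_a A(a)² s^-((u + p c) a) = Z3 p u c s`, since
`(q - p) + (p - 1) q = p (q - 1)`. The sums over `n > a` etc. are `hasSum_S2`, `hasSum_S1`.
It may be convenient to prove the identity `sum_Z3` directly with `ENNReal` sums over
`{x : ℕ × ℕ // ¬p ∣ x.1 ∧ ¬p ∣ x.2 ∧ x.2 < x.1}`.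
-/

namespace Pool.Agent.Helper10.HS

open scoped ENNReal

variable {p : ℕ} [Fact p.Prime] {k : Type} [Field k] [Fintype k] [CharP k p]

omit [Fact p.Prime] [Fintype k] [CharP k p] in
private theorem z3s_sw_nsmul (i : ℕ) (e : Par p k) : sw (i • e) ≤ sw e := by
  rw [sw_le_iff]
  intro j hj
  rw [par_nsmul, eq_zero_of_sw_lt hj, mul_zero]

omit [Fact p.Prime] [Fintype k] in
private theorem z3s_uniq {e h : Par p k} (he : e ≠ 0) (hle : sw h ≤ sw e) {i i0 : ℕ} (hi : i < p)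
    (hi0 : i0 < p) (hne : i ≠ i0) (h0 : sw (h + i0 • e) < sw e) : sw (h + i • e) = sw e := by
  have h1 : (h + i0 • e).1 (sw e) = 0 := eq_zero_of_sw_lt h0
  rw [par_add, par_nsmul] at h1
  apply sw_eq_of
  · rw [par_add, par_nsmul]
    intro h2
    have h3 : ((i : k) - (i0 : k)) * e.1 (sw e) = 0 := by
      linear_combination h2 - h1
    rcases mul_eq_zero.1 h3 with h4 | h4
    · exact hne (CharP.natCast_injOn_Iio k p hi hi0 (sub_eq_zero.1 h4))
    · exact sw_spec he h4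
  · intro j hj
    rw [par_add, par_nsmul, eq_zero_of_sw_lt hj, eq_zero_of_sw_lt (lt_of_le_of_lt hle hj), mul_zero,
      add_zero]

open scoped Classical in
omit [Fintype k] in
private theorem z3s_point (e h : Par p k) (he : e ≠ 0) (u c : ℕ) (W : ℕ → ℝ≥0∞) :
    (if ∀ j ∈ Finset.range p, h + j • e ≠ 0 then
        W (u * sw e + c * ∑ j ∈ Finset.range p, sw (h + j • e)) else 0) +
      ((p - 1 : ℕ) : ℝ≥0∞) * W (u * sw e + c * (p * max (sw e) (sw h))) =
    ∑ i ∈ Finset.range p, (if h + i • e ≠ 0 then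
      W (u * sw e + c * ((p - 1) * max (sw e) (sw (h + i • e)) + sw (h + i • e))) else 0) := by
  have hp : 2 ≤ p := (Fact.out : p.Prime).two_le
  have hpos := sw_pos he
  have hpp : ∀ x : ℕ, (p - 1) * x + x = p * x := by
    intro x
    obtain ⟨m, rfl⟩ : ∃ m, p = m + 1 := ⟨p - 1, by omega⟩
    rw [Nat.add_sub_cancel]
    ring
  have hcast : (p : ℝ≥0∞) = 1 + ((p - 1 : ℕ) : ℝ≥0∞) := by
    have : p = 1 + (p - 1) := by omega
    conv_lhs => rw [this]
    push_cast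
    rfl
  rcases lt_or_ge (sw e) (sw h) with hlt | hge
  · have h1 : ∀ i, sw (h + i • e) = sw h := fun i =>
      sw_add_of_lt (lt_of_le_of_lt (z3s_sw_nsmul i e) hlt)
    have h2 : ∀ i : ℕ, h + i • e ≠ 0 := by
      intro i h0
      have h3 := h1 i
      rw [h0, sw_zero] at h3
      omega
    rw [if_pos (fun j _ => h2 j)]
    simp only [h1, if_pos (h2 _)]
    rw [Finset.sum_const, Finset.card_range, Finset.sum_const, Finset.card_range,
      max_eq_right hlt.le, hpp, smul_eq_mul, nsmul_eq_mul, hcast]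
    ring
  · have hle : ∀ i : ℕ, sw (h + i • e) ≤ sw e := fun i =>
      (sw_add_le _ _).trans (max_le hge (z3s_sw_nsmul i e))
    by_cases hex : ∃ i0 ∈ Finset.range p, sw (h + i0 • e) < sw e
    · obtain ⟨i0, hi0, h0⟩ := hex
      have h1 : ∀ i ∈ (Finset.range p).erase i0, sw (h + i • e) = sw e := by
        intro i hi
        exact z3s_uniq he hge (Finset.mem_range.1 (Finset.mem_of_mem_erase hi))
          (Finset.mem_range.1 hi0) (Finset.ne_of_mem_erase hi) h0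
      have h2 : ∀ i ∈ (Finset.range p).erase i0, h + i • e ≠ 0 := by
        intro i hi h3
        have h4 := h1 i hi
        rw [h3, sw_zero] at h4
        omega
      have h3 : (∀ j ∈ Finset.range p, h + j • e ≠ 0) ↔ h + i0 • e ≠ 0 := by
        constructor
        · intro h4
          exact h4 i0 hi0
        · intro h4 j hj
          by_cases hji : j = i0
          · rw [hji]
            exact h4
          · exact h2 j (Finset.mem_erase.2 ⟨hji, hj⟩)
      rw [← Finset.add_sum_erase (Finset.range p) (fun i => sw (h + i • e)) hi0,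
        Finset.sum_congr rfl h1, Finset.sum_const, Finset.card_erase_of_mem hi0, Finset.card_range,
        ← Finset.add_sum_erase (Finset.range p) (fun i => (if h + i • e ≠ 0 then
          W (u * sw e + c * ((p - 1) * max (sw e) (sw (h + i • e)) + sw (h + i • e))) else 0)) hi0]
      have h5 : ∑ x ∈ (Finset.range p).erase i0, (if h + x • e ≠ 0 then
          W (u * sw e + c * ((p - 1) * max (sw e) (sw (h + x • e)) + sw (h + x • e))) else 0) =
          ((p - 1 : ℕ) : ℝ≥0∞) * W (u * sw e + c * (p * max (sw e) (sw h))) := by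
        rw [Finset.sum_congr rfl (g := fun _ => W (u * sw e + c * (p * max (sw e) (sw h)))),
          Finset.sum_const, Finset.card_erase_of_mem hi0, Finset.card_range, nsmul_eq_mul]
        intro i hi
        rw [if_pos (h2 i hi), h1 i hi, max_self, max_eq_left hge, hpp]
      rw [h5]
      congr 1
      rw [if_congr h3 rfl rfl, max_eq_left (hle i0), smul_eq_mul]
      congr 4
      exact add_comm _ _
    · push Not at hex
      have h1 : ∀ i ∈ Finset.range p, sw (h + i • e) = sw e := fun i hi =>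
        le_antisymm (hle i) (hex i hi)
      have h2 : ∀ i ∈ Finset.range p, h + i • e ≠ 0 := by
        intro i hi h3
        have h4 := h1 i hi
        rw [h3, sw_zero] at h4
        omega
      rw [if_pos h2, Finset.sum_congr rfl h1, Finset.sum_const, Finset.card_range,
        max_eq_left hge, smul_eq_mul]
      rw [Finset.sum_congr rfl (g := fun _ => W (u * sw e + c * (p * sw e))),
        Finset.sum_const, Finset.card_range, nsmul_eq_mul, hcast]
      · ring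
      · intro i hi
        rw [if_pos (h2 i hi), h1 i hi, max_self, hpp]

/-- the weight -/
private noncomputable def z3s_W (s : ℝ) (n : ℕ) : ℝ≥0∞ := ENNReal.ofReal (s ^ (-(n : ℤ)))

/-- the weight of a pair of pole orders -/
private noncomputable def z3s_phi (p u c : ℕ) (s : ℝ) (a n : ℕ) : ℝ≥0∞ :=
  z3s_W s (u * a + c * ((p - 1) * max a n + n))

omit [Fact p.Prime] in
private theorem z3s_Af_nonneg (s : ℝ) (hs : 1 < s) (a : ℤ) : 0 ≤ Af p s a := by
  unfold Af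
  have h1 : 1 ≤ s ^ (2 : ℤ) := by
    have : (1 : ℝ) ≤ s ^ 2 := one_le_pow₀ hs.le
    exact_mod_cast this
  exact mul_nonneg (by linarith) (zpow_nonneg (by linarith) _)

private theorem z3s_tsum {α : Type} {f : α → ℝ} {S : ℝ} (hf : ∀ x, 0 ≤ f x) (h : HasSum f S) :
    ∑' x, ENNReal.ofReal (f x) = ENNReal.ofReal S := by
  rw [← ENNReal.ofReal_tsum_of_nonneg hf h.summable, h.tsum_eq]

private theorem z3s_split (q : ℕ) (f : ℕ → ℕ → ℝ≥0∞) :
    ∑' a : {a : ℕ // ¬q ∣ a}, ∑' n : {n : ℕ // ¬q ∣ n}, f a.1 n.1 =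
      ∑' x : {x : ℕ × ℕ // ¬q ∣ x.1 ∧ ¬q ∣ x.2 ∧ x.2 < x.1}, f x.1.2 x.1.1 +
      ∑' x : {x : ℕ × ℕ // ¬q ∣ x.1 ∧ ¬q ∣ x.2 ∧ x.2 < x.1}, f x.1.1 x.1.2 +
      ∑' a : {a : ℕ // ¬q ∣ a}, f a.1 a.1 := by
  classical
  have h0 : ∀ g : ℕ → ℝ≥0∞, ∑' n : {n : ℕ // ¬q ∣ n}, g n.1 =
      ∑' n : ℕ, if ¬q ∣ n then g n else 0 := by
    intro g
    refine (tsum_subtype {n : ℕ | ¬q ∣ n} g).trans ?_
    refine tsum_congr fun n => ?_
    rw [Set.indicator_apply]
    rfl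
  have h1 : ∀ g : ℕ × ℕ → ℝ≥0∞,
      ∑' x : {x : ℕ × ℕ // ¬q ∣ x.1 ∧ ¬q ∣ x.2 ∧ x.2 < x.1}, g x.1 =
      ∑' x : ℕ × ℕ, if ¬q ∣ x.1 ∧ ¬q ∣ x.2 ∧ x.2 < x.1 then g x else 0 := by
    intro g
    refine (tsum_subtype {x : ℕ × ℕ | ¬q ∣ x.1 ∧ ¬q ∣ x.2 ∧ x.2 < x.1} g).trans ?_
    refine tsum_congr fun n => ?_
    rw [Set.indicator_apply]
    rfl
  rw [h1 (fun x => f x.2 x.1), h1 (fun x => f x.1 x.2), h0 (fun a => f a a),
    h0 (fun a => ∑' n : {n : ℕ // ¬q ∣ n}, f a n.1)]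
  rw [← Equiv.tsum_eq (Equiv.prodComm ℕ ℕ)
    (fun x : ℕ × ℕ => if ¬q ∣ x.1 ∧ ¬q ∣ x.2 ∧ x.2 < x.1 then f x.2 x.1 else 0)]
  have h2 : ∀ a : ℕ, (if ¬q ∣ a then ∑' n : {n : ℕ // ¬q ∣ n}, f a n.1 else 0) =
      ∑' n : ℕ, if ¬q ∣ a ∧ ¬q ∣ n then f a n else 0 := by
    intro a
    by_cases ha : q ∣ a
    · simp [ha]
    · rw [if_pos ha, h0]
      refine tsum_congr fun n => ?_
      simp [ha]
  have h3 : ∀ a : ℕ, (if ¬q ∣ a then f a a else 0) =
      ∑' n : ℕ, if ¬q ∣ a ∧ ¬q ∣ n ∧ n = a then f a n else 0 := by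
    intro a
    rw [tsum_eq_single a]
    · by_cases ha : q ∣ a <;> simp [ha]
    · intro n hn
      rw [if_neg]
      rintro ⟨_, _, h4⟩
      exact hn h4
  simp only [h2, h3]
  rw [← ENNReal.tsum_prod, ← ENNReal.tsum_prod, ← ENNReal.tsum_add, ← ENNReal.tsum_add]
  refine tsum_congr fun x => ?_
  obtain ⟨a, n⟩ := x
  simp only [Equiv.prodComm_apply, Prod.swap_prod_mk]
  by_cases ha : q ∣ a
  · simp [ha]
  by_cases hn : q ∣ n
  · simp [hn]
  rcases lt_trichotomy a n with h4 | h4 | h4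
  · simp [ha, hn, h4, h4.ne', h4.not_gt]
  · subst h4
    simp [ha]
  · simp [ha, hn, h4, h4.ne, h4.not_gt]

private theorem z3s_S2 (u v : ℕ) (s : ℝ) (hs : 1 < s) (h1 : 2 * (p - 1 : ℤ) - p * u < 0)
    (h2 : 4 * (p - 1 : ℤ) - p * u - p * v < 0) :
    HasSum (fun x : {x : ℕ × ℕ // ¬p ∣ x.1 ∧ ¬p ∣ x.2 ∧ x.2 < x.1} =>
      Cf p u v (fun _ _ _ => 1) s (x.1.1 : ℤ) (x.1.2 : ℤ))
      (S2 p (Cf p u v (fun _ _ _ => 1) s) (s ^ ex p u 0) (s ^ ex p v 0)) := by
  have hs0 : 0 < s := by linarith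
  apply hasSum_S2 p (Fact.out : p.Prime).one_lt
  · exact zpow_nonneg hs0.le _
  · apply zpow_lt_one_of_neg₀ hs
    unfold ex
    linarith
  · exact zpow_nonneg hs0.le _
  · rw [← zpow_add₀ hs0.ne']
    apply zpow_lt_one_of_neg₀ hs
    unfold ex
    linarith
  · exact Cf_per1 p u v _ 0 hs0 (fun a b => by simp)
  · exact Cf_per2 p u v _ 0 hs0 (fun a b => by simp)

private theorem z3s_S1 (W : ℕ) (s : ℝ) (hs : 1 < s) (h1 : 4 * (p - 1 : ℤ) - p * W < 0) :
    HasSum (fun a : {a : ℕ // ¬p ∣ a} => Cf p W 0 (fun _ _ _ => 1) s (a.1 : ℤ) (a.1 : ℤ))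
      (S1 p (fun a => Cf p W 0 (fun _ _ _ => 1) s a a) (s ^ (ex p W 0 + ex p 0 0))) := by
  have hs0 : 0 < s := by linarith
  apply hasSum_S1 p (Fact.out : p.Prime).one_lt (fun a => Cf p W 0 (fun _ _ _ => 1) s a a)
  · exact zpow_nonneg hs0.le _
  · apply zpow_lt_one_of_neg₀ hs
    unfold ex
    push_cast
    linarith
  · intro a
    rw [zpow_add₀ hs0.ne', Cf_per1 p W 0 _ 0 hs0 (fun a b => by simp),
      Cf_per2 p W 0 _ 0 hs0 (fun a b => by simp)]
    ring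

omit [Fact p.Prime] in
private theorem z3s_Cf_nonneg (u v : ℕ) (s : ℝ) (hs : 1 < s) (a b : ℤ) :
    0 ≤ Cf p u v (fun _ _ _ => 1) s a b := by
  unfold Cf
  exact mul_nonneg (mul_nonneg (mul_nonneg (z3s_Af_nonneg s hs a) (z3s_Af_nonneg s hs b))
    (zpow_nonneg (by linarith) _)) zero_le_one

omit [Fact p.Prime] in
private theorem z3s_Cf (u v : ℕ) (s : ℝ) (hs : 1 < s) (a b : ℕ) :
    ENNReal.ofReal (Cf p u v (fun _ _ _ => 1) s (a : ℤ) (b : ℤ)) =
      ENNReal.ofReal (Af p s (a : ℤ)) * (ENNReal.ofReal (Af p s (b : ℤ)) *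
        z3s_W s (u * a + v * b)) := by
  unfold Cf z3s_W
  rw [mul_one, ENNReal.ofReal_mul (mul_nonneg (z3s_Af_nonneg s hs _) (z3s_Af_nonneg s hs _)),
    ENNReal.ofReal_mul (z3s_Af_nonneg s hs _), mul_assoc]
  congr 4

private theorem z3s_Z1 (u : ℕ) (hu : 2 ≤ u) (s : ℝ) (hs : 1 < s) :
    HasSum (fun a : {a : ℕ // ¬p ∣ a} => Af p s (a.1 : ℤ) * s ^ (-(u * (a.1 : ℤ) : ℤ)))
      (S1 p (fun a => Af p s a * s ^ (-(u * a : ℤ))) (s ^ ex p u 0)) := by
  have hp : 2 ≤ p := (Fact.out : p.Prime).two_le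
  have hs0 : 0 < s := by linarith
  apply hasSum_S1 p (Fact.out : p.Prime).one_lt (fun a => Af p s a * s ^ (-(u * a : ℤ)))
  · exact zpow_nonneg hs0.le _
  · apply zpow_lt_one_of_neg₀ hs
    unfold ex
    have : (2 : ℤ) ≤ u := by exact_mod_cast hu
    have h2 : (2 : ℤ) ≤ p := by exact_mod_cast hp
    nlinarith
  · intro a
    rw [Af_per p hs0]
    have e : s ^ (2 * (p - 1) : ℤ) * s ^ (-(u * (a + p) : ℤ)) = s ^ (-(u * a : ℤ)) * s ^ ex p u 0 := by
      rw [← zpow_add₀ hs0.ne', ← zpow_add₀ hs0.ne']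
      congr 1
      unfold ex
      ring
    rw [mul_assoc, e, mul_assoc]


private theorem z3s_sums (hp : 3 ≤ p) (u c : ℕ) (hc : 2 ≤ c) (s : ℝ) (hs : 1 < s) :
    HasSum (fun x : {x : ℕ × ℕ // ¬p ∣ x.1 ∧ ¬p ∣ x.2 ∧ x.2 < x.1} =>
      Cf p (p * c) u (fun _ _ _ => 1) s (x.1.1 : ℤ) (x.1.2 : ℤ))
      (S2 p (Cf p (p * c) u (fun _ _ _ => 1) s) (s ^ ex p (p * c) 0) (s ^ ex p u 0)) ∧
    HasSum (fun x : {x : ℕ × ℕ // ¬p ∣ x.1 ∧ ¬p ∣ x.2 ∧ x.2 < x.1} =>
      Cf p (u + (p - 1) * c) c (fun _ _ _ => 1) s (x.1.1 : ℤ) (x.1.2 : ℤ))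
      (S2 p (Cf p (u + (p - 1) * c) c (fun _ _ _ => 1) s) (s ^ ex p (u + (p - 1) * c) 0)
        (s ^ ex p c 0)) ∧
    HasSum (fun a : {a : ℕ // ¬p ∣ a} =>
      Cf p (u + p * c) 0 (fun _ _ _ => 1) s (a.1 : ℤ) (a.1 : ℤ))
      (S1 p (fun a => Cf p (u + p * c) 0 (fun _ _ _ => 1) s a a)
        (s ^ (ex p (u + p * c) 0 + ex p 0 0))) := by
  have hp0 : 1 < p := (Fact.out : p.Prime).one_lt
  have hp3 : (3 : ℤ) ≤ p := by exact_mod_cast hp
  have hc2 : (2 : ℤ) ≤ c := by exact_mod_cast hc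
  have hu0 : (0 : ℤ) ≤ u := by positivity
  have h1 : (2 : ℤ) * p ≤ p * c := by nlinarith
  have h2 : (6 : ℤ) * p ≤ p * (p * c) := by nlinarith
  have h3 : (0 : ℤ) ≤ p * u := by positivity
  refine ⟨z3s_S2 _ _ s hs ?_ ?_, z3s_S2 _ _ s hs ?_ ?_, z3s_S1 _ s hs ?_⟩
  · push_cast
    linarith
  · push_cast
    linarith
  · push_cast [Nat.cast_sub hp0.le]
    nlinarith
  · push_cast [Nat.cast_sub hp0.le]
    nlinarith
  · push_cast
    nlinarith

theorem sum_Z1 (u : ℕ) (hu : 2 ≤ u) (s : ℝ) (hs : 1 < s) (hq : s ^ 2 = Fintype.card k) :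
    ∑' e : {e : Par p k // e ≠ 0}, ENNReal.ofReal (s ^ (-(u * sw e.1 : ℤ))) =
      ENNReal.ofReal (Z1 p u s) := by
  have hp : 2 ≤ p := (Fact.out : p.Prime).two_le
  have hs0 : 0 < s := by linarith
  have h1 := tsum_sw (p := p) (k := k) s hs hq (fun a => z3s_W s (u * a))
  have h2 : ∀ a : ℕ, ENNReal.ofReal (s ^ (-(u * a : ℤ))) = z3s_W s (u * a) := by
    intro a
    unfold z3s_W
    congr 2
  simp only [h2, h1]
  have h3 : ∀ a : {a : ℕ // ¬p ∣ a}, ENNReal.ofReal (Af p s (a.1 : ℤ)) * z3s_W s (u * a.1) =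
      ENNReal.ofReal (Af p s (a.1 : ℤ) * s ^ (-(u * (a.1 : ℤ) : ℤ))) := by
    intro a
    rw [ENNReal.ofReal_mul (z3s_Af_nonneg s hs _), h2]
  simp only [h3]
  unfold Z1
  exact z3s_tsum (fun a => mul_nonneg (z3s_Af_nonneg s hs _) (zpow_nonneg hs0.le _))
    (z3s_Z1 (p := p) u hu s hs)

/-- the sum over the pairs `(e, h)`, `e ≠ 0`, `h ∉ 𝔽_p e` -/
noncomputable def D1 (p u c : ℕ) (k : Type) [Field k] (s : ℝ) : ℝ≥0∞ :=
  ∑' x : {x : Par p k × Par p k // x.1 ≠ 0 ∧ ∀ j ∈ Finset.range p, x.2 + j • x.1 ≠ 0},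
    ENNReal.ofReal (s ^ (-(u * sw x.1.1 + c * ∑ j ∈ Finset.range p, sw (x.1.2 + j • x.1.1) : ℤ)))

/-- the sum over the pairs `(e, h)`, `e ≠ 0`, with the maximal weight -/
noncomputable def D2 (p u c : ℕ) (k : Type) [Field k] (s : ℝ) : ℝ≥0∞ :=
  ∑' x : {x : Par p k × Par p k // x.1 ≠ 0},
    ENNReal.ofReal (s ^ (-(u * sw x.1.1 + c * (p * max (sw x.1.1) (sw x.1.2)) : ℤ)))

omit [Fintype k] in
private theorem z3s_D (u c : ℕ) (s : ℝ) :
    D1 p u c k s + (p - 1 : ℕ) * D2 p u c k s =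
      p * ∑' e : {e : Par p k // e ≠ 0}, ∑' h : {h : Par p k // h ≠ 0},
        z3s_phi p u c s (sw e.1) (sw h.1) := by
  classical
  have e1 : D1 p u c k s = ∑' e : Par p k, ∑' h : Par p k, (if e ≠ 0 then
      (if ∀ j ∈ Finset.range p, h + j • e ≠ 0 then
        z3s_W s (u * sw e + c * ∑ j ∈ Finset.range p, sw (h + j • e)) else 0) else 0) := by
    rw [← ENNReal.tsum_prod]
    unfold D1
    have h1 := tsum_subtype {x : Par p k × Par p k | x.1 ≠ 0 ∧ ∀ j ∈ Finset.range p, x.2 + j • x.1 ≠ 0}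
      (fun x => z3s_W s (u * sw x.1 + c * ∑ j ∈ Finset.range p, sw (x.2 + j • x.1)))
    have h2 : ∀ x : Par p k × Par p k, ENNReal.ofReal (s ^ (-(u * sw x.1 + c * ∑ j ∈ Finset.range p,
        sw (x.2 + j • x.1) : ℤ))) =
        z3s_W s (u * sw x.1 + c * ∑ j ∈ Finset.range p, sw (x.2 + j • x.1)) := by
      intro x
      unfold z3s_W
      congr 2
    simp only [h2]
    refine h1.trans ?_
    refine tsum_congr fun x => ?_
    rw [Set.indicator_apply]
    simp only [Set.mem_ofPred_eq]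
    rw [ite_and]
  have e2 : D2 p u c k s = ∑' e : Par p k, ∑' h : Par p k, (if e ≠ 0 then
      z3s_W s (u * sw e + c * (p * max (sw e) (sw h))) else 0) := by
    rw [← ENNReal.tsum_prod]
    unfold D2
    have h1 := tsum_subtype {x : Par p k × Par p k | x.1 ≠ 0}
      (fun x => z3s_W s (u * sw x.1 + c * (p * max (sw x.1) (sw x.2))))
    have h2 : ∀ x : Par p k × Par p k, ENNReal.ofReal (s ^ (-(u * sw x.1 +
        c * (p * max (sw x.1) (sw x.2)) : ℤ))) =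
        z3s_W s (u * sw x.1 + c * (p * max (sw x.1) (sw x.2))) := by
      intro x
      unfold z3s_W
      congr 2
    simp only [h2]
    refine h1.trans ?_
    refine tsum_congr fun x => ?_
    rw [Set.indicator_apply]
    simp only [Set.mem_ofPred_eq]
  rw [e1, e2, ← ENNReal.tsum_mul_left, ← ENNReal.tsum_add, ← ENNReal.tsum_mul_left]
  have e3 := tsum_subtype {e : Par p k | e ≠ 0}
    (fun e => (p : ℝ≥0∞) * ∑' h : {h : Par p k // h ≠ 0}, z3s_phi p u c s (sw e) (sw h.1))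
  refine Eq.trans ?_ e3.symm
  refine tsum_congr fun e => ?_
  rw [Set.indicator_apply]
  simp only [Set.mem_ofPred_eq]
  by_cases he : e = 0
  · simp [he]
  rw [if_pos he]
  simp only [if_pos (show e ≠ 0 from he)]
  rw [← ENNReal.tsum_mul_left, ← ENNReal.tsum_add]
  simp only [z3s_point e _ he u c (z3s_W s)]
  rw [Summable.tsum_finsetSum (fun i _ => ENNReal.summable)]
  have e4 : ∀ i ∈ Finset.range p, ∑' h : Par p k, (if h + i • e ≠ 0 then
      z3s_W s (u * sw e + c * ((p - 1) * max (sw e) (sw (h + i • e)) + sw (h + i • e))) else 0) =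
      ∑' h : {h : Par p k // h ≠ 0}, z3s_phi p u c s (sw e) (sw h.1) := by
    intro i _
    have h1 := (Equiv.addRight (i • e)).tsum_eq (fun h : Par p k => (if h ≠ 0 then
      z3s_W s (u * sw e + c * ((p - 1) * max (sw e) (sw h) + sw h)) else 0))
    have h2 := tsum_subtype {h : Par p k | h ≠ 0} (fun h => z3s_phi p u c s (sw e) (sw h))
    refine h1.trans (Eq.trans ?_ h2.symm)
    refine tsum_congr fun h => ?_
    rw [Set.indicator_apply]
    rfl
  rw [Finset.sum_congr rfl e4, Finset.sum_const, Finset.card_range, nsmul_eq_mul]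

theorem sum_Z3 (hp : 3 ≤ p) (u c : ℕ) (hc : 2 ≤ c) (s : ℝ) (hs : 1 < s)
    (hq : s ^ 2 = Fintype.card k) :
    D1 p u c k s + (p - 1 : ℕ) * D2 p u c k s = p * ENNReal.ofReal (Z3 p u c s) := by
  classical
  have hp0 : 1 < p := (Fact.out : p.Prime).one_lt
  have hp3 : (3 : ℤ) ≤ p := by exact_mod_cast hp
  have hc2 : (2 : ℤ) ≤ c := by exact_mod_cast hc
  have hu0 : (0 : ℤ) ≤ u := by positivity
  rw [z3s_D]
  congr 1
  have h1 : ∀ e : {e : Par p k // e ≠ 0}, ∑' h : {h : Par p k // h ≠ 0},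
      z3s_phi p u c s (sw e.1) (sw h.1) = ∑' n : {n : ℕ // ¬p ∣ n},
        ENNReal.ofReal (Af p s (n.1 : ℤ)) * z3s_phi p u c s (sw e.1) n.1 := fun e =>
    tsum_sw s hs hq (fun n => z3s_phi p u c s (sw e.1) n)
  simp only [h1]
  rw [tsum_sw s hs hq (fun a => ∑' n : {n : ℕ // ¬p ∣ n},
        ENNReal.ofReal (Af p s (n.1 : ℤ)) * z3s_phi p u c s a n.1)]
  simp only [← ENNReal.tsum_mul_left]
  rw [z3s_split p (fun a n => ENNReal.ofReal (Af p s (a : ℤ)) *
    (ENNReal.ofReal (Af p s (n : ℤ)) * z3s_phi p u c s a n))]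
  obtain ⟨H1, H2, H3⟩ := z3s_sums hp u c hc s hs
  have hn := z3s_Cf_nonneg (p := p)
  unfold Z3
  rw [ENNReal.ofReal_add (add_nonneg (H1.nonneg fun x => hn _ _ s hs _ _)
    (H2.nonneg fun x => hn _ _ s hs _ _)) (H3.nonneg fun x => hn _ _ s hs _ _),
    ENNReal.ofReal_add (H1.nonneg fun x => hn _ _ s hs _ _) (H2.nonneg fun x => hn _ _ s hs _ _),
    ← z3s_tsum (fun x => hn _ _ s hs _ _) H1, ← z3s_tsum (fun x => hn _ _ s hs _ _) H2,
    ← z3s_tsum (fun x => hn _ _ s hs _ _) H3]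
  congr 1
  · congr 1
    · refine tsum_congr fun x => ?_
      obtain ⟨⟨a, n⟩, h1, h2, h3⟩ := x
      simp only at h3 ⊢
      rw [z3s_Cf (p := p) (p * c) u s hs a n, ← mul_assoc, ← mul_assoc,
        mul_comm (ENNReal.ofReal (Af p s (n : ℤ)))]
      congr 1
      unfold z3s_phi
      congr 1
      rw [max_eq_right h3.le]
      obtain ⟨m, rfl⟩ : ∃ m, p = m + 1 := ⟨p - 1, by omega⟩
      rw [Nat.add_sub_cancel]
      ring
    · refine tsum_congr fun x => ?_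
      obtain ⟨⟨a, n⟩, h1, h2, h3⟩ := x
      simp only at h3 ⊢
      rw [z3s_Cf (p := p) (u + (p - 1) * c) c s hs a n]
      congr 2
      unfold z3s_phi
      congr 1
      rw [max_eq_left h3.le]
      ring
  · refine tsum_congr fun a => ?_
    rw [z3s_Cf (p := p) (u + p * c) 0 s hs a.1 a.1]
    congr 2
    unfold z3s_phi
    congr 1
    rw [max_self]
    obtain ⟨m, rfl⟩ : ∃ m, p = m + 1 := ⟨p - 1, by omega⟩
    rw [Nat.add_sub_cancel]
    ring

theorem Z3_nonneg (hp : 3 ≤ p) (u c : ℕ) (hc : 2 ≤ c) (s : ℝ) (hs : 1 < s) :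
    0 ≤ Z3 p u c s := by
  obtain ⟨H1, H2, H3⟩ := z3s_sums hp u c hc s hs
  have hn := z3s_Cf_nonneg (p := p)
  exact add_nonneg (add_nonneg (H1.nonneg fun x => hn _ _ s hs _ _)
    (H2.nonneg fun x => hn _ _ s hs _ _)) (H3.nonneg fun x => hn _ _ s hs _ _)

theorem Z1_nonneg (p : ℕ) [Fact p.Prime] (u : ℕ) (hu : 2 ≤ u) (s : ℝ) (hs : 1 < s) :
    0 ≤ Z1 p u s :=
  (z3s_Z1 (p := p) u hu s hs).nonneg fun a => mul_nonneg (z3s_Af_nonneg s hs _)
    (zpow_nonneg (by linarith) _)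

end Pool.Agent.Helper10.HS
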