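import Pool.Agent.Helper10.HS.Cone

/-!
# Project HS, piece Z4s: the sum over all torsors with group `G`

`sum_Z4`: `sum_pairs`. For `IsMin l t` the exponent is
`(tw w - w l) * sw A + w l * sw B + c * Ub (ad l t)`, `(A, B, _) = ad l t` (`sw_of_isMin`, `ad_snd`,
`lastBreak_isMin`: `⌊p * lastBreak t⌋₊ = Ub (ad l t)`), so by the bijection `ad l` (`isMin_iff`)
the sum is that of `sum_cone` with `u = tw w - w l`, `v = w l`. For `EqT t` all `sw (chi l t)` are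
`sw t.1` and `sum_ray` applies with `W = tw w`. Finally `ENNReal.ofReal_sum_of_nonneg`,
`ENNReal.ofReal_add`: all parts are nonnegative (`Zc`, the ray term: they are sums of nonnegative
terms; prove `Zc_nonneg` by `hasSum_S2`, or deduce it from `sum_cone` in the form: the real number
`Zc` is the sum of a family of nonnegative reals).
-/

namespace Pool.Agent.Helper10.HS

open scoped ENNReal

variable {p : ℕ} [Fact p.Prime] {k : Type} [Field k] [Fintype k] [CharP k p]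

private theorem Z4s_X {s : ℝ} (hs : 1 < s) {x : ℤ} (hx : x < 0) : 0 ≤ s ^ x ∧ s ^ x < 1 := by
  refine ⟨(zpow_pos (by linarith) x).le, ?_⟩
  exact zpow_lt_one_of_neg₀ hs hx

private theorem Z4s_Af (p : ℕ) {s : ℝ} (hs : 1 < s) (a : ℤ) : 0 ≤ Af p s a := by
  unfold Af
  have h1 : (0 : ℝ) ≤ s ^ (2 : ℤ) - 1 := by
    have : (1 : ℝ) ≤ s ^ (2 : ℤ) := one_le_zpow₀ hs.le (by norm_num)
    linarith
  exact mul_nonneg h1 (zpow_pos (by linarith) _).le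

private theorem Z4s_rr (hp : 3 ≤ p) (c : ℕ) (hc : 2 ≤ c) : rr p c + 2 * (p - 1) < 0 := by
  unfold rr
  have h1 : (3 : ℤ) ≤ p := by exact_mod_cast hp
  have h2 : (2 : ℤ) ≤ c := by exact_mod_cast hc
  have h3 : (2 : ℤ) * p * p ≤ c * p * p := by
    have : (0 : ℤ) ≤ (p : ℤ) * p := by positivity
    nlinarith
  nlinarith

private theorem Z4s_ry (hp : 3 ≤ p) (c : ℕ) (hc : 2 ≤ c) : ry p c + 2 * (p - 1) < 0 := by
  unfold ry
  have h1 : (3 : ℤ) ≤ p := by exact_mod_cast hp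
  have h2 : (2 : ℤ) ≤ c := by exact_mod_cast hc
  nlinarith

private theorem Z4s_ex (u : ℕ) {x : ℤ} (hx : x + 2 * (p - 1) < 0) : ex p u x < 0 := by
  unfold ex
  have : (0 : ℤ) ≤ (p : ℤ) * u := by positivity
  linarith

theorem Zc_nonneg (hp : 3 ≤ p) (c : ℕ) (hc : 2 ≤ c) (u v : ℕ) (s : ℝ) (hs : 1 < s) :
    0 ≤ Zc p c u v s := by
  have hs0 : 0 < s := by linarith
  have hX := Z4s_X hs (Z4s_ex (p := p) u (Z4s_rr hp c hc))
  have hY1 := Z4s_X hs (Z4s_ex (p := p) v (Z4s_ry hp c hc))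
  have hY2 := Z4s_X hs (Z4s_ex (p := p) v (Z4s_rr hp c hc))
  have h1 := hasSum_S2 p (by omega) (Cf p u v (Ja p c) s) (s ^ ex p u (rr p c))
    (s ^ ex p v (ry p c)) hX.1 hX.2 hY1.1 (mul_lt_one_of_nonneg_of_lt_one_left hX.1 hX.2 hY1.2.le)
    (Cf_per1 p u v (Ja p c) (rr p c) hs0 (Ja_per1 p c hs0))
    (Cf_per2 p u v (Ja p c) (ry p c) hs0 (Ja_per2 p c hs0))
  have h2 := hasSum_S2 p (by omega) (Cf p u v (Jb p c) s) (s ^ ex p u (rr p c))
    (s ^ ex p v (rr p c)) hX.1 hX.2 hY2.1 (mul_lt_one_of_nonneg_of_lt_one_left hX.1 hX.2 hY2.2.le)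
    (Cf_per1 p u v (Jb p c) (rr p c) hs0 (Jb_per1 p c hs0))
    (Cf_per2 p u v (Jb p c) (rr p c) hs0 (Jb_per2 p c hs0))
  refine (h1.add h2).nonneg fun x => ?_
  have h3 := Jab_nonneg hp c hc s hs x.1.1 x.1.2
    (Nat.pos_of_ne_zero fun h0 => x.2.2.1 (h0 ▸ dvd_zero p)) x.2.2.2.le x.2.1 x.2.2.1
  have h4 : Cf p u v (Ja p c) s (x.1.1 : ℤ) (x.1.2 : ℤ) +
      Cf p u v (Jb p c) s (x.1.1 : ℤ) (x.1.2 : ℤ) =
      Af p s x.1.1 * Af p s x.1.2 * s ^ (-(u * x.1.1 + v * x.1.2 : ℤ)) *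
        (Ja p c s x.1.1 x.1.2 + Jb p c s x.1.1 x.1.2) := by
    unfold Cf
    ring
  rw [h4]
  exact mul_nonneg (mul_nonneg (mul_nonneg (Z4s_Af p hs _) (Z4s_Af p hs _))
    (zpow_pos hs0 _).le) h3

theorem Zd_nonneg (hp : 3 ≤ p) (c : ℕ) (hc : 2 ≤ c) (W : ℕ) (s : ℝ) (hs : 1 < s) :
    0 ≤ Zd p c W s := by
  have hs0 : 0 < s := by linarith
  have hX := Z4s_ex (p := p) W (Z4s_rr hp c hc)
  have hY1 := Z4s_ex (p := p) 0 (Z4s_ry hp c hc)
  have hY2 := Z4s_ex (p := p) 0 (Z4s_rr hp c hc)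
  have hX1 := Z4s_X hs (add_neg hX hY1)
  have hX2 := Z4s_X hs (add_neg hX hY2)
  have h1 := hasSum_S1 p (by omega) (fun a => Cf p W 0 (Ja p c) s a a)
    (s ^ (ex p W (rr p c) + ex p 0 (ry p c))) hX1.1 hX1.2 (fun a => by
      change Cf p W 0 (Ja p c) s (a + p) (a + p) = _
      rw [Cf_per1 p W 0 (Ja p c) (rr p c) hs0 (Ja_per1 p c hs0),
        Cf_per2 p W 0 (Ja p c) (ry p c) hs0 (Ja_per2 p c hs0), zpow_add₀ hs0.ne']
      ring)
  have h2 := hasSum_S1 p (by omega) (fun a => Cf p W 0 (Jb p c) s a a)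
    (s ^ (ex p W (rr p c) + ex p 0 (rr p c))) hX2.1 hX2.2 (fun a => by
      change Cf p W 0 (Jb p c) s (a + p) (a + p) = _
      rw [Cf_per1 p W 0 (Jb p c) (rr p c) hs0 (Jb_per1 p c hs0),
        Cf_per2 p W 0 (Jb p c) (rr p c) hs0 (Jb_per2 p c hs0), zpow_add₀ hs0.ne']
      ring)
  refine (h1.add h2).nonneg fun x => ?_
  have h3 := Jab_nonneg hp c hc s hs x.1 x.1
    (Nat.pos_of_ne_zero fun h0 => x.2 (h0 ▸ dvd_zero p)) le_rfl x.2 x.2
  have h4 : Cf p W 0 (Ja p c) s (x.1 : ℤ) (x.1 : ℤ) +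
      Cf p W 0 (Jb p c) s (x.1 : ℤ) (x.1 : ℤ) =
      Af p s x.1 * Af p s x.1 * s ^ (-(W * x.1 + (0 : ℕ) * x.1 : ℤ)) *
        (Ja p c s x.1 x.1 + Jb p c s x.1 x.1) := by
    unfold Cf
    ring
  have h5 : 0 ≤ Af p s x.1 * Af p s x.1 * s ^ (-(W * x.1 + (0 : ℕ) * x.1 : ℤ)) *
        (Ja p c s x.1 x.1 + Jb p c s x.1 x.1) :=
    mul_nonneg (mul_nonneg (mul_nonneg (Z4s_Af p hs _) (Z4s_Af p hs _))
      (zpow_pos hs0 _).le) h3
  exact h4 ▸ h5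

private theorem Z4s_floor (U : ℕ) : ⌊(p : ℝ) * ((U : ℝ) / p)⌋₊ = U := by
  have hp0 : (p : ℝ) ≠ 0 := by
    exact_mod_cast (Fact.out : p.Prime).ne_zero
  rw [mul_div_cancel₀ _ hp0, Nat.floor_natCast]

private theorem Z4s_min (hp : 3 ≤ p) (c : ℕ) (w : Line p → ℕ) (l : Line p) (t : Tor p k)
    (h : IsMin l t) :
    (∑ l, w l * sw (chi l t) + c * ⌊(p : ℝ) * lastBreak t⌋₊ : ℤ) =
      ((tw w - w l : ℕ) * sw (ad l t).1 + w l * sw (ad l t).2.1 + c * Ub (ad l t) : ℤ) := by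
  classical
  have h1 : lastBreak t = (Ub (ad l t) : ℝ) / p := lastBreak_isMin (by omega) l t h
  rw [h1, Z4s_floor]
  have h2 : (∑ l', (w l' : ℤ) * sw (chi l' t)) =
      w l * sw (chi l t) + ∑ l' ∈ Finset.univ.erase l, (w l' : ℤ) * sw (chi l' t) :=
    (Finset.add_sum_erase _ (fun l' => (w l' : ℤ) * sw (chi l' t)) (Finset.mem_univ l)).symm
  have h3 : ∑ l' ∈ Finset.univ.erase l, (w l' : ℤ) * sw (chi l' t) =
      (∑ l' ∈ Finset.univ.erase l, (w l' : ℤ)) * sw (ad l t).1 := by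
    rw [Finset.sum_mul]
    refine Finset.sum_congr rfl fun l' hl' => ?_
    rw [sw_of_isMin l t h l' (Finset.ne_of_mem_erase hl')]
  have h4 : ((tw w - w l : ℕ) : ℤ) = ∑ l' ∈ Finset.univ.erase l, (w l' : ℤ) := by
    have h5 : tw w = w l + ∑ l' ∈ Finset.univ.erase l, w l' := by
      exact (Finset.add_sum_erase _ w (Finset.mem_univ l)).symm
    rw [h5, Nat.add_sub_cancel_left]
    push_cast
    rfl
  have h0 : ((∑ l', w l' * sw (chi l' t) : ℕ) : ℤ) = ∑ l', (w l' : ℤ) * sw (chi l' t) := by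
    push_cast
    rfl
  rw [h0, h2, h3, h4, ad_snd]
  ring

private theorem Z4s_eqT (hp : 3 ≤ p) (c : ℕ) (w : Line p → ℕ) (t : Tor p k) (h : EqT t) :
    (∑ l, w l * sw (chi l t) + c * ⌊(p : ℝ) * lastBreak t⌋₊ : ℤ) =
      (tw w * sw t.1 + c * Ub t : ℤ) := by
  have h1 : lastBreak t = (Ub t : ℝ) / p := lastBreak_eqT (by omega) t h
  rw [h1, Z4s_floor]
  have h2 : (∑ l', (w l' : ℤ) * sw (chi l' t)) = tw w * sw t.1 := by
    unfold tw
    push_cast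
    rw [Finset.sum_mul]
    refine Finset.sum_congr rfl fun l' _ => ?_
    rw [sw_of_eqT t h l']
  have h0 : ((∑ l', w l' * sw (chi l' t) : ℕ) : ℤ) = ∑ l', (w l' : ℤ) * sw (chi l' t) := by
    push_cast
    rfl
  rw [h0, h2]

theorem sum_Z4 (hp : 3 ≤ p) (c : ℕ) (hc : 2 ≤ c) (w : Line p → ℕ) (s : ℝ) (hs : 1 < s)
    (hq : s ^ 2 = Fintype.card k) :
    ∑' t : {t : Tor p k // Indep t},
      ENNReal.ofReal (s ^ (-(∑ l, w l * sw (chi l t.1) + c * ⌊(p : ℝ) * lastBreak t.1⌋₊ : ℤ))) =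
    ENNReal.ofReal (Z4 p c w s) := by
  have hs0 : 0 < s := by linarith
  rw [sum_pairs (fun t : Tor p k =>
    ENNReal.ofReal (s ^ (-(∑ l, w l * sw (chi l t) + c * ⌊(p : ℝ) * lastBreak t⌋₊ : ℤ))))]
  have h1 : ∀ l : Line p, ∑' t : {t : Tor p k // IsMin l t},
      ENNReal.ofReal (s ^ (-(∑ l, w l * sw (chi l t.1) + c * ⌊(p : ℝ) * lastBreak t.1⌋₊ : ℤ))) =
      ENNReal.ofReal (Zc p c (tw w - w l) (w l) s) := by
    intro l
    rw [← sum_cone (k := k) hp c hc (tw w - w l) (w l) s hs hq]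
    refine Eq.trans ?_ (Equiv.tsum_eq (Equiv.subtypeEquiv (p := fun t : Tor p k => IsMin l t)
      (q := fun t : Tor p k => 0 < sw t.2.1 ∧ sw t.2.1 < sw t.1) (ad l) (isMin_iff l)) _)
    refine tsum_congr fun t => ?_
    rw [Z4s_min hp c w l t.1 t.2]
    rfl
  have h2 : ∑' t : {t : Tor p k // EqT t},
      ENNReal.ofReal (s ^ (-(∑ l, w l * sw (chi l t.1) + c * ⌊(p : ℝ) * lastBreak t.1⌋₊ : ℤ))) =
      ENNReal.ofReal ((s ^ (2 : ℤ) - p) * (s ^ (2 : ℤ) - 1)⁻¹ * Zd p c (tw w) s) := by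
    rw [← sum_ray (k := k) hp c hc (tw w) s hs hq]
    refine tsum_congr fun t => ?_
    rw [Z4s_eqT hp c w t.1 t.2]
  have h3 : (p : ℝ) ≤ s ^ (2 : ℤ) := by
    have e1 : s ^ (2 : ℤ) = s ^ 2 := by norm_cast
    rw [e1, hq]
    have e2 : p ≤ Fintype.card k := by
      obtain ⟨n, _, hn⟩ := FiniteField.card k p
      rw [hn]
      exact Nat.le_self_pow n.ne_zero p
    exact_mod_cast e2
  have h4 : (1 : ℝ) ≤ s ^ (2 : ℤ) := one_le_zpow₀ hs.le (by norm_num)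
  unfold Z4
  rw [ENNReal.ofReal_add, ENNReal.ofReal_sum_of_nonneg]
  · rw [← h2]
    congr 1
    exact Finset.sum_congr rfl fun l _ => h1 l
  · exact fun l _ => Zc_nonneg hp c hc _ _ s hs
  · exact Finset.sum_nonneg fun l _ => Zc_nonneg hp c hc _ _ s hs
  · exact mul_nonneg (mul_nonneg (by linarith) (inv_nonneg.2 (by linarith)))
      (Zd_nonneg hp c hc _ s hs)

end Pool.Agent.Helper10.HS
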