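import Pool.Agent.Helper10.HS.Dep
import Pool.Agent.Helper10.HS.Z4s
import Pool.Agent.Helper10.HS.Z3s

/-!
# Project HS, piece Total: the total sum

`WE B E s t = s ^ (E (codV t) + codV t - 2 vV t)`, for an arbitrary function `E`. By `sum_stable`
(`iso_cV`) the sum over the stable classes is the sum over `{t // StT r t}` of `WE t / orbN t`; the set
is the disjoint union of the three sets in `sum_zero`, `sum_ind`, `sum_dep`.

`part_zero`: `h = 0` gives `s ^ E 0` (`cV_zero`), the `h ≠ 0` give `s ^ E (cN p)` times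
`∑' h ≠ 0, s ^ (-(cN p) sw h)` (`cV_center`, `sum_Z1`).

`part_ind`: `sum_ind` with `W = WE` (invariant by `cV_indep` and `lastBreak_shift`: the `chi l` and
`Indep` do not involve `h`), then `cV_indep` for `mapT φ t`: the exponent is
`E κ - ∑ w4 l sw (chi l t) - cN p lastBreak t`, `κ = tw (w4 B) + cN p`; `chi l (mapT φ t)` and
`lastBreak (mapT φ t)` are those of `t` (`sw_mapP`, `lastBreak_mapT`), `p lastBreak t` is a natural
number (`lastBreak_isMin`, `lastBreak_eqT`, `indep_iff`), and `sum_Z4`.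

`part_dep`: for `c = 0` (`ρ 0 = 0`) the `h` with `h + j • e = 0` for some (exactly one) `j < p`
contribute `p * s ^ (E (wl + cN (p - 1)) - (wl + cN (p - 1)) sw e)` in total (`cV_dep`; the other
`h + j' • e` are nonzero multiples of `e`), and the other `h` contribute
`s ^ (E (wl + cN p) - wl sw e - cN ∑ sw (h + j • e))`: this is `D1`. For `c ≠ 0`,
`h' = mapP φ h + ρ c • mapP φ e` has `sw (h' + j • mapP φ e) = max (sw e) (sw h)` for all `j` (if
`sw h ≤ sw e = a`, the coefficient at `a` is `φ (h_a) + (ρ c + j) φ (e_a) ≠ 0` by `as_notMem`; if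
`sw h > sw e` it is clear), all of them are nonzero: `p - 1` times `D2`. With `sum_Z1`, `sum_Z3`.
-/

namespace Pool.Agent.Helper10.HS

open scoped ENNReal

variable {p : ℕ} [Fact p.Prime] {m : ℕ} (B : Fin m → Subgroup (Heis p))
  {k F : Type} [Field k] [Field F] [CharP k p] [CharP F p] [Fintype k] [IsAlgClosed F]

/-- the weight of a torsor -/
noncomputable def WE (E : ℕ → ℤ) (s : ℝ) (t : Tor p F) : ℝ≥0∞ :=
  ENNReal.ofReal (s ^ ((E (codV B t) : ℝ) + codV B t - 2 * vV B t))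

private theorem Total1_card {s : ℝ} {r : ℕ} (hq : s ^ 2 = (p : ℝ) ^ r)
    (hk : Fintype.card k = p ^ r) : s ^ 2 = Fintype.card k := by
  rw [hq, hk]
  push_cast
  rfl

private theorem Total1_two (hc : 2 ≤ cN B) {n : ℕ} (hn : 0 < n) (x : ℕ) :
    2 ≤ x + cN B * n := by
  have h1 : cN B * 1 ≤ cN B * n := Nat.mul_le_mul_left _ hn
  omega

private theorem Total1_zero {X : Type} [Zero X] (f : X → ℝ≥0∞) :
    ∑' x, f x = f 0 + ∑' x : {x : X // x ≠ 0}, f x.1 := by
  have h1 := Summable.tsum_add_tsum_compl (f := f) (s := {(0 : X)}) ENNReal.summable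
    ENNReal.summable
  rw [← h1, tsum_singleton (0 : X) f]
  rfl

private theorem Total1_at_zero (E : ℕ → ℤ) (s : ℝ) :
    WE B E s (0 : Tor p F) = ENNReal.ofReal (s ^ E 0) := by
  unfold WE
  rw [(cV_zero B).1, (cV_zero B).2]
  simp only [Nat.cast_zero, add_zero, mul_zero, sub_zero, Real.rpow_intCast]

private theorem Total1_center (E : ℕ → ℤ) {s : ℝ} (hs0 : 0 < s) (φ : k →+* F) (h : Par p k)
    (hh : h ≠ 0) : WE B E s ((0, 0, mapP φ h) : Tor p F) =
      ENNReal.ofReal (s ^ E (cN B * p)) *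
        ENNReal.ofReal (s ^ (-((cN B * p : ℕ) * sw h : ℤ))) := by
  have h4 : mapP φ h ≠ 0 := fun h0 => hh ((mapP_eq_zero φ h).1 h0)
  obtain ⟨h5, h6⟩ := cV_center B (mapP φ h) h4
  unfold WE
  rw [h5, h6, sw_mapP, ← ENNReal.ofReal_mul (zpow_nonneg hs0.le _), ← zpow_add₀ hs0.ne',
    ← Real.rpow_intCast]
  congr 2
  push_cast
  ring

theorem part_zero (hc : 2 ≤ cN B) (E : ℕ → ℤ) (s : ℝ) (hs : 1 < s) (r : ℕ) (hr : 0 < r)
    (hq : s ^ 2 = (p : ℝ) ^ r) (hk : Fintype.card k = p ^ r) (φ : k →+* F) :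
    ∑' t : {t : Tor p F // StT r t ∧ t.1 = 0 ∧ t.2.1 = 0}, WE B E s t.1 =
      ENNReal.ofReal (s ^ E 0 + s ^ E (cN B * p) * Z1 p (cN B * p) s) := by
  have hs0 : 0 < s := by linarith
  have hq' := Total1_card (k := k) hq hk
  have hp0 : 0 < p := (Fact.out : p.Prime).pos
  have h2 : 2 ≤ cN B * p := by
    have := Total1_two B hc hp0 0
    omega
  have h3 := Total1_zero (fun h : Par p k => WE B E s ((0, 0, mapP φ h) : Tor p F))
  have e0 : WE B E s ((0, 0, mapP φ (0 : Par p k)) : Tor p F) = ENNReal.ofReal (s ^ E 0) := by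
    rw [mapP_zero]
    exact Total1_at_zero B E s
  have e2 : ∑' h : {h : Par p k // h ≠ 0}, WE B E s ((0, 0, mapP φ h.1) : Tor p F) =
      ENNReal.ofReal (s ^ E (cN B * p)) * ENNReal.ofReal (Z1 p (cN B * p) s) := by
    rw [← sum_Z1 (cN B * p) h2 s hs hq', ← ENNReal.tsum_mul_left]
    exact tsum_congr fun h => Total1_center B E hs0 φ h.1 h.2
  refine (sum_zero r hk φ (WE B E s)).trans (h3.trans ?_)
  refine (congrArg₂ (· + ·) e0 e2).trans ?_
  change _ + _ = _
  rw [← ENNReal.ofReal_mul (zpow_nonneg hs0.le _), ← ENNReal.ofReal_add (zpow_nonneg hs0.le _)]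
  exact mul_nonneg (zpow_nonneg hs0.le _) (Z1_nonneg p _ h2 s hs)

private theorem pi_nat {K : Type} [Field K] [CharP K p] (hp : 3 ≤ p) (t : Tor p K)
    (h : Indep t) :
    (p : ℝ) * lastBreak t = (⌊(p : ℝ) * lastBreak t⌋₊ : ℕ) := by
  have hp0 : (p : ℝ) ≠ 0 := by exact_mod_cast (Fact.out : p.Prime).ne_zero
  rcases (indep_iff t).1 h with ⟨l, hl⟩ | he
  · rw [lastBreak_isMin (by omega) l t hl, mul_div_cancel₀ _ hp0, Nat.floor_natCast]
  · rw [lastBreak_eqT (by omega) t he, mul_div_cancel₀ _ hp0, Nat.floor_natCast]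

private theorem pi_chi {K L : Type} [Field K] [Field L] [CharP K p] [CharP L p] (φ : K →+* L)
    (l : Line p) (t : Tor p K) : sw (chi l (mapT φ t)) = sw (chi l t) := by
  cases l with
  | none => exact sw_mapP φ t.1
  | some c =>
    have e : chi (some c) (mapT φ t) = mapP φ (chi (some c) t) := by
      change c.val • mapP φ t.1 + mapP φ t.2.1 = mapP φ (c.val • t.1 + t.2.1)
      rw [mapP_add, mapP_nsmul]
    rw [e, sw_mapP]

theorem part_ind (hp : 3 ≤ p) (hc : 2 ≤ cN B) (E : ℕ → ℤ) (s : ℝ) (hs : 1 < s) (r : ℕ)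
    (hr : 0 < r) (hq : s ^ 2 = (p : ℝ) ^ r) (hk : Fintype.card k = p ^ r) (φ : k →+* F) :
    ∑' t : {t : Tor p F // StT r t ∧ Indep t}, WE B E s t.1 =
      (p : ℝ≥0∞) ^ 2 * ENNReal.ofReal (s ^ E (tw (w4 B) + cN B * p) * Z4 p (cN B) (w4 B) s) := by
  have hs0 : 0 < s := by linarith
  have hp2 : p ≠ 2 := by omega
  have hq' : s ^ 2 = Fintype.card k := by
    rw [hq, hk]
    push_cast
    rfl
  have hW : ∀ t : Tor p F, Indep t → ∀ α β : F,
      WE B E s (t.1, t.2.1, t.2.2 + α • t.1 + β • t.2.1) = WE B E s t := by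
    intro t ht α β
    have ht' : Indep (t.1, t.2.1, t.2.2 + α • t.1 + β • t.2.1) := ht
    have e1 := cV_indep B t ht
    have e2 := cV_indep B _ ht'
    have e3 := lastBreak_shift hp2 t ht α β
    have e4 : ∀ l : Line p, chi l (t.1, t.2.1, t.2.2 + α • t.1 + β • t.2.1) = chi l t := by
      intro l
      cases l with
      | none => rfl
      | some c => rfl
    unfold WE
    rw [e1.1, e1.2, e2.1, e2.2, e3]
    simp only [e4]
  rw [sum_ind r hr hk φ (WE B E s) hW]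
  congr 1
  rw [ENNReal.ofReal_mul (zpow_pos hs0 _).le, ← sum_Z4 hp (cN B) hc (w4 B) s hs hq',
    ← ENNReal.tsum_mul_left]
  refine tsum_congr fun t => ?_
  have hi : Indep (mapT φ t.1) := (indep_mapT φ t.1).2 t.2
  have e1 := cV_indep B _ hi
  have e2 := pi_nat hp t.1 t.2
  rw [← ENNReal.ofReal_mul (zpow_pos hs0 _).le, ← zpow_add₀ hs0.ne']
  unfold WE
  rw [← Real.rpow_intCast]
  congr 2
  rw [e1.1, e1.2, lastBreak_mapT]
  simp only [pi_chi]
  push_cast
  rw [← e2]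
  ring

open Classical in
omit [IsAlgClosed F] in
private theorem Total3_W (E : ℕ → ℤ) (s : ℝ) (L : Line p) (e : Par p F) (he : e ≠ 0)
    (h : Par p F) (n S : ℕ)
    (hn : ((Finset.range p).filter fun j => h + j • e ≠ 0).card = n)
    (hS : ∑ j ∈ Finset.range p, sw (h + j • e) = S) :
    WE B E s ((vec L e).1, (vec L e).2, h) =
      ENNReal.ofReal (s ^ (E (wl B L + cN B * n) - (wl B L * sw e + cN B * S) : ℤ)) := by
  obtain ⟨h1, h2⟩ := cV_dep B L e he h
  rw [hn] at h1 h2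
  rw [hS] at h2
  unfold WE
  rw [h1, h2, ← Real.rpow_intCast]
  congr 2
  push_cast
  ring

private theorem Total3_inj {e : Par p k} (he : e ≠ 0) {i j : ℕ} (hi : i < p) (hj : j < p)
    (h : i • e = j • e) : i = j := by
  have h1 : (i : k) * e.1 (sw e) = (j : k) * e.1 (sw e) := by
    rw [← par_nsmul, ← par_nsmul, h]
  have h2 := mul_right_cancel₀ (sw_spec he) h1
  exact CharP.natCast_injOn_Iio k p hi hj h2

private theorem Total3_sw {e : Par p k} (he : e ≠ 0) {i j : ℕ} (hi : i < p) (hj : j < p)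
    (hij : j ≠ i) : sw (-(i • e) + j • e) = sw e := by
  have h1 : -(i • e) + j • e = ((j : k) - (i : k)) • e := by
    apply par_ext
    intro x
    rw [par_add, par_neg, par_nsmul, par_nsmul, par_smul]
    ring
  rw [h1, sw_smul]
  intro h2
  exact hij (CharP.natCast_injOn_Iio k p hj hi (sub_eq_zero.1 h2))

private theorem Total3_nac (f : Par p k) : -f + f = 0 := by
  apply par_ext
  intro x
  rw [par_add, par_neg, par_zero, neg_add_cancel]

private theorem Total3_eqn {h f : Par p k} (h1 : h + f = 0) : -f = h := by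
  apply par_ext
  intro x
  have h2 : h.1 x + f.1 x = 0 := by rw [← par_add, h1, par_zero]
  rw [par_neg]
  linear_combination -h2

private theorem Total3_eqp {g f : Par p k} (h1 : -f + g = 0) : g = f := by
  apply par_ext
  intro x
  have h2 : -f.1 x + g.1 x = 0 := by rw [← par_neg, ← par_add, h1, par_zero]
  linear_combination h2

private theorem Total3_max (φ : k →+* F) {e h : Par p k} (he : e ≠ 0) (σ : F)
    (hσ : ∀ y, σ ≠ φ y) :
    sw (mapP φ h + σ • mapP φ e) = max (sw e) (sw h) := by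
  rcases le_or_gt (sw h) (sw e) with h1 | h1
  · rw [max_eq_left h1]
    apply sw_eq_of
    · rw [par_add, par_smul, mapP_apply, mapP_apply]
      intro h2
      have h3 : φ (e.1 (sw e)) ≠ 0 := by
        rw [Ne, map_eq_zero]
        exact sw_spec he
      apply hσ (-(h.1 (sw e)) / e.1 (sw e))
      rw [map_div₀, map_neg, eq_div_iff h3]
      linear_combination h2
    · intro i hi
      rw [par_add, par_smul, mapP_apply, mapP_apply, eq_zero_of_sw_lt hi,
        eq_zero_of_sw_lt (lt_of_le_of_lt h1 hi), map_zero, mul_zero, add_zero]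
  · rw [max_eq_right h1.le]
    have hh : h ≠ 0 := by
      rintro rfl
      simp at h1
    apply sw_eq_of
    · rw [par_add, par_smul, mapP_apply, mapP_apply, eq_zero_of_sw_lt h1, map_zero, mul_zero,
        add_zero, Ne, map_eq_zero]
      exact sw_spec hh
    · intro i hi
      rw [par_add, par_smul, mapP_apply, mapP_apply, eq_zero_of_sw_lt hi,
        eq_zero_of_sw_lt (h1.trans hi), map_zero, mul_zero, add_zero]

/-- the pairs `(e, h)` with `h ∉ 𝔽_p e` -/
private def Total3_e1 (p : ℕ) (k : Type) [Field k] :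
    (Σ e : {e : Par p k // e ≠ 0}, {h : Par p k | ∀ j ∈ Finset.range p, h + j • e.1 ≠ 0}) ≃
      {x : Par p k × Par p k // x.1 ≠ 0 ∧ ∀ j ∈ Finset.range p, x.2 + j • x.1 ≠ 0} where
  toFun x := ⟨(x.1.1, x.2.1), x.1.2, x.2.2⟩
  invFun x := ⟨⟨x.1.1, x.2.1⟩, ⟨x.1.2, x.2.2⟩⟩
  left_inv _ := rfl
  right_inv _ := rfl

/-- the pairs `(e, h)` with `e ≠ 0` -/
private def Total3_e2 (p : ℕ) (k : Type) [Field k] :
    ({e : Par p k // e ≠ 0} × Par p k) ≃ {x : Par p k × Par p k // x.1 ≠ 0} where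
  toFun x := ⟨(x.1.1, x.2), x.1.2⟩
  invFun x := ⟨⟨x.1.1, x.2⟩, x.1.2⟩
  left_inv _ := rfl
  right_inv _ := rfl

private theorem Total3_zpow {s : ℝ} (hs : 0 < s) (x y : ℤ) :
    ENNReal.ofReal (s ^ (x - y)) = ENNReal.ofReal (s ^ x) * ENNReal.ofReal (s ^ (-y)) := by
  rw [← ENNReal.ofReal_mul (zpow_pos hs x).le, ← zpow_add₀ hs.ne', sub_eq_add_neg]

private theorem Total3_bad {e : Par p k} (he : e ≠ 0) (f : Par p k → ℝ≥0∞) (C : ℝ≥0∞)
    (hf : ∀ i < p, f (-(i • e)) = C) :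
    ∑' h : ({h : Par p k | ∀ j ∈ Finset.range p, h + j • e ≠ 0}ᶜ : Set (Par p k)), f h =
      p * C := by
  have h1 : Set.BijOn (fun i : ℕ => -(i • e)) (Finset.range p : Set ℕ)
      ({h : Par p k | ∀ j ∈ Finset.range p, h + j • e ≠ 0}ᶜ : Set (Par p k)) := by
    refine ⟨?_, ?_, ?_⟩
    · intro i hi h2
      have h3 : -(i • e) + i • e = 0 := Total3_nac _
      exact h2 i (Finset.mem_coe.1 hi) h3
    · intro i hi j hj h2
      exact Total3_inj he (Finset.mem_range.1 (Finset.mem_coe.1 hi))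
        (Finset.mem_range.1 (Finset.mem_coe.1 hj)) (neg_injective h2)
    · intro h hh
      have hh' : ¬ ∀ j ∈ Finset.range p, h + j • e ≠ 0 := hh
      push Not at hh'
      obtain ⟨j, hj, h2⟩ := hh'
      have h3 : -(j • e) = h := Total3_eqn h2
      exact ⟨j, Finset.mem_coe.2 hj, h3⟩
  rw [← (Set.BijOn.equiv _ h1).tsum_eq]
  have h2 : ∀ i : (Finset.range p : Set ℕ), f ((Set.BijOn.equiv _ h1 i : _) : Par p k) = C := by
    intro i
    exact hf i.1 (Finset.mem_range.1 (Finset.mem_coe.1 i.2))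
  rw [tsum_congr h2]
  have h3 : ∑' _i : (Finset.range p : Set ℕ), C = ∑ _i ∈ Finset.range p, C :=
    Finset.tsum_subtype' (Finset.range p) (fun _ => C)
  rw [h3, Finset.sum_const, Finset.card_range, nsmul_eq_mul]

open Classical in
private theorem Total3_L (hp : 3 ≤ p) (hc : 2 ≤ cN B) (E : ℕ → ℤ) (s : ℝ) (hs : 1 < s) (r : ℕ)
    (hq : s ^ 2 = (p : ℝ) ^ r) (hk : Fintype.card k = p ^ r) (φ : k →+* F)
    (ρ : ZMod p → F) (hρ0 : ρ 0 = 0) (hρ : ∀ c, ρ c ^ p ^ r = ρ c + (c.val : F)) (L : Line p) :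
    ∑' e : {e : Par p k // e ≠ 0}, ∑ c : ZMod p, ∑' h : Par p k,
        WE B E s ((vec L (mapP φ e.1)).1, (vec L (mapP φ e.1)).2,
          mapP φ h + ρ c • mapP φ e.1) =
      (p : ℝ≥0∞) * ENNReal.ofReal
        (s ^ E (wl B L + cN B * (p - 1)) * Z1 p (wl B L + cN B * (p - 1)) s +
          s ^ E (wl B L + cN B * p) * Z3 p (wl B L) (cN B) s) := by
  have hs0 : 0 < s := by linarith
  have hq' : s ^ 2 = Fintype.card k := by
    rw [hq, hk]
    push_cast
    rfl
  set u := wl B L with hu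
  set c₀ := cN B with hc₀
  have hu1 : 2 ≤ u + c₀ * (p - 1) := by
    have : c₀ * 1 ≤ c₀ * (p - 1) := Nat.mul_le_mul_left _ (by omega)
    omega
  -- `c = 0`
  have h0 : ∀ e : {e : Par p k // e ≠ 0}, ∑' h : Par p k,
      WE B E s ((vec L (mapP φ e.1)).1, (vec L (mapP φ e.1)).2, mapP φ h + ρ 0 • mapP φ e.1) =
      ENNReal.ofReal (s ^ E (u + c₀ * p)) *
        (∑' h : {h : Par p k | ∀ j ∈ Finset.range p, h + j • e.1 ≠ 0}, ENNReal.ofReal
          (s ^ (-(u * sw e.1 + c₀ * ∑ j ∈ Finset.range p, sw (h.1 + j • e.1) : ℤ)))) +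
      p * (ENNReal.ofReal (s ^ E (u + c₀ * (p - 1))) *
        ENNReal.ofReal (s ^ (-((u + c₀ * (p - 1) : ℕ) * sw e.1 : ℤ)))) := by
    intro e
    have he' : mapP φ e.1 ≠ 0 := fun h => e.2 ((mapP_eq_zero φ e.1).1 h)
    have hW : ∀ h : Par p k, mapP φ h + ρ 0 • mapP φ e.1 = mapP φ h := by
      intro h
      rw [hρ0, zero_smul, add_zero]
    have hj : ∀ (h : Par p k) (j : ℕ), mapP φ h + j • mapP φ e.1 = mapP φ (h + j • e.1) := by
      intro h j
      rw [mapP_add, mapP_nsmul]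
    rw [tsum_congr fun h => by rw [hW h]]
    rw [← (ENNReal.summable (f := fun h : {h : Par p k |
      ∀ j ∈ Finset.range p, h + j • e.1 ≠ 0} => WE B E s ((vec L (mapP φ e.1)).1,
        (vec L (mapP φ e.1)).2, mapP φ h.1))).tsum_add_tsum_compl ENNReal.summable
        (f := fun h : Par p k => WE B E s ((vec L (mapP φ e.1)).1,
        (vec L (mapP φ e.1)).2, mapP φ h))]
    congr 1
    · rw [← ENNReal.tsum_mul_left]
      refine tsum_congr fun h => ?_
      have hh := h.2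
      rw [Total3_W B E s L _ he' (mapP φ h.1) p (∑ j ∈ Finset.range p, sw (h.1 + j • e.1)),
        Total3_zpow hs0, sw_mapP]
      · rw [Finset.filter_true_of_mem, Finset.card_range]
        intro j hj1
        rw [hj, Ne, mapP_eq_zero]
        exact hh j hj1
      · refine Finset.sum_congr rfl fun j _ => ?_
        rw [hj, sw_mapP]
    · refine Total3_bad e.2 (fun h => WE B E s ((vec L (mapP φ e.1)).1,
        (vec L (mapP φ e.1)).2, mapP φ h)) _ fun i hi => ?_
      rw [Total3_W B E s L _ he' (mapP φ (-(i • e.1))) (p - 1) ((p - 1) * sw e.1), sw_mapP,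
        ← Total3_zpow hs0]
      · congr 3
        push_cast
        ring
      · have h3 : (Finset.range p).filter
            (fun j => mapP φ (-(i • e.1)) + j • mapP φ e.1 ≠ 0) = (Finset.range p).erase i := by
          ext j
          rw [Finset.mem_filter, Finset.mem_erase, and_comm, hj, Ne, mapP_eq_zero]
          refine and_congr_left fun hj1 => not_congr ⟨fun h4 => ?_, fun h4 => ?_⟩
          · have h5 : j • e.1 = i • e.1 := Total3_eqp h4
            exact Total3_inj e.2 (Finset.mem_range.1 hj1) hi h5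
          · rw [h4, Total3_nac]
        rw [h3, Finset.card_erase_of_mem (Finset.mem_range.2 hi), Finset.card_range]
      · rw [← Finset.add_sum_erase _ _ (Finset.mem_range.2 hi)]
        have h4 : sw (mapP φ (-(i • e.1)) + i • mapP φ e.1) = 0 := by
          rw [hj, Total3_nac, mapP_zero, sw_zero]
        have h5 : ∀ j ∈ (Finset.range p).erase i,
            sw (mapP φ (-(i • e.1)) + j • mapP φ e.1) = sw e.1 := by
          intro j hj1
          rw [Finset.mem_erase, Finset.mem_range] at hj1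
          rw [hj, sw_mapP]
          exact Total3_sw e.2 hi hj1.2 hj1.1
        rw [h4, Finset.sum_congr rfl h5, Finset.sum_const,
          Finset.card_erase_of_mem (Finset.mem_range.2 hi), Finset.card_range, zero_add,
          smul_eq_mul]
  -- `c ≠ 0`
  have h1 : ∀ (e : {e : Par p k // e ≠ 0}) (c : ZMod p), c ≠ 0 → ∑' h : Par p k,
      WE B E s ((vec L (mapP φ e.1)).1, (vec L (mapP φ e.1)).2, mapP φ h + ρ c • mapP φ e.1) =
      ENNReal.ofReal (s ^ E (u + c₀ * p)) * ∑' h : Par p k, ENNReal.ofReal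
          (s ^ (-(u * sw e.1 + c₀ * (p * max (sw e.1) (sw h)) : ℤ))) := by
    intro e c hc0
    have he' : mapP φ e.1 ≠ 0 := fun h => e.2 ((mapP_eq_zero φ e.1).1 h)
    rw [← ENNReal.tsum_mul_left]
    refine tsum_congr fun h => ?_
    have hj : ∀ j : ℕ, sw (mapP φ h + ρ c • mapP φ e.1 + j • mapP φ e.1) =
        max (sw e.1) (sw h) := by
      intro j
      have h2 : mapP φ h + ρ c • mapP φ e.1 + j • mapP φ e.1 =
          mapP φ h + (ρ c + j) • mapP φ e.1 := by
        apply par_ext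
        intro x
        rw [par_add, par_add, par_smul, par_nsmul, par_add, par_smul]
        ring
      rw [h2]
      exact Total3_max φ e.2 _ (as_notMem r hk φ (ρ c) c hc0 (hρ c) · j)
    rw [Total3_W B E s L _ he' _ p (p * max (sw e.1) (sw h)), Total3_zpow hs0, sw_mapP]
    · push_cast
      rfl
    · rw [Finset.filter_true_of_mem, Finset.card_range]
      intro j _ h2
      have h3 := hj j
      rw [h2, sw_zero] at h3
      have h4 := sw_pos e.2
      have h5 := le_max_left (sw e.1) (sw h)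
      omega
    · rw [Finset.sum_congr rfl fun j _ => hj j, Finset.sum_const, Finset.card_range,
        smul_eq_mul]
  have h2 : ∀ e : {e : Par p k // e ≠ 0}, ∑ c : ZMod p, ∑' h : Par p k,
      WE B E s ((vec L (mapP φ e.1)).1, (vec L (mapP φ e.1)).2, mapP φ h + ρ c • mapP φ e.1) =
      (ENNReal.ofReal (s ^ E (u + c₀ * p)) *
        (∑' h : {h : Par p k | ∀ j ∈ Finset.range p, h + j • e.1 ≠ 0}, ENNReal.ofReal
          (s ^ (-(u * sw e.1 + c₀ * ∑ j ∈ Finset.range p, sw (h.1 + j • e.1) : ℤ)))) +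
      p * (ENNReal.ofReal (s ^ E (u + c₀ * (p - 1))) *
        ENNReal.ofReal (s ^ (-((u + c₀ * (p - 1) : ℕ) * sw e.1 : ℤ))))) +
      (p - 1 : ℕ) * (ENNReal.ofReal (s ^ E (u + c₀ * p)) * ∑' h : Par p k, ENNReal.ofReal
          (s ^ (-(u * sw e.1 + c₀ * (p * max (sw e.1) (sw h)) : ℤ)))) := by
    intro e
    rw [← Finset.add_sum_erase _ _ (Finset.mem_univ (0 : ZMod p)), h0 e]
    congr 1
    rw [Finset.sum_congr rfl fun c hc1 => h1 e c (Finset.ne_of_mem_erase hc1), Finset.sum_const,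
      Finset.card_erase_of_mem (Finset.mem_univ _), Finset.card_univ, ZMod.card, nsmul_eq_mul]
  rw [tsum_congr h2, ENNReal.tsum_add, ENNReal.tsum_add, ENNReal.tsum_mul_left,
    ENNReal.tsum_mul_left, ENNReal.tsum_mul_left, ENNReal.tsum_mul_left, ENNReal.tsum_mul_left]
  have hD1 : ∑' e : {e : Par p k // e ≠ 0},
      (∑' h : {h : Par p k | ∀ j ∈ Finset.range p, h + j • e.1 ≠ 0}, ENNReal.ofReal
          (s ^ (-(u * sw e.1 + c₀ * ∑ j ∈ Finset.range p, sw (h.1 + j • e.1) : ℤ)))) =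
      D1 p u c₀ k s := by
    unfold D1
    rw [← (Total3_e1 p k).tsum_eq, ENNReal.tsum_sigma']
    rfl
  have hD2 : ∑' e : {e : Par p k // e ≠ 0}, ∑' h : Par p k, ENNReal.ofReal
          (s ^ (-(u * sw e.1 + c₀ * (p * max (sw e.1) (sw h)) : ℤ))) = D2 p u c₀ k s := by
    unfold D2
    rw [← (Total3_e2 p k).tsum_eq, ENNReal.tsum_prod']
    rfl
  rw [hD1, hD2, sum_Z1 (k := k) (u + c₀ * (p - 1)) hu1 s hs hq']
  have hZ3 := sum_Z3 (k := k) hp u c₀ hc s hs hq'
  have hZ1n := Z1_nonneg p (u + c₀ * (p - 1)) hu1 s hs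
  have hZ3n := Z3_nonneg (p := p) hp u c₀ hc s hs
  rw [ENNReal.ofReal_add (mul_nonneg (zpow_pos hs0 _).le hZ1n)
    (mul_nonneg (zpow_pos hs0 _).le hZ3n), ENNReal.ofReal_mul (zpow_pos hs0 _).le,
    ENNReal.ofReal_mul (zpow_pos hs0 _).le]
  calc _ = ENNReal.ofReal (s ^ E (u + c₀ * p)) * (D1 p u c₀ k s + (p - 1 : ℕ) * D2 p u c₀ k s) +
        p * (ENNReal.ofReal (s ^ E (u + c₀ * (p - 1))) *
          ENNReal.ofReal (Z1 p (u + c₀ * (p - 1)) s)) := by ring
    _ = _ := by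
      rw [hZ3]
      ring

theorem part_dep (hp : 3 ≤ p) (hc : 2 ≤ cN B) (E : ℕ → ℤ) (s : ℝ) (hs : 1 < s) (r : ℕ)
    (hr : 0 < r) (hq : s ^ 2 = (p : ℝ) ^ r) (hk : Fintype.card k = p ^ r) (φ : k →+* F) :
    ∑' t : {t : Tor p F // StT r t ∧ ¬Indep t ∧ ¬(t.1 = 0 ∧ t.2.1 = 0)}, WE B E s t.1 =
      (p : ℝ≥0∞) * ENNReal.ofReal (∑ L : Line p,
        (s ^ E (wl B L + cN B * (p - 1)) * Z1 p (wl B L + cN B * (p - 1)) s +
          s ^ E (wl B L + cN B * p) * Z3 p (wl B L) (cN B) s)) := by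
  have hs0 : 0 < s := by linarith
  obtain ⟨ρ, hρ0, hρ⟩ := exists_as (p := p) (F := F) r hr
  rw [sum_dep r hk φ (WE B E s) ρ hρ,
    Finset.sum_congr rfl fun L _ => Total3_L B hp hc E s hs r hq hk φ ρ hρ0 hρ L,
    ← Finset.mul_sum, ENNReal.ofReal_sum_of_nonneg]
  intro L _
  have hu1 : 2 ≤ wl B L + cN B * (p - 1) := by
    have : cN B * 1 ≤ cN B * (p - 1) := Nat.mul_le_mul_left _ (by omega)
    omega
  exact add_nonneg (mul_nonneg (zpow_pos hs0 _).le (Z1_nonneg p _ hu1 s hs))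
    (mul_nonneg (zpow_pos hs0 _).le (Z3_nonneg (p := p) hp _ _ hc s hs))

/-- the total sum, as a function of `s` -/
noncomputable def Tot (E : ℕ → ℤ) (s : ℝ) : ℝ :=
  (s ^ E 0 + s ^ E (cN B * p) * Z1 p (cN B * p) s) +
  (∑ L : Line p,
    (s ^ E (wl B L + cN B * (p - 1)) * Z1 p (wl B L + cN B * (p - 1)) s +
      s ^ E (wl B L + cN B * p) * Z3 p (wl B L) (cN B) s)) +
  s ^ E (tw (w4 B) + cN B * p) * Z4 p (cN B) (w4 B) s

private theorem Total1_not_indep (t : Tor p F) (h1 : t.1 = 0) (h2 : t.2.1 = 0) :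
    ¬ Indep t := by
  intro h
  have hne : ((1, 0) : ZMod p × ZMod p) ≠ 0 := by
    intro h0
    exact one_ne_zero (congrArg Prod.fst h0)
  apply h _ hne
  unfold lin
  rw [h1, h2, smul_zero, smul_zero, add_zero]

open Classical in
private theorem Total1_split (r : ℕ) (f : Tor p F → ℝ≥0∞) :
    ∑' t : {t : Tor p F // StT r t}, f t.1 =
      ∑' t : {t : Tor p F // StT r t ∧ t.1 = 0 ∧ t.2.1 = 0}, f t.1 +
      ∑' t : {t : Tor p F // StT r t ∧ ¬Indep t ∧ ¬(t.1 = 0 ∧ t.2.1 = 0)}, f t.1 +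
      ∑' t : {t : Tor p F // StT r t ∧ Indep t}, f t.1 := by
  have h1 := tsum_subtype {t : Tor p F | StT r t} f
  have h2 := tsum_subtype {t : Tor p F | StT r t ∧ t.1 = 0 ∧ t.2.1 = 0} f
  have h3 := tsum_subtype {t : Tor p F | StT r t ∧ ¬Indep t ∧ ¬(t.1 = 0 ∧ t.2.1 = 0)} f
  have h4 := tsum_subtype {t : Tor p F | StT r t ∧ Indep t} f
  refine h1.trans ?_
  refine Eq.trans ?_ (congrArg₂ (· + ·) (congrArg₂ (· + ·) h2 h3) h4).symm
  change _ = _ + _ + _
  rw [← ENNReal.tsum_add, ← ENNReal.tsum_add]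
  refine tsum_congr fun t => ?_
  simp only [Set.indicator_apply, Set.mem_setOf_eq]
  by_cases hS : StT r t
  · by_cases hz : t.1 = 0 ∧ t.2.1 = 0
    · have hni := Total1_not_indep t hz.1 hz.2
      simp [hS, hz, hni]
    · by_cases hi : Indep t
      · simp [hS, hz, hi]
      · simp [hS, hz, hi]
  · simp [hS]

private theorem Total1_div {ι : Type*} (f : ι → ℝ≥0∞) (n : ℝ≥0∞) (h0 : n ≠ 0) (h1 : n ≠ ⊤)
    (x : ℝ≥0∞) (h : ∑' i, f i = n * x) : ∑' i, f i / n = x := by
  simp only [div_eq_mul_inv]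
  rw [ENNReal.tsum_mul_right, h, mul_comm n x, mul_assoc, ENNReal.mul_inv_cancel h0 h1, mul_one]

private theorem Total1_Z4 (hp : 3 ≤ p) (c : ℕ) (hc : 2 ≤ c) (w : Line p → ℕ) (s : ℝ) (hs : 1 < s)
    (r : ℕ) (hr : 0 < r) (hq : s ^ 2 = (p : ℝ) ^ r) : 0 ≤ Z4 p c w s := by
  have h3 : (p : ℝ) ≤ s ^ (2 : ℤ) := by
    have e1 : s ^ (2 : ℤ) = s ^ 2 := by norm_cast
    rw [e1, hq]
    have e2 : p ≤ p ^ r := Nat.le_self_pow hr.ne' p
    exact_mod_cast e2
  have h4 : (1 : ℝ) ≤ s ^ (2 : ℤ) := one_le_zpow₀ hs.le (by norm_num)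
  unfold Z4
  refine add_nonneg (Finset.sum_nonneg fun l _ => Zc_nonneg hp c hc _ _ s hs) ?_
  exact mul_nonneg (mul_nonneg (by linarith) (inv_nonneg.2 (by linarith)))
    (Zd_nonneg hp c hc _ s hs)

theorem total (hp : 3 ≤ p) (hc : 2 ≤ cN B) (E : ℕ → ℤ) (s : ℝ) (hs : 1 < s) (r : ℕ)
    (hr : 0 < r) (hq : s ^ 2 = (p : ℝ) ^ r) (hk : Fintype.card k = p ^ r) (φ : k →+* F) :
    ∑' x : {x : Delta p F // Stable r x}, WE B E s x.1.out = ENNReal.ofReal (Tot B E s) := by
  have hs0 : 0 < s := by linarith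
  have hp0 : 0 < p := (Fact.out : p.Prime).pos
  have hpne : (p : ℝ≥0∞) ≠ 0 := by exact_mod_cast hp0.ne'
  have hpt : (p : ℝ≥0∞) ≠ ⊤ := ENNReal.natCast_ne_top p
  have hW : ∀ t t' : Tor p F, (isoS p F).r t t' → WE B E s t = WE B E s t' := by
    intro t t' h
    obtain ⟨h1, h2⟩ := iso_cV B (by omega) t t' h
    unfold WE
    rw [h1, h2]
  rw [sum_stable r (WE B E s) hW, Total1_split r (fun t => WE B E s t / (orbN t : ℝ≥0∞))]
  have g0 : ∑' t : {t : Tor p F // StT r t ∧ t.1 = 0 ∧ t.2.1 = 0},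
      WE B E s t.1 / (orbN t.1 : ℝ≥0∞) =
      ENNReal.ofReal (s ^ E 0 + s ^ E (cN B * p) * Z1 p (cN B * p) s) := by
    rw [← part_zero B hc E s hs r hr hq hk φ]
    refine tsum_congr fun t => ?_
    have h1 : orbN t.1 = 1 := by
      unfold orbN
      rw [if_neg (Total1_not_indep t.1 t.2.2.1 t.2.2.2), if_pos t.2.2]
    rw [h1, Nat.cast_one, div_one]
  have g1 : ∑' t : {t : Tor p F // StT r t ∧ ¬Indep t ∧ ¬(t.1 = 0 ∧ t.2.1 = 0)},
      WE B E s t.1 / (orbN t.1 : ℝ≥0∞) =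
      ENNReal.ofReal (∑ L : Line p,
        (s ^ E (wl B L + cN B * (p - 1)) * Z1 p (wl B L + cN B * (p - 1)) s +
          s ^ E (wl B L + cN B * p) * Z3 p (wl B L) (cN B) s)) := by
    refine Eq.trans (tsum_congr fun t => ?_)
      (Total1_div _ (p : ℝ≥0∞) hpne hpt _ (part_dep B hp hc E s hs r hr hq hk φ))
    have h1 : orbN t.1 = p := by
      unfold orbN
      rw [if_neg t.2.2.1, if_neg t.2.2.2]
    rw [h1]
  have g2 : ∑' t : {t : Tor p F // StT r t ∧ Indep t},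
      WE B E s t.1 / (orbN t.1 : ℝ≥0∞) =
      ENNReal.ofReal (s ^ E (tw (w4 B) + cN B * p) * Z4 p (cN B) (w4 B) s) := by
    refine Eq.trans (tsum_congr fun t => ?_)
      (Total1_div _ ((p : ℝ≥0∞) ^ 2) (pow_ne_zero _ hpne) (ENNReal.pow_ne_top hpt) _
        (part_ind B hp hc E s hs r hr hq hk φ))
    have h1 : orbN t.1 = p ^ 2 := by
      unfold orbN
      rw [if_pos t.2.2]
    rw [h1]
    push_cast
    rfl
  have n0 : 0 ≤ s ^ E 0 + s ^ E (cN B * p) * Z1 p (cN B * p) s := by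
    refine add_nonneg (zpow_nonneg hs0.le _) (mul_nonneg (zpow_nonneg hs0.le _)
      (Z1_nonneg p _ ?_ s hs))
    have := Total1_two B hc hp0 0
    omega
  have n1 : 0 ≤ ∑ L : Line p,
      (s ^ E (wl B L + cN B * (p - 1)) * Z1 p (wl B L + cN B * (p - 1)) s +
        s ^ E (wl B L + cN B * p) * Z3 p (wl B L) (cN B) s) := by
    refine Finset.sum_nonneg fun L _ => add_nonneg
      (mul_nonneg (zpow_nonneg hs0.le _) (Z1_nonneg p _ ?_ s hs))
      (mul_nonneg (zpow_nonneg hs0.le _) (Z3_nonneg hp _ _ hc s hs))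
    exact Total1_two B hc (by omega) _
  have n2 : 0 ≤ s ^ E (tw (w4 B) + cN B * p) * Z4 p (cN B) (w4 B) s :=
    mul_nonneg (zpow_nonneg hs0.le _) (Total1_Z4 hp _ hc _ s hs r hr hq)
  rw [g0, g1, g2, ← ENNReal.ofReal_add n0 n1, ← ENNReal.ofReal_add (add_nonneg n0 n1) n2]
  rfl

end Pool.Agent.Helper10.HS
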