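import Pool.Agent.Helper10.HS.SumA
import Pool.Agent.Helper10.HS.SumB
import Pool.Agent.Helper10.HS.Dl
import Pool.Agent.Helper10.HS.Per
import Pool.Agent.Helper10.HS.Jd

/-!
# Project HS, piece Zdual: the sums are self-dual

`Dual Z Z` follows from `DD Z` (file Dl) and `Z s⁻¹ = Z s` for `s > 1` (`Dual.congr`).

`Z1_inv`: `S1_neg` with `X = s ^ ex p u 0`, `F a = Af p s⁻¹ a * (s⁻¹) ^ (-(u a))`, and `Af_neg`: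
for `1 ≤ i < p`, `F (-i) = -(Af p s i * s ^ (-(u i)))`.

`cone1` (algebra only): `S2_neg`, then `F' (-i) (-j) = F i j` for `1 ≤ i, j < p`, then `S2'_eq`.

`cone2`: `S2_neg` for both; by `hasSum_S2'` the sum of the two `S2'` is the sum of
`F₁' (-a) (-b) + F₂' (-a) (-b) = F₁ a b + F₂ a b` over `a ≥ b`, that is
`S2' F₁ + S2' F₂`; then `S2'_eq`. The same for `ray2` with `S1_neg`, `hasSum_S1`.

`Zc_inv` is `cone2` for `Cf p u v (Ja p c) s⁻¹`, `Cf p u v (Jb p c) s⁻¹` (`Cf_per1`, `Cf_per2`,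
`Cf_neg`, `J_dual`; multipliers `s ^ ex …`, `< 1` for `s > 1` since the exponents are negative by
`3 ≤ p`, `2 ≤ c`), the diagonal terms do not depend on `u`, `v` but only on `u + v`:
`Cf p u v J s a a = Cf p (u + v) 0 J s a a`. `Zd_inv` is `ray2`.
-/

namespace Pool.Agent.Helper10.HS

open Pool.Agent.WD

/-- the finite sums only depend on the values at `1, …, p - 1` -/
private theorem Zdual_S1_congr (p : ℕ) (F G : ℤ → ℝ) (X : ℝ)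
    (h : ∀ a, ¬(p : ℤ) ∣ a → F a = G a) : S1 p F X = S1 p G X := by
  unfold S1
  congr 1
  refine Finset.sum_congr rfl fun i hi => h i fun hd => ?_
  rw [Finset.mem_Ico] at hi
  have := Int.le_of_dvd (by omega) hd
  omega

private theorem Zdual_S2'_congr (p : ℕ) (F G : ℤ → ℤ → ℝ) (X Y : ℝ)
    (h : ∀ a b, ¬(p : ℤ) ∣ a → ¬(p : ℤ) ∣ b → F a b = G a b) : S2' p F X Y = S2' p G X Y := by
  unfold S2'
  congr 2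
  have h1 : ∀ i ∈ Finset.Ico (1 : ℤ) p, ¬(p : ℤ) ∣ i := by
    intro i hi hd
    rw [Finset.mem_Ico] at hi
    have := Int.le_of_dvd (by omega) hd
    omega
  refine Finset.sum_congr rfl fun i hi => Finset.sum_congr rfl fun j hj => ?_
  rw [h i j (h1 i hi) (h1 j hj)]

private theorem Zdual_S1_neg (p : ℕ) (F : ℤ → ℝ) (X : ℝ) :
    S1 p (fun a => -F a) X = -S1 p F X := by
  unfold S1
  rw [Finset.sum_neg_distrib, neg_mul]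

private theorem Zdual_refl {c x : ℝ} {X : ℝ} (hX : X ≠ 0) (h : c = x * X⁻¹) : x = c * X := by
  rw [h, mul_assoc, inv_mul_cancel₀ hX, mul_one]

theorem Z1_inv (p u : ℕ) [Fact p.Prime] (hu : 2 ≤ u) {s : ℝ} (hs : 1 < s) :
    Z1 p u s⁻¹ = Z1 p u s := by
  have hs0 : (0 : ℝ) < s := by linarith
  have hsne : s ≠ 0 := hs0.ne'
  have hi0 : (0 : ℝ) < s⁻¹ := inv_pos.mpr hs0
  have hp2 : 2 ≤ p := (Fact.out : p.Prime).two_le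
  set X : ℝ := s ^ ex p u 0 with hX
  have hXpos : 0 < X := zpow_pos hs0 _
  have hXi : (s⁻¹) ^ ex p u 0 = X⁻¹ := by rw [inv_zpow]
  have hex : ex p u 0 < 0 := by
    unfold ex
    have h1 : (2 : ℤ) ≤ u := by exact_mod_cast hu
    have h2 : (2 : ℤ) ≤ p := by exact_mod_cast hp2
    nlinarith
  have hX1 : X < 1 := zpow_lt_one_of_neg₀ hs hex
  unfold Z1
  rw [hXi, S1_neg p (fun a => Af p s⁻¹ a * (s⁻¹) ^ (-(u * a : ℤ))) X hXpos.ne' hX1.ne]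
  · have h1 : ∀ a : ℤ, ¬(p : ℤ) ∣ a → Af p s⁻¹ (-a) * (s⁻¹) ^ (-(u * (-a) : ℤ)) =
        -(Af p s a * s ^ (-(u * a : ℤ))) := by
      intro a ha
      rw [Af_neg p hs0 a ha, inv_zpow', neg_neg, mul_neg, neg_mul]
    rw [Zdual_S1_congr p _ (fun a => -(Af p s a * s ^ (-(u * a : ℤ)))) X h1, Zdual_S1_neg, neg_neg]
  · intro a
    show Af p s⁻¹ (a + p) * (s⁻¹) ^ (-(u * (a + p) : ℤ)) = _
    rw [Af_per p hi0 a, ← hXi]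
    have h2 : ex p u 0 = 2 * (p - 1 : ℤ) + (-(u * (p : ℤ))) := by
      unfold ex
      ring
    have h3 : (-(u * (a + p) : ℤ)) = -(u * a : ℤ) + (-(u * (p : ℤ))) := by ring
    rw [h2, h3, zpow_add₀ hi0.ne', zpow_add₀ hi0.ne']
    ring


theorem cone1 (p : ℕ) (F' F : ℤ → ℤ → ℝ) (X Y : ℝ) (hX0 : X ≠ 0) (hY0 : Y ≠ 0)
    (hX1 : X ≠ 1) (hXY : X * Y ≠ 1) (hX : ∀ a b, F' (a + p) b = F' a b * X⁻¹)
    (hY : ∀ a b, F' a (b + p) = F' a b * Y⁻¹)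
    (h : ∀ a b, ¬(p : ℤ) ∣ a → ¬(p : ℤ) ∣ b → F' (-a) (-b) = F a b) :
    S2 p F' X⁻¹ Y⁻¹ = S2 p F X Y + S1 p (fun a => F a a) (X * Y) := by
  rw [S2_neg p F' X Y hX0 hY0 hX1 hXY hX hY,
    Zdual_S2'_congr p (fun a b => F' (-a) (-b)) F X Y h, S2'_eq p F X Y hX1]

theorem cone2 (p : ℕ) (hp : 1 < p) (F₁' F₂' F₁ F₂ : ℤ → ℤ → ℝ) (X Y₁ Y₂ : ℝ) (hX0 : 0 < X)
    (hX1 : X < 1) (hY1 : 0 < Y₁) (hY2 : 0 < Y₂) (h1 : X * Y₁ < 1) (h2 : X * Y₂ < 1)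
    (hF1 : ∀ a b, F₁ (a + p) b = F₁ a b * X) (hF1' : ∀ a b, F₁ a (b + p) = F₁ a b * Y₁)
    (hF2 : ∀ a b, F₂ (a + p) b = F₂ a b * X) (hF2' : ∀ a b, F₂ a (b + p) = F₂ a b * Y₂)
    (hG1 : ∀ a b, F₁' (a + p) b = F₁' a b * X⁻¹) (hG1' : ∀ a b, F₁' a (b + p) = F₁' a b * Y₁⁻¹)
    (hG2 : ∀ a b, F₂' (a + p) b = F₂' a b * X⁻¹) (hG2' : ∀ a b, F₂' a (b + p) = F₂' a b * Y₂⁻¹)
    (h : ∀ a b, ¬(p : ℤ) ∣ a → ¬(p : ℤ) ∣ b →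
      F₁' (-a) (-b) + F₂' (-a) (-b) = F₁ a b + F₂ a b) :
    S2 p F₁' X⁻¹ Y₁⁻¹ + S2 p F₂' X⁻¹ Y₂⁻¹ = S2 p F₁ X Y₁ + S2 p F₂ X Y₂ +
      (S1 p (fun a => F₁ a a) (X * Y₁) + S1 p (fun a => F₂ a a) (X * Y₂)) := by
  rw [S2_neg p F₁' X Y₁ hX0.ne' hY1.ne' hX1.ne h1.ne hG1 hG1',
    S2_neg p F₂' X Y₂ hX0.ne' hY2.ne' hX1.ne h2.ne hG2 hG2']
  have sh : ∀ a : ℤ, -(a + p) + p = -a := fun a => by ring
  have a1 := hasSum_S2' p hp (fun a b => F₁' (-a) (-b)) X Y₁ hX0.le hX1 hY1.le h1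
    (fun a b => Zdual_refl hX0.ne' (by rw [← hG1, sh])) (fun a b => Zdual_refl hY1.ne' (by
      rw [← hG1', sh]))
  have a2 := hasSum_S2' p hp (fun a b => F₂' (-a) (-b)) X Y₂ hX0.le hX1 hY2.le h2
    (fun a b => Zdual_refl hX0.ne' (by rw [← hG2, sh])) (fun a b => Zdual_refl hY2.ne' (by
      rw [← hG2', sh]))
  have b1 := hasSum_S2' p hp F₁ X Y₁ hX0.le hX1 hY1.le h1 hF1 hF1'
  have b2 := hasSum_S2' p hp F₂ X Y₂ hX0.le hX1 hY2.le h2 hF2 hF2'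
  have a3 := a1.add a2
  have b3 := b1.add b2
  have e : (fun x : {x : ℕ × ℕ // ¬p ∣ x.1 ∧ ¬p ∣ x.2 ∧ x.2 ≤ x.1} =>
      F₁' (-(x.1.1 : ℤ)) (-(x.1.2 : ℤ)) + F₂' (-(x.1.1 : ℤ)) (-(x.1.2 : ℤ))) =
      fun x => F₁ (x.1.1 : ℤ) (x.1.2 : ℤ) + F₂ (x.1.1 : ℤ) (x.1.2 : ℤ) := by
    funext x
    refine h _ _ (fun hd => x.2.1 ?_) (fun hd => x.2.2.1 ?_)
    · exact_mod_cast hd
    · exact_mod_cast hd
  have a4 : HasSum (fun x : {x : ℕ × ℕ // ¬p ∣ x.1 ∧ ¬p ∣ x.2 ∧ x.2 ≤ x.1} =>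
      F₁ (x.1.1 : ℤ) (x.1.2 : ℤ) + F₂ (x.1.1 : ℤ) (x.1.2 : ℤ))
      (S2' p (fun a b => F₁' (-a) (-b)) X Y₁ + S2' p (fun a b => F₂' (-a) (-b)) X Y₂) := by
    rw [← e]
    exact a3
  rw [a4.unique b3, S2'_eq p F₁ X Y₁ hX1.ne, S2'_eq p F₂ X Y₂ hX1.ne]
  ring

theorem ray2 (p : ℕ) (hp : 1 < p) (F₁' F₂' F₁ F₂ : ℤ → ℝ) (X₁ X₂ : ℝ) (hX1 : 0 < X₁)
    (hX1' : X₁ < 1) (hX2 : 0 < X₂) (hX2' : X₂ < 1)
    (hF1 : ∀ a, F₁ (a + p) = F₁ a * X₁) (hF2 : ∀ a, F₂ (a + p) = F₂ a * X₂)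
    (hG1 : ∀ a, F₁' (a + p) = F₁' a * X₁⁻¹) (hG2 : ∀ a, F₂' (a + p) = F₂' a * X₂⁻¹)
    (h : ∀ a, ¬(p : ℤ) ∣ a → F₁' (-a) + F₂' (-a) = F₁ a + F₂ a) :
    S1 p F₁' X₁⁻¹ + S1 p F₂' X₂⁻¹ = -(S1 p F₁ X₁ + S1 p F₂ X₂) := by
  rw [S1_neg p F₁' X₁ hX1.ne' hX1'.ne hG1, S1_neg p F₂' X₂ hX2.ne' hX2'.ne hG2]
  have sh : ∀ a : ℤ, -(a + p) + p = -a := fun a => by ring
  have a1 := hasSum_S1 p hp (fun a => F₁' (-a)) X₁ hX1.le hX1'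
    (fun a => Zdual_refl hX1.ne' (by rw [← hG1, sh]))
  have a2 := hasSum_S1 p hp (fun a => F₂' (-a)) X₂ hX2.le hX2'
    (fun a => Zdual_refl hX2.ne' (by rw [← hG2, sh]))
  have b3 := (hasSum_S1 p hp F₁ X₁ hX1.le hX1' hF1).add (hasSum_S1 p hp F₂ X₂ hX2.le hX2' hF2)
  have a3 := a1.add a2
  have e : (fun x : {a : ℕ // ¬p ∣ a} => F₁' (-(x.1 : ℤ)) + F₂' (-(x.1 : ℤ))) =
      fun x => F₁ (x.1 : ℤ) + F₂ (x.1 : ℤ) := by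
    funext x
    refine h _ (fun hd => x.2 ?_)
    exact_mod_cast hd
  have a4 : HasSum (fun x : {a : ℕ // ¬p ∣ a} => F₁ (x.1 : ℤ) + F₂ (x.1 : ℤ))
      (S1 p (fun a => F₁' (-a)) X₁ + S1 p (fun a => F₂' (-a)) X₂) := by
    rw [← e]
    exact a3
  have h5 := a4.unique b3
  linarith

end Pool.Agent.Helper10.HS
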